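import Pool.Agent.H.MP_83e36b_nt.nf.U5c

/-! Isotropic diagonal forms; the Hasse-Minkowski theorem for a number field, as a proposition. -/

set_option autoImplicit false

open NumberField IsDedekindDomain

namespace NF83

/-- the diagonal form with entries `d` is isotropic -/
def IsoF {K : Type*} [Field K] {n : ℕ} (d : Fin n → K) : Prop :=
  ∃ x : Fin n → K, x ≠ 0 ∧ ∑ i, d i * x i ^ 2 = 0

/-- the Hasse-Minkowski theorem for `k`: a diagonal form in at least four variables which is isotropic
over all completions is isotropic -/
def HMiso (k : Type) [Field k] [NumberField k] : Prop :=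
  ∀ (n : ℕ) (_ : 4 ≤ n) (d : Fin n → k) (_ : ∀ i, d i ≠ 0)
    (_ : ∀ v : InfinitePlace k, IsoF fun i => algebraMap k v.Completion (d i))
    (_ : ∀ v : HeightOneSpectrum (𝓞 k), IsoF fun i => algebraMap k (v.adicCompletion k) (d i)),
    IsoF d

end NF83
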