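import Pool.Agent.H.MP_83e36b_nt.hm.MFive
import Pool.Agent.H.MP_83e36b_nt.hm.HMDef

/-!
# MP_83e36b_nt, hm/MFinB: isotropic forms in at least four variables, from the Hasse norm theorem
-/

set_option autoImplicit false

open NumberField IsDedekindDomain

namespace NF83

theorem hm_iso (hN : HNorm) (k : Type) [Field k] [NumberField k] : HMiso k := by
  intro n hn d hd h1 h2
  obtain ⟨m, rfl⟩ : ∃ m, n = m + 4 := ⟨n - 4, by omega⟩
  exact hm_five hN m d hd ⟨h1, h2⟩

end NF83
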