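import Pool.Agent.H.MP_83e36b_nt.hm.MFin
import Pool.Agent.H.MP_83e36b_nt.hm.MFinB
import Pool.Agent.H.MP_83e36b_nt.hn.HFin

/-!
# MP_83e36b_nt, hm/MBr: the theorem of Hasse and Minkowski for number fields
-/

set_option autoImplicit false

open NumberField IsDedekindDomain

namespace NF83

theorem hNorm : HNorm := by
  intro k _ _ a b ha hb h
  obtain ⟨s, t, h1⟩ := HN83.hasse_norm (Units.mk0 a ha) (Units.mk0 b hb) (by
    rintro (v | v)
    · exact h.1 v
    · exact h.2 v)
  exact ⟨s, t, h1⟩

theorem sqLoc : SqLoc := by
  intro k _ _ a h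
  by_contra hn
  have ha : a ≠ 0 := by
    rintro rfl
    exact hn IsSquare.zero
  obtain ⟨v, -, hv⟩ := HN83.first_ineq (Units.mk0 a ha) hn ∅ Set.finite_empty
  exact hv (h.2 v)

/-- the theorem of Hasse and Minkowski for the Witt group of a number field -/
theorem hMink_nf (k : Type) [Field k] [NumberField k] : HMink k := hMink hNorm sqLoc k

/-- the theorem of Hasse and Minkowski for isotropic forms in at least four variables -/
theorem hMiso_nf (k : Type) [Field k] [NumberField k] : HMiso k := hm_iso hNorm k

end NF83
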