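import Pool.Agent.H.MP_83e36b_nt.rg.ZG

/-! Weak approximation for polynomials with a given class of forms, at all places. -/

set_option autoImplicit false

open Topology Matrix Polynomial SpinWA

namespace NF83

/-- weak approximation, at all the places of the system, for the polynomials `g` with `cf g 0 = c t²` and a
given class of forms -/
def StarU (kk : Type) [Field kk] [PlSys kk] (m e : ℕ) (c : kk) (R : WG kk) : Prop :=
  ∀ (g : ∀ v : Pk kk, Fin m → Cp v) (τ : ∀ v : Pk kk, Cp v)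
    (_ : ∀ v, (hk (g v)).det ≠ 0) (_ : ∀ v, τ v ≠ 0)
    (_ : ∀ v, cf (g v) 0 = em v c * τ v ^ 2)
    (_ : ∀ v, e • cl 1 + cls ((2 : Cp v) • hk (g v)) + cls ((-2 : Cp v) • hk1 (g v)) =
      WG.map (em v) R)
    (U : ∀ v : Pk kk, Set (Fin m → Cp v)) (_ : ∀ v, U v ∈ 𝓝 (g v))
    (W : ∀ v : Pk kk, Set (Cp v)) (_ : ∀ v, W v ∈ 𝓝 (τ v)),
    ∃ (G : Fin m → kk) (t : kk), (hk G).det ≠ 0 ∧ t ≠ 0 ∧ cf G 0 = c * t ^ 2 ∧
      e • cl 1 + cls ((2 : kk) • hk G) + cls ((-2 : kk) • hk1 G) = R ∧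
      ∀ v, (fun i => em v (G i)) ∈ U v ∧ em v t ∈ W v

end NF83
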