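import Pool.Agent.H.MP_83e36b_nt.hm.StQa
import Pool.Agent.H.MP_83e36b_nt.hm.SU
import Pool.Agent.H.MP_83e36b_nt.nf.U5c

/-! Weak approximation for the polynomials with the class of a form in `2 m + e` variables. -/

set_option autoImplicit false

open Topology Matrix NumberField IsDedekindDomain AnWA SpinWA DC83 WA83

namespace NF83

variable {k : Type} [Field k] [NumberField k]

/-- the local solvability at the finite places -/
theorem locSol_adic (v : HeightOneSpectrum (𝓞 k)) {m e : ℕ} (hm : 2 ≤ m) (he : e ≤ 1)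
    {Q : Matrix (Fin (2 * m + e)) (Fin (2 * m + e)) k} (hQ : Qᵀ = Q) (hd : Q.det ≠ 0) :
    LocSol (v.adicCompletion k) m e (algebraMap k (v.adicCompletion k) Q.det)
      (WG.map (algebraMap k (v.adicCompletion k)) (cls Q)) := by
  haveI : CompleteSpace (v.adicCompletion k) :=
    complete_compl {v} (Sum.inr ⟨v, Finset.mem_singleton_self v⟩)
  letI : NontriviallyNormedField (v.adicCompletion k) :=
    { (inferInstance : NormedField (v.adicCompletion k)) with
      non_trivial := exists_one_lt_norm {v} (Sum.inr ⟨v, Finset.mem_singleton_self v⟩) }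
  haveI : CharZero (v.adicCompletion k) :=
    charZero_of_injective_algebraMap (algebraMap k (v.adicCompletion k)).injective
  have hu : U5 (v.adicCompletion k) := u5_adic v
  have h1 : (Q.map (algebraMap k (v.adicCompletion k))).det =
      algebraMap k (v.adicCompletion k) Q.det := (RingHom.map_det _ _).symm
  have h2 := locSol_u5 hu hm he (Q := Q.map (algebraMap k (v.adicCompletion k)))
    (by rw [← Matrix.transpose_map, hQ])
    (by rw [h1]; exact (_root_.map_ne_zero _).2 hd)
  rw [map_cls two_ne_zero two_ne_zero _ hQ hd, ← h1]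
  exact h2

theorem star_nf (hHM : HMiso k) (T : Finset (HeightOneSpectrum (𝓞 k))) {m e : ℕ} (hm : 2 ≤ m)
    (he : e ≤ 1) {Q : Matrix (Fin (2 * m + e)) (Fin (2 * m + e)) k} (hQ : Qᵀ = Q)
    (hd : Q.det ≠ 0) : @StarU k _ (plSys k T) m e Q.det (cls Q) := by
  letI iP : PlSys k := plSys k T
  intro g τ h1 h2 h3 h4 U hU W hW
  obtain ⟨d, hd0, hcong⟩ := exists_diag two_ne_zero hQ hd
  have hcl := cls_eq_sum two_ne_zero hd0 hcong
  obtain ⟨s, hs, hds⟩ := hcong.det
  rw [det_diagonal] at hds
  have hfi' : (Set.univ : Set (InfinitePlace k ⊕ {v // v ∈ T})).Finite := Set.finite_univ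
  have hinf : ∀ v : InfinitePlace k, LocSol v.Completion m e (algebraMap k v.Completion Q.det)
      (WG.map (algebraMap k v.Completion) (∑ j, cl (d j))) := by
    intro v
    refine ⟨g (Sum.inl v), τ (Sum.inl v), h1 _, h2 _, h3 (Sum.inl v), ?_⟩
    rw [← hcl]
    exact h4 (Sum.inl v)
  have hfin : ∀ v : HeightOneSpectrum (𝓞 k),
      LocSol (v.adicCompletion k) m e (algebraMap k (v.adicCompletion k) Q.det)
        (WG.map (algebraMap k (v.adicCompletion k)) (∑ j, cl (d j))) := by
    intro v
    rw [← hcl]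
    exact locSol_adic v hm he hQ hd
  have key := starP_nf hHM hm hd d hd0 hs (by rw [hds]; ring) hinf hfin T
  rw [← hcl] at key
  obtain ⟨G, t, e1, e2, e3, e4, e5⟩ := key (hfi'.toFinset : Finset (Pk k))
    (hfi'.mem_toFinset.2 (Set.mem_univ _)) g τ (fun v _ => h1 v) (fun v _ => h2 v)
    (fun v _ => h3 v) (fun v _ => h4 v) U (fun v _ => hU v) W (fun v _ => hW v)
  exact ⟨G, t, e1, e2, e3, e4, fun v => e5 v (hfi'.mem_toFinset.2 (Set.mem_univ v))⟩

end NF83
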