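import Pool.Agent.H.MP_83e36b_nt.hm.KL
import Pool.Agent.H.MP_83e36b_nt.nf.Fin
import Pool.Agent.H.MP_83e36b_nt.td.Wit

/-! The existence of a global form with the dimension of the local forms. -/

set_option autoImplicit false

open Topology Matrix NumberField IsDedekindDomain AnWA SpinWA DC83

namespace NF83

/-- a class of a diagonal form with `n + 2 j` entries which is, at all places of the system, the class of
a form with `n ≥ 4` entries, is the class of a form with `n` entries -/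
def ExAll (kk : Type) [Field kk] [PlSys kk] : Prop :=
  ∀ (n j : ℕ) (_ : 4 ≤ n) (d : Fin (n + 2 * j) → kk) (_ : ∀ i, d i ≠ 0)
    (_ : ∀ v : Pk kk, ∃ a : Fin n → Cp v, (∀ i, a i ≠ 0) ∧
      WG.map (em v) (∑ i, cl (d i)) = ∑ i, cl (a i)),
    ∃ q : Fin n → kk, (∀ i, q i ≠ 0) ∧ ∑ i, cl (d i) = ∑ i, cl (q i)

private theorem ExN_alt {K : Type*} [Field K] (h2 : (2 : K) ≠ 0) (M : ℕ) :
    ∑ i ∈ Finset.range (2 * M), cl ((-1 : K) ^ i) = 0 := by
  induction M with
  | zero => simp
  | succ M ih =>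
    have h1 : 2 * (M + 1) = 2 * M + 1 + 1 := by ring
    rw [h1, Finset.sum_range_succ, Finset.sum_range_succ, ih, zero_add, pow_succ, pow_mul]
    rw [neg_one_sq, one_pow, one_mul]
    exact cl_neg h2 1

private theorem ExN_app {K : Type*} [Field K] {n m : ℕ} (a : Fin n → K) (b : Fin m → K) :
    ∑ i, cl (Fin.append a b i) = ∑ i, cl (a i) + ∑ i, cl (b i) := by
  rw [Fin.sum_univ_add]
  exact congrArg₂ (· + ·) (Finset.sum_congr rfl fun i _ => by rw [Fin.append_left])
    (Finset.sum_congr rfl fun i _ => by rw [Fin.append_right])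

theorem iso_of_more {K : Type*} [Field K] (h2 : (2 : K) ≠ 0) {n j : ℕ} (hj : 0 < j)
    {d : Fin (n + 2 * j) → K} {a : Fin n → K} (hd : ∀ i, d i ≠ 0) (ha : ∀ i, a i ≠ 0)
    (h : ∑ i, cl (d i) = ∑ i, cl (a i)) : IsoF d := by
  obtain ⟨j, rfl⟩ : ∃ i, j = i + 1 := ⟨j - 1, by omega⟩
  have h1 : ∑ i : Fin (2 * (j + 1)), cl ((-1 : K) ^ (i : ℕ)) = 0 := by
    rw [Fin.sum_univ_eq_sum_range (fun i => cl ((-1 : K) ^ i)) (2 * (j + 1))]
    exact ExN_alt h2 (j + 1)
  refine isoF_cong (diag_inj h2 hd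
    (d' := Fin.append a fun i : Fin (2 * (j + 1)) => (-1 : K) ^ (i : ℕ)) ?_ ?_) ?_
  · intro i
    refine Fin.addCases (fun k => ?_) (fun k => ?_) i
    · rw [Fin.append_left]
      exact ha k
    · rw [Fin.append_right]
      exact pow_ne_zero _ (neg_ne_zero.2 one_ne_zero)
  · rw [ExN_app, h1, add_zero, h]
  · have hc : 2 * (j + 1) = 2 * j + 1 + 1 := by ring
    refine ⟨Fin.append 0 fun i : Fin (2 * (j + 1)) => if (i : ℕ) ≤ 1 then 1 else 0, ?_, ?_⟩
    · intro h0
      have h3 := congrFun h0 (Fin.natAdd n ⟨0, by omega⟩)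
      rw [Fin.append_right] at h3
      simp at h3
    · rw [Fin.sum_univ_add]
      simp only [Fin.append_left, Fin.append_right, Pi.zero_apply]
      have e1 : ∑ x : Fin n, a x * (0 : K) ^ 2 = 0 :=
        Finset.sum_eq_zero fun i _ => by ring
      have e2 : ∑ x : Fin (2 * (j + 1)), (-1 : K) ^ (x : ℕ) * (if (x : ℕ) ≤ 1 then 1 else 0) ^ 2 =
          ∑ x ∈ Finset.range (2 * (j + 1)), (-1 : K) ^ x * (if x ≤ 1 then 1 else 0) ^ 2 :=
        Fin.sum_univ_eq_sum_range (fun x => (-1 : K) ^ x * (if x ≤ 1 then 1 else 0) ^ 2) _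
      rw [e1, e2, zero_add, hc, Finset.sum_range_succ', Finset.sum_range_succ']
      simp

theorem exN {k : Type} [Field k] [NumberField k] (hHM : HMiso k)
    (T : Finset (HeightOneSpectrum (𝓞 k))) : @ExAll k _ (plSys k T) := by
  letI iP : PlSys k := plSys k T
  intro n j hn d hd hloc
  induction j with
  | zero => exact ⟨d, hd, rfl⟩
  | succ j ih =>
    have h1 : IsoF d := by
      refine hHM (n + 2 * (j + 1)) (by omega) d hd (fun v => ?_) fun v => ?_
      · obtain ⟨a, ha, hcl⟩ := hloc (Sum.inl v)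
        have h2 : (2 : v.Completion) ≠ 0 := by
          rw [← map_ofNat (algebraMap k v.Completion) 2]
          exact (_root_.map_ne_zero _).2 two_ne_zero
        have hcl' : WG.map (algebraMap k v.Completion) (∑ i, cl (d i)) =
          ∑ i, cl (K := v.Completion) (a i) := hcl
        refine iso_of_more (n := n) (j := j + 1) h2 (Nat.succ_pos j)
          (fun i => (_root_.map_ne_zero _).2 (hd i)) ha ?_
        refine Eq.trans ?_ hcl'
        rw [map_sum]
        exact Finset.sum_congr rfl fun i _ => (WG.map_cl _ (d i)).symm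
      · have hc : CompleteSpace (v.adicCompletion k) :=
          WA83.complete_compl {v} (Sum.inr ⟨v, Finset.mem_singleton_self v⟩)
        exact u5_iso (u5_adic v) (by omega) _ fun i => (_root_.map_ne_zero _).2 (hd i)
    obtain ⟨d', s, hd', hs, h2, h3⟩ := iso_red (n := n + 2 * j) two_ne_zero hd h1
    have h4 : ∑ i : Fin (n + 2 * (j + 1)), cl (d i) = ∑ i, cl (d' i) := h2
    rw [h4]
    rw [h4] at hloc
    exact ih d' hd' hloc

end NF83
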