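import Mathlib

/-!
# The index identity for an abelian group with an involution
-/

set_option autoImplicit false

namespace NF83

variable {M : Type*} [CommGroup M]

/-- `m ↦ m * s m` -/
def nrm (s : M →* M) : M →* M := MonoidHom.id M * s

/-- `m ↦ m / s m` -/
def dif (s : M →* M) : M →* M := MonoidHom.id M / s

theorem nrm_apply (s : M →* M) (m : M) : nrm s m = m * s m := rfl

theorem dif_apply (s : M →* M) (m : M) : dif s m = m / s m := rfl

theorem mem_dif_ker {s : M →* M} {m : M} : m ∈ (dif s).ker ↔ s m = m := by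
  rw [MonoidHom.mem_ker, dif_apply, div_eq_one]
  exact eq_comm

theorem mem_nrm_ker {s : M →* M} {m : M} : m ∈ (nrm s).ker ↔ m * s m = 1 := Iff.rfl

/-- `[M⁺ : N M] [M⁻ : 2 M⁻] = [M⁻ : (1 - s) M] [M⁺ : 2 M⁺]`, with `M⁺ = ker (1 - s)` and
`M⁻ = ker N`. -/
theorem ix {s : M →* M} (hs : ∀ m, s (s m) = m) :
    (nrm s).range.relIndex (dif s).ker * ((nrm s).ker.map (powMonoidHom 2)).relIndex (nrm s).ker =
      (dif s).range.relIndex (nrm s).ker *
        ((dif s).ker.map (powMonoidHom 2)).relIndex (dif s).ker := by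
  have e1 : (dif s).ker.map (powMonoidHom 2) = (dif s).ker.map (nrm s) := by
    ext y
    constructor
    · rintro ⟨m, hm, rfl⟩
      refine ⟨m, hm, ?_⟩
      rw [nrm_apply, mem_dif_ker.1 hm, powMonoidHom_apply, sq]
    · rintro ⟨m, hm, rfl⟩
      refine ⟨m, hm, ?_⟩
      rw [nrm_apply, mem_dif_ker.1 hm, powMonoidHom_apply, sq]
  have e2 : (nrm s).ker.map (powMonoidHom 2) = (nrm s).ker.map (dif s) := by
    have h : ∀ m, m ∈ (nrm s).ker → dif s m = m ^ 2 := by
      intro m hm
      rw [dif_apply, eq_inv_of_mul_eq_one_right (mem_nrm_ker.1 hm), div_inv_eq_mul, sq]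
    ext y
    constructor
    · rintro ⟨m, hm, rfl⟩
      exact ⟨m, hm, h m hm⟩
    · rintro ⟨m, hm, rfl⟩
      exact ⟨m, hm, (h m hm).symm⟩
  have l1 : (nrm s).range ≤ (dif s).ker := by
    rintro _ ⟨m, rfl⟩
    rw [mem_dif_ker, nrm_apply, map_mul, hs, mul_comm]
  have l2 : (dif s).range ≤ (nrm s).ker := by
    rintro _ ⟨m, rfl⟩
    rw [mem_nrm_ker, dif_apply, map_div, hs, div_mul_div_comm, mul_comm, div_self']
  have c1 : ((dif s).ker.map (nrm s)).relIndex (nrm s).range = ((dif s).ker ⊔ (nrm s).ker).index := by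
    rw [MonoidHom.range_eq_map, Subgroup.relIndex_map_map, top_sup_eq, Subgroup.relIndex_top_right]
  have c2 : ((nrm s).ker.map (dif s)).relIndex (dif s).range = ((dif s).ker ⊔ (nrm s).ker).index := by
    rw [MonoidHom.range_eq_map, Subgroup.relIndex_map_map, top_sup_eq, Subgroup.relIndex_top_right,
      sup_comm]
  have f1 := Subgroup.relIndex_mul_relIndex ((dif s).ker.map (nrm s)) (nrm s).range (dif s).ker
    (Subgroup.map_le_range _ _) l1
  have f2 := Subgroup.relIndex_mul_relIndex ((nrm s).ker.map (dif s)) (dif s).range (nrm s).ker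
    (Subgroup.map_le_range _ _) l2
  rw [e1, e2, ← f1, ← f2, c1, c2]
  ring

end NF83
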