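import Pool.Agent.H.MP_83e36b_nt.hm.KU
import Pool.Agent.H.MP_83e36b_nt.sp.KScale
import Pool.Agent.H.MP_83e36b_nt.sp.KCore

/-! The class of an integral polynomial at a good nondyadic place.

PROOF (compare sp/KResG.lean). `m = n + 1` is even. Lift `G` to `O`. `cf G 0 = G 0`;
`det (hk1 G) = (-1)^m G 0 det (hk G) = G 0 dM G` (`det_hk1`).
`coreF c 1 G = cl 2 + cl (2 c G 0) + cls (2 • hk G) + cls ((-2 * 1) • hk1 G)`.
Case `‖dM G‖ = 1`: `2 • hk G`, `(-2) • hk1 G` are integral with determinants `2^m dM G`,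
`2^m G 0 dM G` of norm 1: by `NDat.diag` the class is a sum of `2 m + 2` classes of units, with product
`2 (2 c G 0) (2^m dM) (2^m G 0 dM) □ = c □`. Subtract `∑ cl (r i)`, i.e. add `∑ cl (- r i)` (`cl_neg`): `(2 m + 2) +
(2 m + 2 + 2 e)` units with product `c (-1)^e c □ = (-1)^(2 m + 2 + e) □` (`m` even): 0 by
`NDat.sum_zero` (use `Fin.append`, `Fin.sum_univ_add`, `Fin.prod_univ_add` to combine the families; first a
version of `sum_zero` for an arbitrary finite index type of even cardinality may be convenient).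
Case `‖dA G‖ = ‖dB G‖ = 1`: `NDat.diag_minor`: the minors of `2 • hk G`, `(-2) • hk1 G` are `2^n dA G`,
`(-2)^n dB G`. The classes are sums of units and `cl (2^m dM 2^n dA) = cl (2 dM dA)`,
`cl (2^m G 0 dM (-2)^n dB) = cl (-(2 G 0 dM dB))` (`cl_mul_sq`). By `NDat.parity` either
`‖dM G‖ = ‖π‖ ‖s‖²` (second alternative of the conclusion) or `‖dM G‖ = ‖s‖²`: then `dM G = w s²`, `‖w‖ = 1`, and the two
classes are classes of the units `2 w dA`, `-(2 G 0 w dB)`; continue as in the first case.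
-/

set_option autoImplicit false

open SpinWA Matrix DC83

namespace NF83

variable {K : Type*} [NormedField K] [CompleteSpace K] [CharZero K] {O : Subring K} {κ : Type*}
  [Field κ] [Finite κ] {rd : O →+* κ} {π : K}

private theorem KG_transpose {R : Type*} [CommRing R] {n : ℕ} (c : R) (a : Fin n → R) :
    (c • hk a)ᵀ = c • hk a := by
  ext i j
  simp only [hk, Matrix.transpose_apply, Matrix.smul_apply, Matrix.of_apply, add_comm]

private theorem KG_transpose1 {R : Type*} [CommRing R] {n : ℕ} (c : R) (a : Fin n → R) :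
    (c • hk1 a)ᵀ = c • hk1 a := by
  ext i j
  simp only [hk1, Matrix.transpose_apply, Matrix.smul_apply, Matrix.of_apply,
    add_comm (i : ℕ) (j : ℕ)]

private theorem KG_cf {R : Type*} [CommRing R] {k : ℕ} (a : Fin (k + 1) → R) :
    cf a 0 = a 0 := by
  unfold cf
  rw [dif_pos (Nat.succ_pos k)]
  rfl

private theorem KG_det_smul {R : Type*} [CommRing R] {n : ℕ} (c : R)
    (A : Matrix (Fin n) (Fin n) R) : (c • A).det = c ^ n * A.det := by
  rw [Matrix.det_smul, Fintype.card_fin]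

private theorem KG_sub_smul {R : Type*} [CommRing R] {k : ℕ} (c : R)
    (A : Matrix (Fin (k + 1)) (Fin (k + 1)) R) :
    ((c • A).submatrix (Fin.castSucc : Fin k → Fin (k + 1)) Fin.castSucc).det =
      c ^ k * (A.submatrix (Fin.castSucc : Fin k → Fin (k + 1)) Fin.castSucc).det := by
  have h : (c • A).submatrix (Fin.castSucc : Fin k → Fin (k + 1)) Fin.castSucc =
      c • A.submatrix (Fin.castSucc : Fin k → Fin (k + 1)) Fin.castSucc := rfl
  rw [h, KG_det_smul]

private theorem KG_hk_map {R S : Type*} [CommRing R] [CommRing S] (φ : R →+* S) {n : ℕ} (c : R)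
    (G : Fin n → R) : (c • hk G).map φ = φ c • hk fun i => φ (G i) := by
  rw [← hk_map φ G]
  ext i j
  simp only [Matrix.map_apply, Matrix.smul_apply, smul_eq_mul, map_mul]

private theorem KG_hk1_map {R S : Type*} [CommRing R] [CommRing S] (φ : R →+* S) {n : ℕ} (c : R)
    (G : Fin n → R) : (c • hk1 G).map φ = φ c • hk1 fun i => φ (G i) := by
  rw [← hk1_map φ G]
  ext i j
  simp only [Matrix.map_apply, Matrix.smul_apply, smul_eq_mul, map_mul]

omit [CharZero K] in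
private theorem KG_sum (h : NDat O rd π) {ι : Type} [Fintype ι] (u : ι → K) {N L : ℕ}
    (hL : Fintype.card ι + N = 2 * L) (r : Fin N → K) (hu : ∀ i, ‖u i‖ = 1) (hr : ∀ i, ‖r i‖ = 1)
    {s : K} (hs : s ≠ 0) (hp : (∏ i, u i) * ∏ i, r i = (-1) ^ (L + N) * s ^ 2) :
    ∑ i, cl (u i) = ∑ i, cl (r i) := by
  have h1 := h.sum_eq hL (fun i => u ((Fintype.equivFin ι).symm i)) r (fun i => hu _) hr hs
    (by rw [Equiv.prod_comp (Fintype.equivFin ι).symm u]; exact hp)
  rw [← h1]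
  exact (Equiv.sum_comp (Fintype.equivFin ι).symm fun i => cl (u i)).symm

omit [CharZero K] in
private theorem KG_fin (h : NDat O rd π) {m : ℕ} {c g : K} (hc : ‖c‖ = 1) (hg : ‖g‖ = 1)
    (u v : Fin m → K) (hu : ∀ i, ‖u i‖ = 1) (hv : ∀ i, ‖v i‖ = 1) {q : K} (hq : q ≠ 0)
    (huv : (∏ i, u i) * ∏ i, v i = g * q ^ 2) {e : ℕ} (r : Fin (2 * m + 2 + 2 * e) → K)
    (hr : ∀ i, ‖r i‖ = 1) {s : K} (hs : s ≠ 0) (hrp : ∏ i, r i = (-1) ^ e * c * s ^ 2) :
    cl 2 + cl (2 * c * g) + ∑ i, cl (u i) + ∑ i, cl (v i) = ∑ i, cl (r i) := by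
  have h2 := h.norm_two
  have h20 := h.two_ne
  have hc0 : c ≠ 0 := norm_ne_zero_iff.mp (by rw [hc]; exact one_ne_zero)
  have hg0 : g ≠ 0 := norm_ne_zero_iff.mp (by rw [hg]; exact one_ne_zero)
  have hn : ∀ i, ‖Sum.elim (![2, 2 * c * g] : Fin 2 → K) (Sum.elim u v) i‖ = 1 := by
    rintro (i | i | i)
    · fin_cases i
      · exact h2
      · change ‖2 * c * g‖ = 1
        rw [norm_mul, norm_mul, h2, hc, hg, one_mul, one_mul]
    · exact hu i
    · exact hv i
  have hcard : Fintype.card (Fin 2 ⊕ (Fin m ⊕ Fin m)) + (2 * m + 2 + 2 * e) =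
      2 * (2 * m + 2 + e) := by
    rw [Fintype.card_sum, Fintype.card_sum, Fintype.card_fin, Fintype.card_fin]
    omega
  have h3 := KG_sum h (Sum.elim (![2, 2 * c * g] : Fin 2 → K) (Sum.elim u v)) hcard r hn hr
    (s := 2 * c * g * q * s)
    (mul_ne_zero (mul_ne_zero (mul_ne_zero (mul_ne_zero h20 hc0) hg0) hq) hs) (by
      rw [Fintype.prod_sum_type, Fintype.prod_sum_type, hrp]
      simp only [Sum.elim_inl, Sum.elim_inr, Fin.prod_univ_two, Matrix.cons_val_zero,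
        Matrix.cons_val_one]
      rw [huv, show 2 * m + 2 + e + (2 * m + 2 + 2 * e) = e + 2 * (2 * m + 2 + e) by ring, pow_add,
        pow_mul, neg_one_sq, one_pow]
      ring)
  rw [← h3, Fintype.sum_sum_type, Fintype.sum_sum_type]
  simp only [Sum.elim_inl, Sum.elim_inr, Fin.sum_univ_two, Matrix.cons_val_zero,
    Matrix.cons_val_one]
  rw [add_assoc, add_assoc]

theorem NDat.good (h : NDat O rd π) {n : ℕ} (hev : Even (n + 1)) {c : K} (hc : ‖c‖ = 1)
    (G : Fin (n + 1) → K) (h0 : ‖G 0‖ = 1) (hG : ∀ i, ‖G i‖ ≤ 1) (hM : dM G ≠ 0)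
    (hcase : ‖dM G‖ = 1 ∨ (‖dA G‖ = 1 ∧ ‖dB G‖ = 1)) {e : ℕ}
    (r : Fin (2 * (n + 1) + 2 + 2 * e) → K) (hr : ∀ i, ‖r i‖ = 1) {s : K} (hs : s ≠ 0)
    (hrp : ∏ i, r i = (-1) ^ e * c * s ^ 2) :
    coreF c 1 G = ∑ i, cl (r i) ∨ ∃ s' : K, s' ≠ 0 ∧ ‖dM G‖ = ‖π‖ * ‖s'‖ ^ 2 := by
  by_cases hpi : ∃ s' : K, s' ≠ 0 ∧ ‖dM G‖ = ‖π‖ * ‖s'‖ ^ 2
  · exact Or.inr hpi
  left
  have h2 := h.norm_two
  have h20 := h.two_ne
  have hsub : ∀ i, G i ∈ O := fun i => (h.mem _).mpr (hG i)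
  obtain ⟨G', hG'⟩ : ∃ G' : Fin (n + 1) → O, (fun i => O.subtype (G' i)) = G :=
    ⟨fun i => ⟨G i, hsub i⟩, rfl⟩
  have hG0 : G 0 ≠ 0 := norm_ne_zero_iff.mp (by rw [h0]; exact one_ne_zero)
  have e2 : O.subtype (2 : O) = 2 := map_ofNat _ _
  have em2 : O.subtype (-2 : O) = -2 := by rw [map_neg, e2]
  have hm2 : ‖(-2 : K)‖ = 1 := by rw [norm_neg, h2]
  have hm20 : (-2 : K) ≠ 0 := neg_ne_zero.mpr h20
  have t1 := KG_transpose (2 : O) G'
  have t2 := KG_transpose1 (-2 : O) G'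
  have m1 : ((2 : O) • hk G').map O.subtype = (2 : K) • hk G := by
    rw [KG_hk_map, hG', e2]
  have m2 : ((-2 : O) • hk1 G').map O.subtype = (-2 : K) • hk1 G := by
    rw [KG_hk1_map, hG', em2]
  have dM' : O.subtype (hk G').det = dM G := by
    have h3 := dM_map O.subtype G'
    rw [hG'] at h3
    exact h3
  have dA' : O.subtype ((hk G').submatrix (Fin.castSucc : Fin n → Fin (n + 1))
      Fin.castSucc).det = dA G := by
    have h3 := dA_map O.subtype G'
    rw [hG'] at h3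
    exact h3
  have dB' : O.subtype ((hk1 G').submatrix (Fin.castSucc : Fin n → Fin (n + 1))
      Fin.castSucc).det = dB G := by
    have h3 := dB_map O.subtype G'
    rw [hG'] at h3
    exact h3
  have dM1' : O.subtype (hk1 G').det = G 0 * dM G := by
    rw [hk1_det_map, hG', det_hk1, hev.neg_one_pow, one_mul, KG_cf]
    rfl
  have a1 : ((((2 : O) • hk G').det : O) : K) = 2 ^ (n + 1) * dM G := by
    change O.subtype _ = _
    rw [KG_det_smul, map_mul, map_pow, dM', e2]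
  have a2 : ((((-2 : O) • hk1 G').det : O) : K) = (-2) ^ (n + 1) * (G 0 * dM G) := by
    change O.subtype _ = _
    rw [KG_det_smul, map_mul, map_pow, dM1', em2]
  have b1 : (((((2 : O) • hk G').submatrix (Fin.castSucc : Fin n → Fin (n + 1))
      Fin.castSucc).det : O) : K) = 2 ^ n * dA G := by
    change O.subtype _ = _
    rw [KG_sub_smul, map_mul, map_pow, dA', e2]
  have b2 : (((((-2 : O) • hk1 G').submatrix (Fin.castSucc : Fin n → Fin (n + 1))
      Fin.castSucc).det : O) : K) = (-2) ^ n * dB G := by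
    change O.subtype _ = _
    rw [KG_sub_smul, map_mul, map_pow, dB', em2]
  have hcore : coreF c 1 G = cl 2 + cl (2 * c * G 0) + cls (((2 : O) • hk G').map O.subtype) +
      cls (((-2 : O) • hk1 G').map O.subtype) := by
    rw [m1, m2]
    unfold coreF
    rw [KG_cf, mul_one]
  rw [hcore]
  have hpow : ((-2 : K)) ^ (n + 1) = 2 ^ (n + 1) := hev.neg_pow 2
  rcases hcase with hu | ⟨hA, hB⟩
  · obtain ⟨u, s1, hu1, hs1, hc1, hp1⟩ := h.diag t1 (by
      rw [a1, norm_mul, norm_pow, h2, one_pow, one_mul, hu])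
    obtain ⟨v, s2, hv1, hs2, hc2, hp2⟩ := h.diag t2 (by
      rw [a2, norm_mul, norm_mul, norm_pow, hm2, one_pow, one_mul, h0, one_mul, hu])
    rw [hc1, hc2]
    refine KG_fin h hc h0 u v hu1 hv1 (q := 2 ^ (n + 1) * dM G * s1 * s2)
      (mul_ne_zero (mul_ne_zero (mul_ne_zero (pow_ne_zero _ h20) hM) hs1) hs2) ?_ r hr hs hrp
    rw [hp1, hp2, a1, a2, hpow]
    ring
  · obtain ⟨t, ht, hdt⟩ : ∃ t : K, t ≠ 0 ∧ ‖dM G‖ = ‖t‖ ^ 2 :=
      (h.parity hM).resolve_right hpi
    have ht2 : t ^ 2 ≠ 0 := pow_ne_zero _ ht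
    have htn : ‖t‖ ^ 2 ≠ 0 := pow_ne_zero _ (norm_ne_zero_iff.mpr ht)
    obtain ⟨w, hw⟩ : ∃ w : K, dM G = w * t ^ 2 := ⟨dM G / t ^ 2, by field_simp⟩
    have hwn : ‖w‖ = 1 := by
      rw [hw, norm_mul, norm_pow] at hdt
      exact mul_right_cancel₀ htn (by rw [hdt, one_mul])
    have hw0 : w ≠ 0 := norm_ne_zero_iff.mp (by rw [hwn]; exact one_ne_zero)
    have hA0 : dA G ≠ 0 := norm_ne_zero_iff.mp (by rw [hA]; exact one_ne_zero)
    have hB0 : dB G ≠ 0 := norm_ne_zero_iff.mp (by rw [hB]; exact one_ne_zero)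
    have c1 : ((2 : O) • hk G').det ≠ 0 := by
      intro h3
      rw [h3] at a1
      exact mul_ne_zero (pow_ne_zero _ h20) hM a1.symm
    have c2 : ((-2 : O) • hk1 G').det ≠ 0 := by
      intro h3
      rw [h3] at a2
      exact mul_ne_zero (pow_ne_zero _ hm20) (mul_ne_zero hG0 hM) a2.symm
    obtain ⟨u, s1, hu1, hs1, hc1, hp1⟩ := h.diag_minor t1 c1 (by
      rw [b1, norm_mul, norm_pow, h2, one_pow, one_mul, hA])
    obtain ⟨v, s2, hv1, hs2, hc2, hp2⟩ := h.diag_minor t2 c2 (by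
      rw [b2, norm_mul, norm_pow, hm2, one_pow, one_mul, hB])
    rw [a1, b1, show 2 ^ (n + 1) * dM G * (2 ^ n * dA G) = (2 * w * dA G) * (2 ^ n * t) ^ 2 by
      rw [hw]; ring, cl_mul_sq _ (mul_ne_zero (pow_ne_zero _ h20) ht)] at hc1
    rw [a2, b2, show (-2) ^ (n + 1) * (G 0 * dM G) * ((-2) ^ n * dB G) =
      (-2 * G 0 * w * dB G) * ((-2) ^ n * t) ^ 2 by
      rw [hw]; ring, cl_mul_sq _ (mul_ne_zero (pow_ne_zero _ hm20) ht)] at hc2
    have key := KG_fin h hc h0 (Fin.snoc u (2 * w * dA G) : Fin (n + 1) → K)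
      (Fin.snoc v (-2 * G 0 * w * dB G) : Fin (n + 1) → K) (fun i => by
        refine Fin.lastCases ?_ (fun j => ?_) i
        · rw [Fin.snoc_last, norm_mul, norm_mul, h2, hwn, hA, one_mul, one_mul]
        · rw [Fin.snoc_castSucc]
          exact hu1 j) (fun i => by
        refine Fin.lastCases ?_ (fun j => ?_) i
        · rw [Fin.snoc_last, norm_mul, norm_mul, norm_mul, hm2, h0, hwn, hB, one_mul, one_mul,
            one_mul]
        · rw [Fin.snoc_castSucc]
          exact hv1 j) (q := 2 ^ (n + 1) * dA G * dB G * w * s1 * s2)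
      (mul_ne_zero (mul_ne_zero (mul_ne_zero (mul_ne_zero (mul_ne_zero (pow_ne_zero _ h20) hA0)
        hB0) hw0) hs1) hs2) (by
        rw [Fin.prod_univ_castSucc, Fin.prod_univ_castSucc]
        simp only [Fin.snoc_castSucc, Fin.snoc_last]
        rw [hp1, hp2, b1, b2]
        have h3 : (-2 : K) ^ n * (-2) = 2 ^ n * 2 := by
          rw [← pow_succ, hpow, pow_succ]
        linear_combination (2 ^ n * dA G * s1 ^ 2 * (2 * w * dA G) * (dB G * s2 ^ 2) *
          (G 0 * w * dB G)) * h3) r hr hs hrp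
    rw [Fin.sum_univ_castSucc, Fin.sum_univ_castSucc] at key
    simp only [Fin.snoc_castSucc, Fin.snoc_last] at key
    rw [← key, hc1, hc2, ← add_assoc, ← add_assoc]

end NF83
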