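import Pool.Agent.H.MP_83e36b_nt.hm.KU
import Pool.Agent.H.MP_83e36b_nt.sp.KScale
import Pool.Agent.H.MP_83e36b_nt.sp.KMod
import Pool.Agent.H.MP_83e36b_nt.sp.KCore

/-! The class of a polynomial with a large coefficient at a nondyadic place.

PROOF (compare sp/KResT.lean, `res_T`, with `l = 1`). `m = n + 1` even, `π' = q²`, `Ĝ = scl (q²) G`. By the
hypotheses `Ĝ` is integral and its reduction is `lineP 0 (-θ) 0`, `θ = rd c ≠ 0`. By `lineP_mod` (sp/KMod;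
`(n : κ) ≠ 0`) and `dM_map`, `dB_map` for `rd` and for `O.subtype`: `dM Ĝ`, `dB Ĝ` are units and
`dM Ĝ dB Ĝ` has the reduction `θ t²`, `t ≠ 0`, so `dM Ĝ dB Ĝ = c ρ²` with `ρ ≠ 0` (`NDat.sq` for the
quotient by `c`). `cls (2 • hk G) = cls (2 • hk Ĝ)` (`cls_hk_scl`): by `NDat.diag` a sum of `m` units with
product `2^m dM Ĝ □`. `cls ((-2) • hk1 G) = cls ((-2) • hk1 Ĝ)` (`cls_hk1_scl`, the factor `q²` is a square,
`cls_smul_mul_sq`): by `NDat.diag_minor` a sum of `n` units with product `(-2)^n dB Ĝ □` and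
`cl (det ((-2) • hk1 Ĝ) (-2)^n dB Ĝ)`, `det (hk1 Ĝ) = Ĝ 0 dM Ĝ = q^(2 m) G 0 dM Ĝ`, so the last class is
`cl (-2 G 0 dM Ĝ dB Ĝ) = cl (-2 c G 0)`, which cancels `cl (2 c G 0)` (`cl_neg`). There remain
`1 + m + n = 2 m` units (2, the units of `2 • hk Ĝ`, `(-2) • hk1 Ĝ`) with product
`2 (dM Ĝ) (-2)^n (dB Ĝ) □ = -c □` (`n` odd). Add `cl 1 + cl (-1) = 0`: `2 m + 2` units with product `c □`. Now
subtract `∑ cl (r i)` as in hm/KG.lean and use `NDat.sum_zero`.
-/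

set_option autoImplicit false

open SpinWA Matrix DC83

namespace NF83

variable {K : Type*} [NormedField K] [CompleteSpace K] [CharZero K] {O : Subring K} {κ : Type*}
  [Field κ] [Finite κ] {rd : O →+* κ} {π : K}

private theorem KR_transpose {R : Type*} [CommRing R] {n : ℕ} (c : R) (a : Fin n → R) :
    (c • hk a)ᵀ = c • hk a := by
  ext i j
  simp only [hk, Matrix.transpose_apply, Matrix.smul_apply, Matrix.of_apply, add_comm]

private theorem KR_transpose1 {R : Type*} [CommRing R] {n : ℕ} (c : R) (a : Fin n → R) :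
    (c • hk1 a)ᵀ = c • hk1 a := by
  ext i j
  simp only [hk1, Matrix.transpose_apply, Matrix.smul_apply, Matrix.of_apply,
    add_comm (i : ℕ) (j : ℕ)]

private theorem KR_cf {R : Type*} [CommRing R] {k : ℕ} (a : Fin (k + 1) → R) :
    cf a 0 = a 0 := by
  unfold cf
  rw [dif_pos (Nat.succ_pos k)]
  rfl

private theorem KR_det_smul {R : Type*} [CommRing R] {n : ℕ} (c : R)
    (A : Matrix (Fin n) (Fin n) R) : (c • A).det = c ^ n * A.det := by
  rw [Matrix.det_smul, Fintype.card_fin]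

private theorem KR_sub_smul {R : Type*} [CommRing R] {k : ℕ} (c : R)
    (A : Matrix (Fin (k + 1)) (Fin (k + 1)) R) :
    ((c • A).submatrix (Fin.castSucc : Fin k → Fin (k + 1)) Fin.castSucc).det =
      c ^ k * (A.submatrix (Fin.castSucc : Fin k → Fin (k + 1)) Fin.castSucc).det := by
  have h : (c • A).submatrix (Fin.castSucc : Fin k → Fin (k + 1)) Fin.castSucc =
      c • A.submatrix (Fin.castSucc : Fin k → Fin (k + 1)) Fin.castSucc := rfl
  rw [h, KR_det_smul]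

private theorem KR_hk_map {R S : Type*} [CommRing R] [CommRing S] (φ : R →+* S) {n : ℕ} (c : R)
    (G : Fin n → R) : (c • hk G).map φ = φ c • hk fun i => φ (G i) := by
  rw [← hk_map φ G]
  ext i j
  simp only [Matrix.map_apply, Matrix.smul_apply, smul_eq_mul, map_mul]

private theorem KR_hk1_map {R S : Type*} [CommRing R] [CommRing S] (φ : R →+* S) {n : ℕ} (c : R)
    (G : Fin n → R) : (c • hk1 G).map φ = φ c • hk1 fun i => φ (G i) := by
  rw [← hk1_map φ G]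
  ext i j
  simp only [Matrix.map_apply, Matrix.smul_apply, smul_eq_mul, map_mul]

omit [CharZero K] in
private theorem KR_sum (h : NDat O rd π) {ι : Type} [Fintype ι] (u : ι → K) {N L : ℕ}
    (hL : Fintype.card ι + N = 2 * L) (r : Fin N → K) (hu : ∀ i, ‖u i‖ = 1) (hr : ∀ i, ‖r i‖ = 1)
    {s : K} (hs : s ≠ 0) (hp : (∏ i, u i) * ∏ i, r i = (-1) ^ (L + N) * s ^ 2) :
    ∑ i, cl (u i) = ∑ i, cl (r i) := by
  have h1 := h.sum_eq hL (fun i => u ((Fintype.equivFin ι).symm i)) r (fun i => hu _) hr hs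
    (by rw [Equiv.prod_comp (Fintype.equivFin ι).symm u]; exact hp)
  rw [← h1]
  exact (Equiv.sum_comp (Fintype.equivFin ι).symm fun i => cl (u i)).symm

omit [CompleteSpace K] [CharZero K] [Finite κ] in
/-- The scaled polynomial is integral, with known reduction. -/
private theorem KR_int (h : NDat O rd π) {n : ℕ} {c P : K} (hc : ‖c‖ = 1)
    (G : Fin (n + 1) → K)
    (h1 : ∀ i : Fin (n + 1), (i : ℕ) = 1 → ‖G i * P ^ n + c‖ < 1)
    (hi : ∀ i : Fin (n + 1), (i : ℕ) ≠ 1 → ‖G i * P ^ (n + 1 - (i : ℕ))‖ < 1) :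
    ∃ (g : Fin (n + 1) → O) (c' : O), (c' : K) = c ∧
      (fun i => O.subtype (g i)) = scl P G ∧
      (fun i => rd (g i)) = lineP 0 (-(rd c')) 0 := by
  have hint : ∀ i : Fin (n + 1), ‖scl P G i‖ ≤ 1 := by
    intro i
    unfold scl
    rw [mul_comm]
    by_cases h2 : (i : ℕ) = 1
    · have h3 := h1 i h2
      have e : G i * P ^ (n + 1 - (i : ℕ)) = (G i * P ^ n + c) + (-c) := by
        rw [h2, Nat.add_sub_cancel]; ring
      rw [e]
      refine (h.ultra _ _).trans ?_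
      rw [norm_neg, hc]
      exact max_le h3.le le_rfl
    · exact (hi i h2).le
  refine ⟨fun i => ⟨scl P G i, (h.mem _).2 (hint i)⟩, ⟨c, (h.mem _).2 hc.le⟩, rfl, rfl, ?_⟩
  funext i
  unfold lineP
  by_cases h2 : (i : ℕ) = 1
  · rw [if_neg (by omega), if_pos h2, eq_neg_iff_add_eq_zero, ← map_add, h.ker]
    change ‖scl P G i + c‖ < 1
    have h3 := h1 i h2
    unfold scl
    rw [h2, Nat.add_sub_cancel, mul_comm]
    exact h3
  · have e : (if (i : ℕ) = 0 then (0 : κ) else if (i : ℕ) = 1 then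
        (-(rd (⟨c, (h.mem _).2 hc.le⟩ : O))) else (0 : Fin (n + 1) → κ) i) = 0 := by
      rw [if_neg h2]
      split_ifs <;> rfl
    rw [e, h.ker]
    change ‖scl P G i‖ < 1
    have h3 := hi i h2
    unfold scl
    rw [mul_comm]
    exact h3

omit [CharZero K] [Finite κ] in
/-- The determinants of the scaled polynomial. -/
private theorem KR_units (h : NDat O rd π) {n : ℕ} (hev : Even (n + 1)) (hn : (n : κ) ≠ 0)
    {c : K} (hc : ‖c‖ = 1) {g : Fin (n + 1) → O} {c' : O} (hc' : (c' : K) = c)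
    (hg : (fun i => rd (g i)) = lineP 0 (-(rd c')) 0) :
    ‖((dM g : O) : K)‖ = 1 ∧ ‖((dB g : O) : K)‖ = 1 ∧
      ∃ ρ : K, ρ ≠ 0 ∧ ((dM g : O) : K) * ((dB g : O) : K) = c * ρ ^ 2 := by
  have hθ : rd c' ≠ 0 := (h.unit_iff c').2 (by rw [hc', hc])
  obtain ⟨hM, hB, t, ht, hMB⟩ := lineP_mod hev hn hθ
  have e1 : rd (dM g) = dM (lineP 0 (-(rd c')) 0 : Fin (n + 1) → κ) := by
    rw [dM_map, hg]
  have e2 : rd (dB g) = dB (lineP 0 (-(rd c')) 0 : Fin (n + 1) → κ) := by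
    rw [dB_map, hg]
  have hc0 : c ≠ 0 := norm_ne_zero_iff.mp (by rw [hc]; exact one_ne_zero)
  refine ⟨(h.unit_iff _).1 (by rw [e1]; exact hM), (h.unit_iff _).1 (by rw [e2]; exact hB), ?_⟩
  obtain ⟨d, hd⟩ : ∃ d : O, (d : K) = c⁻¹ :=
    ⟨⟨c⁻¹, (h.mem _).2 (by rw [norm_inv, hc, inv_one])⟩, rfl⟩
  have hcd : c' * d = 1 := by
    apply Subtype.ext
    change (c' : K) * (d : K) = 1
    rw [hc', hd, mul_inv_cancel₀ hc0]
  obtain ⟨ρ, hρ, -, hρ2⟩ := h.sq (dM g * dB g * d) t ht (by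
    have h5 : rd c' * rd d = 1 := by rw [← map_mul, hcd, map_one]
    rw [map_mul, map_mul, e1, e2, hMB]
    linear_combination t ^ 2 * h5)
  refine ⟨ρ, hρ, ?_⟩
  rw [hρ2]
  change _ = c * (((dM g : O) : K) * ((dB g : O) : K) * (d : K))
  rw [hd]
  field_simp

theorem NDat.large (h : NDat O rd π) {n : ℕ} (hev : Even (n + 1)) (hn : (n : κ) ≠ 0) {c q : K}
    (hc : ‖c‖ = 1) (hq : q ≠ 0) (G : Fin (n + 1) → K) (h0 : G 0 ≠ 0)
    (h1 : ∀ i : Fin (n + 1), (i : ℕ) = 1 → ‖G i * (q ^ 2) ^ n + c‖ < 1)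
    (hi : ∀ i : Fin (n + 1), (i : ℕ) ≠ 1 → ‖G i * (q ^ 2) ^ (n + 1 - (i : ℕ))‖ < 1) {e : ℕ}
    (r : Fin (2 * (n + 1) + 2 + 2 * e) → K) (hr : ∀ i, ‖r i‖ = 1) {s : K} (hs : s ≠ 0)
    (hrp : ∏ i, r i = (-1) ^ e * c * s ^ 2) :
    (hk G).det ≠ 0 ∧ coreF c 1 G = ∑ i, cl (r i) := by
  have h2 := h.norm_two
  have h20 := h.two_ne
  have hP : q ^ 2 ≠ 0 := pow_ne_zero _ hq
  obtain ⟨g, c', hc', hg, hred⟩ := KR_int h hc G h1 hi
  obtain ⟨hMn, hBn, ρ, hρ, hMB⟩ := KR_units h hev hn hc hc' hred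
  have e2 : O.subtype (2 : O) = 2 := map_ofNat _ _
  have em2 : O.subtype (-2 : O) = -2 := by rw [map_neg, e2]
  have hm2 : ‖(-2 : K)‖ = 1 := by rw [norm_neg, h2]
  have hm20 : (-2 : K) ≠ 0 := neg_ne_zero.mpr h20
  have hc0 : c ≠ 0 := norm_ne_zero_iff.mp (by rw [hc]; exact one_ne_zero)
  have t1 := KR_transpose (2 : O) g
  have t2 := KR_transpose1 (-2 : O) g
  obtain ⟨M, hM⟩ : ∃ M : K, M = ((dM g : O) : K) := ⟨_, rfl⟩
  obtain ⟨B, hB⟩ : ∃ B : K, B = ((dB g : O) : K) := ⟨_, rfl⟩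
  rw [← hM] at hMn
  rw [← hB] at hBn
  rw [← hM, ← hB] at hMB
  have hM0 : M ≠ 0 := norm_ne_zero_iff.mp (by rw [hMn]; exact one_ne_zero)
  have hB0 : B ≠ 0 := norm_ne_zero_iff.mp (by rw [hBn]; exact one_ne_zero)
  have m1 : ((2 : O) • hk g).map O.subtype = (2 : K) • hk (scl (q ^ 2) G) := by
    rw [KR_hk_map, hg, e2]
  have m2 : ((-2 : O) • hk1 g).map O.subtype = (-2 : K) • hk1 (scl (q ^ 2) G) := by
    rw [KR_hk1_map, hg, em2]
  have dM' : (hk (scl (q ^ 2) G)).det = M := by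
    have h3 := dM_map O.subtype g
    rw [hg] at h3
    rw [hM]
    exact h3.symm
  have hdet : (hk G).det ≠ 0 := (det_hk_scl hP G).1 (by rw [dM']; exact hM0)
  refine ⟨hdet, ?_⟩
  have hdet1 : (hk1 G).det ≠ 0 := by
    rw [det_hk1, KR_cf, hev.neg_one_pow, one_mul]
    exact mul_ne_zero h0 hdet
  have dM1' : O.subtype (hk1 g).det = (q ^ 2) ^ (n + 1) * G 0 * M := by
    rw [hk1_det_map, hg, det_hk1, hev.neg_one_pow, one_mul, cf_scl, KR_cf, dM']
  have a1 : ((((2 : O) • hk g).det : O) : K) = 2 ^ (n + 1) * M := by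
    change O.subtype _ = _
    rw [KR_det_smul, map_mul, map_pow, e2, hM]
    rfl
  have a2 : ((((-2 : O) • hk1 g).det : O) : K) = (-2) ^ (n + 1) * ((q ^ 2) ^ (n + 1) * G 0 * M) := by
    change O.subtype _ = _
    rw [KR_det_smul, map_mul, map_pow, dM1', em2]
  have b2 : (((((-2 : O) • hk1 g).submatrix (Fin.castSucc : Fin n → Fin (n + 1))
      Fin.castSucc).det : O) : K) = (-2) ^ n * B := by
    change O.subtype _ = _
    rw [KR_sub_smul, map_mul, map_pow, em2, hB]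
    rfl
  have k1 : cls ((2 : K) • hk G) = cls (((2 : O) • hk g).map O.subtype) := by
    rw [m1, cls_hk_scl h20 hP G hdet h20]
  have k2 : cls ((-2 : K) • hk1 G) = cls (((-2 : O) • hk1 g).map O.subtype) := by
    rw [m2, cls_hk1_scl h20 hP G hdet1 hm20,
      cls_smul_mul_sq h20 (hk1_transpose G) hdet1 hm20 hq]
  obtain ⟨u, s1, hu1, hs1, hc1, hp1⟩ := h.diag t1 (by
    rw [a1, norm_mul, norm_pow, h2, one_pow, one_mul, hMn])
  have c2 : ((-2 : O) • hk1 g).det ≠ 0 := by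
    intro h3
    rw [h3] at a2
    exact mul_ne_zero (pow_ne_zero _ hm20)
      (mul_ne_zero (mul_ne_zero (pow_ne_zero _ hP) h0) hM0) a2.symm
  obtain ⟨v, s2, hv1, hs2, hc2, hp2⟩ := h.diag_minor t2 c2 (by
    rw [b2, norm_mul, norm_pow, hm2, one_pow, one_mul, hBn])
  have hodd : Odd n := by
    rcases Nat.even_or_odd n with h3 | h3
    · exact absurd hev (Nat.not_even_iff_odd.2 h3.add_one)
    · exact h3
  rw [a2, b2, show (-2) ^ (n + 1) * ((q ^ 2) ^ (n + 1) * G 0 * M) * ((-2) ^ n * B) =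
    (-(2 * c * G 0)) * ((-2) ^ n * q ^ (n + 1) * ρ) ^ 2 by
      linear_combination ((-2) ^ (n + 1) * (-2) ^ n * (q ^ 2) ^ (n + 1) * G 0) * hMB,
    cl_mul_sq _ (mul_ne_zero (mul_ne_zero (pow_ne_zero _ hm20) (pow_ne_zero _ hq)) hρ)] at hc2
  rw [a1] at hp1
  rw [b2, hodd.neg_pow] at hp2
  have hnorm : ∀ i, ‖Sum.elim (fun _ : Fin 1 => (2 : K)) (Sum.elim u v) i‖ = 1 := by
    rintro (i | i | i)
    · exact h2
    · exact hu1 i
    · exact hv1 i
  have hcard : Fintype.card (Fin 1 ⊕ (Fin (n + 1) ⊕ Fin n)) + (2 * (n + 1) + 2 + 2 * e) =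
      2 * (2 * (n + 1) + 1 + e) := by
    rw [Fintype.card_sum, Fintype.card_sum, Fintype.card_fin, Fintype.card_fin, Fintype.card_fin]
    omega
  have h3 := KR_sum h (Sum.elim (fun _ : Fin 1 => (2 : K)) (Sum.elim u v)) hcard r hnorm hr
    (s := 2 ^ (n + 1) * c * ρ * s1 * s2 * s)
    (mul_ne_zero (mul_ne_zero (mul_ne_zero (mul_ne_zero (mul_ne_zero (pow_ne_zero _ h20) hc0) hρ)
      hs1) hs2) hs) (by
      rw [Fintype.prod_sum_type, Fintype.prod_sum_type, hrp]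
      simp only [Sum.elim_inl, Sum.elim_inr, Finset.univ_unique, Finset.prod_singleton]
      have hsg : (-1 : K) ^ (2 * (n + 1) + 1 + e + (2 * (n + 1) + 2 + 2 * e)) = -(-1) ^ e := by
        rw [show 2 * (n + 1) + 1 + e + (2 * (n + 1) + 2 + 2 * e) =
          e + 1 + 2 * (2 * (n + 1) + 1 + e) by ring, pow_add _ (e + 1), pow_mul, neg_one_sq,
          one_pow, pow_succ]
        ring
      rw [hp1, hp2, hsg]
      linear_combination (-(2 * 2 ^ (n + 1) * 2 ^ n * s1 ^ 2 * s2 ^ 2 * (-1) ^ e * c * s ^ 2)) *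
        hMB)
  rw [Fintype.sum_sum_type, Fintype.sum_sum_type] at h3
  simp only [Sum.elim_inl, Sum.elim_inr, Finset.univ_unique, Finset.sum_singleton] at h3
  unfold coreF
  rw [KR_cf, mul_one, k1, k2, hc1, hc2, ← h3]
  have h4 := cl_neg h20 (2 * c * G 0)
  have h5 : ∀ x y z t w : WG K, x + y + z + (t + w) = x + (z + t) + (y + w) := by
    intro x y z t w
    abel
  rw [h5, h4, add_zero]

end NF83
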