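import Pool.Agent.H.MP_83e36b_nt.hm.KGenA
import Pool.Agent.H.MP_83e36b_nt.sp.KLine

/-! The choice of the line over a field with places.

PROOF. `exists_lineF`: copy sp/KLine.lean with `ℚ`, `Pl`, `Cpl`, `emb`, `none` replaced by `kk`, `Pk kk`, `Cp`, `em`,
`p0 kk` (`wa_rat` of nf/Base; in `KLine_scalar` the case distinction on `v = none` becomes
`by_cases v = p0 kk`, or: choose at `p0 kk` a point which is not a root; note that the roots of
`d.map (em (p0 kk))` are finitely many and neighbourhoods of `1` in the nontrivially normed field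
`Cp (p0 kk)` are infinite; use `Function.update (fun _ => 1) (p0 kk) x0` for the target point).
-/

set_option autoImplicit false

open Topology Matrix Polynomial SpinWA

namespace NF83

private theorem KGenB_scalar {kk : Type} [Field kk] [CharZero kk] [PlSys kk] (S : Finset (Pk kk))
    (hS : p0 kk ∈ S) (d : kk[X]) (hd : d ≠ 0)
    (W : ∀ v : Pk kk, Set (Cp v)) (hW : ∀ v ∈ S, W v ∈ 𝓝 (1 : Cp v)) :
    ∃ s : kk, d.eval s ≠ 0 ∧ ∀ v ∈ S, em v s ∈ W v := by
  classical
  have hinj : Function.Injective (em (p0 kk)) := (em (p0 kk)).injective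
  have hd' : d.map (em (p0 kk)) ≠ 0 := (Polynomial.map_ne_zero_iff hinj).2 hd
  have hfin : {x : Cp (p0 kk) | (d.map (em (p0 kk))).IsRoot x}.Finite :=
    Polynomial.finite_setOfPred_isRoot hd'
  have h1 : interior (W (p0 kk)) ∈ 𝓝 (1 : Cp (p0 kk)) := interior_mem_nhds.2 (hW (p0 kk) hS)
  have hinf : (interior (W (p0 kk))).Infinite := infinite_of_mem_nhds (1 : Cp (p0 kk)) h1
  obtain ⟨x0, hx0, hx0'⟩ := hinf.exists_notMem_finite hfin
  have hev : Continuous fun x : Cp (p0 kk) => (d.map (em (p0 kk))).eval x :=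
    Polynomial.continuous _
  have hopen : IsOpen (interior (W (p0 kk)) ∩
      {x : Cp (p0 kk) | (d.map (em (p0 kk))).eval x ≠ 0}) :=
    isOpen_interior.inter (isOpen_ne_fun hev continuous_const)
  let x : ∀ v : Pk kk, Cp v := Function.update (fun _ => 1) (p0 kk) x0
  let U : ∀ v : Pk kk, Set (Cp v) := Function.update W (p0 kk)
    (interior (W (p0 kk)) ∩ {x : Cp (p0 kk) | (d.map (em (p0 kk))).eval x ≠ 0})
  have hx1 : x (p0 kk) = x0 := Function.update_self _ _ _
  have hU1 : U (p0 kk) = interior (W (p0 kk)) ∩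
      {x : Cp (p0 kk) | (d.map (em (p0 kk))).eval x ≠ 0} := Function.update_self _ _ _
  have hx2 : ∀ v, v ≠ p0 kk → x v = 1 := fun v hv => Function.update_of_ne hv _ _
  have hU2 : ∀ v, v ≠ p0 kk → U v = W v := fun v hv => Function.update_of_ne hv _ _
  have hU : ∀ v ∈ S, U v ∈ 𝓝 (x v) := by
    intro v hv
    by_cases hv0 : v = p0 kk
    · subst hv0
      rw [hU1, hx1]
      exact hopen.mem_nhds ⟨hx0, hx0'⟩
    · rw [hU2 v hv0, hx2 v hv0]
      exact hW v hv
  obtain ⟨s, hs⟩ := wa_rat S x U hU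
  refine ⟨s, ?_, ?_⟩
  · intro h0
    have h2 := hs (p0 kk) hS
    rw [hU1] at h2
    have h3 : (d.map (em (p0 kk))).eval (em (p0 kk) s) ≠ 0 := h2.2
    apply h3
    rw [Polynomial.eval_map_apply, h0, map_zero]
  · intro v hv
    by_cases hv0 : v = p0 kk
    · subst hv0
      have h2 := hs _ hS
      rw [hU1] at h2
      exact interior_subset h2.1
    · have h2 := hs v hv
      rw [hU2 v hv0] at h2
      exact h2

theorem exists_lineF {kk : Type} [Field kk] [CharZero kk] [PlSys kk] {k : ℕ} (h1k : 1 ≤ k)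
    (S : Finset (Pk kk)) (hS : p0 kk ∈ S) (b : kk) (hb : b ≠ 0)
    (g : ∀ v : Pk kk, Fin (k + 1) → Cp v) (hg0 : ∀ v ∈ S, g v 0 = em v b)
    (U : ∀ v : Pk kk, Set (Fin (k + 1) → Cp v)) (hU : ∀ v ∈ S, U v ∈ 𝓝 (g v)) :
    ∃ (r : Fin (k + 1) → kk) (A B : kk[X]) (V : ∀ v : Pk kk, Set (Cp v)),
      A * dM (lineP (C b) X fun i : Fin (k + 1) => C (r i)) +
        B * (dA (lineP (C b) X fun i : Fin (k + 1) => C (r i)) *
          dB (lineP (C b) X fun i : Fin (k + 1) => C (r i))) = 1 ∧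
      (∀ v ∈ S, V v ∈ 𝓝 (g v 1)) ∧
      ∀ t : kk, (∀ v ∈ S, em v t ∈ V v) → ∀ v ∈ S, (fun i => em v (lineP b t r i)) ∈ U v := by
  classical
  have h1 : ∀ v : Pk kk, ∃ t : Fin (k + 1) → Set (Cp v), v ∈ S →
      ((∀ i, t i ∈ 𝓝 (g v i)) ∧ Set.pi Set.univ t ⊆ U v) := by
    intro v
    by_cases hv : v ∈ S
    · have h2 := hU v hv
      rw [nhds_pi, Filter.mem_pi'] at h2
      obtain ⟨I, t, ht, hI⟩ := h2
      refine ⟨t, fun _ => ⟨ht, ?_⟩⟩
      intro z hz
      exact hI fun i _ => hz i (Set.mem_univ i)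
    · exact ⟨fun _ => Set.univ, fun h => absurd h hv⟩
  choose T hT using h1
  have h2 : ∀ (v : Pk kk) (i : Fin (k + 1)), ∃ P Q : Set (Cp v), v ∈ S →
      (P ∈ 𝓝 (1 : Cp v) ∧ Q ∈ 𝓝 (g v i) ∧ ∀ x ∈ P, ∀ y ∈ Q, x * y ∈ T v i) := by
    intro v i
    by_cases hv : v ∈ S
    · have h3 : T v i ∈ 𝓝 ((1 : Cp v) * g v i) := by
        rw [one_mul]
        exact (hT v hv).1 i
      have h4 : Filter.Tendsto (fun p : Cp v × Cp v => p.1 * p.2) (𝓝 ((1 : Cp v), g v i))
          (𝓝 ((1 : Cp v) * g v i)) := continuous_mul.continuousAt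
      have h5 := h4 h3
      rw [Filter.mem_map, nhds_prod_eq, Filter.mem_prod_iff] at h5
      obtain ⟨P, hP, Q, hQ, hPQ⟩ := h5
      exact ⟨P, Q, fun _ => ⟨hP, hQ, fun x hx y hy => hPQ (Set.mk_mem_prod hx hy)⟩⟩
    · exact ⟨Set.univ, Set.univ, fun h => absurd h hv⟩
  choose P Q hPQ using h2
  have h3 : ∀ i, ∃ r : kk, ∀ v ∈ S, em v r ∈ Q v i := fun i =>
    wa_rat S (fun v => g v i) (fun v => Q v i) fun v hv => (hPQ v i hv).2.1
  choose r1 hr1 using h3
  obtain ⟨d, hd, hcop⟩ := gen_coprimeF h1k hb r1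
  obtain ⟨s, hs, hsW⟩ := KGenB_scalar S hS d hd (fun v => ⋂ i, P v i) (fun v hv =>
    Filter.iInter_mem.2 fun i => (hPQ v i hv).1)
  obtain ⟨A, B, hAB⟩ := hcop s hs
  refine ⟨fun i => s * r1 i, A, B, fun v => T v 1, hAB, fun v hv => (hT v hv).1 1, ?_⟩
  intro t ht v hv
  refine (hT v hv).2 ?_
  intro i _
  by_cases hi0 : (i : ℕ) = 0
  · have hi : i = 0 := Fin.ext (by simpa using hi0)
    subst hi
    have e1 : lineP b t (fun i => s * r1 i) 0 = b := by
      unfold lineP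
      rw [if_pos]
      simp
    change em v (lineP b t (fun i => s * r1 i) 0) ∈ T v 0
    rw [e1, ← hg0 v hv]
    exact mem_of_mem_nhds ((hT v hv).1 0)
  · by_cases hi1 : (i : ℕ) = 1
    · have hone : ((1 : Fin (k + 1)) : ℕ) = 1 := by
        rw [Fin.val_one', Nat.mod_eq_of_lt (by omega)]
      have hi : i = 1 := Fin.ext (by rw [hi1, hone])
      subst hi
      have e1 : lineP b t (fun i => s * r1 i) (1 : Fin (k + 1)) = t := by
        unfold lineP
        rw [if_neg hi0, if_pos hone]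
      change em v (lineP b t (fun i => s * r1 i) 1) ∈ T v 1
      rw [e1]
      exact ht v hv
    · have e1 : lineP b t (fun i => s * r1 i) i = s * r1 i := by
        unfold lineP
        rw [if_neg hi0, if_neg hi1]
      change em v (lineP b t (fun i => s * r1 i) i) ∈ T v i
      rw [e1, map_mul]
      have h6 := hsW v hv
      rw [Set.mem_iInter] at h6
      exact (hPQ v i hv).2.2 _ (h6 i) _ (hr1 i v hv)

end NF83
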