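import Pool.Agent.H.MP_83e36b_nt.hm.KN
import Pool.Agent.H.MP_83e36b_nt.nf.U5c

/-! The completions of a number field at the finite places.

PROOF. As in the proof of `u5_adic` (nf/U5c) there is a `LocF ψ red π` with
`ψ : 𝓞 k → v.adicCompletion k`, `red : 𝓞 k → 𝓞 k ⧸ v.asIdeal`. Let `O` be the subring of the `x` with
`‖x‖ ≤ 1` (`ultra`), `rd x = red r` for any `r` with `‖x - ψ r‖ < 1` (`dens`; well defined by `ker`;
a ring homomorphism: if `‖x - ψ r‖ < 1`, `‖y - ψ s‖ < 1` then `‖x y - ψ (r s)‖ < 1`).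
`rd n = red n` for natural numbers `n`, which is 0 iff `n ∈ v.asIdeal`. `unif`: the norm of `x ≠ 0` is
the image of `WithZero.exp j` (see `U5c_norm`, `FinitePlace.norm_def`), `π` has the value
`WithZero.exp (-1)`.
-/

set_option autoImplicit false

open SpinWA Matrix DC83 NumberField IsDedekindDomain

namespace NF83

section
variable {K : Type*} [NormedField K] {R κ : Type*} [CommRing R] [Field κ] {ψ : R →+* K}
  {red : R →+* κ} {π : K}

private theorem KNp_sub (hu : ∀ x y : K, ‖x + y‖ ≤ max ‖x‖ ‖y‖) (x y : K) :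
    ‖x - y‖ ≤ max ‖x‖ ‖y‖ := by
  rw [sub_eq_add_neg]
  exact (hu _ _).trans (by rw [norm_neg])

/-- the elements of norm at most one -/
private def KNp_O (hu : ∀ x y : K, ‖x + y‖ ≤ max ‖x‖ ‖y‖) : Subring K where
  carrier := {x | ‖x‖ ≤ 1}
  mul_mem' := fun {a b} ha hb => by
    show ‖a * b‖ ≤ 1
    rw [norm_mul]
    exact mul_le_one₀ ha (norm_nonneg _) hb
  one_mem' := by
    show ‖(1 : K)‖ ≤ 1
    rw [norm_one]
  add_mem' := fun {a b} ha hb => (hu a b).trans (max_le ha hb)
  zero_mem' := by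
    show ‖(0 : K)‖ ≤ 1
    rw [norm_zero]
    exact zero_le_one
  neg_mem' := fun {a} ha => by
    show ‖-a‖ ≤ 1
    rw [norm_neg]
    exact ha

private theorem KNp_uniq (h : LocF ψ red π) {x : K} {r s : R} (hr : ‖x - ψ r‖ < 1)
    (hs : ‖x - ψ s‖ < 1) : red r = red s := by
  rw [← sub_eq_zero, ← map_sub, h.ker, map_sub]
  have e : ψ r - ψ s = (x - ψ s) - (x - ψ r) := by ring
  rw [e]
  exact (KNp_sub h.ultra _ _).trans_lt (max_lt hs hr)

private noncomputable def KNp_f (h : LocF ψ red π) (x : KNp_O h.ultra) : κ :=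
  red (h.dens x.1 x.2).choose

private theorem KNp_f_eq (h : LocF ψ red π) (x : KNp_O h.ultra) {r : R}
    (hr : ‖(x : K) - ψ r‖ < 1) : KNp_f h x = red r :=
  KNp_uniq h (h.dens x.1 x.2).choose_spec hr

private noncomputable def KNp_rd (h : LocF ψ red π) : KNp_O h.ultra →+* κ where
  toFun := KNp_f h
  map_one' := by
    rw [KNp_f_eq h 1 (r := 1), map_one]
    rw [map_one]
    show ‖(1 : K) - 1‖ < 1
    rw [sub_self, norm_zero]
    exact one_pos
  map_zero' := by
    rw [KNp_f_eq h 0 (r := 0), map_zero]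
    rw [map_zero]
    show ‖(0 : K) - 0‖ < 1
    rw [sub_self, norm_zero]
    exact one_pos
  map_mul' := fun x y => by
    obtain ⟨r, hr⟩ := h.dens x.1 x.2
    obtain ⟨s, hs⟩ := h.dens y.1 y.2
    have hxy : ‖((x * y : KNp_O h.ultra) : K) - ψ (r * s)‖ < 1 := by
      have e : ((x * y : KNp_O h.ultra) : K) - ψ (r * s) =
          (x : K) * ((y : K) - ψ s) + ((x : K) - ψ r) * ψ s := by
        rw [map_mul, Subring.coe_mul]
        ring
      rw [e]
      refine (h.ultra _ _).trans_lt (max_lt ?_ ?_)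
      · rw [norm_mul]
        exact mul_lt_one_of_nonneg_of_lt_one_right x.2 (norm_nonneg _) hs
      · rw [norm_mul]
        exact mul_lt_one_of_nonneg_of_lt_one_left (norm_nonneg _) hr (h.int s)
    rw [KNp_f_eq h (x * y) hxy, KNp_f_eq h x hr, KNp_f_eq h y hs, map_mul]
  map_add' := fun x y => by
    obtain ⟨r, hr⟩ := h.dens x.1 x.2
    obtain ⟨s, hs⟩ := h.dens y.1 y.2
    have hxy : ‖((x + y : KNp_O h.ultra) : K) - ψ (r + s)‖ < 1 := by
      have e : ((x + y : KNp_O h.ultra) : K) - ψ (r + s) =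
          ((x : K) - ψ r) + ((y : K) - ψ s) := by
        rw [map_add, Subring.coe_add]
        ring
      rw [e]
      exact (h.ultra _ _).trans_lt (max_lt hr hs)
    rw [KNp_f_eq h (x + y) hxy, KNp_f_eq h x hr, KNp_f_eq h y hs, map_add]

private theorem KNp_ndat (h : LocF ψ red π) (h2 : (2 : κ) ≠ 0)
    (hunif : ∀ x : K, x ≠ 0 → ∃ j : ℤ, ‖x‖ = ‖π‖ ^ j) :
    NDat (KNp_O h.ultra) (KNp_rd h) π where
  ultra := h.ultra
  mem := fun x => Iff.rfl
  ker := fun x => by
    obtain ⟨r, hr⟩ := h.dens x.1 x.2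
    have e : KNp_rd h x = red r := KNp_f_eq h x hr
    rw [e, h.ker]
    constructor
    · intro h1
      have e1 : (x : K) = ((x : K) - ψ r) + ψ r := by ring
      rw [e1]
      exact (h.ultra _ _).trans_lt (max_lt hr h1)
    · intro h1
      have e1 : ψ r = (x : K) - ((x : K) - ψ r) := by ring
      rw [e1]
      exact (KNp_sub h.ultra _ _).trans_lt (max_lt h1 hr)
  surj := fun c => by
    obtain ⟨r, rfl⟩ := h.surj c
    refine ⟨⟨ψ r, h.int r⟩, ?_⟩
    refine KNp_f_eq h _ ?_
    show ‖ψ r - ψ r‖ < 1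
    rw [sub_self, norm_zero]
    exact one_pos
  two := h2
  pi0 := h.pi0
  pi1 := h.pi1
  unif := hunif

end

variable {k : Type} [Field k] [NumberField k]

private theorem KNp_exp {m : WithZero (Multiplicative ℤ)} (h : m < 1) :
    m ≤ WithZero.exp (-1) := by
  by_cases h0 : m = 0
  · rw [h0]
    exact zero_le
  · obtain ⟨n, rfl⟩ : ∃ n : ℤ, m = WithZero.exp n := ⟨WithZero.log m, (WithZero.exp_log h0).symm⟩
    rw [← WithZero.exp_zero, WithZero.exp_lt_exp] at h
    rw [WithZero.exp_le_exp]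
    omega

private theorem KNp_norm (v : HeightOneSpectrum (𝓞 k)) (x : v.adicCompletion k) :
    ‖x‖ = WithZeroMulInt.toNNReal (NumberField.HeightOneSpectrum.absNorm_ne_zero v)
      (Valued.v x) :=
  FinitePlace.norm_def (v := v) x

private theorem KNp_mono (v : HeightOneSpectrum (𝓞 k)) {x y : v.adicCompletion k}
    (h : Valued.v x ≤ Valued.v y) : ‖x‖ ≤ ‖y‖ := by
  rw [KNp_norm, KNp_norm]
  exact_mod_cast (WithZeroMulInt.toNNReal_strictMono
    (NumberField.HeightOneSpectrum.one_lt_absNorm_nnreal v)).monotone h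

private theorem KNp_lt (v : HeightOneSpectrum (𝓞 k)) (x : v.adicCompletion k) :
    ‖x‖ < 1 ↔ Valued.v x < 1 := by
  rw [KNp_norm, ← WithZeroMulInt.toNNReal_lt_one_iff
    (NumberField.HeightOneSpectrum.one_lt_absNorm_nnreal v)]
  exact_mod_cast Iff.rfl

private theorem KNp_le (v : HeightOneSpectrum (𝓞 k)) (x : v.adicCompletion k) :
    ‖x‖ ≤ 1 ↔ Valued.v x ≤ 1 := by
  rw [KNp_norm, ← WithZeroMulInt.toNNReal_le_one_iff
    (NumberField.HeightOneSpectrum.one_lt_absNorm_nnreal v)]
  exact_mod_cast Iff.rfl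

private theorem KNp_val (v : HeightOneSpectrum (𝓞 k)) (y : k) :
    Valued.v (algebraMap k (v.adicCompletion k) y) = v.valuation k y :=
  HeightOneSpectrum.valuedAdicCompletion_eq_valuation' v y

theorem exists_ndat (v : HeightOneSpectrum (𝓞 k)) [CompleteSpace (v.adicCompletion k)]
    (h2 : (2 : 𝓞 k) ∉ v.asIdeal) :
    ∃ (κ : Type) (_ : Field κ) (_ : Finite κ) (O : Subring (v.adicCompletion k)) (rd : O →+* κ)
      (π : v.adicCompletion k), NDat O rd π ∧
      ∀ n : ℕ, (n : κ) = 0 → (n : 𝓞 k) ∈ v.asIdeal := by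
  classical
  let _ : Field (𝓞 k ⧸ v.asIdeal) := Ideal.Quotient.field v.asIdeal
  have hfin : Finite (𝓞 k ⧸ v.asIdeal) := v.asIdeal.finiteQuotientOfFreeOfNeBot v.ne_bot
  obtain ⟨π, hπ⟩ := v.valuation_exists_uniformizer k
  have hπv : Valued.v (algebraMap k (v.adicCompletion k) π) = WithZero.exp (-1 : ℤ) := by
    rw [KNp_val, hπ]
  have h : LocF ((algebraMap k (v.adicCompletion k)).comp (algebraMap (𝓞 k) k))
      (Ideal.Quotient.mk v.asIdeal) (algebraMap k (v.adicCompletion k) π) := by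
    refine ⟨?_, ?_, ?_, Ideal.Quotient.mk_surjective, ?_, ?_, ?_, ?_⟩
    · intro x y
      rcases le_total (Valued.v x) (Valued.v y) with h | h
      · refine le_max_of_le_right (KNp_mono v ?_)
        exact (Valuation.map_add _ x y).trans (max_le h le_rfl)
      · refine le_max_of_le_left (KNp_mono v ?_)
        exact (Valuation.map_add _ x y).trans (max_le le_rfl h)
    · intro r
      exact FinitePlace.norm_le_one k v r
    · intro x hx
      obtain ⟨y, hy⟩ := (v.denseRange_algebraMap k).exists_dist_lt x one_pos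
      rw [dist_eq_norm, KNp_lt] at hy
      rw [KNp_le] at hx
      have h1 : Valued.v (algebraMap k (v.adicCompletion k) y) ≤ 1 := by
        have e : algebraMap k (v.adicCompletion k) y =
            x - (x - algebraMap k (v.adicCompletion k) y) := by ring
        rw [e]
        exact (Valuation.map_sub _ _ _).trans (max_le hx hy.le)
      rw [KNp_val] at h1
      obtain ⟨r, hr⟩ := HeightOneSpectrum.exists_valuation_sub_lt_of_integer v h1 1
      refine ⟨r, ?_⟩
      rw [KNp_lt]
      have e : x - (algebraMap k (v.adicCompletion k)).comp (algebraMap (𝓞 k) k) r =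
          (x - algebraMap k (v.adicCompletion k) y) -
            algebraMap k (v.adicCompletion k) (algebraMap (𝓞 k) k r - y) := by
        rw [map_sub, RingHom.comp_apply]
        ring
      rw [e]
      refine (Valuation.map_sub _ _ _).trans_lt (max_lt hy ?_)
      rw [KNp_val]
      exact hr
    · intro r
      rw [Ideal.Quotient.eq_zero_iff_mem]
      exact (FinitePlace.norm_lt_one_iff_mem k v r).symm
    · intro h0
      rw [h0, map_zero] at hπv
      exact WithZero.exp_ne_zero hπv.symm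
    · rw [KNp_lt, hπv, ← WithZero.exp_zero, WithZero.exp_lt_exp]
      norm_num
    · intro x hx
      apply KNp_mono
      rw [hπv]
      exact KNp_exp ((KNp_lt v x).1 hx)
  have h2' : (2 : 𝓞 k ⧸ v.asIdeal) ≠ 0 := by
    intro h0
    apply h2
    rw [← Ideal.Quotient.eq_zero_iff_mem, map_ofNat]
    exact h0
  have hunif : ∀ x : v.adicCompletion k, x ≠ 0 →
      ∃ j : ℤ, ‖x‖ = ‖algebraMap k (v.adicCompletion k) π‖ ^ j := by
    intro x hx
    have hx' : (Valued.v x : WithZero (Multiplicative ℤ)) ≠ 0 := (Valuation.ne_zero_iff _).2 hx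
    refine ⟨-WithZero.log (Valued.v x), ?_⟩
    have e : (Valued.v x : WithZero (Multiplicative ℤ)) =
        Valued.v (algebraMap k (v.adicCompletion k) π) ^ (-WithZero.log (Valued.v x)) := by
      rw [hπv, ← WithZero.exp_zsmul, smul_eq_mul, neg_mul_neg, mul_one, WithZero.exp_log hx']
    rw [KNp_norm, KNp_norm]
    conv_lhs => rw [e]
    rw [map_zpow₀, NNReal.coe_zpow]
  refine ⟨𝓞 k ⧸ v.asIdeal, inferInstance, hfin, KNp_O h.ultra, KNp_rd h, _,
    KNp_ndat h h2' hunif, fun n hn => ?_⟩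
  rw [← Ideal.Quotient.eq_zero_iff_mem, map_natCast]
  exact hn

end NF83
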