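import Pool.Agent.H.MP_83e36b_nt.nf.Fin

/-! Finitely many bad places, and the number `a`.

PROOF. `fin_nint`: `x = y / z` with `y, z ∈ 𝓞 k`, `z ≠ 0` (`IsFractionRing.div_surjective`); if `1 < ‖x‖_v` then
`z ∈ v.asIdeal` (otherwise `‖z‖_v = 1`, `‖y‖_v ≤ 1`), and these places are finitely many (`Ideal.finite_factors`, or
`HeightOneSpectrum.Support.finite`; see also how `LX.lean`, `Fin.lean` in nf/ do it). `fin_nunit`: `x` and `x⁻¹`.
`exists_a`: for every `v ∈ F` there is a prime number `p_v ∈ v.asIdeal` (`exists_prime_norm_lt_one` in I1c, or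
`Ideal.absNorm_mem`), prime to `P` since otherwise `p_v ∣ P`, `P ∈ v.asIdeal`. `a = q ∏ p_v`, `q` any prime number
prime to `P` (`Nat.exists_infinite_primes`).
`exists_P`: for every `v ∈ F` there is a natural number `p_v ≠ 0` in `v.asIdeal`, `P = P0 ∏ p_v`; the places with
`P ∈ v.asIdeal` are finitely many.
-/

set_option autoImplicit false

open Topology NumberField IsDedekindDomain AnWA

namespace NF83

variable {k : Type} [Field k] [NumberField k]

private theorem KSa_le_one (v : HeightOneSpectrum (𝓞 k)) (y : k) :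
    ‖algebraMap k (v.adicCompletion k) y‖ ≤ 1 ↔ v.valuation k y ≤ 1 := by
  rw [← HeightOneSpectrum.valuedAdicCompletion_eq_valuation' v y]
  exact Valued.toNormedField.norm_le_one_iff

private theorem KSa_lt_one (v : HeightOneSpectrum (𝓞 k)) (y : k) :
    ‖algebraMap k (v.adicCompletion k) y‖ < 1 ↔ v.valuation k y < 1 := by
  rw [← HeightOneSpectrum.valuedAdicCompletion_eq_valuation' v y]
  exact Valued.toNormedField.norm_lt_one_iff

private theorem KSa_gt (v : HeightOneSpectrum (𝓞 k)) (y : k) :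
    1 < ‖algebraMap k (v.adicCompletion k) y‖ ↔ 1 < v.valuation k y := by
  rw [← not_le, KSa_le_one, not_le]

private theorem KSa_cast (v : HeightOneSpectrum (𝓞 k)) (a : ℕ) :
    (a : v.adicCompletion k) =
      algebraMap k (v.adicCompletion k) (algebraMap (𝓞 k) k (a : 𝓞 k)) := by
  rw [map_natCast, map_natCast]

private theorem KSa_prime (v : HeightOneSpectrum (𝓞 k)) :
    ∃ p : ℕ, p.Prime ∧ (p : 𝓞 k) ∈ v.asIdeal := by
  have hfin : Finite (𝓞 k ⧸ v.asIdeal) :=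
    v.asIdeal.finiteQuotientOfFreeOfNeBot v.ne_bot
  have hft : Fintype (𝓞 k ⧸ v.asIdeal) := Fintype.ofFinite _
  obtain ⟨p, hp⟩ := CharP.exists (𝓞 k ⧸ v.asIdeal)
  have hpr : p.Prime := CharP.char_is_prime (𝓞 k ⧸ v.asIdeal) p
  refine ⟨p, hpr, ?_⟩
  rw [← Ideal.Quotient.eq_zero_iff_mem, map_natCast]
  exact CharP.cast_eq_zero _ p

omit [NumberField k] in
private theorem KSa_dvd (v : HeightOneSpectrum (𝓞 k)) {p P : ℕ} (h : p ∣ P)
    (hp : (p : 𝓞 k) ∈ v.asIdeal) : (P : 𝓞 k) ∈ v.asIdeal := by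
  obtain ⟨c, rfl⟩ := h
  rw [Nat.cast_mul]
  exact v.asIdeal.mul_mem_right _ hp

theorem fin_nint (x : k) :
    {v : HeightOneSpectrum (𝓞 k) | 1 < ‖algebraMap k (v.adicCompletion k) x‖}.Finite := by
  refine (HeightOneSpectrum.Support.finite (𝓞 k) x).subset fun v hv => ?_
  exact (KSa_gt v x).1 hv

theorem fin_nunit (x : k) (hx : x ≠ 0) :
    {v : HeightOneSpectrum (𝓞 k) | ‖algebraMap k (v.adicCompletion k) x‖ ≠ 1}.Finite := by
  refine ((fin_nint x).union (fin_nint x⁻¹)).subset fun v hv => ?_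
  rcases lt_or_gt_of_ne (show ‖algebraMap k (v.adicCompletion k) x‖ ≠ 1 from hv) with h | h
  · right
    change 1 < ‖algebraMap k (v.adicCompletion k) x⁻¹‖
    rw [map_inv₀, norm_inv]
    exact (one_lt_inv₀ (norm_pos_iff.2 ((map_ne_zero _).2 hx))).2 h
  · left
    exact h

theorem exists_a (P : ℕ) (hP : P ≠ 0) (F : Finset (HeightOneSpectrum (𝓞 k)))
    (hF : ∀ v ∈ F, (P : 𝓞 k) ∉ v.asIdeal) :
    ∃ a : ℕ, 1 < a ∧ a.Coprime P ∧ ∀ v ∈ F, (a : 𝓞 k) ∈ v.asIdeal := by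
  classical
  choose p hp hpm using fun v : HeightOneSpectrum (𝓞 k) => KSa_prime v
  obtain ⟨q, hq1, hq⟩ := Nat.exists_infinite_primes (P + 1)
  refine ⟨q * ∏ v ∈ F, p v, ?_, ?_, fun v hv => ?_⟩
  · have h1 : 1 ≤ ∏ v ∈ F, p v := Finset.one_le_prod' fun v _ => (hp v).one_lt.le
    calc 1 < q := hq.one_lt
      _ = q * 1 := (mul_one q).symm
      _ ≤ q * ∏ v ∈ F, p v := Nat.mul_le_mul_left q h1
  · refine Nat.Coprime.mul_left ?_ (Nat.Coprime.prod_left fun v hv => ?_)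
    · refine (Nat.Prime.coprime_iff_not_dvd hq).2 fun h => ?_
      have := Nat.le_of_dvd (Nat.pos_of_ne_zero hP) h
      omega
    · refine (Nat.Prime.coprime_iff_not_dvd (hp v)).2 fun h => ?_
      exact hF v hv (KSa_dvd v h (hpm v))
  · exact KSa_dvd v ((Finset.dvd_prod_of_mem p hv).mul_left q) (hpm v)

theorem exists_P (P0 : ℕ) (hP0 : P0 ≠ 0) (F : Finset (HeightOneSpectrum (𝓞 k))) :
    ∃ (P : ℕ) (T : Finset (HeightOneSpectrum (𝓞 k))), P ≠ 0 ∧ P0 ∣ P ∧ F ⊆ T ∧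
      ∀ v, v ∈ T ↔ (P : 𝓞 k) ∈ v.asIdeal := by
  classical
  choose p hp hpm using fun v : HeightOneSpectrum (𝓞 k) => KSa_prime v
  have hP : P0 * ∏ v ∈ F, p v ≠ 0 :=
    mul_ne_zero hP0 (Finset.prod_ne_zero_iff.2 fun v _ => (hp v).ne_zero)
  have hPk : Ideal.span {((P0 * ∏ v ∈ F, p v : ℕ) : 𝓞 k)} ≠ 0 := by
    rw [Submodule.zero_eq_bot, ne_eq, Ideal.span_singleton_eq_bot]
    exact Nat.cast_ne_zero.2 hP
  have hfin : {v : HeightOneSpectrum (𝓞 k) |
      ((P0 * ∏ v ∈ F, p v : ℕ) : 𝓞 k) ∈ v.asIdeal}.Finite := by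
    refine (Ideal.finite_factors hPk).subset fun v hv => ?_
    exact Ideal.dvd_span_singleton.2 hv
  refine ⟨P0 * ∏ v ∈ F, p v, hfin.toFinset, hP, Dvd.intro _ rfl, fun v hv => ?_, fun v => ?_⟩
  · rw [Set.Finite.mem_toFinset]
    exact KSa_dvd v ((Finset.dvd_prod_of_mem p hv).mul_left P0) (hpm v)
  · rw [Set.Finite.mem_toFinset]
    exact Iff.rfl

/-- a natural number outside the prime has norm 1 -/
theorem norm_nat_eq (v : HeightOneSpectrum (𝓞 k)) (a : ℕ) (ha : (a : 𝓞 k) ∉ v.asIdeal) :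
    ‖(a : v.adicCompletion k)‖ = 1 := by
  rw [KSa_cast]
  refine le_antisymm ?_ ?_
  · rw [KSa_le_one]
    exact v.valuation_le_one _
  · rw [← not_lt, KSa_lt_one, v.valuation_lt_one_iff_mem]
    exact ha

/-- a natural number in the prime has norm less than 1 -/
theorem norm_nat_lt (v : HeightOneSpectrum (𝓞 k)) (a : ℕ) (ha : (a : 𝓞 k) ∈ v.asIdeal) :
    ‖(a : v.adicCompletion k)‖ < 1 := by
  rw [KSa_cast, KSa_lt_one, v.valuation_lt_one_iff_mem]
  exact ha

/-- an integer has norm at most 1 -/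
theorem norm_int_le (v : HeightOneSpectrum (𝓞 k)) (x : 𝓞 k) :
    ‖algebraMap k (v.adicCompletion k) (x : k)‖ ≤ 1 := by
  rw [KSa_le_one]
  exact v.valuation_le_one _

end NF83
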