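import Pool.Agent.H.MP_83e36b_nt.hm.KT
import Pool.Agent.H.MP_83e36b_nt.hm.KGenF
import Pool.Agent.H.MP_83e36b_nt.hm.KNp
import Pool.Agent.H.MP_83e36b_nt.hm.KSa

/-! The choice of the global polynomial, over a number field.

PROOF (compare sp/KSetup.lean). `letI : PlSys k := plSys k T`; `Pk k = InfinitePlace k ⊕ T` is finite, take
`S = Finset.univ` in `exists_lineF`, with the neighbourhoods `U i ∩ {det (hk a) ≠ 0}`; it gives `r`, `A`, `B`,
`V`. Bad finite places: those not in `T` where `b` is not a unit or some `r i` or some coefficient of `A`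
or `B` is not integral; they are finitely many (`fin_nint`, `fin_nunit` of KSa). `exists_a` (KSa) gives `a > 1` prime to `P` with
`a ∈ v.asIdeal` for all bad `v`. The places `v` with `a ∈ v.asIdeal` are not in `T` (`a`, `P` coprime).
`N0` so large that for the finitely many `v` with `a ∈ v.asIdeal` and all `N ≥ N0`, `i ≠ 1`:
`‖G_i (a^N)^2)^(n + 1 - i)‖ < 1` where `G_0 = b`, `G_i = r_i` (`‖a‖_v < 1`). `exists_tF` with `e = n`, the points
`g i 1`, gives `t`, `N`. `G = lineP b t r`. `det (hk G) ≠ 0`: its image at `p0` is nonzero.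
For `v` with `a ∈ v.asIdeal`: the first alternative with `q = a^N`. For the other `v ∉ T`: `b` is a unit, `G`
is integral, and `A(t) dM G + B(t) dA G dB G = 1` with `A(t)`, `B(t)`, `dM G`, `dA G`, `dB G` integral (as in
`KSetup_eval`, `KSetup_int`, `KSetup_alt`, with the subring `{‖x‖ ≤ 1}` of `v.adicCompletion k`).
-/

set_option autoImplicit false

open Topology Matrix NumberField IsDedekindDomain AnWA SpinWA Polynomial

namespace NF83

section gen

variable {k : Type} [Field k] {L : Type*} [NormedField L]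

/-- the subring of the integral elements -/
private def KS_sub (hu : ∀ x y : L, ‖x + y‖ ≤ max ‖x‖ ‖y‖) : Subring L where
  carrier := {x | ‖x‖ ≤ 1}
  mul_mem' := by
    intro x y hx hy
    show ‖x * y‖ ≤ 1
    rw [norm_mul]
    exact mul_le_one₀ hx (norm_nonneg _) hy
  one_mem' := by
    show ‖(1 : L)‖ ≤ 1
    rw [norm_one]
  add_mem' := by
    intro x y hx hy
    exact (hu x y).trans (max_le hx hy)
  zero_mem' := by
    show ‖(0 : L)‖ ≤ 1
    rw [norm_zero]
    exact zero_le_one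
  neg_mem' := by
    intro x hx
    show ‖-x‖ ≤ 1
    rw [norm_neg]
    exact hx

private theorem KS_eval (hu : ∀ x y : L, ‖x + y‖ ≤ max ‖x‖ ‖y‖) (φ : k →+* L) (A : k[X]) {t : k}
    (ht : ‖φ t‖ ≤ 1) (hA : ∀ i ∈ Finset.range (A.natDegree + 1), ‖φ (A.coeff i)‖ ≤ 1) :
    ‖φ (A.eval t)‖ ≤ 1 := by
  have h1 : φ (A.eval t) ∈ KS_sub hu := by
    rw [Polynomial.eval_eq_sum_range, map_sum]
    refine Subring.sum_mem _ fun i hi => ?_
    rw [map_mul, map_pow]
    exact Subring.mul_mem _ (hA i hi) (Subring.pow_mem _ ht i)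
  exact h1

private theorem KS_int (hu : ∀ x y : L, ‖x + y‖ ≤ max ‖x‖ ‖y‖) (φ : k →+* L) {n : ℕ}
    {G : Fin (n + 1) → k} (hG : ∀ i, ‖φ (G i)‖ ≤ 1) :
    ‖φ (dM G)‖ ≤ 1 ∧ ‖φ (dA G)‖ ≤ 1 ∧ ‖φ (dB G)‖ ≤ 1 := by
  obtain ⟨g, hg⟩ : ∃ g : Fin (n + 1) → KS_sub hu, ∀ i, (g i : L) = φ (G i) :=
    ⟨fun i => ⟨φ (G i), hG i⟩, fun _ => rfl⟩
  have e0 : (fun i => (KS_sub hu).subtype (g i)) = fun i => φ (G i) := funext hg
  have e1 : φ (dM G) = ((dM g : KS_sub hu) : L) := by
    have h1 := dM_map (KS_sub hu).subtype g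
    rw [e0, ← dM_map φ G] at h1
    exact h1.symm
  have e2 : φ (dA G) = ((dA g : KS_sub hu) : L) := by
    have h1 := dA_map (KS_sub hu).subtype g
    rw [e0, ← dA_map φ G] at h1
    exact h1.symm
  have e3 : φ (dB G) = ((dB g : KS_sub hu) : L) := by
    have h1 := dB_map (KS_sub hu).subtype g
    rw [e0, ← dB_map φ G] at h1
    exact h1.symm
  rw [e1, e2, e3]
  exact ⟨(dM g).2, (dA g).2, (dB g).2⟩

/-- The ultrametric alternative. -/
private theorem KS_alt (hu : ∀ x y : L, ‖x + y‖ ≤ max ‖x‖ ‖y‖) {a M b x y : L} (ha : ‖a‖ ≤ 1)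
    (hM : ‖M‖ ≤ 1) (hb : ‖b‖ ≤ 1) (hx : ‖x‖ ≤ 1) (hy : ‖y‖ ≤ 1)
    (h : a * M + b * (x * y) = 1) : ‖M‖ = 1 ∨ (‖x‖ = 1 ∧ ‖y‖ = 1) := by
  rcases hM.lt_or_eq with h1 | h1
  · right
    have h2 : ‖a * M‖ < 1 := by
      rw [norm_mul]
      calc ‖a‖ * ‖M‖ ≤ 1 * ‖M‖ := mul_le_mul_of_nonneg_right ha (norm_nonneg _)
        _ < 1 := by rw [one_mul]; exact h1
    have h3 : ¬ ‖b * (x * y)‖ < 1 := by
      intro h4
      have h5 := hu (a * M) (b * (x * y))
      rw [h, norm_one] at h5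
      exact absurd h5 (not_le.2 (max_lt h2 h4))
    rw [norm_mul, norm_mul, not_lt] at h3
    have hb0 := norm_nonneg b
    have hx0 := norm_nonneg x
    have hy0 := norm_nonneg y
    have h6 : ‖x‖ * ‖y‖ ≤ 1 := mul_le_one₀ hx hy0 hy
    have h7 : 1 ≤ ‖x‖ * ‖y‖ :=
      h3.trans (mul_le_of_le_one_left (mul_nonneg hx0 hy0) hb)
    constructor
    · refine le_antisymm hx ?_
      nlinarith
    · refine le_antisymm hy ?_
      nlinarith
  · exact Or.inl h1

/-- High powers of a small number absorb any number. -/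
private theorem KS_small (x y : L) (hy : ‖y‖ < 1) :
    ∃ N0 : ℕ, ∀ N, N0 ≤ N → ∀ e, 0 < e → ‖x * ((y ^ N) ^ 2) ^ e‖ < 1 := by
  obtain ⟨N0, hN0⟩ := exists_pow_lt_of_lt_one (show (0 : ℝ) < 1 / (‖x‖ + 1) by positivity) hy
  refine ⟨N0, fun N hN e he => ?_⟩
  have e1 : ‖x * ((y ^ N) ^ 2) ^ e‖ = ‖x‖ * ‖y‖ ^ (N * 2 * e) := by
    rw [norm_mul, norm_pow, norm_pow, norm_pow, pow_mul, pow_mul]
  rw [e1]
  have h1 : ‖y‖ ^ (N * 2 * e) ≤ ‖y‖ ^ N0 := by
    refine pow_le_pow_of_le_one (norm_nonneg _) hy.le ?_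
    nlinarith
  have h2 : ‖y‖ ^ (N * 2 * e) * (‖x‖ + 1) < 1 := by
    have h3 := h1.trans_lt hN0
    rwa [lt_div_iff₀ (by positivity)] at h3
  have h4 : 0 ≤ ‖y‖ ^ (N * 2 * e) := by positivity
  nlinarith

private theorem KS_nhds0 {L : Type*} [NontriviallyNormedField L] {n : ℕ} (g : Fin (n + 1) → L)
    (U : Set (Fin (n + 1) → L)) (hU : U ∈ 𝓝 g) (hg : (hk g).det ≠ 0) :
    U ∩ {a | (hk a).det ≠ 0} ∈ 𝓝 g := by
  refine Filter.inter_mem hU ?_
  have h1 : Continuous fun a : Fin (n + 1) → L => (hk a).det := continuous_hk.matrix_det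
  have h2 : IsOpen {x : L | x ≠ 0} := isOpen_ne
  have h3 : IsOpen ((fun a : Fin (n + 1) → L => (hk a).det) ⁻¹' {x : L | x ≠ 0}) := h2.preimage h1
  exact h3.mem_nhds hg

private theorem KS_nhds (hL : ∃ x : L, 1 < ‖x‖) {n : ℕ} (g : Fin (n + 1) → L)
    (U : Set (Fin (n + 1) → L)) (hU : U ∈ 𝓝 g) (hg : (hk g).det ≠ 0) :
    U ∩ {a | (hk a).det ≠ 0} ∈ 𝓝 g := by
  let _ : NontriviallyNormedField L := { (inferInstance : NormedField L) with non_trivial := hL }
  exact KS_nhds0 g U hU hg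

end gen

variable {k : Type} [Field k] [NumberField k]

private theorem KS_norm (v : HeightOneSpectrum (𝓞 k)) (x : v.adicCompletion k) :
    ‖x‖ = WithZeroMulInt.toNNReal (NumberField.HeightOneSpectrum.absNorm_ne_zero v)
      (Valued.v x) :=
  FinitePlace.norm_def (v := v) x

private theorem KS_ultra (v : HeightOneSpectrum (𝓞 k)) (x y : v.adicCompletion k) :
    ‖x + y‖ ≤ max ‖x‖ ‖y‖ := by
  have mono : ∀ {x y : v.adicCompletion k}, Valued.v x ≤ Valued.v y → ‖x‖ ≤ ‖y‖ := by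
    intro x y h
    rw [KS_norm, KS_norm]
    exact_mod_cast (WithZeroMulInt.toNNReal_strictMono
      (NumberField.HeightOneSpectrum.one_lt_absNorm_nnreal v)).monotone h
  rcases le_total (Valued.v x) (Valued.v y) with h | h
  · refine le_max_of_le_right (mono ?_)
    exact (Valuation.map_add _ x y).trans (max_le h le_rfl)
  · refine le_max_of_le_left (mono ?_)
    exact (Valuation.map_add _ x y).trans (max_le le_rfl h)

/-- The line over the completions at `T` and at infinity. -/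
private theorem KS_line {n : ℕ} (h1n : 1 ≤ n) (T : Finset (HeightOneSpectrum (𝓞 k))) (b : k)
    (hb : b ≠ 0) (g : ∀ i, Fin (n + 1) → Compl T i) (hg0 : ∀ i, g i 0 = complEmb T i b)
    (U : ∀ i, Set (Fin (n + 1) → Compl T i)) (hU : ∀ i, U i ∈ 𝓝 (g i)) :
    ∃ (r : Fin (n + 1) → k) (A B : k[X]) (V : ∀ i, Set (Compl T i)),
      A * dM (lineP (C b) X fun i : Fin (n + 1) => C (r i)) +
        B * (dA (lineP (C b) X fun i : Fin (n + 1) => C (r i)) *
          dB (lineP (C b) X fun i : Fin (n + 1) => C (r i))) = 1 ∧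
      (∀ i, V i ∈ 𝓝 (g i 1)) ∧
      ∀ t : k, (∀ i, complEmb T i t ∈ V i) → ∀ i, (fun j => complEmb T i (lineP b t r j)) ∈ U i := by
  let iP : PlSys k := plSys k T
  have hfi : Finite (InfinitePlace k ⊕ {v // v ∈ T}) := inferInstance
  have hfi' : (Set.univ : Set (InfinitePlace k ⊕ {v // v ∈ T})).Finite := Set.finite_univ
  obtain ⟨r, A, B, V, hAB, hV, hline⟩ := exists_lineF (kk := k) h1n
    (hfi'.toFinset : Finset (Pk k)) (hfi'.mem_toFinset.2 (Set.mem_univ _)) b hb g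
    (fun v _ => hg0 v) U (fun v _ => hU v)
  refine ⟨r, A, B, V, hAB, fun i => hV i (hfi'.mem_toFinset.2 (Set.mem_univ _)), ?_⟩
  intro t ht i
  exact hline t (fun v _ => ht v) i (hfi'.mem_toFinset.2 (Set.mem_univ _))

theorem setupF {n : ℕ} (h1n : 1 ≤ n) (P : ℕ) (hP : P ≠ 0)
    (T : Finset (HeightOneSpectrum (𝓞 k))) (hT : ∀ v, v ∈ T ↔ (P : 𝓞 k) ∈ v.asIdeal) (c b : k)
    (hb : b ≠ 0) (hc : ∀ v, v ∉ T → ‖algebraMap k (v.adicCompletion k) c‖ = 1)
    (g : ∀ i, Fin (n + 1) → Compl T i) (hg0 : ∀ i, g i 0 = complEmb T i b)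
    (hgd : ∀ i, (hk (g i)).det ≠ 0) (U : ∀ i, Set (Fin (n + 1) → Compl T i))
    (hU : ∀ i, U i ∈ 𝓝 (g i)) :
    ∃ G : Fin (n + 1) → k, G 0 = b ∧ (∀ i, (fun j => complEmb T i (G j)) ∈ U i) ∧
      (hk G).det ≠ 0 ∧
      ∀ v : HeightOneSpectrum (𝓞 k), v ∉ T →
        (∃ q : v.adicCompletion k, q ≠ 0 ∧
          (∀ i : Fin (n + 1), (i : ℕ) = 1 → ‖algebraMap k (v.adicCompletion k) (G i) *
            (q ^ 2) ^ n + algebraMap k (v.adicCompletion k) c‖ < 1) ∧
          ∀ i : Fin (n + 1), (i : ℕ) ≠ 1 → ‖algebraMap k (v.adicCompletion k) (G i) *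
            (q ^ 2) ^ (n + 1 - (i : ℕ))‖ < 1) ∨
        (‖algebraMap k (v.adicCompletion k) b‖ = 1 ∧
          (∀ i, ‖algebraMap k (v.adicCompletion k) (G i)‖ ≤ 1) ∧
          (‖algebraMap k (v.adicCompletion k) (dM G)‖ = 1 ∨
            (‖algebraMap k (v.adicCompletion k) (dA G)‖ = 1 ∧
              ‖algebraMap k (v.adicCompletion k) (dB G)‖ = 1))) := by
  classical
  -- shrink the neighbourhoods
  obtain ⟨U', hU'def⟩ : ∃ U' : ∀ i, Set (Fin (n + 1) → Compl T i),
      ∀ i, U' i = U i ∩ {a | (hk a).det ≠ 0} := ⟨fun i => U i ∩ {a | (hk a).det ≠ 0}, fun _ => rfl⟩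
  have hU' : ∀ i, U' i ∈ 𝓝 (g i) := by
    intro i
    rw [hU'def]
    exact KS_nhds (WA83.exists_one_lt_norm T i) (g i) (U i) (hU i) (hgd i)
  obtain ⟨r, A, B, V, hAB, hV, hline⟩ := KS_line h1n T b hb g hg0 U' hU'
  -- the bad places
  have hBadfin : ({v : HeightOneSpectrum (𝓞 k) | ‖algebraMap k (v.adicCompletion k) b‖ ≠ 1} ∪
    (⋃ i : Fin (n + 1), {v : HeightOneSpectrum (𝓞 k) |
      1 < ‖algebraMap k (v.adicCompletion k) (r i)‖}) ∪
    (⋃ i ∈ Finset.range (A.natDegree + 1), {v : HeightOneSpectrum (𝓞 k) |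
      1 < ‖algebraMap k (v.adicCompletion k) (A.coeff i)‖}) ∪
    (⋃ i ∈ Finset.range (B.natDegree + 1), {v : HeightOneSpectrum (𝓞 k) |
      1 < ‖algebraMap k (v.adicCompletion k) (B.coeff i)‖})).Finite := by
    refine ((fin_nunit b hb).union ?_ |>.union ?_ |>.union ?_)
    · exact Set.finite_iUnion fun i => fin_nint (r i)
    · exact Set.Finite.biUnion (Finset.finite_toSet _) fun i _ => fin_nint _
    · exact Set.Finite.biUnion (Finset.finite_toSet _) fun i _ => fin_nint _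
  obtain ⟨a, ha1, haP, haF⟩ := exists_a P hP (hBadfin.toFinset.filter fun v => v ∉ T)
    (fun v hv hPv => (Finset.mem_filter.1 hv).2 ((hT v).2 hPv))
  have hnot : ∀ v : HeightOneSpectrum (𝓞 k), v ∉ T → (a : 𝓞 k) ∉ v.asIdeal →
      v ∉ hBadfin.toFinset := by
    intro v hvT hva hvB
    exact hva (haF v (Finset.mem_filter.2 ⟨hvB, hvT⟩))
  have haT : ∀ v : HeightOneSpectrum (𝓞 k), (a : 𝓞 k) ∈ v.asIdeal → v ∉ T := by
    intro v hva hvT
    have hPv := (hT v).1 hvT
    have h1 : IsCoprime (a : ℤ) (P : ℤ) := Nat.isCoprime_iff_coprime.2 haP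
    obtain ⟨x, y, hxy⟩ := h1
    have h2 : (x : 𝓞 k) * (a : 𝓞 k) + (y : 𝓞 k) * (P : 𝓞 k) = 1 := by
      have h3 := congrArg (fun z : ℤ => (z : 𝓞 k)) hxy
      push_cast at h3
      exact h3
    have h4 : (1 : 𝓞 k) ∈ v.asIdeal := by
      rw [← h2]
      exact v.asIdeal.add_mem (v.asIdeal.mul_mem_left _ hva) (v.asIdeal.mul_mem_left _ hPv)
    exact v.isPrime.ne_top ((Ideal.eq_top_iff_one _).2 h4)
  have haL : ∀ v : HeightOneSpectrum (𝓞 k), ((a : k) : k) ≠ 0 ∧
      (a : v.adicCompletion k) = algebraMap k (v.adicCompletion k) (a : k) := by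
    intro v
    refine ⟨?_, (map_natCast _ _).symm⟩
    have : a ≠ 0 := by omega
    exact_mod_cast this
  have hafin : {v : HeightOneSpectrum (𝓞 k) | (a : 𝓞 k) ∈ v.asIdeal}.Finite := by
    have ha0 : (a : k) ≠ 0 := by
      have : a ≠ 0 := by omega
      exact_mod_cast this
    refine (fin_nunit (a : k) ha0).subset ?_
    intro v hv
    have h1 := norm_nat_lt v a hv
    rw [(haL v).2] at h1
    exact h1.ne
  -- the parameter
  have hN : ∀ (v : HeightOneSpectrum (𝓞 k)) (x : k), ∃ N0 : ℕ, (a : 𝓞 k) ∈ v.asIdeal →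
      ∀ N, N0 ≤ N → ∀ e, 0 < e → ‖algebraMap k (v.adicCompletion k) x *
        (((a : v.adicCompletion k) ^ N) ^ 2) ^ e‖ < 1 := by
    intro v x
    by_cases hv : (a : 𝓞 k) ∈ v.asIdeal
    · obtain ⟨N0, hN0⟩ := KS_small (algebraMap k (v.adicCompletion k) x)
        (a : v.adicCompletion k) (norm_nat_lt v a hv)
      exact ⟨N0, fun _ => hN0⟩
    · exact ⟨0, fun h => absurd h hv⟩
  choose N1 hN1 using hN
  obtain ⟨N0, hN0b, hN0r⟩ : ∃ N0 : ℕ, (∀ v : HeightOneSpectrum (𝓞 k), (a : 𝓞 k) ∈ v.asIdeal →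
      N1 v b ≤ N0) ∧ ∀ v : HeightOneSpectrum (𝓞 k), (a : 𝓞 k) ∈ v.asIdeal →
      ∀ i, N1 v (r i) ≤ N0 := by
    refine ⟨hafin.toFinset.sup fun v => max (N1 v b)
      ((Finset.univ : Finset (Fin (n + 1))).sup fun i => N1 v (r i)), ?_, ?_⟩
    · intro v hv
      exact le_trans (le_max_left _ _) (Finset.le_sup (f := fun v => max (N1 v b)
        ((Finset.univ : Finset (Fin (n + 1))).sup fun i => N1 v (r i)))
        (hafin.mem_toFinset.2 hv))
    · intro v hv i
      refine le_trans ?_ (Finset.le_sup (f := fun v => max (N1 v b)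
        ((Finset.univ : Finset (Fin (n + 1))).sup fun i => N1 v (r i)))
        (hafin.mem_toFinset.2 hv))
      exact le_trans (Finset.le_sup (f := fun i : Fin (n + 1) => N1 v (r i))
        (Finset.mem_univ i)) (le_max_right _ _)
  obtain ⟨t, N, hNN, ht1, ht2, ht3⟩ := exists_tF P hP T hT a ha1 haP (fun i => g i 1) V hV c
    (fun v hv => (hc v (haT v hv)).le) (e := n) (by omega) N0
  -- the polynomial
  obtain ⟨G, hG⟩ : ∃ G : Fin (n + 1) → k, G = lineP b t r := ⟨_, rfl⟩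
  have hG0 : G 0 = b := by
    rw [hG]
    unfold lineP
    rw [if_pos (by simp)]
  have hG1 : ∀ i : Fin (n + 1), (i : ℕ) = 1 → G i = t := by
    intro i hi
    rw [hG]
    unfold lineP
    rw [if_neg (by omega), if_pos hi]
  have hGi : ∀ i : Fin (n + 1), (i : ℕ) ≠ 1 → G i = b ∨ G i = r i := by
    intro i hi
    rw [hG]
    unfold lineP
    by_cases h0 : (i : ℕ) = 0
    · left; rw [if_pos h0]
    · right; rw [if_neg h0, if_neg hi]
  have hmem := hline t ht1
  rw [← hG] at hmem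
  have hmem1 : ∀ i, (fun j => complEmb T i (G j)) ∈ U i := by
    intro i
    have h1 := hmem i
    rw [hU'def] at h1
    exact h1.1
  have hmem2 : ∀ i, (hk fun j => complEmb T i (G j)).det ≠ 0 := by
    intro i
    have h1 := hmem i
    rw [hU'def] at h1
    exact h1.2
  refine ⟨G, hG0, hmem1, ?_, ?_⟩
  · intro h0
    apply hmem2 (Sum.inl (Classical.arbitrary (InfinitePlace k)))
    rw [← hk_det_map, h0, map_zero]
  · intro v hvT
    by_cases hva : (a : 𝓞 k) ∈ v.asIdeal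
    · left
      refine ⟨(a : v.adicCompletion k) ^ N, ?_, ?_, ?_⟩
      · refine pow_ne_zero _ ?_
        rw [(haL v).2]
        exact (_root_.map_ne_zero _).2 (haL v).1
      · intro i hi
        rw [hG1 i hi]
        exact ht3 v hva
      · intro i hi
        have hi' : 0 < n + 1 - (i : ℕ) := by
          have := i.2
          omega
        rcases hGi i hi with h | h
        · rw [h]
          exact hN1 v b hva N ((hN0b v hva).trans hNN) _ hi'
        · rw [h]
          exact hN1 v (r i) hva N ((hN0r v hva i).trans hNN) _ hi'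
    · right
      have hvB := hnot v hvT hva
      rw [hBadfin.mem_toFinset] at hvB
      simp only [Set.mem_union, Set.mem_iUnion, Set.mem_ofPred_eq, not_or, not_exists,
        not_lt, not_not] at hvB
      obtain ⟨⟨⟨hb1, hr1⟩, hA1⟩, hB1⟩ := hvB
      have ht := ht2 v hvT hva
      have hGint : ∀ i, ‖algebraMap k (v.adicCompletion k) (G i)‖ ≤ 1 := by
        intro i
        by_cases hi : (i : ℕ) = 1
        · rw [hG1 i hi]; exact ht
        · rcases hGi i hi with h | h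
          · rw [h, hb1]
          · rw [h]; exact hr1 i
      refine ⟨hb1, hGint, ?_⟩
      obtain ⟨iM, iA, iB⟩ := KS_int (KS_ultra v) (algebraMap k (v.adicCompletion k)) hGint
      have hev1 := congrArg (fun P : k[X] => P.eval t) hAB
      simp only [eval_add, eval_mul, eval_one] at hev1
      rw [eval_dM, eval_dA, eval_dB, ← hG] at hev1
      have hev2 := congrArg (algebraMap k (v.adicCompletion k)) hev1
      rw [map_add, map_mul, map_mul, map_mul, map_one] at hev2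
      exact KS_alt (KS_ultra v) (KS_eval (KS_ultra v) _ A ht hA1) iM
        (KS_eval (KS_ultra v) _ B ht hB1) iA iB hev2

end NF83
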