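import Pool.Agent.H.MP_83e36b_nt.sp.KScale
import Pool.Agent.H.MP_83e36b_nt.sp.KCore

/-! Scaling a polynomial and its class. -/

set_option autoImplicit false

open Topology Matrix SpinWA

namespace NF83

theorem coreF_scl {F : Type*} [Field F] (h2 : (2 : F) ≠ 0) {n : ℕ} (hev : Even (n + 1)) {c lam : F}
    (hc : c ≠ 0) (hl : lam ≠ 0) (G : Fin (n + 1) → F) (hG0 : G 0 ≠ 0) (hM : (hk G).det ≠ 0) :
    coreF c 1 (scl lam G) = coreF c lam G := by
  have hkk : (n + 1) / 2 * 2 = n + 1 := Nat.div_mul_cancel hev.two_dvd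
  have hcf : cf G 0 = G 0 := by
    unfold cf
    rw [dif_pos (Nat.succ_pos n)]
    rfl
  have hd1 : (hk1 G).det ≠ 0 := by
    rw [det_hk1, hcf]
    exact mul_ne_zero (mul_ne_zero (pow_ne_zero _ (neg_ne_zero.2 one_ne_zero)) hG0) hM
  have e1 : cl (2 * c * cf (scl lam G) 0) = cl (2 * c * cf G 0) := by
    rw [cf_scl, hcf]
    have e : 2 * c * (lam ^ (n + 1) * G 0) = 2 * c * G 0 * (lam ^ ((n + 1) / 2)) ^ 2 := by
      rw [← pow_mul, hkk]
      ring
    rw [e]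
    exact cl_mul_sq _ (pow_ne_zero _ hl)
  unfold coreF
  rw [e1, cls_hk_scl h2 hl G hM h2, cls_hk1_scl h2 hl G hd1
    (mul_ne_zero (neg_ne_zero.2 h2) one_ne_zero), mul_one]

end NF83
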