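import Pool.Agent.H.MP_83e36b_nt.hm.KStep
import Pool.Agent.H.MP_83e36b_nt.hm.KScl
import Pool.Agent.H.MP_83e36b_nt.hm.KS
import Pool.Agent.H.MP_83e36b_nt.hm.KG
import Pool.Agent.H.MP_83e36b_nt.hm.KR

/-! The core theorem over a number field.

PROOF (compare sp/KCore.lean). For every `i` let `V i ⊆ U i` be an open neighbourhood of `g i` on which
`coreF (emb c) 1` is constant along `a 0 = g i 0` (`coreF_nhds`, sp/KCore; `NontriviallyNormedField` and
completeness of `Compl T i` come from `plSys k T`). `setupF` with the neighbourhoods `V i` gives `G`,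
`G 0 = b`. So `coreF_map` gives the equality of the images of `coreF c 1 G` and of `∑ cl (r j)` at all
`i` (`hcl`): these are the hypotheses `hinf`, `hTc` and the first alternative of `hfin` for `v ∈ T` of
`core_stepF`. For `v ∉ T`: `2 ∉ v.asIdeal`, `n ∉ v.asIdeal` (`hT`, `2 ∣ P`, `n ∣ P`), `exists_ndat`; first
alternative of `setupF`: `NDat.large`; second alternative: `NDat.good`: either the equality, or
`‖dM G‖ = ‖π‖ ‖s'‖²`, so `‖dlt G‖ = ‖π‖ ‖s'‖²` (`‖G 0‖ = ‖b‖ = 1`) and `NDat.odd4` applies (the images of `dM G`,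
`dlt G` : `dM_map`). Here `coreF_map` is used again, and the image of `r` has norm 1 entries, product
`(-1)^e c s²`.
`core_stepF` with neighbourhoods `W' i` of 1 such that for `lam ∈ W' i` the vector `scl lam (emb G)` is in
`V i` (`V i` is open, `scl 1 G = G`) and `lam^(m/2) ∈ W i` gives `lam`. `G' = scl lam G`,
`κ = lam^((n + 1)/2)`: `G' 0 = lam^(n + 1) G 0 = b κ²`; `det (hk G') ≠ 0` (`det_hk_scl`);
`coreF c 1 G' = coreF c lam G`: `cf_scl`, `cl_mul_sq`, `cls_hk_scl`, `cls_hk1_scl` (sp/KScale).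
-/

set_option autoImplicit false

open Topology Matrix NumberField IsDedekindDomain AnWA SpinWA DC83

namespace NF83

variable {k : Type} [Field k] [NumberField k]

private theorem KCoreF_nhds (T : Finset (HeightOneSpectrum (𝓞 k))) (i) {n : ℕ} (c : Compl T i)
    (g : Fin (n + 1) → Compl T i) (hd : (hk g).det ≠ 0) (h0 : g 0 ≠ 0) :
    ∀ᶠ a in 𝓝 g, a 0 = g 0 → coreF c 1 a = coreF c 1 g := by
  let iN : NontriviallyNormedField (Compl T i) :=
    { (inferInstance : NormedField (Compl T i)) with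
      non_trivial := WA83.exists_one_lt_norm T i }
  have : CompleteSpace (Compl T i) := WA83.complete_compl T i
  exact coreF_nhds c g hd h0

private theorem KCoreF_cf {K : Type*} [CommRing K] {n : ℕ} (a : Fin (n + 1) → K) :
    cf a 0 = a 0 := by
  unfold cf
  rw [dif_pos (Nat.succ_pos n)]
  rfl

private theorem KCoreF_scl {F L : Type*} [Field F] [Field L] (φ : F →+* L) {n : ℕ} (l : F)
    (G : Fin n → F) : (fun j => φ (scl l G j)) = scl (φ l) fun j => φ (G j) := by
  funext j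
  unfold scl
  rw [map_mul, map_pow]

private theorem KCoreF_scl_one {F : Type*} [Field F] {n : ℕ} (G : Fin n → F) :
    scl 1 G = G := by
  funext j
  unfold scl
  rw [one_pow, one_mul]

private theorem KCoreF_scl_cont {F : Type*} [NormedField F] {n : ℕ} (G : Fin n → F) :
    Continuous fun l : F => scl l G := by
  unfold scl
  fun_prop

private theorem KCoreF_two {K L : Type*} [Field K] [CharZero K] [Field L] (φ : K →+* L) :
    (2 : L) ≠ 0 := by
  rw [← map_ofNat φ 2]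
  exact (map_ne_zero φ).2 two_ne_zero

private theorem KCoreF_map {K L : Type*} [Field K] [CharZero K] [Field L] (φ : K →+* L) {n : ℕ}
    (c : K) (G : Fin (n + 1) → K) (h0 : G 0 ≠ 0) (hd : (hk G).det ≠ 0) :
    WG.map φ (coreF c 1 G) = coreF (φ c) 1 fun j => φ (G j) := by
  have h1 : (hk1 G).det ≠ 0 := by
    rw [det_hk1, KCoreF_cf]
    exact mul_ne_zero (mul_ne_zero (pow_ne_zero _ (neg_ne_zero.mpr one_ne_zero)) h0) hd
  have h := coreF_map φ two_ne_zero (KCoreF_two φ) c 1 G hd h1 one_ne_zero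
  rwa [map_one] at h

private theorem KCoreF_sum {K L : Type*} [Field K] [Field L] (φ : K →+* L) {N : ℕ}
    (r : Fin N → K) : WG.map φ (∑ i, cl (r i)) = ∑ i, cl (φ (r i)) := by
  rw [map_sum]
  exact Finset.sum_congr rfl fun i _ => WG.map_cl φ (r i)

/-- the finite places which are not in `T` -/
private theorem KCoreF_fin {n : ℕ} (hev : Even (n + 1)) (v : HeightOneSpectrum (𝓞 k))
    (h2 : (2 : 𝓞 k) ∉ v.asIdeal) (hn : ((n : ℕ) : 𝓞 k) ∉ v.asIdeal) {c b : k} (hb : b ≠ 0)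
    (hc : ‖algebraMap k (v.adicCompletion k) c‖ = 1) {e : ℕ}
    (r : Fin (2 * (n + 1) + 2 + 2 * e) → k)
    (hr : ∀ i, ‖algebraMap k (v.adicCompletion k) (r i)‖ = 1) {s : k} (hs : s ≠ 0)
    (hrp : ∏ i, r i = (-1) ^ e * c * s ^ 2) (G : Fin (n + 1) → k) (hG0 : G 0 = b)
    (hGd : (hk G).det ≠ 0)
    (h : (∃ q : v.adicCompletion k, q ≠ 0 ∧
          (∀ i : Fin (n + 1), (i : ℕ) = 1 → ‖algebraMap k (v.adicCompletion k) (G i) *
            (q ^ 2) ^ n + algebraMap k (v.adicCompletion k) c‖ < 1) ∧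
          ∀ i : Fin (n + 1), (i : ℕ) ≠ 1 → ‖algebraMap k (v.adicCompletion k) (G i) *
            (q ^ 2) ^ (n + 1 - (i : ℕ))‖ < 1) ∨
        (‖algebraMap k (v.adicCompletion k) b‖ = 1 ∧
          (∀ i, ‖algebraMap k (v.adicCompletion k) (G i)‖ ≤ 1) ∧
          (‖algebraMap k (v.adicCompletion k) (dM G)‖ = 1 ∨
            (‖algebraMap k (v.adicCompletion k) (dA G)‖ = 1 ∧
              ‖algebraMap k (v.adicCompletion k) (dB G)‖ = 1)))) :
    WG.map (algebraMap k (v.adicCompletion k)) (coreF c 1 G) =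
        WG.map (algebraMap k (v.adicCompletion k)) (∑ i, cl (r i)) ∨
      Odd4 (v.adicCompletion k) (algebraMap k (v.adicCompletion k) (dlt G)) := by
  have hcs : CompleteSpace (v.adicCompletion k) :=
    inferInstanceAs (CompleteSpace (v.adicCompletion k))
  obtain ⟨κ, _, _, O, rd, π, hN, hκ⟩ := exists_ndat v h2
  have hchar : CharZero (v.adicCompletion k) :=
    charZero_of_injective_ringHom (algebraMap k (v.adicCompletion k)).injective
  have hG0' : G 0 ≠ 0 := by rw [hG0]; exact hb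
  have hrp' : ∏ i, algebraMap k (v.adicCompletion k) (r i) =
      (-1) ^ e * algebraMap k (v.adicCompletion k) c *
        algebraMap k (v.adicCompletion k) s ^ 2 := by
    rw [← map_prod, hrp, map_mul, map_mul, map_pow, map_pow, map_neg, map_one]
  have hs' : algebraMap k (v.adicCompletion k) s ≠ 0 := (map_ne_zero _).2 hs
  rw [KCoreF_map (algebraMap k (v.adicCompletion k)) c G hG0' hGd,
    KCoreF_sum (algebraMap k (v.adicCompletion k)) r]
  rcases h with ⟨q, hq, h1, hi⟩ | ⟨hb1, hGi, hcase⟩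
  · left
    exact (hN.large hev (fun h0 => hn (hκ n h0)) hc hq
      (fun j => algebraMap k (v.adicCompletion k) (G j)) ((map_ne_zero _).2 hG0') h1 hi
      (fun i => algebraMap k (v.adicCompletion k) (r i)) hr hs' hrp').2
  · have hM : dM (fun j => algebraMap k (v.adicCompletion k) (G j)) ≠ 0 := by
      rw [← dM_map]
      exact (map_ne_zero _).2 hGd
    rw [dM_map, dA_map, dB_map] at hcase
    rcases hN.good hev hc (fun j => algebraMap k (v.adicCompletion k) (G j))
      (by rw [hG0]; exact hb1) hGi hM hcase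
      (fun i => algebraMap k (v.adicCompletion k) (r i)) hr hs' hrp' with h1 | ⟨s', hs0, hd⟩
    · exact Or.inl h1
    · right
      refine hN.odd4 hs0 ?_
      unfold dlt
      rw [map_mul, map_mul, map_pow, map_neg, map_one, norm_mul, norm_mul, norm_pow, norm_neg,
        norm_one, one_pow, one_mul, hG0, hb1, one_mul, dM_map, hd]

theorem coreNF (hHM : HMiso k) {n : ℕ} (h1n : 1 ≤ n) (hev : Even (n + 1)) (P : ℕ) (hP : P ≠ 0)
    (hP2 : 2 ∣ P) (hPn : n ∣ P) (T : Finset (HeightOneSpectrum (𝓞 k)))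
    (hT : ∀ v, v ∈ T ↔ (P : 𝓞 k) ∈ v.asIdeal) {c b : k} (hc0 : c ≠ 0) (hb : b ≠ 0)
    (hc : ∀ v, v ∉ T → ‖algebraMap k (v.adicCompletion k) c‖ = 1) {e : ℕ}
    (r : Fin (2 * (n + 1) + 2 + 2 * e) → k) (hr0 : ∀ i, r i ≠ 0)
    (hr : ∀ v, v ∉ T → ∀ i, ‖algebraMap k (v.adicCompletion k) (r i)‖ = 1) {s : k} (hs : s ≠ 0)
    (hrp : ∏ i, r i = (-1) ^ e * c * s ^ 2)
    (g : ∀ i, Fin (n + 1) → Compl T i) (hg0 : ∀ i, g i 0 = complEmb T i b)
    (hgd : ∀ i, (hk (g i)).det ≠ 0)
    (hcl : ∀ i, coreF (complEmb T i c) 1 (g i) = WG.map (complEmb T i) (∑ j, cl (r j)))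
    (U : ∀ i, Set (Fin (n + 1) → Compl T i)) (hU : ∀ i, U i ∈ 𝓝 (g i))
    (W : ∀ i, Set (Compl T i)) (hW : ∀ i, W i ∈ 𝓝 (1 : Compl T i)) :
    ∃ (κ : k) (G : Fin (n + 1) → k), κ ≠ 0 ∧ G 0 = b * κ ^ 2 ∧ (hk G).det ≠ 0 ∧
      coreF c 1 G = ∑ i, cl (r i) ∧
      ∀ i, (fun j => complEmb T i (G j)) ∈ U i ∧ complEmb T i κ ∈ W i := by
  have h0 : ∀ i, g i 0 ≠ 0 := fun i => by
    rw [hg0 i]
    exact (map_ne_zero (complEmb T i)).mpr hb
  have hV : ∀ i, ∃ V : Set (Fin (n + 1) → Compl T i), g i ∈ V ∧ IsOpen V ∧ V ⊆ U i ∧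
      ∀ a ∈ V, a 0 = g i 0 → coreF (complEmb T i c) 1 a = coreF (complEmb T i c) 1 (g i) := by
    intro i
    have h1 := KCoreF_nhds T i (complEmb T i c) (g i) (hgd i) (h0 i)
    obtain ⟨V, hVs, hVo, hVm⟩ := mem_nhds_iff.mp (Filter.inter_mem (hU i) h1)
    exact ⟨V, hVm, hVo, fun a ha => (hVs ha).1, fun a ha => (hVs ha).2⟩
  choose V hVm hVo hVU hVc using hV
  obtain ⟨G, hG0, hGV, hGd, halt⟩ := setupF h1n P hP T hT c b hb hc g hg0 hgd V
    fun i => (hVo i).mem_nhds (hVm i)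
  have hG0' : G 0 ≠ 0 := by rw [hG0]; exact hb
  have hloc : ∀ i, WG.map (complEmb T i) (coreF c 1 G) =
      WG.map (complEmb T i) (∑ j, cl (r j)) := fun i => by
    rw [← hcl i, KCoreF_map (complEmb T i) c G hG0' hGd,
      hVc i _ (hGV i) (by rw [hG0, hg0 i])]
  have hTc : ∀ v ∈ T, WG.map (algebraMap k (v.adicCompletion k)) (coreF c 1 G) =
      WG.map (algebraMap k (v.adicCompletion k)) (∑ i, cl (r i)) := fun v hv =>
    hloc (Sum.inr ⟨v, hv⟩)
  have hfin : ∀ v : HeightOneSpectrum (𝓞 k),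
      WG.map (algebraMap k (v.adicCompletion k)) (coreF c 1 G) =
        WG.map (algebraMap k (v.adicCompletion k)) (∑ i, cl (r i)) ∨
      Odd4 (v.adicCompletion k) (algebraMap k (v.adicCompletion k) (dlt G)) := by
    intro v
    by_cases hv : v ∈ T
    · exact Or.inl (hTc v hv)
    · have hPv : (P : 𝓞 k) ∉ v.asIdeal := fun h => hv ((hT v).2 h)
      refine KCoreF_fin hev v ?_ ?_ hb (hc v hv) r (hr v hv) hs hrp G hG0 hGd (halt v hv)
      · intro h
        obtain ⟨q, rfl⟩ := hP2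
        apply hPv
        rw [Nat.cast_mul, Nat.cast_ofNat]
        exact v.asIdeal.mul_mem_right _ h
      · intro h
        obtain ⟨q, rfl⟩ := hPn
        apply hPv
        rw [Nat.cast_mul]
        exact v.asIdeal.mul_mem_right _ h
  have hW' : ∀ i, {l : Compl T i | scl l (fun j => complEmb T i (G j)) ∈ V i ∧
      l ^ ((n + 1) / 2) ∈ W i} ∈ 𝓝 (1 : Compl T i) := by
    intro i
    refine Filter.inter_mem ?_ ?_
    · refine (KCoreF_scl_cont fun j => complEmb T i (G j)).continuousAt.preimage_mem_nhds ?_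
      rw [KCoreF_scl_one]
      exact (hVo i).mem_nhds (hGV i)
    · refine (continuous_pow ((n + 1) / 2)).continuousAt.preimage_mem_nhds ?_
      rw [one_pow]
      exact hW i
  obtain ⟨lam, hl, hlc, hlW⟩ := core_stepF hHM hev T hc0 r hr0 hs hrp G hG0' hGd
    (fun v => hloc (Sum.inl v)) hfin hTc _ hW'
  refine ⟨lam ^ ((n + 1) / 2), scl lam G, pow_ne_zero _ hl, ?_, (det_hk_scl hl G).2 hGd, ?_,
    fun i => ⟨?_, ?_⟩⟩
  · obtain ⟨t, ht⟩ := hev
    have h1 : (n + 1) / 2 = t := by omega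
    rw [h1, ← pow_mul, mul_two, ← ht, ← hG0, mul_comm]
    rfl
  · rw [coreF_scl two_ne_zero hev hc0 hl G hG0' hGd, hlc]
  · rw [KCoreF_scl]
    exact hVU i (hlW i).1
  · rw [map_pow]
    exact (hlW i).2

end NF83
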