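import Pool.Agent.H.MP_83e36b_nt.sp.KGen
import Pool.Agent.H.MP_83e36b_nt.nf.Base

/-! Generic coprimality on the line over a field of characteristic zero.

PROOF. `gen_coprimeF`: copy sp/KGen.lean (`gen_coprime` with its helper lemmas) with `ℚ` replaced by the
field `F` of characteristic zero (`natDegree_dA`, `natDegree_dB`, `dM_tri`, `dA_tri`, `dB_tri` are general;
`positivity` must be replaced by `Nat.cast_ne_zero` arguments).
-/

set_option autoImplicit false

open Topology Matrix Polynomial SpinWA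

namespace NF83

private theorem KGenA_line_map {F : Type*} [Field F] {k : ℕ} (b : F) (r : Fin (k + 1) → F)
    (s : F) :
    (fun i : Fin (k + 1) => mapRingHom (evalRingHom s)
      (lineP (C (C b)) X (fun i : Fin (k + 1) => C (X * C (r i))) i)) =
      lineP (C b) X fun i : Fin (k + 1) => C (s * r i) := by
  funext i
  rw [lineP_map]
  simp only [coe_mapRingHom, map_C, map_X, coe_evalRingHom, eval_C, eval_mul, eval_X]

private theorem KGenA_res_ne {F : Type*} [Field F] [CharZero F] {k N : ℕ} (h1k : 1 ≤ k) {b : F}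
    (hb : b ≠ 0)
    (hN : (dM (lineP (C b) X fun _ : Fin (k + 1) => C ((0 : F) * 0))).natDegree ≤ N) :
    resultant (dM (lineP (C b) X fun _ : Fin (k + 1) => C ((0 : F) * 0)))
      (dA (lineP (C b) X fun _ : Fin (k + 1) => C ((0 : F) * 0)) *
          dB (lineP (C b) X fun _ : Fin (k + 1) => C ((0 : F) * 0))) N (2 * k - 1) ≠ 0 := by
  have h0 : (fun _ : Fin (k + 1) => (C ((0 : F) * 0) : F[X])) = 0 := by
    funext i; simp
  have hk : (k : F) ≠ 0 := by exact_mod_cast (by omega : k ≠ 0)
  have hk1 : (k : F) + 1 ≠ 0 := by exact_mod_cast (by omega : k + 1 ≠ 0)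
  have hcoe : (dM (lineP (C b) X fun _ : Fin (k + 1) => C ((0 : F) * 0))).coeff 0 ≠ 0 := by
    rw [coeff_zero_eq_eval_zero, eval_dM]
    have h1 : (fun i : Fin (k + 1) => (0 : F) * 0) = 0 := by funext i; simp
    rw [h1]
    rcases dM_tri (R := F) h1k b with h | h <;> rw [h]
    · exact mul_ne_zero (pow_ne_zero _ hk1) (pow_ne_zero _ hb)
    · exact neg_ne_zero.2 (mul_ne_zero (pow_ne_zero _ hk1) (pow_ne_zero _ hb))
  have hE : ∃ c : F, c ≠ 0 ∧ (dA (lineP (C b) X fun _ : Fin (k + 1) => C ((0 : F) * 0)) *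
          dB (lineP (C b) X fun _ : Fin (k + 1) => C ((0 : F) * 0))) = C c * X ^ (2 * k - 1) := by
    rw [h0]
    have e1 : (((k : F[X]) + 1) * ((k : F[X]) * X) ^ (k - 1)) * ((k : F[X]) * X) ^ k =
        C (((k : F) + 1) * (k : F) ^ (2 * k - 1)) * X ^ (2 * k - 1) := by
      have e2 : 2 * k - 1 = (k - 1) + k := by omega
      rw [e2]
      simp only [mul_pow, pow_add, C_mul, C_add, C_pow, C_1, map_natCast]
      ring
    have hc : ((k : F) + 1) * (k : F) ^ (2 * k - 1) ≠ 0 := mul_ne_zero hk1 (pow_ne_zero _ hk)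
    rcases dA_tri (R := F[X]) h1k (C b) X with hA | hA <;>
      rcases dB_tri (R := F[X]) h1k (C b) X with hB | hB <;> rw [hA, hB]
    · exact ⟨_, hc, e1⟩
    · exact ⟨_, neg_ne_zero.2 hc, by rw [mul_neg, e1, C_neg, neg_mul]⟩
    · exact ⟨_, neg_ne_zero.2 hc, by rw [neg_mul, e1, C_neg, neg_mul]⟩
    · exact ⟨_, hc, by rw [neg_mul_neg, e1]⟩
  obtain ⟨c, hc, hE⟩ := hE
  rw [hE, resultant_C_mul_right, resultant_X_pow_right _ _ _ hN]
  exact mul_ne_zero (pow_ne_zero _ hc) (mul_ne_zero (pow_ne_zero _ (neg_ne_zero.2 one_ne_zero))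
    (pow_ne_zero _ hcoe))

theorem gen_coprimeF {F : Type*} [Field F] [CharZero F] {k : ℕ} (h1k : 1 ≤ k) {b : F} (hb : b ≠ 0)
    (r : Fin (k + 1) → F) :
    ∃ d : F[X], d ≠ 0 ∧ ∀ s : F, d.eval s ≠ 0 →
      IsCoprime (dM (lineP (C b) X fun i : Fin (k + 1) => C (s * r i)))
        (dA (lineP (C b) X fun i : Fin (k + 1) => C (s * r i)) *
          dB (lineP (C b) X fun i : Fin (k + 1) => C (s * r i))) := by
  set Fs : F[X][X] := dM (lineP (C (C b)) X (fun i : Fin (k + 1) => C (X * C (r i)))) with hFs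
  set As : F[X][X] := dA (lineP (C (C b)) X (fun i : Fin (k + 1) => C (X * C (r i)))) with hAs
  set Bs : F[X][X] := dB (lineP (C (C b)) X (fun i : Fin (k + 1) => C (X * C (r i)))) with hBs
  have hA : As.natDegree ≤ k - 1 := natDegree_dA h1k (C b) (fun i => X * C (r i))
  have hB : Bs.natDegree ≤ k := natDegree_dB h1k (C b) (fun i => X * C (r i))
  have hE : (As * Bs).natDegree ≤ 2 * k - 1 := by
    refine natDegree_mul_le.trans ?_
    omega
  have mF : ∀ s : F, Fs.map (evalRingHom s) =
      dM (lineP (C b) X fun i : Fin (k + 1) => C (s * r i)) := by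
    intro s
    have h := dM_map (mapRingHom (evalRingHom s))
      (lineP (C (C b)) X (fun i : Fin (k + 1) => C (X * C (r i))))
    rw [KGenA_line_map] at h
    exact h
  have mA : ∀ s : F, As.map (evalRingHom s) =
      dA (lineP (C b) X fun i : Fin (k + 1) => C (s * r i)) := by
    intro s
    have h := dA_map (mapRingHom (evalRingHom s))
      (lineP (C (C b)) X (fun i : Fin (k + 1) => C (X * C (r i))))
    rw [KGenA_line_map] at h
    exact h
  have mB : ∀ s : F, Bs.map (evalRingHom s) =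
      dB (lineP (C b) X fun i : Fin (k + 1) => C (s * r i)) := by
    intro s
    have h := dB_map (mapRingHom (evalRingHom s))
      (lineP (C (C b)) X (fun i : Fin (k + 1) => C (X * C (r i))))
    rw [KGenA_line_map] at h
    exact h
  have hd : ∀ s : F, (resultant Fs (As * Bs) Fs.natDegree (2 * k - 1)).eval s =
      resultant (dM (lineP (C b) X fun i : Fin (k + 1) => C (s * r i)))
        (dA (lineP (C b) X fun i : Fin (k + 1) => C (s * r i)) *
          dB (lineP (C b) X fun i : Fin (k + 1) => C (s * r i))) Fs.natDegree (2 * k - 1) := by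
    intro s
    rw [← mF s, ← mA s, ← mB s, ← Polynomial.map_mul, resultant_map_map, coe_evalRingHom]
  refine ⟨resultant Fs (As * Bs) Fs.natDegree (2 * k - 1), ?_, ?_⟩
  · intro h0
    have h1 := hd 0
    rw [h0, eval_zero] at h1
    have h2 : (fun i : Fin (k + 1) => (C ((0 : F) * r i) : F[X])) =
        fun _ : Fin (k + 1) => C ((0 : F) * 0) := by
      funext i; simp
    rw [h2] at h1
    refine KGenA_res_ne h1k hb ?_ h1.symm
    rw [← h2, ← mF 0]
    exact natDegree_map_le
  · intro s hs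
    rw [hd s] at hs
    obtain ⟨p, q, -, -, hpq⟩ := exists_mul_add_mul_eq_C_resultant
      (m := Fs.natDegree) (n := 2 * k - 1)
      (dM (lineP (C b) X fun i : Fin (k + 1) => C (s * r i)))
      (dA (lineP (C b) X fun i : Fin (k + 1) => C (s * r i)) *
          dB (lineP (C b) X fun i : Fin (k + 1) => C (s * r i)))
      (by rw [← mF s]; exact natDegree_map_le)
      (by rw [← mA s, ← mB s, ← Polynomial.map_mul]; exact natDegree_map_le.trans hE)
      (Or.inr (by omega))
    set ρ := resultant (dM (lineP (C b) X fun i : Fin (k + 1) => C (s * r i)))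
        (dA (lineP (C b) X fun i : Fin (k + 1) => C (s * r i)) *
          dB (lineP (C b) X fun i : Fin (k + 1) => C (s * r i))) Fs.natDegree (2 * k - 1) with hρ
    refine ⟨C ρ⁻¹ * p, C ρ⁻¹ * q, ?_⟩
    have : C ρ⁻¹ * (dM (lineP (C b) X fun i : Fin (k + 1) => C (s * r i)) * p +
        (dA (lineP (C b) X fun i : Fin (k + 1) => C (s * r i)) *
          dB (lineP (C b) X fun i : Fin (k + 1) => C (s * r i))) * q) = 1 := by
      rw [hpq, ← C_mul, inv_mul_cancel₀ hs, C_1]
    rw [← this]
    ring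

end NF83
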