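import Pool.Agent.H.MP_83e36b_nt.hm.KHa
import Pool.Agent.H.MP_83e36b_nt.nf.U5c

/-! A class over a number field as the class of a form in four variables.

`u5_adic` (nf/U5c), `u5_closed`.
PROOF. `hm_four`: induction on `M` again. `M = 0`: take `q = 1`, `e = -1`: `cl 1 + cl (-δ) + cl (-1) + cl δ = 0`
(`cl_neg`). `M = 1`: the class is 0 (`cl_pair`). `M ≥ 3`: at least 6 entries: isotropic at the infinite
places (`iso_of_zero`), isotropic at the finite places by `U5` (`u5_adic`; extend a zero of the first five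
entries by 0), so isotropic over `k`, `iso_red`. `M = 2`, entries `d 0, …, d 3`, `∏ d = s²`: if `IsoF d`,
`iso_red`. Otherwise let `ψ = ![d 0 * d 1, d 0 * d 2, d 0 * d 3, δ]`, `∏ ψ = δ (d 0 s)²`. `ψ` is
isotropic at every place where the class of `d` is 0 (`iso3_of_zero`, last coordinate 0, multiply by
`d 0`) and at every place with `Odd4`. So `ψ` is isotropic over `k` (`hHM` with `n = 4`):
`d 0 (d 1 x² + d 2 y² + d 3 z²) = - δ w²`, not all zero. `w ≠ 0`, as otherwise `(0, x, y, z)` is a zero of
`d`. So `d 1 x² + d 2 y² + d 3 z² = -(δ (d 0)) (w / d 0)²`; `rep_split` for `![d 1, d 2, d 3]` gives `e`, `f`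
with `cl (d 1) + cl (d 2) + cl (d 3) = cl (-(δ (d 0)) (w / d 0)²) + cl e + cl f`, and
`-(δ d 0) e f □ = d 1 d 2 d 3 □`, so `f = -(δ e) □`, `cl f = cl (-(δ e))` (`cl_mul_sq`); `q = d 0`.
-/

set_option autoImplicit false

open SpinWA Matrix DC83 NumberField IsDedekindDomain

namespace NF83

variable {k : Type} [Field k] [NumberField k]

private theorem KHb_triv {δ : k} : ∃ q e : k, q ≠ 0 ∧ e ≠ 0 ∧
    (0 : WG k) = cl q + cl (-(δ * q)) + cl e + cl (-(δ * e)) := by
  refine ⟨1, -1, one_ne_zero, neg_ne_zero.2 one_ne_zero, ?_⟩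
  have h1 := cl_neg (two_ne_zero : (2 : k) ≠ 0) 1
  have h2 := cl_neg (two_ne_zero : (2 : k) ≠ 0) δ
  have e1 : -(δ * 1) = -δ := by ring
  have e2 : -(δ * -1) = δ := by ring
  rw [e1, e2]
  have : cl (1 : k) + cl (-δ) + cl (-1) + cl δ = (cl 1 + cl (-1)) + (cl δ + cl (-δ)) := by abel
  rw [this, h1, h2, add_zero]

private theorem KHb_map {L : Type*} [Field L] (φ : k →+* L) {n : ℕ} (d : Fin n → k) :
    WG.map φ (∑ i, cl (d i)) = ∑ i, cl (φ (d i)) := by
  rw [map_sum]
  exact Finset.sum_congr rfl fun i _ => WG.map_cl φ (d i)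

/-- a zero of `ψ` over a field where the class of `d` vanishes -/
private theorem KHb_psi {L : Type*} [Field L] (h2 : (2 : L) ≠ 0) (d : Fin 4 → L)
    (hd : ∀ i, d i ≠ 0) (δ : L) (h : ∑ i, cl (d i) = 0) :
    IsoF ![d 0 * d 1, d 0 * d 2, d 0 * d 3, δ] := by
  obtain ⟨x, hx, h⟩ := iso3_of_zero h2 hd h
  refine ⟨![x 0, x 1, x 2, 0], ?_, ?_⟩
  · intro h0
    apply hx
    funext i
    fin_cases i
    · exact congrFun h0 0
    · exact congrFun h0 1
    · exact congrFun h0 2
  · rw [Fin.sum_univ_four]
    simp only [Matrix.cons_val]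
    linear_combination d 0 * h

/-- five entries are enough if `U5` holds -/
private theorem KHb_u5 {L : Type*} [Field L] (h5 : U5 L) {N : ℕ} (hN : 5 ≤ N) (d : Fin N → L)
    (hd : ∀ i, d i ≠ 0) : IsoF d := by
  obtain ⟨n, rfl⟩ : ∃ n, N = 5 + n := ⟨N - 5, by omega⟩
  obtain ⟨x, hx, h⟩ := h5 (fun i => d (Fin.castAdd n i)) (fun i => hd _)
  refine ⟨Fin.append x 0, ?_, ?_⟩
  · intro h0
    apply hx
    funext i
    have := congrFun h0 (Fin.castAdd n i)
    rwa [Fin.append_left] at this
  · rw [Fin.sum_univ_add]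
    simp only [Fin.append_left, Fin.append_right]
    rw [h]
    simp

private theorem KHb_four (hHM : HMiso k) (d : Fin 4 → k) (hd : ∀ i, d i ≠ 0) {s δ : k}
    (hs : s ≠ 0) (hδ : δ ≠ 0) (hds : ∏ i, d i = (-1) ^ 2 * s ^ 2)
    (hinf : ∀ v : InfinitePlace k, WG.map (algebraMap k v.Completion) (∑ i, cl (d i)) = 0)
    (hfin : ∀ v : HeightOneSpectrum (𝓞 k),
      WG.map (algebraMap k (v.adicCompletion k)) (∑ i, cl (d i)) = 0 ∨
        Odd4 (v.adicCompletion k) (algebraMap k (v.adicCompletion k) δ)) (hiso : ¬ IsoF d) :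
    ∃ q e : k, q ≠ 0 ∧ e ≠ 0 ∧ ∑ i, cl (d i) = cl q + cl (-(δ * q)) + cl e + cl (-(δ * e)) := by
  have h2 : (2 : k) ≠ 0 := two_ne_zero
  have hds' : d 0 * d 1 * d 2 * d 3 = s ^ 2 := by
    rw [Fin.prod_univ_four] at hds
    rw [hds]; ring
  -- the auxiliary form
  have hψ : IsoF ![d 0 * d 1, d 0 * d 2, d 0 * d 3, δ] := by
    refine hHM 4 le_rfl _ ?_ (fun v => ?_) (fun v => ?_)
    · intro i
      fin_cases i
      · exact mul_ne_zero (hd 0) (hd 1)
      · exact mul_ne_zero (hd 0) (hd 2)
      · exact mul_ne_zero (hd 0) (hd 3)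
      · exact hδ
    · have h2v : (2 : v.Completion) ≠ 0 := by
        have := (map_ne_zero (algebraMap k v.Completion)).2 h2
        rwa [map_ofNat] at this
      have h := KHb_psi h2v (fun i => algebraMap k v.Completion (d i))
        (fun i => (map_ne_zero _).2 (hd i)) (algebraMap k v.Completion δ) (by
          rw [← KHb_map]; exact hinf v)
      have e : (fun i => algebraMap k v.Completion
          ((![d 0 * d 1, d 0 * d 2, d 0 * d 3, δ] : Fin 4 → k) i)) =
          ![algebraMap k v.Completion (d 0) * algebraMap k v.Completion (d 1),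
            algebraMap k v.Completion (d 0) * algebraMap k v.Completion (d 2),
            algebraMap k v.Completion (d 0) * algebraMap k v.Completion (d 3),
            algebraMap k v.Completion δ] := by
        funext i
        fin_cases i
        · exact map_mul _ _ _
        · exact map_mul _ _ _
        · exact map_mul _ _ _
        · rfl
      rw [e]
      exact h
    · have h2v : (2 : v.adicCompletion k) ≠ 0 := by
        have := (map_ne_zero (algebraMap k (v.adicCompletion k))).2 h2
        rwa [map_ofNat] at this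
      have e : (fun i => algebraMap k (v.adicCompletion k)
          ((![d 0 * d 1, d 0 * d 2, d 0 * d 3, δ] : Fin 4 → k) i)) =
          ![algebraMap k (v.adicCompletion k) (d 0) * algebraMap k (v.adicCompletion k) (d 1),
            algebraMap k (v.adicCompletion k) (d 0) * algebraMap k (v.adicCompletion k) (d 2),
            algebraMap k (v.adicCompletion k) (d 0) * algebraMap k (v.adicCompletion k) (d 3),
            algebraMap k (v.adicCompletion k) δ] := by
        funext i
        fin_cases i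
        · exact map_mul _ _ _
        · exact map_mul _ _ _
        · exact map_mul _ _ _
        · rfl
      rcases hfin v with hv | hv
      · rw [e]
        exact KHb_psi h2v (fun i => algebraMap k (v.adicCompletion k) (d i))
          (fun i => (map_ne_zero _).2 (hd i)) (algebraMap k (v.adicCompletion k) δ) (by
            rw [← KHb_map]; exact hv)
      · refine hv _ (fun i => (map_ne_zero _).2 ?_) (algebraMap k (v.adicCompletion k) (d 0 * s))
          ((map_ne_zero _).2 (mul_ne_zero (hd 0) hs)) ?_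
        · fin_cases i
          · exact mul_ne_zero (hd 0) (hd 1)
          · exact mul_ne_zero (hd 0) (hd 2)
          · exact mul_ne_zero (hd 0) (hd 3)
          · exact hδ
        · rw [← map_prod, ← map_pow, ← map_mul]
          congr 1
          rw [Fin.prod_univ_four]
          simp only [Matrix.cons_val]
          linear_combination d 0 ^ 2 * δ * hds'
  obtain ⟨x, hx, hxs⟩ := hψ
  rw [Fin.sum_univ_four] at hxs
  simp only [Matrix.cons_val] at hxs
  have hd0 := hd 0
  have hw : x 3 ≠ 0 := by
    intro hw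
    apply hiso
    refine ⟨![0, x 0, x 1, x 2], ?_, ?_⟩
    · intro h0
      apply hx
      funext i
      fin_cases i
      · exact congrFun h0 1
      · exact congrFun h0 2
      · exact congrFun h0 3
      · exact hw
    · rw [Fin.sum_univ_four]
      simp only [Matrix.cons_val]
      apply mul_left_cancel₀ hd0
      rw [hw] at hxs
      linear_combination hxs
  -- the value
  set a : k := -(δ * d 0) * (x 3 / d 0) ^ 2 with ha
  have ha0 : a ≠ 0 := mul_ne_zero (neg_ne_zero.2 (mul_ne_zero hδ hd0)) (pow_ne_zero 2 (div_ne_zero hw hd0))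
  have hrep : ∑ i : Fin 3, (![d 1, d 2, d 3] : Fin 3 → k) i * (![x 0, x 1, x 2] : Fin 3 → k) i ^ 2 = a := by
    rw [Fin.sum_univ_three]
    simp only [Matrix.cons_val]
    rw [ha]
    field_simp
    linear_combination hxs
  obtain ⟨d', t, hd', ht, hsum, hprod⟩ := rep_split (n := 2) h2
    (d := ![d 1, d 2, d 3]) (by
      intro i
      fin_cases i
      · exact hd 1
      · exact hd 2
      · exact hd 3) ha0 ![x 0, x 1, x 2] hrep
  rw [Fin.sum_univ_three, Fin.sum_univ_two] at hsum
  rw [Fin.prod_univ_three, Fin.prod_univ_two] at hprod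
  simp only [Matrix.cons_val] at hsum hprod
  have he := hd' 0
  have hf := hd' 1
  have hfe : d' 1 = -(δ * d' 0) * (s * t / (δ * x 3 * d' 0)) ^ 2 := by
    have h1 : d' 1 * (a * d' 0 * d 0) = s ^ 2 * t ^ 2 := by
      linear_combination d 0 * hprod + t ^ 2 * hds'
    have h2' : a * d 0 = -(δ * x 3 ^ 2) := by
      rw [ha]; field_simp
    have h3 : a * d' 0 * d 0 ≠ 0 := mul_ne_zero (mul_ne_zero ha0 he) hd0
    apply mul_right_cancel₀ h3
    rw [h1]
    have h4 : a * d' 0 * d 0 = -(δ * x 3 ^ 2) * d' 0 := by rw [← h2']; ring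
    rw [h4]
    field_simp
  refine ⟨d 0, d' 0, hd0, he, ?_⟩
  rw [Fin.sum_univ_four]
  have hcf : cl (d' 1) = cl (-(δ * d' 0)) := by
    conv_lhs => rw [hfe]
    exact cl_mul_sq _ (div_ne_zero (mul_ne_zero hs ht) (mul_ne_zero (mul_ne_zero hδ hw) he))
  have hca : cl a = cl (-(δ * d 0)) := by
    rw [ha]
    exact cl_mul_sq _ (div_ne_zero hw hd0)
  rw [hcf, hca] at hsum
  calc cl (d 0) + cl (d 1) + cl (d 2) + cl (d 3) = cl (d 0) + (cl (d 1) + cl (d 2) + cl (d 3)) := by
        abel
    _ = _ := by rw [hsum]; abel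

theorem hm_four (hHM : HMiso k) {M : ℕ} (d : Fin (2 * M) → k) (hd : ∀ i, d i ≠ 0) {s δ : k}
    (hs : s ≠ 0) (hδ : δ ≠ 0) (hds : ∏ i, d i = (-1) ^ M * s ^ 2)
    (hinf : ∀ v : InfinitePlace k, WG.map (algebraMap k v.Completion) (∑ i, cl (d i)) = 0)
    (hfin : ∀ v : HeightOneSpectrum (𝓞 k),
      WG.map (algebraMap k (v.adicCompletion k)) (∑ i, cl (d i)) = 0 ∨
        Odd4 (v.adicCompletion k) (algebraMap k (v.adicCompletion k) δ)) :
    ∃ q e : k, q ≠ 0 ∧ e ≠ 0 ∧ ∑ i, cl (d i) = cl q + cl (-(δ * q)) + cl e + cl (-(δ * e)) := by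
  have h2 : (2 : k) ≠ 0 := two_ne_zero
  induction M generalizing s with
  | zero =>
    obtain ⟨q, e, hq, he, h⟩ := KHb_triv (δ := δ)
    refine ⟨q, e, hq, he, ?_⟩
    rw [← h]
    exact Finset.sum_empty
  | succ m ih =>
    by_cases hiso : IsoF d
    · obtain ⟨d', s', hd', hs', hsum, hprod⟩ := iso_red (n := 2 * m) (d := d) h2 hd hiso
      have e : ∑ i : Fin (2 * (m + 1)), cl (d i) = ∑ i, cl (d' i) := hsum
      rw [e] at hinf hfin ⊢
      refine ih d' hd' (mul_ne_zero hs hs') ?_ hinf hfin
      have e' : ∏ i : Fin (2 * m + 2), d i = (-1) ^ (m + 1) * s ^ 2 := hds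
      rw [hprod, e']
      ring
    · rcases m with _ | _ | m
      · -- two entries
        have hds' : d 0 * d 1 = -(s ^ 2) := by
          have e : ∏ i : Fin 2, d i = (-1) ^ (0 + 1) * s ^ 2 := hds
          rw [Fin.prod_univ_two] at e
          rw [e]; ring
        have e : ∑ i : Fin 2, cl (d i) = 0 := by
          rw [Fin.sum_univ_two]
          exact cl_pair h2 (hd 0) hs hds'
        obtain ⟨q, e', hq, he, h⟩ := KHb_triv (δ := δ)
        refine ⟨q, e', hq, he, ?_⟩
        rw [← h]
        exact e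
      · -- four entries
        exact KHb_four hHM d hd hs hδ hds hinf hfin hiso
      · -- at least six entries
        exfalso
        apply hiso
        refine hHM _ (by omega) d hd (fun v => ?_) (fun v => ?_)
        · have h2v : (2 : v.Completion) ≠ 0 := by
            have := (map_ne_zero (algebraMap k v.Completion)).2 h2
            rwa [map_ofNat] at this
          refine iso_of_zero h2v (fun i => (map_ne_zero _).2 (hd i)) (by omega) (even_two_mul _) ?_
          rw [← KHb_map]
          exact hinf v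
        · exact KHb_u5 (u5_adic v) (by omega) _ (fun i => (map_ne_zero _).2 (hd i))

end NF83
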