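import Pool.Agent.H.MP_83e36b_nt.hm.KL
import Pool.Agent.H.MP_83e36b_nt.sp.PMap

/-! Two consequences of the Hasse-Minkowski theorem over a number field.

`u5_adic` (nf/U5c), `u5_closed`.
PROOF. `hm_zero`: induction on `M`. `M = 0`: the sum is 0. `M = 1`: `cl_pair`. `M ≥ 2`: `2 M ≥ 4`
entries; over every completion the class is 0 (`WG.map_cl`, `map_sum`), so the form is isotropic there
(`iso_of_zero`), hence isotropic over `k` (`hHM`); `iso_red` gives a form with `2 (M - 1)` entries, the
same class and the product `-∏ d □ = (-1)^(M-1) □`.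
-/

set_option autoImplicit false

open SpinWA Matrix DC83 NumberField IsDedekindDomain

namespace NF83

/-- all forms in four variables with discriminant `δ` are isotropic -/
def Odd4 (K : Type*) [Field K] (δ : K) : Prop :=
  ∀ (d : Fin 4 → K) (_ : ∀ i, d i ≠ 0) (s : K) (_ : s ≠ 0) (_ : ∏ i, d i = δ * s ^ 2), IsoF d

variable {k : Type} [Field k] [NumberField k]

private theorem KHa_two {K L : Type*} [Field K] [CharZero K] [Field L] (φ : K →+* L) :
    (2 : L) ≠ 0 := by
  rw [← map_ofNat φ 2]
  exact (map_ne_zero φ).2 two_ne_zero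

private theorem KHa_loc {K L : Type*} [Field K] [CharZero K] [Field L] (φ : K →+* L) {n : ℕ}
    (hn : 0 < n) (hev : Even n) {d : Fin n → K} (hd : ∀ i, d i ≠ 0)
    (h : WG.map φ (∑ i, cl (d i)) = 0) : IsoF fun i => φ (d i) := by
  refine iso_of_zero (KHa_two φ) (fun i => (map_ne_zero φ).2 (hd i)) hn hev ?_
  rw [map_sum] at h
  rw [← h]
  exact Finset.sum_congr rfl fun i _ => (WG.map_cl φ (d i)).symm

theorem hm_zero (hHM : HMiso k) {M : ℕ} (d : Fin (2 * M) → k) (hd : ∀ i, d i ≠ 0) {s : k}
    (hs : s ≠ 0) (hds : ∏ i, d i = (-1) ^ M * s ^ 2)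
    (hinf : ∀ v : InfinitePlace k, WG.map (algebraMap k v.Completion) (∑ i, cl (d i)) = 0)
    (hfin : ∀ v : HeightOneSpectrum (𝓞 k),
      WG.map (algebraMap k (v.adicCompletion k)) (∑ i, cl (d i)) = 0) :
    ∑ i, cl (d i) = 0 := by
  induction M generalizing s with
  | zero => exact Fin.sum_univ_zero fun i : Fin 0 => cl (d i)
  | succ M ih =>
    rcases Nat.eq_zero_or_pos M with rfl | hM
    · have h1 : ∏ i : Fin 2, d i = (-1) ^ (0 + 1) * s ^ 2 := hds
      have h2 : ∑ i : Fin 2, cl (d i) = 0 := by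
        rw [Fin.sum_univ_two]
        refine cl_pair two_ne_zero (hd 0) hs ?_
        rw [Fin.prod_univ_two] at h1
        rw [h1]
        ring
      exact h2
    · have h1 : IsoF d := by
        refine hHM (2 * (M + 1)) (by omega) d hd (fun v => ?_) fun v => ?_
        · exact KHa_loc _ (by omega) (even_two_mul _) hd (hinf v)
        · exact KHa_loc _ (by omega) (even_two_mul _) hd (hfin v)
      obtain ⟨d', s', hd', hs', h2, h3⟩ := iso_red (n := 2 * M) two_ne_zero hd h1
      have h4 : ∑ i : Fin (2 * (M + 1)), cl (d i) = ∑ i, cl (d' i) := h2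
      have h5 : ∏ i : Fin (2 * M + 2), d i = (-1) ^ (M + 1) * s ^ 2 := hds
      rw [h4]
      rw [h4] at hinf hfin
      refine ih d' hd' (mul_ne_zero hs hs') ?_ hinf hfin
      rw [h3, h5]
      ring

end NF83
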