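import Pool.Agent.H.MP_83e36b_nt.hm.KLa

/-! Diagonal forms and classes in the Witt group, second part.

PROOF. Use `diag_inj` (sp/WInj: equal classes with the same number of entries give congruent diagonal
matrices), `exists_diag` (sp/WDiag), `cls_eq_sum`, `cls_cong`, `cls_diagonal` (sp/WApi), `cl_neg`,
`cl_mul_sq`, `cl_add` (sp/WDef), `isoF_cong`, `rep_split` (KLa).

`iso_of_zero`: the class of `d` (`2 M` entries, `M ≥ 1`) is 0, as is that of `(1, -1, 1, -1, ...)`
(for instance `fun i => (-1)^i`), so the two are congruent and the second is isotropic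
(`(1, 1, 0, ...)`); `isoF_cong`.
`rep_of_zero`: `∑_{i<3} cl (d_i) = cl (-a) = cl (-a) + cl 1 + cl (-1)`: congruent to `(-a, 1, -1)`.
`cl_pair`: `b = -(s²)/a = -(a (s/a)²)`, `cl b = cl (-a)` (`cl_mul_sq`), `cl_neg`.
`norm_of_zero`: the form `(a, -(δ a), e, -(δ e))` is congruent to `(a, -(δ a), -a, δ a)` (same number of
entries, class 0 both), so it is enough: `cl e + cl (-(δ e)) = cl (-a) + cl (δ a)`, the forms `(e, -(δ e))`,
`(-a, δ a)` are congruent (`diag_inj`), so `e` is a value of `(-a, δ a)`: `e = -a x² + δ a y²`,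
`-(e / a) = x² - δ y²`.
-/

set_option autoImplicit false

open SpinWA Matrix

namespace NF83

variable {K : Type*} [Field K]

private theorem KLb_alt (M : ℕ) :
    ∑ i ∈ Finset.range (M + M), cl ((-1 : K) ^ i) = 0 := by
  induction M with
  | zero => simp
  | succ M ih =>
    rw [show M + 1 + (M + 1) = M + M + 1 + 1 by ring, Finset.sum_range_succ,
      Finset.sum_range_succ, ih, zero_add, pow_succ, ← two_mul, pow_mul, neg_one_sq, one_pow,
      one_mul]
    exact cl_one_neg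

theorem iso_of_zero (h2 : (2 : K) ≠ 0) {n : ℕ} {d : Fin n → K} (hd : ∀ i, d i ≠ 0) (hn : 0 < n)
    (hev : Even n) (h : ∑ i, cl (d i) = 0) : IsoF d := by
  obtain ⟨N, rfl⟩ : ∃ N, n = N + 2 := by
    obtain ⟨M, hM⟩ := hev
    exact ⟨n - 2, by omega⟩
  obtain ⟨M, hM⟩ := hev
  have h1 : ∑ i : Fin (N + 2), cl ((-1 : K) ^ (i : ℕ)) = 0 := by
    rw [Fin.sum_univ_eq_sum_range (fun i => cl ((-1 : K) ^ i)) (N + 2), hM]
    exact KLb_alt M
  refine isoF_cong (diag_inj h2 hd (d' := fun i : Fin (N + 2) => (-1 : K) ^ (i : ℕ))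
    (fun i => pow_ne_zero _ (neg_ne_zero.2 one_ne_zero)) (by rw [h, h1])) ?_
  refine ⟨Fin.cons 1 (Fin.cons 1 0), ?_, ?_⟩
  · intro h0
    have h3 := congrFun h0 0
    rw [Fin.cons_zero] at h3
    exact one_ne_zero h3
  · rw [Fin.sum_univ_succ, Fin.sum_univ_succ]
    simp

theorem iso3_of_zero (h2 : (2 : K) ≠ 0) {d : Fin 4 → K} (hd : ∀ i, d i ≠ 0)
    (h : ∑ i, cl (d i) = 0) :
    ∃ x : Fin 3 → K, x ≠ 0 ∧ d 1 * x 0 ^ 2 + d 2 * x 1 ^ 2 + d 3 * x 2 ^ 2 = 0 := by
  have h3 : cl (d 1) + cl (d 2) + cl (d 3) = cl (-(d 0)) := by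
    rw [Fin.sum_univ_four] at h
    have h4 := cl_neg h2 (d 0)
    have h5 : cl (-(d 0)) = -cl (d 0) := (neg_eq_of_add_eq_zero_right h4).symm
    rw [h5, eq_neg_iff_add_eq_zero, ← h]
    abel
  have h6 : Cong (diagonal ![d 1, d 2, d 3]) (diagonal ![-(d 0), 1, -1]) := by
    refine diag_inj h2 ?_ ?_ ?_
    · intro i
      fin_cases i
      · exact hd 1
      · exact hd 2
      · exact hd 3
    · intro i
      fin_cases i
      · exact neg_ne_zero.2 (hd 0)
      · exact one_ne_zero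
      · exact neg_ne_zero.2 one_ne_zero
    · rw [Fin.sum_univ_three, Fin.sum_univ_three]
      show cl (d 1) + cl (d 2) + cl (d 3) = cl (-(d 0)) + cl 1 + cl (-1)
      rw [add_assoc (cl (-(d 0))), cl_one_neg, add_zero]
      exact h3
  obtain ⟨x, hx, hx2⟩ := isoF_cong h6 ⟨![0, 1, 1], fun h0 => by
    have h7 := congrFun h0 1
    exact one_ne_zero h7, by
    rw [Fin.sum_univ_three]
    show -(d 0) * (0 : K) ^ 2 + 1 * (1 : K) ^ 2 + -1 * (1 : K) ^ 2 = 0
    ring⟩
  refine ⟨x, hx, ?_⟩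
  rw [Fin.sum_univ_three] at hx2
  exact hx2

/-- a form of two entries with discriminant minus a square is zero in the Witt group -/
theorem cl_pair (h2 : (2 : K) ≠ 0) {a b s : K} (ha : a ≠ 0) (hs : s ≠ 0)
    (h : a * b = -(s ^ 2)) : cl a + cl b = 0 := by
  have e : b = -a * (s / a) ^ 2 := by
    field_simp
    linear_combination h
  rw [e, cl_mul_sq _ (div_ne_zero hs ha)]
  exact cl_neg h2 a

/-- `cl a + cl (- δ a) + cl e + cl (- δ e) = 0` forces `- e / a` to be of the form `x² - δ y²` -/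
theorem norm_of_zero (h2 : (2 : K) ≠ 0) {a e δ : K} (ha : a ≠ 0) (he : e ≠ 0) (hδ : δ ≠ 0)
    (h : cl a + cl (-(δ * a)) + cl e + cl (-(δ * e)) = 0) :
    ∃ x y : K, x ^ 2 - δ * y ^ 2 = -(e / a) := by
  have h3 : cl e + cl (-(δ * e)) = cl (-a) + cl (δ * a) := by
    have h4 : cl (-a) = -cl a := (neg_eq_of_add_eq_zero_right (cl_neg h2 a)).symm
    have h5 : cl (-(δ * a)) = -cl (δ * a) :=
      (neg_eq_of_add_eq_zero_right (cl_neg h2 (δ * a))).symm
    rw [h5] at h
    rw [h4, ← sub_eq_zero, ← h]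
    abel
  have h6 : Cong (diagonal ![-a, δ * a]) (diagonal ![e, -(δ * e)]) := by
    refine diag_inj h2 ?_ ?_ ?_
    · intro i
      fin_cases i
      · exact neg_ne_zero.2 ha
      · exact mul_ne_zero hδ ha
    · intro i
      fin_cases i
      · exact he
      · exact neg_ne_zero.2 (mul_ne_zero hδ he)
    · rw [Fin.sum_univ_two, Fin.sum_univ_two]
      exact h3.symm
  obtain ⟨P, -, hP⟩ := h6
  have h7 := congrFun (congrFun hP 0) 0
  rw [Matrix.mul_apply, Fin.sum_univ_two, Matrix.mul_diagonal, Matrix.mul_diagonal,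
    Matrix.transpose_apply, Matrix.transpose_apply, Matrix.diagonal_apply_eq] at h7
  have h8 : P 0 0 * -a * P 0 0 + P 1 0 * (δ * a) * P 1 0 = e := h7
  refine ⟨P 0 0, P 1 0, ?_⟩
  rw [← h8]
  field_simp
  ring

end NF83
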