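import Pool.Agent.H.MP_83e36b_nt.hm.HMDef
import Pool.Agent.H.MP_83e36b_nt.sp.WApi
import Pool.Agent.H.MP_83e36b_nt.sp.WCancel

/-! Diagonal forms: isotropy and classes in the Witt group.

PROOF. Use `diag_inj` (sp/WInj: equal classes with the same number of entries give congruent diagonal
matrices), `exists_diag` (sp/WDiag), `cls_eq_sum`, `cls_cong`, `cls_diagonal` (sp/WApi), `cl_neg`,
`cl_mul_sq`, `cl_add` (sp/WDef), `cong_cancel` (sp/WCancel).

`isoF_cong`: `Pᵀ diag(d) P = diag(d')`, `x' ≠ 0` with `∑ d' x'² = 0`: `x = P x'`, `x ≠ 0` as `det P ≠ 0`,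
`∑ d x² = x'ᵀ Pᵀ diag(d) P x'` (`qf`, `wcancel_qf` in sp/WCancel).
`rep_split`: `∑ d_i x_i² = a ≠ 0`, `n + 1` entries: there is an invertible `P` with first column `x`
(some `x_j ≠ 0`), `B = Pᵀ diag(d) P` is symmetric, `B 0 0 = a`; or directly: let `e = Pi.single 0 1`
and use the reflection lemma `wcancel_exists_isom` for the form `diag (a, d)` of `n + 2` entries: the
vectors `(1, 0)` and `(0, x)` have the same value `a ≠ 0`, so there is an isometry `R` of `diag(a, d)`
mapping one to the other, ... ; or induct on `n` with `cl_add`: if only one `x_i ≠ 0`, `a = d_i x_i²` and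
`cl_mul_sq`; otherwise write `a = a' + d_n x_n²` with `a' = ∑_{i < n} d_i x_i²`; if `a' = 0` and
`x_n ≠ 0` then `a = d_n x_n²`: `cl d_n = cl a`; if `x_n = 0` use induction and put `d_n` at the end; if
both are nonzero: by induction `∑_{i<n} cl d_i = cl a' + ∑ cl d''_j` with `a' ∏ d'' = ∏_{i<n} d_i □`, and
`cl a' + cl (d_n x_n²) = cl a + cl (a' d_n x_n² a)` (`cl_add`). The last way is the simplest (use
`Fin.sum_univ_castSucc`, `Fin.prod_univ_castSucc`, `Fin.snoc`).
`iso_red`: `∑ d_i x_i² = 0`, `x_j ≠ 0`: then the form without `d_j` represents `- d_j`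
(`∑_{i≠j} d_i (x_i/x_j)² = -d_j`, use `Fin.succAbove j`, `Fin.sum_univ_succAbove`,
`Fin.prod_univ_succAbove`), apply `rep_split` and `cl d_j + cl (-d_j) = 0`.
-/

set_option autoImplicit false

open SpinWA Matrix

namespace NF83

variable {K : Type*} [Field K]

theorem isoF_cong {n : ℕ} {d d' : Fin n → K} (h : Cong (diagonal d) (diagonal d'))
    (hd : IsoF d') : IsoF d := by
  obtain ⟨P, hP, hPd⟩ := h
  obtain ⟨x, hx, hxd⟩ := hd
  refine ⟨P *ᵥ x, fun h0 => hx (Matrix.eq_zero_of_mulVec_eq_zero hP h0), ?_⟩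
  have e : ∀ (c y : Fin n → K), ∑ i, c i * y i ^ 2 = y ⬝ᵥ (diagonal c *ᵥ y) := by
    intro c y
    simp only [dotProduct, Matrix.mulVec_diagonal]
    exact Finset.sum_congr rfl fun i _ => by ring
  rw [e] at hxd ⊢
  rw [← hPd] at hxd
  rw [← hxd, ← Matrix.mulVec_mulVec, ← Matrix.mulVec_mulVec, Matrix.dotProduct_mulVec x Pᵀ,
    Matrix.vecMul_transpose]

theorem rep_split (h2 : (2 : K) ≠ 0) {n : ℕ} {d : Fin (n + 1) → K} (hd : ∀ i, d i ≠ 0)
    {a : K} (ha : a ≠ 0) (x : Fin (n + 1) → K) (hx : ∑ i, d i * x i ^ 2 = a) :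
    ∃ (d' : Fin n → K) (s : K), (∀ i, d' i ≠ 0) ∧ s ≠ 0 ∧
      ∑ i, cl (d i) = cl a + ∑ i, cl (d' i) ∧ a * ∏ i, d' i = (∏ i, d i) * s ^ 2 := by
  clear h2
  induction n generalizing a with
  | zero =>
    have hx' : d 0 * x 0 ^ 2 = a := by simpa using hx
    have hx0 : x 0 ≠ 0 := by
      intro h0
      apply ha
      rw [← hx', h0]
      ring
    refine ⟨Fin.elim0, x 0, fun i => i.elim0, hx0, ?_, ?_⟩
    · rw [← hx', cl_mul_sq _ hx0]
      simp
    · rw [← hx']
      simp
  | succ n ih =>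
    rw [Fin.sum_univ_castSucc] at hx
    have hdc : ∀ i : Fin (n + 1), d i.castSucc ≠ 0 := fun i => hd _
    have hl := hd (Fin.last (n + 1))
    by_cases hxl : x (Fin.last (n + 1)) = 0
    · rw [hxl, zero_pow (two_ne_zero), mul_zero, add_zero] at hx
      obtain ⟨d', s, h1, h3, h4, h5⟩ := ih hdc ha (fun i => x i.castSucc) hx
      refine ⟨Fin.snoc d' (d (Fin.last (n + 1))), s, ?_, h3, ?_, ?_⟩
      · intro i
        refine Fin.lastCases ?_ (fun j => ?_) i
        · rw [Fin.snoc_last]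
          exact hl
        · rw [Fin.snoc_castSucc]
          exact h1 j
      · rw [Fin.sum_univ_castSucc, h4, Fin.sum_univ_castSucc]
        simp only [Fin.snoc_castSucc, Fin.snoc_last]
        rw [add_assoc]
      · rw [Fin.prod_univ_castSucc, Fin.prod_univ_castSucc (f := d)]
        simp only [Fin.snoc_castSucc, Fin.snoc_last]
        linear_combination d (Fin.last (n + 1)) * h5
    · by_cases ha' : ∑ i : Fin (n + 1), d i.castSucc * x i.castSucc ^ 2 = 0
      · rw [ha', zero_add] at hx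
        refine ⟨fun i => d i.castSucc, x (Fin.last (n + 1)), hdc, hxl, ?_, ?_⟩
        · rw [Fin.sum_univ_castSucc, ← hx, cl_mul_sq _ hxl, add_comm]
        · rw [Fin.prod_univ_castSucc (f := d), ← hx]
          ring
      · obtain ⟨d', s, h1, h3, h4, h5⟩ := ih hdc ha' (fun i => x i.castSucc) rfl
        generalize ∑ i : Fin (n + 1), d i.castSucc * x i.castSucc ^ 2 = a' at *
        have hlx : d (Fin.last (n + 1)) * x (Fin.last (n + 1)) ^ 2 ≠ 0 :=
          mul_ne_zero hl (pow_ne_zero 2 hxl)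
        have h6 := cl_add ha' hlx (by rw [hx]; exact ha)
        rw [hx, cl_mul_sq _ hxl] at h6
        have e1 : a' * (d (Fin.last (n + 1)) * x (Fin.last (n + 1)) ^ 2) * a =
            (a' * d (Fin.last (n + 1)) * a) * x (Fin.last (n + 1)) ^ 2 := by ring
        rw [e1, cl_mul_sq _ hxl] at h6
        refine ⟨Fin.snoc d' (a' * d (Fin.last (n + 1)) * a), s * a, ?_, mul_ne_zero h3 ha, ?_, ?_⟩
        · intro i
          refine Fin.lastCases ?_ (fun j => ?_) i
          · rw [Fin.snoc_last]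
            exact mul_ne_zero (mul_ne_zero ha' hl) ha
          · rw [Fin.snoc_castSucc]
            exact h1 j
        · rw [Fin.sum_univ_castSucc, h4, Fin.sum_univ_castSucc]
          simp only [Fin.snoc_castSucc, Fin.snoc_last]
          rw [add_right_comm, h6]
          abel
        · rw [Fin.prod_univ_castSucc, Fin.prod_univ_castSucc (f := d)]
          simp only [Fin.snoc_castSucc, Fin.snoc_last]
          linear_combination a ^ 2 * d (Fin.last (n + 1)) * h5

theorem iso_red (h2 : (2 : K) ≠ 0) {n : ℕ} {d : Fin (n + 2) → K} (hd : ∀ i, d i ≠ 0)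
    (h : IsoF d) : ∃ (d' : Fin n → K) (s : K), (∀ i, d' i ≠ 0) ∧ s ≠ 0 ∧
      ∑ i, cl (d i) = ∑ i, cl (d' i) ∧ ∏ i, d' i = -(∏ i, d i) * s ^ 2 := by
  obtain ⟨x, hx, h⟩ := h
  obtain ⟨j, hj⟩ := Function.ne_iff.1 hx
  have hj' : x j ≠ 0 := hj
  rw [Fin.sum_univ_succAbove _ j] at h
  have hdj := hd j
  obtain ⟨d', s, h1, h3, h4, h5⟩ := rep_split h2 (n := n) (d := fun i => d (j.succAbove i))
    (fun i => hd _) (neg_ne_zero.2 hdj) (fun i => x (j.succAbove i) / x j) (by
      have e : ∀ i, d (j.succAbove i) * (x (j.succAbove i) / x j) ^ 2 =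
          (x j ^ 2)⁻¹ * (d (j.succAbove i) * x (j.succAbove i) ^ 2) := by
        intro i
        field_simp
      rw [Finset.sum_congr rfl fun i _ => e i, ← Finset.mul_sum]
      have h6 : ∑ i, d (j.succAbove i) * x (j.succAbove i) ^ 2 = - (d j * x j ^ 2) := by
        linear_combination h
      rw [h6]
      field_simp)
  refine ⟨d', s / d j, h1, div_ne_zero h3 hdj, ?_, ?_⟩
  · rw [Fin.sum_univ_succAbove _ j, h4, ← add_assoc, cl_neg h2, zero_add]
  · rw [Fin.prod_univ_succAbove _ j]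
    have h7 : ∏ i, d' i = -(∏ i, d (j.succAbove i)) * s ^ 2 / d j := by
      rw [eq_div_iff hdj]
      linear_combination -h5
    rw [h7]
    field_simp

end NF83
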