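import Pool.Agent.H.MP_83e36b_nt.hm.KNa

/-! Nondyadic complete discretely valued fields: forms whose entries are units.

PROOF. `NDat.three`: units `u 0, u 1, u 2`: `cl (u 0) + cl (u 1) + cl (u 2) = cl (-(u 0 u 1 u 2))`. The equation
`ū 0 a² + ū 1 b² = -ū 2` has a solution in the finite field `κ`
(`FiniteField.exists_root_sum_quadratic`, `2 ≠ 0`; or `exists_root3` of nf/U5a with the form
`ū 0 a² + ū 1 b² + ū 2 c²`, which has a nonzero zero, some coordinate is nonzero; by symmetry say the first); lift it: if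
`ā ≠ 0` then `-(u 1 b² + u 2 c²)/u 0` has reduction the nonzero square `ā²`, so it is a square
(`NDat.sq`): the form is isotropic; `iso_red` (n = 1): `∑ cl u_i = cl d'`, `d' = -(u 0 u 1 u 2) □`.
`NDat.sum_zero`: induct on `M`: `M = 0` trivial, `M = 1`: `cl_pair`; `M + 2`: replace the first three entries by
`-(u 0 u 1 u 2)`, again a unit, the product changes its sign, the number of entries drops by 2.
`NDat.odd4`: among the four entries `d i`, `‖d i‖ = ‖π‖ ^ (j i)` (`unif`), an odd number of the `j i` is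
odd, as `∏ d = δ s²`, `‖δ‖ = ‖π‖ ‖s'‖²` (a power of `π` has even exponent if its norm is the norm of a
square: `‖π‖ < 1`, `zpow` injective); so either three of the `j i` are even or three are odd; dividing by
squares (and by `π`) these three become units, and three units are isotropic (the first step of
`NDat.three`); extend the zero by 0.
`NDat.iso3`: the first step of `NDat.three`.
`NDat.sum_eq`: `∑ cl (u i) + ∑ cl (- r i)` (`cl_neg`) is a sum over `2 L` units with the product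
`∏ u (-1)^N ∏ r = (-1)^L □`: combine the families with `Fin.append` (`Fin.sum_univ_add`,
`Fin.prod_univ_add`) and `Fin.cast`, `NDat.sum_zero`.
-/

set_option autoImplicit false

open SpinWA Matrix DC83

namespace NF83

variable {K : Type*} [NormedField K] [CompleteSpace K] {O : Subring K} {κ : Type*} [Field κ]
  [Finite κ] {rd : O →+* κ} {π : K}

theorem NDat.iso3 (h : NDat O rd π) (u : Fin 3 → K) (hu : ∀ i, ‖u i‖ = 1) : IsoF u := by
  have hU : ∀ i, u i ∈ O := fun i => (h.mem _).2 (hu i).le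
  obtain ⟨a, ha, har⟩ := exists_root3 (rd ⟨u 0, hU 0⟩) (rd ⟨u 1, hU 1⟩) (rd ⟨u 2, hU 2⟩) 0 0 0
  have har' : ∑ i, rd ⟨u i, hU i⟩ * a i ^ 2 = 0 := by
    rw [Fin.sum_univ_three]
    linear_combination har
  choose A hA using fun i => h.surj (a i)
  obtain ⟨j, hj⟩ := Function.ne_iff.1 ha
  have hj' : a j ≠ 0 := hj
  have huj : u j ≠ 0 := by
    intro h0
    have h1 := hu j
    rw [h0, norm_zero] at h1
    exact zero_ne_one h1
  have hI : (u j)⁻¹ ∈ O := (h.mem _).2 (by rw [norm_inv, hu j, inv_one])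
  have hr : rd ⟨u j, hU j⟩ * rd ⟨(u j)⁻¹, hI⟩ = 1 := by
    rw [← map_mul, ← map_one rd]
    congr 1
    exact Subtype.ext (mul_inv_cancel₀ huj)
  obtain ⟨X, hXd⟩ : ∃ X : O, X = -(∑ i : Fin 2, (⟨u (j.succAbove i), hU _⟩ : O) *
      A (j.succAbove i) ^ 2) * ⟨(u j)⁻¹, hI⟩ := ⟨_, rfl⟩
  have hX : rd X = a j ^ 2 := by
    rw [hXd, map_mul, map_neg, map_sum]
    simp only [map_mul, map_pow, hA]
    rw [Fin.sum_univ_succAbove _ j] at har'
    linear_combination (-(rd ⟨(u j)⁻¹, hI⟩)) * har' + a j ^ 2 * hr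
  obtain ⟨s, hs0, -, hs⟩ := h.sq X (a j) hj' hX
  have hXK : (X : K) = -(∑ i : Fin 2, u (j.succAbove i) * (A (j.succAbove i) : K) ^ 2) *
      (u j)⁻¹ := by
    rw [hXd]
    push_cast
    rfl
  refine ⟨fun i => if i = j then s else (A i : K), ?_, ?_⟩
  · intro h0
    have h1 := congrFun h0 j
    rw [if_pos rfl] at h1
    exact hs0 h1
  · rw [Fin.sum_univ_succAbove _ j]
    beta_reduce
    rw [if_pos rfl, hs, hXK]
    have e : ∀ i : Fin 2, u (j.succAbove i) * (if j.succAbove i = j then s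
        else (A (j.succAbove i) : K)) ^ 2 = u (j.succAbove i) * (A (j.succAbove i) : K) ^ 2 := by
      intro i
      rw [if_neg (Fin.succAbove_ne j i)]
    rw [Finset.sum_congr rfl fun i _ => e i]
    field_simp
    ring

theorem NDat.three (h : NDat O rd π) {u v w : K} (hu : ‖u‖ = 1) (hv : ‖v‖ = 1) (hw : ‖w‖ = 1) :
    cl u + cl v + cl w = cl (-(u * v * w)) := by
  have hne : ∀ {x : K}, ‖x‖ = 1 → x ≠ 0 := by
    intro x hx h0
    rw [h0, norm_zero] at hx
    exact zero_ne_one hx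
  have h1 : IsoF ![u, v, w] := h.iso3 _ (by
    intro i
    fin_cases i
    · exact hu
    · exact hv
    · exact hw)
  obtain ⟨d', s, -, hs, h2, h3⟩ := iso_red (n := 1) h.two_ne (d := ![u, v, w]) (by
    intro i
    fin_cases i
    · exact hne hu
    · exact hne hv
    · exact hne hw) h1
  rw [Fin.sum_univ_three, Fin.sum_univ_one] at h2
  rw [Fin.prod_univ_three, Fin.prod_univ_one] at h3
  have h4 : cl u + cl v + cl w = cl (d' 0) := h2
  have h5 : d' 0 = -(u * v * w) * s ^ 2 := h3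
  rw [h4, h5, cl_mul_sq _ hs]

private theorem KNb_zero (h : NDat O rd π) (m : ℕ) (u : Fin (2 * m + 2) → K)
    (hu : ∀ i, ‖u i‖ = 1) {s : K} (hs : s ≠ 0) (hp : ∏ i, u i = (-1) ^ (m + 1) * s ^ 2) :
    ∑ i, cl (u i) = 0 := by
  induction m with
  | zero =>
    have h1 : ∏ i : Fin 2, u i = (-1) ^ (0 + 1) * s ^ 2 := hp
    have h2 : ∑ i : Fin 2, cl (u i) = 0 := by
      rw [Fin.sum_univ_two]
      refine cl_pair h.two_ne ?_ hs ?_
      · intro h0
        have h3 := hu 0
        have h4 : u 0 = 0 := h0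
        rw [h4, norm_zero] at h3
        exact zero_ne_one h3
      · rw [Fin.prod_univ_two] at h1
        rw [h1]
        ring
    exact h2
  | succ m ih =>
    obtain ⟨w, hw⟩ : ∃ w : Fin (2 * m + 1 + 3) → K, w = u := ⟨u, rfl⟩
    have hwu : ∀ i, ‖w i‖ = 1 := by
      rw [hw]
      exact hu
    have hwp : ∏ i, w i = (-1) ^ (m + 1 + 1) * s ^ 2 := by
      rw [hw]
      exact hp
    have e1 : ∑ i : Fin (2 * m + 1 + 3), cl (w i) = 0 := by
      rw [Fin.sum_univ_succ, Fin.sum_univ_succ, Fin.sum_univ_succ]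
      have h3 := h.three (hwu 0) (hwu (Fin.succ 0)) (hwu (Fin.succ (Fin.succ 0)))
      rw [← add_assoc, ← add_assoc, h3]
      have h4 := ih (Fin.cons (-(w 0 * w (Fin.succ 0) * w (Fin.succ (Fin.succ 0))))
        fun i : Fin (2 * m + 1) => w i.succ.succ.succ) (by
          intro i
          refine Fin.cases ?_ (fun j => ?_) i
          · rw [Fin.cons_zero, norm_neg, norm_mul, norm_mul, hwu, hwu, hwu, one_mul, one_mul]
          · rw [Fin.cons_succ]
            exact hwu _) (by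
          rw [Fin.prod_univ_succ, Fin.cons_zero]
          simp only [Fin.cons_succ]
          rw [Fin.prod_univ_succ, Fin.prod_univ_succ, Fin.prod_univ_succ] at hwp
          rw [pow_succ] at hwp
          linear_combination -hwp)
      rw [Fin.sum_univ_succ, Fin.cons_zero] at h4
      simp only [Fin.cons_succ] at h4
      exact h4
    rw [hw] at e1
    exact e1

theorem NDat.sum_zero (h : NDat O rd π) {M : ℕ} (u : Fin (2 * M) → K) (hu : ∀ i, ‖u i‖ = 1)
    {s : K} (hs : s ≠ 0) (hp : ∏ i, u i = (-1) ^ M * s ^ 2) : ∑ i, cl (u i) = 0 := by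
  cases M with
  | zero => exact Fin.sum_univ_zero fun i : Fin 0 => cl (u i)
  | succ m => exact KNb_zero h m u hu hs hp

theorem NDat.odd4 (h : NDat O rd π) {δ s : K} (hs : s ≠ 0) (hδ : ‖δ‖ = ‖π‖ * ‖s‖ ^ 2) :
    Odd4 K δ := by
  intro d hd s' hs' hds
  have hp0 : ‖π‖ ≠ 0 := norm_ne_zero_iff.2 h.pi0
  have hpp : 0 < ‖π‖ := norm_pos_iff.2 h.pi0
  have h1 : ∀ i, ∃ (b : Bool) (t : K), t ≠ 0 ∧ ‖d i‖ = ‖π‖ ^ b.toNat * ‖t‖ ^ 2 := by
    intro i
    rcases h.parity (hd i) with ⟨t, ht, hdt⟩ | ⟨t, ht, hdt⟩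
    · refine ⟨false, t, ht, ?_⟩
      rw [Bool.toNat_false, pow_zero, one_mul]
      exact hdt
    · refine ⟨true, t, ht, ?_⟩
      rw [Bool.toNat_true, pow_one]
      exact hdt
  choose b t ht hdt using h1
  have hodd : (∑ i, (b i).toNat) % 2 = 1 := by
    by_contra hcon
    obtain ⟨m, hm⟩ : ∃ m, ∑ i, (b i).toNat = 2 * m := ⟨(∑ i, (b i).toNat) / 2, by omega⟩
    have h2 : ‖∏ i, d i‖ = (‖π‖ ^ m * ‖∏ i, t i‖) ^ 2 := by
      rw [norm_prod, norm_prod, Finset.prod_congr rfl fun i _ => hdt i, Finset.prod_mul_distrib,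
        Finset.prod_pow_eq_pow_sum, hm, Finset.prod_pow, mul_pow, ← pow_mul, mul_comm m 2]
    rw [hds, norm_mul, norm_pow, hδ] at h2
    have hT : (∏ i, t i) ≠ 0 := Finset.prod_ne_zero_iff.2 fun i _ => ht i
    have hss : s * s' ≠ 0 := mul_ne_zero hs hs'
    obtain ⟨j, hj⟩ := h.unif (π ^ m * (∏ i, t i) / (s * s'))
      (div_ne_zero (mul_ne_zero (pow_ne_zero _ h.pi0) hT) hss)
    have hsn : ‖s * s'‖ ≠ 0 := norm_ne_zero_iff.2 hss
    have h3 : ‖π‖ = ‖π ^ m * (∏ i, t i) / (s * s')‖ ^ 2 := by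
      rw [norm_div, norm_mul, norm_pow, div_pow, eq_div_iff (pow_ne_zero 2 hsn), norm_mul]
      rw [← h2]
      ring
    rw [hj] at h3
    have h4 : ‖π‖ ^ (1 : ℤ) = ‖π‖ ^ (j * 2) := by
      rw [zpow_one, _root_.zpow_mul]
      exact_mod_cast h3
    have h5 := (zpow_right_injective₀ hpp h.pi1.ne) h4
    omega
  have hdec : ∀ b : Fin 4 → Bool, (∑ i, (b i).toNat) % 2 = 1 →
      ∃ (j : Fin 4) (c : Bool), ∀ i, i ≠ j → b i = c := by decide
  obtain ⟨j, c, hc⟩ := hdec b hodd
  obtain ⟨q, hq0, hq⟩ : ∃ q : K, q ≠ 0 ∧ ‖q‖ = ‖π‖ ^ c.toNat := by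
    refine ⟨π ^ c.toNat, pow_ne_zero _ h.pi0, norm_pow _ _⟩
  have hun : ∀ i : Fin 3, ‖d (j.succAbove i) / (q * t (j.succAbove i) ^ 2)‖ = 1 := by
    intro i
    have hb := hc (j.succAbove i) (Fin.succAbove_ne j i)
    rw [norm_div, norm_mul, norm_pow, hq, hdt, hb]
    exact div_self (mul_ne_zero (pow_ne_zero _ hp0)
      (pow_ne_zero _ (norm_ne_zero_iff.2 (ht _))))
  obtain ⟨x, hx, hxs⟩ := h.iso3 _ hun
  refine ⟨j.insertNth 0 (fun i => x i / t (j.succAbove i)), ?_, ?_⟩
  · intro h0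
    apply hx
    funext i
    have h6 := congrFun h0 (j.succAbove i)
    rw [Fin.insertNth_apply_succAbove] at h6
    have h7 : x i / t (j.succAbove i) = 0 := h6
    rcases div_eq_zero_iff.1 h7 with h8 | h8
    · exact h8
    · exact absurd h8 (ht _)
  · rw [Fin.sum_univ_succAbove _ j, Fin.insertNth_apply_same]
    simp only [Fin.insertNth_apply_succAbove]
    have e : ∀ i : Fin 3, d (j.succAbove i) * (x i / t (j.succAbove i)) ^ 2 =
        q * (d (j.succAbove i) / (q * t (j.succAbove i) ^ 2) * x i ^ 2) := by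
      intro i
      have := ht (j.succAbove i)
      field_simp
    rw [Finset.sum_congr rfl fun i _ => e i, ← Finset.mul_sum, hxs]
    ring

/-- two families of units with the correct product have the same class -/
theorem NDat.sum_eq (h : NDat O rd π) {M N L : ℕ} (hL : M + N = 2 * L) (u : Fin M → K)
    (r : Fin N → K) (hu : ∀ i, ‖u i‖ = 1) (hr : ∀ i, ‖r i‖ = 1) {s : K} (hs : s ≠ 0)
    (hp : (∏ i, u i) * ∏ i, r i = (-1) ^ (L + N) * s ^ 2) : ∑ i, cl (u i) = ∑ i, cl (r i) := by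
  have gen : ∀ {n : ℕ} (_ : n = 2 * L) (w : Fin n → K) (_ : ∀ i, ‖w i‖ = 1)
      (_ : ∏ i, w i = (-1) ^ L * s ^ 2), ∑ i, cl (w i) = 0 := by
    intro n hn
    subst hn
    exact fun w hw hwp => h.sum_zero w hw hs hwp
  have h1 := gen hL (Fin.append u fun i => -(r i)) (by
    intro i
    refine Fin.addCases (fun j => ?_) (fun j => ?_) i
    · rw [Fin.append_left]
      exact hu j
    · rw [Fin.append_right, norm_neg]
      exact hr j) (by
    rw [Fin.prod_univ_add]
    simp only [Fin.append_left, Fin.append_right]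
    rw [Finset.prod_neg, Finset.card_univ, Fintype.card_fin]
    have e : ((-1 : K) ^ N) * (-1) ^ (L + N) = (-1) ^ L := by
      rw [← pow_add, show N + (L + N) = L + 2 * N by ring, pow_add, pow_mul, neg_one_sq, one_pow,
        mul_one]
    linear_combination (-1) ^ N * hp + s ^ 2 * e)
  rw [Fin.sum_univ_add] at h1
  simp only [Fin.append_left, Fin.append_right] at h1
  have h2 : ∑ i, cl (-(r i)) = -∑ i, cl (r i) := by
    rw [← Finset.sum_neg_distrib]
    refine Finset.sum_congr rfl fun i _ => ?_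
    exact (neg_eq_of_add_eq_zero_right (cl_neg h.two_ne (r i))).symm
  rw [h2, ← sub_eq_add_neg, sub_eq_zero] at h1
  exact h1

end NF83
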