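import Pool.Agent.H.MP_83e36b_nt.hm.KH

/-! Nondyadic complete discretely valued fields with finite residue field: definition, squares.

PROOF. `norm_two`: `rd 2 = 2 ≠ 0`, `‖2‖ ≤ 1` (`mem`: `2 ∈ O`), not `< 1` by `ker`. `unit_iff`: `ker` and `mem`.
`NDat.sq`: choose `y ∈ O` with `rd y = r`; `‖y‖ = 1`; `z = (x / y² - 1) / 4`, `‖z‖ < 1`
(`‖4‖ = 1`, as `2 ≠ 0` in `κ`); `exists_w` (nf/U5a) gives `w² + w = z`, so
`(2 w + 1)² = x / y²`; `s = y (2 w + 1)`, `s ≠ 0` since `x ≠ 0`.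
`sq_near`: `x ∈ O`, `rd x = 1`, `NDat.sq` with `r = 1`.
`parity`: `unif` gives `‖x‖ = ‖π‖ ^ j`, `j` even: `s = π ^ (j / 2)`, `j = 2 l + 1`: `s = π ^ l`.
-/

set_option autoImplicit false

open SpinWA Matrix DC83

namespace NF83

/-- `O` is the ring of integral elements of the complete field `K`, `rd` the reduction to the residue
field of characteristic different from 2, `π` a uniformizer -/
structure NDat {K : Type*} [NormedField K] (O : Subring K) {κ : Type*} [Field κ] (rd : O →+* κ)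
    (π : K) : Prop where
  ultra : ∀ x y : K, ‖x + y‖ ≤ max ‖x‖ ‖y‖
  mem : ∀ x : K, x ∈ O ↔ ‖x‖ ≤ 1
  ker : ∀ x : O, rd x = 0 ↔ ‖(x : K)‖ < 1
  surj : Function.Surjective rd
  two : (2 : κ) ≠ 0
  pi0 : π ≠ 0
  pi1 : ‖π‖ < 1
  unif : ∀ x : K, x ≠ 0 → ∃ j : ℤ, ‖x‖ = ‖π‖ ^ j

variable {K : Type*} [NormedField K] [CompleteSpace K] {O : Subring K} {κ : Type*} [Field κ]
  [Finite κ] {rd : O →+* κ} {π : K}

omit [CompleteSpace K] [Finite κ] in
private theorem KNa_le (h : NDat O rd π) (x : O) : ‖(x : K)‖ ≤ 1 := (h.mem x).1 x.2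

omit [CompleteSpace K] [Finite κ] in
private theorem KNa_unit (h : NDat O rd π) (x : O) : rd x ≠ 0 ↔ ‖(x : K)‖ = 1 := by
  rw [Ne, h.ker, not_lt]
  exact ⟨fun h1 => le_antisymm (KNa_le h x) h1, fun h1 => h1.ge⟩

omit [CompleteSpace K] [Finite κ] in
theorem NDat.norm_two (h : NDat O rd π) : ‖(2 : K)‖ = 1 := by
  have h1 : rd (2 : O) ≠ 0 := by
    rw [map_ofNat]
    exact h.two
  have h2 := (KNa_unit h 2).1 h1
  exact_mod_cast h2

omit [CompleteSpace K] [Finite κ] in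
theorem NDat.two_ne (h : NDat O rd π) : (2 : K) ≠ 0 := by
  intro h1
  have := h.norm_two
  rw [h1, norm_zero] at this
  exact zero_ne_one this

omit [CompleteSpace K] [Finite κ] in
/-- the units are the elements with nonzero reduction -/
theorem NDat.unit_iff (h : NDat O rd π) (x : O) : rd x ≠ 0 ↔ ‖(x : K)‖ = 1 := KNa_unit h x

omit [Finite κ] in
theorem NDat.sq (h : NDat O rd π) (x : O) (r : κ) (hr : r ≠ 0) (hx : rd x = r ^ 2) :
    ∃ s : K, s ≠ 0 ∧ ‖s‖ = 1 ∧ s ^ 2 = x := by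
  obtain ⟨y, hy⟩ := h.surj r
  have hy1 : ‖(y : K)‖ = 1 := (h.unit_iff y).1 (by rw [hy]; exact hr)
  have hy0 : (y : K) ≠ 0 := by
    intro h0
    rw [h0, norm_zero] at hy1
    exact zero_ne_one hy1
  have hx1 : ‖(x : K)‖ = 1 := (h.unit_iff x).1 (by rw [hx]; exact pow_ne_zero 2 hr)
  have h4 : ‖(4 : K)‖ = 1 := by
    have e : (4 : K) = 2 ^ 2 := by norm_num
    rw [e, norm_pow, h.norm_two, one_pow]
  have h40 : (4 : K) ≠ 0 := by
    intro h0
    rw [h0, norm_zero] at h4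
    exact zero_ne_one h4
  have hd : ‖(x : K) - (y : K) ^ 2‖ < 1 := by
    have e := (h.ker (x - y ^ 2)).1 (by rw [map_sub, map_pow, hx, hy, sub_self])
    exact_mod_cast e
  obtain ⟨w, hw⟩ := exists_w (K := K) h.ultra (z := ((x : K) / (y : K) ^ 2 - 1) / 4) (by
    have e : ((x : K) / (y : K) ^ 2 - 1) / 4 = ((x : K) - (y : K) ^ 2) / (y : K) ^ 2 / 4 := by
      field_simp
    rw [e, norm_div, norm_div, norm_pow, hy1, h4, one_pow, div_one, div_one]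
    exact hd)
  have hs : ((y : K) * (2 * w + 1)) ^ 2 = x := by
    have e1 : ((y : K) * (2 * w + 1)) ^ 2 = (y : K) ^ 2 * (4 * (w ^ 2 + w) + 1) := by ring
    rw [e1, hw]
    field_simp
    ring
  have hn : ‖(y : K) * (2 * w + 1)‖ = 1 := by
    have e2 : ‖(y : K) * (2 * w + 1)‖ ^ 2 = 1 := by rw [← norm_pow, hs, hx1]
    exact (pow_eq_one_iff_of_nonneg (norm_nonneg _) two_ne_zero).1 e2
  refine ⟨(y : K) * (2 * w + 1), ?_, hn, hs⟩
  intro h0
  rw [h0, norm_zero] at hn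
  exact zero_ne_one hn

omit [Finite κ] in
theorem NDat.sq_near (h : NDat O rd π) {x : K} (hx : ‖x - 1‖ < 1) :
    ∃ s : K, s ≠ 0 ∧ ‖s‖ = 1 ∧ s ^ 2 = x := by
  have hxO : x ∈ O := by
    rw [h.mem]
    have e : x = (x - 1) + 1 := by ring
    rw [e]
    exact (h.ultra _ _).trans (max_le hx.le (by rw [norm_one]))
  have h1 : rd ⟨x, hxO⟩ = 1 ^ 2 := by
    have e : rd (⟨x, hxO⟩ - 1) = 0 := (h.ker _).2 (by
      have e1 : ((⟨x, hxO⟩ - 1 : O) : K) = x - 1 := by push_cast; rfl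
      rw [e1]
      exact hx)
    rw [map_sub, map_one, sub_eq_zero] at e
    rw [e, one_pow]
  exact h.sq ⟨x, hxO⟩ 1 one_ne_zero h1

omit [CompleteSpace K] [Finite κ] in
/-- parity of the valuation -/
theorem NDat.parity (h : NDat O rd π) {x : K} (hx : x ≠ 0) :
    (∃ s : K, s ≠ 0 ∧ ‖x‖ = ‖s‖ ^ 2) ∨ ∃ s : K, s ≠ 0 ∧ ‖x‖ = ‖π‖ * ‖s‖ ^ 2 := by
  obtain ⟨j, hj⟩ := h.unif x hx
  have hp : ‖π‖ ≠ 0 := norm_ne_zero_iff.2 h.pi0
  obtain ⟨l, hl | hl⟩ := Int.even_or_odd' j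
  · left
    refine ⟨π ^ l, zpow_ne_zero _ h.pi0, ?_⟩
    rw [hj, hl, norm_zpow, mul_comm, _root_.zpow_mul]
    norm_cast
  · right
    refine ⟨π ^ l, zpow_ne_zero _ h.pi0, ?_⟩
    rw [hj, hl, norm_zpow, zpow_add₀ hp, zpow_one, mul_comm 2 l, _root_.zpow_mul, mul_comm]
    norm_cast

end NF83
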