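import Pool.Agent.H.MP_83e36b_nt.hm.KPa

/-! Two-fold Pfister forms, second part.

PROOF. `pf_prod`: for `e : Fin (2 m) → K` with `∏ e = (-1)^m δ s²`:
`∑ (cl (lam e_i) - cl (e_i)) = Pf δ lam`. Induct on `m`: pairs `e_0, e_1`:
`cl (lam e_0) + cl (lam e_1) - cl e_0 - cl e_1 = - e_0 • Pf lam (-(e_0 e_1)) = - Pf (-(e_0 e_1)) lam`
(`pf_scale`; `cl (e_0 (e_0 e_1)) = cl e_1`), additivity in the first variable (`pf_add` and
`pf_symm : Pf a b = Pf b a`) and `pf_neg`; `Pf (δ s²) lam = Pf δ lam`.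
`loc_fin`: `cl q + cl (-(δ q)) + cl (-(q μ)) + cl (δ q μ) = q • Pf δ μ = Pf δ μ` (`pf_scale`), so the sum is
`Pf δ μ + Pf δ lam = Pf δ (μ lam) = 0` (`pf_add`, `pf_norm`).
-/

set_option autoImplicit false

open SpinWA Matrix DC83

namespace NF83

variable {K : Type*} [Field K]

private theorem kpb_symm (a b : K) : Pf a b = Pf b a := by
  unfold Pf
  rw [mul_comm a b]
  abel

private theorem kpb_neg (h2 : (2 : K) ≠ 0) (a : K) : cl (-a) = -cl a :=
  (neg_eq_of_add_eq_zero_right (cl_neg h2 a)).symm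

/-- two entries `a, b` -/
private theorem kpb_two (hU : U5 K) (h2 : (2 : K) ≠ 0) {a b lam : K} (ha : a ≠ 0) (hb : b ≠ 0)
    (hl : lam ≠ 0) :
    (cl (lam * a) - cl a) + (cl (lam * b) - cl b) + Pf (-(a * b)) lam = 0 := by
  have h1 := pf_scale hU h2 (a := -(a * b)) (b := lam) (t := a)
    (neg_ne_zero.2 (mul_ne_zero ha hb)) hl ha
  have e1 : cl (-(-(a * b) * a)) = cl b := by
    rw [show -(-(a * b) * a) = b * a ^ 2 by ring, cl_mul_sq _ ha]
  have e2 : cl (-(a * b) * lam * a) = -cl (lam * b) := by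
    rw [show -(a * b) * lam * a = -(lam * b) * a ^ 2 by ring, cl_mul_sq _ ha, kpb_neg h2]
  rw [e1, e2, kpb_neg h2 (lam * a)] at h1
  rw [← h1]
  abel

private theorem kpb_prod (hU : U5 K) (h2 : (2 : K) ≠ 0) {lam : K} (hl : lam ≠ 0) (m : ℕ) :
    ∀ (e : Fin (2 * m) → K) (_ : ∀ i, e i ≠ 0) (δ s : K) (_ : δ ≠ 0) (_ : s ≠ 0)
      (_ : ∏ i, e i = (-1) ^ m * δ * s ^ 2),
      ∑ i, (cl (lam * e i) - cl (e i)) = Pf δ lam := by
  induction m with
  | zero =>
    intro e _ δ s _ hs h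
    have h1 : (1 : K) = δ * s ^ 2 := by
      have h3 : ∏ i : Fin 0, e i = (-1) ^ 0 * δ * s ^ 2 := h
      rw [Finset.univ_eq_empty, Finset.prod_empty, pow_zero, one_mul] at h3
      exact h3
    have h4 : ∑ i : Fin 0, (cl (lam * e i) - cl (e i)) = 0 := by
      rw [Finset.univ_eq_empty, Finset.sum_empty]
    refine h4.trans ?_
    unfold Pf
    have e1 : cl (-δ) = -cl 1 := by
      rw [← cl_mul_sq (-δ) hs, neg_mul, ← h1, kpb_neg h2]
    have e2 : cl (δ * lam) = cl lam := by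
      rw [← cl_mul_sq (δ * lam) hs, show δ * lam * s ^ 2 = δ * s ^ 2 * lam by ring, ← h1, one_mul]
    rw [e1, e2, kpb_neg h2 lam]
    abel
  | succ m ih =>
    intro e he δ s hδ hs h
    set a : K := e ⟨0, by omega⟩ with ha
    set b : K := e ⟨1, by omega⟩ with hb
    have ha0 : a ≠ 0 := he _
    have hb0 : b ≠ 0 := he _
    have hab : a * b ≠ 0 := mul_ne_zero ha0 hb0
    set e' : Fin (2 * m) → K := fun i => e ⟨i.1 + 2, by omega⟩ with he'
    have hp : a * (b * ∏ i, e' i) = (-1) ^ (m + 1) * δ * s ^ 2 := by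
      rw [← h]
      symm
      have h3 : ∏ i : Fin (2 * m + 1 + 1), (show K from e i) = a * (b * ∏ i, e' i) := by
        rw [Fin.prod_univ_succ, Fin.prod_univ_succ]
        rfl
      exact h3
    have hsum : ∑ i, (cl (lam * e i) - cl (e i)) =
        (cl (lam * a) - cl a) + ((cl (lam * b) - cl b) +
          ∑ i, (cl (lam * e' i) - cl (e' i))) := by
      have h3 : ∑ i : Fin (2 * m + 1 + 1), (show WG K from cl (lam * e i) - cl (e i)) =
          (cl (lam * a) - cl a) + ((cl (lam * b) - cl b) +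
            ∑ i, (cl (lam * e' i) - cl (e' i))) := by
        rw [Fin.sum_univ_succ, Fin.sum_univ_succ]
        rfl
      exact h3
    have hp' : ∏ i, e' i = (-1) ^ m * (δ * -(a * b)) * (s / (a * b)) ^ 2 := by
      have h5 : (a * b) * ∏ i, e' i = (a * b) * ((-1) ^ m * (δ * -(a * b)) * (s / (a * b)) ^ 2) := by
        calc (a * b) * ∏ i, e' i = a * (b * ∏ i, e' i) := by ring
          _ = (-1) ^ (m + 1) * δ * s ^ 2 := hp
          _ = _ := by
            rw [pow_succ (-1 : K) m]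
            field_simp
      exact mul_left_cancel₀ hab h5
    have h6 := ih e' (fun i => he _) (δ * -(a * b)) (s / (a * b))
      (mul_ne_zero hδ (neg_ne_zero.2 hab)) (div_ne_zero hs hab) hp'
    have h7 : Pf (δ * -(a * b)) lam = Pf δ lam + Pf (-(a * b)) lam := by
      rw [kpb_symm (δ * -(a * b)) lam, kpb_symm δ lam, kpb_symm (-(a * b)) lam,
        pf_add hU h2 hl hδ (neg_ne_zero.2 hab)]
    have h8 := kpb_two hU h2 ha0 hb0 hl
    rw [hsum, h6, h7]
    calc (cl (lam * a) - cl a) + ((cl (lam * b) - cl b) + (Pf δ lam + Pf (-(a * b)) lam)) =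
        (cl (lam * a) - cl a) + (cl (lam * b) - cl b) + Pf (-(a * b)) lam + Pf δ lam := by abel
      _ = Pf δ lam := by rw [h8, zero_add]

theorem pf_prod (hU : U5 K) (h2 : (2 : K) ≠ 0) {m : ℕ} (e : Fin (2 * m) → K) (he : ∀ i, e i ≠ 0)
    {δ s lam : K} (hδ : δ ≠ 0) (hs : s ≠ 0) (hl : lam ≠ 0) (h : ∏ i, e i = (-1) ^ m * δ * s ^ 2) :
    ∑ i, (cl (lam * e i) - cl (e i)) = Pf δ lam :=
  kpb_prod hU h2 hl m e he δ s hδ hs h

/-- the local identity at the places where forms in five variables are isotropic -/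
theorem loc_fin (hU : U5 K) (h2 : (2 : K) ≠ 0) {m : ℕ} (e : Fin (2 * m) → K) (he : ∀ i, e i ≠ 0)
    {δ s lam μ q x y : K} (hδ : δ ≠ 0) (hs : s ≠ 0) (hl : lam ≠ 0) (hμ : μ ≠ 0) (hq : q ≠ 0)
    (h : ∏ i, e i = (-1) ^ m * δ * s ^ 2) (hn : lam * μ = x ^ 2 - δ * y ^ 2) :
    (cl q + cl (-(δ * q)) + cl (-(q * μ)) + cl (δ * (q * μ))) +
      ∑ i, (cl (lam * e i) - cl (e i)) = 0 := by
  have h1 := pf_scale hU h2 (a := δ) (b := μ) (t := q) hδ hμ hq
  rw [mul_comm μ q, mul_assoc δ μ q, mul_comm μ q] at h1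
  rw [h1, pf_prod hU h2 e he hδ hs hl h, pf_add hU h2 hδ hμ hl, mul_comm μ lam, hn]
  exact pf_norm h2 hδ (hn ▸ mul_ne_zero hl hμ)

end NF83
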