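import Pool.Agent.H.MP_83e36b_nt.hm.KL

/-! Two-fold Pfister forms over a field in which forms in five variables are isotropic.

PROOF. `Pf a b = cl 1 + cl (-a) + cl (-b) + cl (a b)`.
`pf_scale`: the form `(1, -a, -b, ab, -t)` is isotropic (`U5`); if the last coordinate of the
zero is 0, then `(1, -a, -b, ab)` is isotropic, so by `iso_red` its class is that of a form of two
entries with product `-□`, i.e. 0 (`cl_pair`); the same holds for `t (1, -a, -b, ab)`. Otherwise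
`t = x² - a y² - b z² + a b w²`. Now `t (1, -a, -b, ab) ≅ (1, -a, -b, ab)`: write
`N1 = x² - a y²`, `N2 = z² - a w²`, `t = N1 - b N2`. If `N1, N2 ≠ 0`: `cl N1 + cl (-a N1) = cl 1 + cl (-a)`
(`pf_norm1`: a form `(1,-a)` is multiplicative), the same for `N2`; so
`Pf a b = cl N1 + cl (-a N1) + cl (-b N2) + cl (a b N2)`, `cl N1 + cl (-b N2) = cl t + cl (-b N1 N2 t)`
and `cl (-a N1) + cl (a b N2) = cl (-a t) + cl (a b N1 N2 t)` (`cl_add`); and
`cl (- b N1 N2 t) + cl (a b N1 N2 t) = cl (-b t) + cl (a b t)` since `N1 N2` is again a value of `(1, -a)`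
(`pf_norm1` scaled by `-b t`). If `N2 = 0` (or `N1 = 0`) then `t = N1` (`t = -b N2`): similar and simpler.
`pf_norm1`: `x² - a y² = N ≠ 0` implies `cl (c N) + cl (-(a c N)) = cl c + cl (-(a c))`: `cl_add` for
`c x²`, `-(a c y²)` if `x, y ≠ 0` (the sum is `c N`, the other entry `c x² (-(a c y²)) c N` is
`-(a c N) □`); the cases `x = 0`, `y = 0` directly (`cl_mul_sq`).
`pf_add`: `Pf a b + Pf a c - Pf a (b c)`: with `t = c`... `Pf a b + Pf a c = Pf a (bc) + (Pf a b - c Pf a b)`: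
compare the entries: `Pf a b + Pf a c = (1,-a,-b,ab) + (1,-a,-c,ac)`, `Pf a (bc) = (1,-a,-bc,abc)`,
`c Pf a b = (c, -ac, -bc, abc)`; `Pf a b + Pf a c - Pf a (bc) - Pf a b + c Pf a b = (1,-a,-c,ac) - (1,-a,-bc,abc) +
(c,-ac,-bc,abc)` `= (-c, ac, c, -ac) = 0` (`cl_neg`).
`pf_norm`: `b = x² - a y²`: `Pf a b = (cl 1 + cl (-a)) - (cl b + cl (-a b)) = 0` (`pf_norm1`, `cl_neg`).
`pf_neg`: `- Pf a b = (-1) Pf a b = Pf a b`.
-/

set_option autoImplicit false

open SpinWA Matrix DC83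

namespace NF83

variable {K : Type*} [Field K]

/-- the class of the two-fold Pfister form `(1, -a, -b, ab)` -/
noncomputable def Pf (a b : K) : WG K := cl 1 + cl (-a) + cl (-b) + cl (a * b)

/-- the class of `(c, -ac)` -/
private noncomputable def KPa_P (a c : K) : WG K := cl c + cl (-(a * c))

private theorem KPa_Pf (a b : K) : Pf a b = KPa_P a 1 + KPa_P a (-b) := by
  unfold Pf KPa_P
  rw [show -(a * -b) = a * b by ring, mul_one]
  abel

theorem pf_norm1 (h2 : (2 : K) ≠ 0) {a c x y : K} (ha : a ≠ 0) (hc : c ≠ 0)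
    (hN : x ^ 2 - a * y ^ 2 ≠ 0) :
    cl (c * (x ^ 2 - a * y ^ 2)) + cl (-(a * (c * (x ^ 2 - a * y ^ 2)))) = cl c + cl (-(a * c)) := by
  by_cases hy : y = 0
  · subst hy
    have hx : x ≠ 0 := by
      rintro rfl
      exact hN (by ring)
    rw [show c * (x ^ 2 - a * 0 ^ 2) = c * x ^ 2 by ring,
      show -(a * (c * x ^ 2)) = -(a * c) * x ^ 2 by ring, cl_mul_sq _ hx, cl_mul_sq _ hx]
  · by_cases hx : x = 0
    · subst hx
      rw [show c * (0 ^ 2 - a * y ^ 2) = -(a * c) * y ^ 2 by ring,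
        show -(a * (-(a * c) * y ^ 2)) = c * (a * y) ^ 2 by ring, cl_mul_sq _ hy,
        cl_mul_sq _ (mul_ne_zero ha hy), add_comm]
    · have h1 : c * x ^ 2 ≠ 0 := mul_ne_zero hc (pow_ne_zero 2 hx)
      have h3 : -(a * c) * y ^ 2 ≠ 0 :=
        mul_ne_zero (neg_ne_zero.2 (mul_ne_zero ha hc)) (pow_ne_zero 2 hy)
      have h4 : c * x ^ 2 + -(a * c) * y ^ 2 = c * (x ^ 2 - a * y ^ 2) := by ring
      have h5 := cl_add h1 h3 (by rw [h4]; exact mul_ne_zero hc hN)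
      rw [h4, show c * x ^ 2 * (-(a * c) * y ^ 2) * (c * (x ^ 2 - a * y ^ 2)) =
        -(a * (c * (x ^ 2 - a * y ^ 2))) * (c * x * y) ^ 2 by ring,
        cl_mul_sq _ (mul_ne_zero (mul_ne_zero hc hx) hy), cl_mul_sq _ hx, cl_mul_sq _ hy] at h5
      exact h5.symm

private theorem KPa_mul (h2 : (2 : K) ≠ 0) {a c : K} (ha : a ≠ 0) (hc : c ≠ 0) (x y : K)
    (hN : x ^ 2 - a * y ^ 2 ≠ 0) : KPa_P a (c * (x ^ 2 - a * y ^ 2)) = KPa_P a c :=
  pf_norm1 h2 ha hc hN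

private theorem KPa_neg (h2 : (2 : K) ≠ 0) (a c : K) : KPa_P a c + KPa_P a (-c) = 0 := by
  unfold KPa_P
  have h1 := cl_neg h2 c
  have h3 := cl_neg h2 (-(a * c))
  rw [show -(a * -c) = - -(a * c) by ring]
  calc cl c + cl (-(a * c)) + (cl (-c) + cl (- -(a * c))) =
        (cl c + cl (-c)) + (cl (-(a * c)) + cl (- -(a * c))) := by abel
    _ = 0 := by rw [h1, h3, add_zero]

/-- the scaling for a value `t` of the form `(1, -a, -b, ab)` -/
private theorem KPa_val (h2 : (2 : K) ≠ 0) {a b t : K} (ha : a ≠ 0) (hb : b ≠ 0) (ht : t ≠ 0)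
    (x y z w : K) (h : t = (x ^ 2 - a * y ^ 2) - b * (z ^ 2 - a * w ^ 2)) :
    KPa_P a t + KPa_P a (-(b * t)) = KPa_P a 1 + KPa_P a (-b) := by
  have hb' : -b ≠ 0 := neg_ne_zero.2 hb
  by_cases h2z : z ^ 2 - a * w ^ 2 = 0
  · have h3 : t = x ^ 2 - a * y ^ 2 := by rw [h, h2z]; ring
    have h4 : x ^ 2 - a * y ^ 2 ≠ 0 := by rwa [← h3]
    have e1 := KPa_mul h2 ha one_ne_zero x y h4
    have e2 := KPa_mul h2 ha hb' x y h4
    rw [one_mul, ← h3] at e1
    rw [← h3, neg_mul] at e2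
    rw [e1, e2]
  · by_cases h1z : x ^ 2 - a * y ^ 2 = 0
    · have h3 : t = -b * (z ^ 2 - a * w ^ 2) := by rw [h, h1z]; ring
      have e1 := KPa_mul h2 ha hb' z w h2z
      rw [← h3] at e1
      have h4 : -(b * t) = 1 * ((b * z) ^ 2 - a * (b * w) ^ 2) := by rw [h3]; ring
      have h5 : (b * z) ^ 2 - a * (b * w) ^ 2 ≠ 0 := by
        rw [show (b * z) ^ 2 - a * (b * w) ^ 2 = b ^ 2 * (z ^ 2 - a * w ^ 2) by ring]
        exact mul_ne_zero (pow_ne_zero 2 hb) h2z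
      have e2 := KPa_mul h2 ha one_ne_zero (b * z) (b * w) h5
      rw [← h4] at e2
      rw [e1, e2, add_comm]
    · have e1 := KPa_mul h2 ha one_ne_zero x y h1z
      have e2 := KPa_mul h2 ha hb' z w h2z
      obtain ⟨N1, hN1⟩ : ∃ N1, N1 = x ^ 2 - a * y ^ 2 := ⟨_, rfl⟩
      obtain ⟨N2, hN2⟩ : ∃ N2, N2 = z ^ 2 - a * w ^ 2 := ⟨_, rfl⟩
      have hNN : N1 * N2 = (x * z + a * (y * w)) ^ 2 - a * (x * w + y * z) ^ 2 := by
        rw [hN1, hN2]; ring
      rw [← hN1] at e1 h1z h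
      rw [← hN2] at e2 h2z h
      have hNN0 : (x * z + a * (y * w)) ^ 2 - a * (x * w + y * z) ^ 2 ≠ 0 := by
        rw [← hNN]; exact mul_ne_zero h1z h2z
      have hbt : -(b * t) ≠ 0 := neg_ne_zero.2 (mul_ne_zero hb ht)
      have e3 := KPa_mul h2 ha hbt _ _ hNN0
      rw [← hNN] at e3
      have c1 : N1 + -b * N2 = t := by rw [h]; ring
      have h5 := cl_add h1z (mul_ne_zero hb' h2z) (by rw [c1]; exact ht)
      rw [c1] at h5
      have c2 : -(a * N1) + a * b * N2 = -(a * t) := by rw [h]; ring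
      have h6 := cl_add (neg_ne_zero.2 (mul_ne_zero ha h1z))
        (mul_ne_zero (mul_ne_zero ha hb) h2z) (by
          rw [c2]; exact neg_ne_zero.2 (mul_ne_zero ha ht))
      rw [c2, show -(a * N1) * (a * b * N2) * -(a * t) = a * b * t * (N1 * N2) * a ^ 2 by ring,
        cl_mul_sq _ ha] at h6
      rw [← e1, ← e2, ← e3]
      unfold KPa_P
      rw [one_mul, show -(a * (-b * N2)) = a * b * N2 by ring,
        show -(a * (-(b * t) * (N1 * N2))) = a * b * t * (N1 * N2) by ring,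
        show -(b * t) * (N1 * N2) = N1 * (-b * N2) * t by ring]
      calc cl t + cl (-(a * t)) + (cl (N1 * (-b * N2) * t) + cl (a * b * t * (N1 * N2)))
          = (cl t + cl (N1 * (-b * N2) * t)) + (cl (-(a * t)) + cl (a * b * t * (N1 * N2))) := by
            abel
        _ = (cl N1 + cl (-b * N2)) + (cl (-(a * N1)) + cl (a * b * N2)) := by rw [h5, h6]
        _ = _ := by abel

private theorem KPa_zero (h2 : (2 : K) ≠ 0) {a b t : K} (ha : a ≠ 0) (hb : b ≠ 0) (ht : t ≠ 0)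
    {x : Fin 4 → K} (hx : x ≠ 0)
    (h : x 0 ^ 2 - a * x 1 ^ 2 - b * x 2 ^ 2 + a * b * x 3 ^ 2 = 0) :
    cl t + cl (-(a * t)) + cl (-(b * t)) + cl (a * b * t) = 0 := by
  have hd : ∀ i, (![t, -(a * t), -(b * t), a * b * t] : Fin 4 → K) i ≠ 0 := by
    intro i
    fin_cases i
    · exact ht
    · exact neg_ne_zero.2 (mul_ne_zero ha ht)
    · exact neg_ne_zero.2 (mul_ne_zero hb ht)
    · exact mul_ne_zero (mul_ne_zero ha hb) ht
  have hi : IsoF (![t, -(a * t), -(b * t), a * b * t] : Fin 4 → K) := by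
    refine ⟨x, hx, ?_⟩
    rw [Fin.sum_univ_four]
    show t * x 0 ^ 2 + -(a * t) * x 1 ^ 2 + -(b * t) * x 2 ^ 2 + a * b * t * x 3 ^ 2 = 0
    linear_combination t * h
  obtain ⟨d', s, hd', hs, h3, h4⟩ := iso_red (n := 2) h2 hd hi
  rw [Fin.sum_univ_four, Fin.sum_univ_two] at h3
  rw [Fin.prod_univ_four, Fin.prod_univ_two] at h4
  have h5 : cl t + cl (-(a * t)) + cl (-(b * t)) + cl (a * b * t) = cl (d' 0) + cl (d' 1) := h3
  have h6 : d' 0 * d' 1 = -(t * -(a * t) * -(b * t) * (a * b * t)) * s ^ 2 := h4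
  rw [h5]
  refine cl_pair h2 (s := a * b * t ^ 2 * s) (hd' 0)
    (mul_ne_zero (mul_ne_zero (mul_ne_zero ha hb) (pow_ne_zero 2 ht)) hs) ?_
  rw [h6]
  ring

theorem pf_scale (hU : U5 K) (h2 : (2 : K) ≠ 0) {a b t : K} (ha : a ≠ 0) (hb : b ≠ 0) (ht : t ≠ 0) :
    cl t + cl (-(a * t)) + cl (-(b * t)) + cl (a * b * t) = Pf a b := by
  obtain ⟨x, hx, h⟩ := hU (![1, -a, -b, a * b, -t] : Fin 5 → K) (by
    intro i
    fin_cases i
    · exact one_ne_zero
    · exact neg_ne_zero.2 ha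
    · exact neg_ne_zero.2 hb
    · exact mul_ne_zero ha hb
    · exact neg_ne_zero.2 ht)
  rw [Fin.sum_univ_five] at h
  have h1 : 1 * x 0 ^ 2 + -a * x 1 ^ 2 + -b * x 2 ^ 2 + a * b * x 3 ^ 2 + -t * x 4 ^ 2 = 0 := h
  by_cases h4 : x 4 = 0
  · rw [h4] at h1
    have hx4 : (fun i : Fin 4 => x i.castSucc) ≠ 0 := by
      intro h5
      apply hx
      funext i
      refine Fin.lastCases ?_ (fun j => ?_) i
      · exact h4
      · exact congrFun h5 j
    have h5 : (fun i : Fin 4 => x i.castSucc) 0 ^ 2 - a * (fun i : Fin 4 => x i.castSucc) 1 ^ 2 -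
        b * (fun i : Fin 4 => x i.castSucc) 2 ^ 2 +
        a * b * (fun i : Fin 4 => x i.castSucc) 3 ^ 2 = 0 := by
      show x 0 ^ 2 - a * x 1 ^ 2 - b * x 2 ^ 2 + a * b * x 3 ^ 2 = 0
      linear_combination h1
    rw [KPa_zero h2 ha hb ht hx4 h5]
    have h6 := KPa_zero h2 ha hb one_ne_zero hx4 h5
    rw [mul_one, mul_one, mul_one] at h6
    exact h6.symm
  · have h5 := KPa_val h2 ha hb ht (x 0 / x 4) (x 1 / x 4) (x 2 / x 4) (x 3 / x 4) (by
      field_simp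
      linear_combination -h1)
    rw [KPa_Pf, ← h5]
    unfold KPa_P
    rw [show -(a * -(b * t)) = a * b * t by ring]
    abel

theorem pf_add (hU : U5 K) (h2 : (2 : K) ≠ 0) {a b c : K} (ha : a ≠ 0) (hb : b ≠ 0) (hc : c ≠ 0) :
    Pf a b + Pf a c = Pf a (b * c) := by
  have h1 : KPa_P a c + KPa_P a (-(b * c)) = Pf a b := by
    rw [← pf_scale hU h2 ha hb hc]
    unfold KPa_P
    rw [show -(a * -(b * c)) = a * b * c by ring]
    abel
  have h3 := KPa_neg h2 a c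
  rw [← h1, KPa_Pf a c, KPa_Pf a (b * c)]
  calc KPa_P a c + KPa_P a (-(b * c)) + (KPa_P a 1 + KPa_P a (-c)) =
        (KPa_P a c + KPa_P a (-c)) + (KPa_P a 1 + KPa_P a (-(b * c))) := by abel
    _ = _ := by rw [h3, zero_add]

theorem pf_norm (h2 : (2 : K) ≠ 0) {a x y : K} (ha : a ≠ 0) (hN : x ^ 2 - a * y ^ 2 ≠ 0) :
    Pf a (x ^ 2 - a * y ^ 2) = 0 := by
  have h1 := KPa_mul h2 ha (neg_ne_zero.2 one_ne_zero) x y hN
  rw [neg_one_mul] at h1
  rw [KPa_Pf, h1]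
  exact KPa_neg h2 a 1

end NF83
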