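import Pool.Agent.H.MP_83e36b_nt.hm.KStepA
import Pool.Agent.H.MP_83e36b_nt.sp.LCls

/-! The choice of the scaling factor over a number field.

PROOF. `m = n + 1 = 2 m'`, `δ = dlt G`. (A) By `step_diag` (KStepA)
`coreF c lam G = ∑ cl a_i + ∑ cl (lam f_i)`, and `x(lam) := coreF c lam G - ∑ cl (r i) = coreF c lam G +
∑ cl (- r i)` (`cl_neg`) is a sum of `2 M` classes, `M = 2 m + 2 + e`, with product
`c (-1)^e c □ = (-1)^M □`. (B) `hm_four` for `x(1)` and `δ`: `x(1) = cl q + cl (-(δ q)) + cl e' + cl (-(δ e'))`.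
Put `μ = -(e'/q)`, `e' = -(q μ)`. (C) At every place `i` of `InfinitePlace k ⊕ T` the image of `x(1)` is 0
(`hinf`, `hTc`), so by `norm_of_zero` there are `x_i, y_i` with `x_i² - δ y_i² = μ`. By weak approximation
(`wa_fun`/`wa_rat` of nf/Base for `plSys k T`, all places) there are `x, y ∈ k` near `x_i, y_i` with
`lam := (x² - δ y²)/μ` in `W i` for all `i`, and, for the infinite places, in a neighbourhood of 1 all of whose
elements are nonzero squares (`sqrt_nhds`, sp/LCls); `lam ≠ 0`. (D) `x(lam) = x(1) + ∑ (cl (lam f_i) -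
cl (f_i))`. Its image at an infinite place is 0: `lam` is a square there, so `cl (lam f_i) = cl (f_i)`
(`cl_mul_sq`), and `x(1)` is 0 there. Its image at a finite place is 0 by `loc_fin` (`u5_adic`;
`lam μ = x² - δ y²`). `hm_zero`: `x(lam) = 0`.
-/

set_option autoImplicit false

open Topology Matrix NumberField IsDedekindDomain AnWA SpinWA DC83

namespace NF83

variable {k : Type} [Field k] [NumberField k]

/-- The three families of entries as one family. -/
private theorem KStep_fam {F : Type*} [Field F] (h2 : (2 : F) ≠ 0) {m n e : ℕ} (hmn : 2 * m = n + 1)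
    (a : Fin (2 * m + 2) → F) (f : Fin (2 * m) → F) (r : Fin (2 * (n + 1) + 2 + 2 * e) → F)
    (ha : ∀ i, a i ≠ 0) (hf : ∀ i, f i ≠ 0) (hr : ∀ i, r i ≠ 0) {c s s' lam : F}
    (hc : c ≠ 0) (hs : s ≠ 0) (hs' : s' ≠ 0) (hl : lam ≠ 0)
    (haf : (∏ i, a i) * ∏ i, f i = c * s' ^ 2) (hrp : ∏ i, r i = (-1) ^ e * c * s ^ 2) :
    ∃ (d : Fin (2 * (4 * m + 2 + e)) → F) (u : F), (∀ i, d i ≠ 0) ∧ u ≠ 0 ∧
      ∏ i, d i = (-1) ^ (4 * m + 2 + e) * u ^ 2 ∧
      ∑ i, cl (d i) = ∑ i, cl (a i) + ∑ i, cl (lam * f i) - ∑ i, cl (r i) := by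
  classical
  let D : Fin (2 * m + 2) ⊕ (Fin (2 * m) ⊕ Fin (2 * (n + 1) + 2 + 2 * e)) → F :=
    Sum.elim a (Sum.elim (fun i => lam * f i) fun i => -r i)
  have hcard : Fintype.card (Fin (2 * (4 * m + 2 + e))) =
      Fintype.card (Fin (2 * m + 2) ⊕ (Fin (2 * m) ⊕ Fin (2 * (n + 1) + 2 + 2 * e))) := by
    simp only [Fintype.card_fin, Fintype.card_sum]
    omega
  let E := Fintype.equivOfCardEq hcard
  refine ⟨fun i => D (E i), lam ^ m * c * s * s', ?_, ?_, ?_, ?_⟩
  · intro i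
    change D (E i) ≠ 0
    rcases E i with j | j | j
    · exact ha j
    · exact mul_ne_zero hl (hf j)
    · exact neg_ne_zero.2 (hr j)
  · exact mul_ne_zero (mul_ne_zero (mul_ne_zero (pow_ne_zero _ hl) hc) hs) hs'
  · rw [Equiv.prod_comp E D, Fintype.prod_sum_type, Fintype.prod_sum_type]
    have h1 : ∏ i, D (Sum.inl i) = ∏ i, a i := rfl
    have h3 : ∏ i, D (Sum.inr (Sum.inl i)) = lam ^ (2 * m) * ∏ i, f i := by
      change ∏ i, lam * f i = _
      rw [Finset.prod_mul_distrib, Finset.prod_const, Finset.card_univ, Fintype.card_fin]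
    have h4 : ∏ i, D (Sum.inr (Sum.inr i)) = ∏ i, r i := by
      change ∏ i, -r i = _
      have h5 : ∀ i, -r i = (-1) * r i := fun i => by ring
      rw [Finset.prod_congr rfl fun i _ => h5 i, Finset.prod_mul_distrib, Finset.prod_const,
        Finset.card_univ, Fintype.card_fin]
      have h6 : Even (2 * (n + 1) + 2 + 2 * e) := ⟨n + 1 + 1 + e, by ring⟩
      rw [h6.neg_one_pow, one_mul]
    have h7 : (-1 : F) ^ (4 * m + 2 + e) = (-1) ^ e := by
      rw [pow_add]
      have h8 : Even (4 * m + 2) := ⟨2 * m + 1, by ring⟩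
      rw [h8.neg_one_pow, one_mul]
    rw [h1, h3, h4, h7, hrp]
    linear_combination (lam ^ (2 * m) * ((-1) ^ e * c * s ^ 2)) * haf
  · rw [Equiv.sum_comp E fun j => cl (D j), Fintype.sum_sum_type, Fintype.sum_sum_type]
    have h1 : ∑ i, cl (D (Sum.inr (Sum.inr i))) = -∑ i, cl (r i) := by
      change ∑ i, cl (-r i) = _
      rw [← Finset.sum_neg_distrib]
      refine Finset.sum_congr rfl fun i _ => ?_
      exact (neg_eq_of_add_eq_zero_right (cl_neg h2 (r i))).symm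
    rw [h1]
    change ∑ i, cl (a i) + (∑ i, cl (lam * f i) + -∑ i, cl (r i)) = _
    abel

private theorem KStep_norm {F K : Type*} [Field F] [Field K] (h2 : (2 : K) ≠ 0) (φ : F →+* K)
    {q e δ : F} (hq : q ≠ 0) (he : e ≠ 0) (hδ : δ ≠ 0)
    (h : WG.map φ (cl q + cl (-(δ * q)) + cl e + cl (-(δ * e))) = 0) :
    ∃ x y : K, x ^ 2 - φ δ * y ^ 2 = φ (-(e / q)) := by
  rw [map_add, map_add, map_add, WG.map_cl, WG.map_cl, WG.map_cl, WG.map_cl, map_neg, map_neg,
    map_mul, map_mul] at h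
  obtain ⟨x, y, hxy⟩ := norm_of_zero h2 ((map_ne_zero φ).2 hq) ((map_ne_zero φ).2 he)
    ((map_ne_zero φ).2 hδ) h
  refine ⟨x, y, ?_⟩
  rw [hxy, map_neg, map_div₀]

/-- The scaling factor by weak approximation, general fields. -/
private theorem KStep_wag {F : Type} [Field F] [CharZero F] [PlSys F] (S : Finset (Pk F))
    (hS : p0 F ∈ S) {δ μ : F} (hμ : μ ≠ 0) (x0 y0 : ∀ v : Pk F, Cp v)
    (h0 : ∀ v : Pk F, x0 v ^ 2 - em v δ * y0 v ^ 2 = em v μ) (W : ∀ v : Pk F, Set (Cp v))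
    (hW : ∀ v : Pk F, W v ∈ 𝓝 (1 : Cp v)) :
    ∃ x y lam : F, lam ≠ 0 ∧ lam * μ = x ^ 2 - δ * y ^ 2 ∧
      ∀ v ∈ S, em v lam ∈ W v ∧ ∃ r : Cp v, r ≠ 0 ∧ r ^ 2 = em v lam := by
  classical
  have hsq : ∀ v : Pk F, {b : Cp v | ∃ r ∈ {r : Cp v | r ≠ 0}, r ^ 2 = b} ∈ 𝓝 (1 : Cp v) :=
    fun v => sqrt_nhds two_ne_zero (isOpen_ne.mem_nhds one_ne_zero)
  obtain ⟨z, hz⟩ := wa_fun S
    (fun v : Pk F => (![x0 v, y0 v] : Fin 2 → Cp v))
    (fun v : Pk F => {z : Fin 2 → Cp v | (z 0 ^ 2 - em v δ * z 1 ^ 2) / em v μ ∈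
      W v ∩ {b : Cp v | ∃ r ∈ {r : Cp v | r ≠ 0}, r ^ 2 = b}}) (by
      intro v _
      have hc : Continuous fun z : Fin 2 → Cp v => (z 0 ^ 2 - em v δ * z 1 ^ 2) / em v μ := by
        fun_prop
      refine hc.continuousAt.preimage_mem_nhds ?_
      have h1 : (![x0 v, y0 v] : Fin 2 → Cp v) 0 = x0 v := rfl
      have h2 : (![x0 v, y0 v] : Fin 2 → Cp v) 1 = y0 v := rfl
      rw [h1, h2, h0 v, div_self ((map_ne_zero _).2 hμ)]
      exact Filter.inter_mem (hW v) (hsq v))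
  have hem : ∀ v : Pk F, em v ((z 0 ^ 2 - δ * z 1 ^ 2) / μ) =
      ((em v (z 0)) ^ 2 - em v δ * (em v (z 1)) ^ 2) / em v μ := by
    intro v
    rw [map_div₀, map_sub, map_mul, map_pow, map_pow]
  have hall : ∀ v ∈ S, em v ((z 0 ^ 2 - δ * z 1 ^ 2) / μ) ∈ W v ∧
      ∃ r : Cp v, r ≠ 0 ∧ r ^ 2 = em v ((z 0 ^ 2 - δ * z 1 ^ 2) / μ) := by
    intro v hv
    obtain ⟨q1, r, q2, q3⟩ := hz v hv
    rw [hem]
    exact ⟨q1, r, q2, q3⟩
  refine ⟨z 0, z 1, (z 0 ^ 2 - δ * z 1 ^ 2) / μ, ?_, div_mul_cancel₀ _ hμ, hall⟩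
  intro h
  obtain ⟨-, r, q2, q3⟩ := hall (p0 F) hS
  rw [h, map_zero] at q3
  exact q2 (pow_eq_zero_iff two_ne_zero |>.1 q3)

/-- The scaling factor by weak approximation. -/
private theorem KStep_wa (T : Finset (HeightOneSpectrum (𝓞 k))) {δ μ : k} (hμ : μ ≠ 0)
    (W : ∀ i, Set (Compl T i)) (hW : ∀ i, W i ∈ 𝓝 (1 : Compl T i))
    (hxy : ∀ i, ∃ x y : Compl T i,
      x ^ 2 - complEmb T i δ * y ^ 2 = complEmb T i μ) :
    ∃ x y lam : k, lam ≠ 0 ∧ lam * μ = x ^ 2 - δ * y ^ 2 ∧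
      ∀ i, complEmb T i lam ∈ W i ∧ ∃ r : Compl T i, r ≠ 0 ∧ r ^ 2 = complEmb T i lam := by
  classical
  choose x0 y0 h0 using hxy
  have hfi : Finite (InfinitePlace k ⊕ {v // v ∈ T}) := inferInstance
  have hfi' : (Set.univ : Set (InfinitePlace k ⊕ {v // v ∈ T})).Finite := Set.finite_univ
  obtain ⟨x, y, lam, h1, h2, h3⟩ := @KStep_wag k _ _ (plSys k T) hfi'.toFinset
    (hfi'.mem_toFinset.2 (Set.mem_univ _)) δ μ hμ x0 y0 h0 W hW
  exact ⟨x, y, lam, h1, h2, fun i => h3 i (hfi'.mem_toFinset.2 (Set.mem_univ i))⟩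

theorem core_stepF (hHM : HMiso k) {n : ℕ} (hev : Even (n + 1))
    (T : Finset (HeightOneSpectrum (𝓞 k))) {c : k} (hc : c ≠ 0) {e : ℕ}
    (r : Fin (2 * (n + 1) + 2 + 2 * e) → k) (hr : ∀ i, r i ≠ 0) {s : k} (hs : s ≠ 0)
    (hrp : ∏ i, r i = (-1) ^ e * c * s ^ 2) (G : Fin (n + 1) → k) (hG0 : G 0 ≠ 0)
    (hM : (hk G).det ≠ 0)
    (hinf : ∀ v : InfinitePlace k, WG.map (algebraMap k v.Completion) (coreF c 1 G) =
      WG.map (algebraMap k v.Completion) (∑ i, cl (r i)))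
    (hfin : ∀ v : HeightOneSpectrum (𝓞 k),
      WG.map (algebraMap k (v.adicCompletion k)) (coreF c 1 G) =
        WG.map (algebraMap k (v.adicCompletion k)) (∑ i, cl (r i)) ∨
      Odd4 (v.adicCompletion k) (algebraMap k (v.adicCompletion k) (dlt G)))
    (hTc : ∀ v ∈ T, WG.map (algebraMap k (v.adicCompletion k)) (coreF c 1 G) =
        WG.map (algebraMap k (v.adicCompletion k)) (∑ i, cl (r i)))
    (W : ∀ i, Set (Compl T i)) (hW : ∀ i, W i ∈ 𝓝 (1 : Compl T i)) :
    ∃ lam : k, lam ≠ 0 ∧ coreF c lam G = ∑ i, cl (r i) ∧ ∀ i, complEmb T i lam ∈ W i := by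
  classical
  have h2 : (2 : k) ≠ 0 := two_ne_zero
  obtain ⟨m, a, f, s₁, s', hmn, ha, hf, hs₁, hs', hcore, hfp, haf⟩ := step_diag h2 hev hc G hG0 hM
  have hδ : dlt G ≠ 0 :=
    mul_ne_zero (mul_ne_zero (pow_ne_zero _ (neg_ne_zero.2 one_ne_zero)) hG0) hM
  -- (A)
  obtain ⟨d, u, hd, hu, hdp, hds⟩ := KStep_fam h2 hmn a f r ha hf hr hc hs hs' one_ne_zero haf hrp
  rw [← hcore 1 one_ne_zero] at hds
  -- (B)
  obtain ⟨q, e', hq, he', hqe⟩ := hm_four hHM d hd hu hδ hdp
    (fun v => by rw [hds, map_sub, hinf v, sub_self])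
    (fun v => by
      rcases hfin v with h | h
      · left
        rw [hds, map_sub, h, sub_self]
      · right
        exact h)
  have hμ : -(e' / q) ≠ 0 := neg_ne_zero.2 (div_ne_zero he' hq)
  have hx1 : coreF c 1 G - ∑ i, cl (r i) = cl q + cl (-(dlt G * q)) + cl e' +
      cl (-(dlt G * e')) := by rw [← hds, hqe]
  have heq : e' = -(q * -(e' / q)) := by
    field_simp
  -- (C)
  have hz : ∀ i, ∃ x y : Compl T i,
      x ^ 2 - complEmb T i (dlt G) * y ^ 2 = complEmb T i (-(e' / q)) := by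
    intro i
    rcases i with v | v
    · have h3 : (2 : v.Completion) ≠ 0 := by
        have := (map_ne_zero (algebraMap k v.Completion)).2 h2
        rwa [map_ofNat] at this
      exact KStep_norm h3 (algebraMap k v.Completion) hq he' hδ
        (by rw [← hx1, map_sub, hinf v, sub_self])
    · have h3 : (2 : v.1.adicCompletion k) ≠ 0 := by
        have := (map_ne_zero (algebraMap k (v.1.adicCompletion k))).2 h2
        rwa [map_ofNat] at this
      exact KStep_norm h3 (algebraMap k (v.1.adicCompletion k)) hq he' hδ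
        (by rw [← hx1, map_sub, hTc v.1 v.2, sub_self])
  obtain ⟨x, y, lam, hl, hlμ, hlW⟩ := KStep_wa T hμ W hW hz
  refine ⟨lam, hl, ?_, fun i => (hlW i).1⟩
  -- (D)
  obtain ⟨d', u', hd', hu', hdp', hds'⟩ := KStep_fam h2 hmn a f r ha hf hr hc hs hs' hl haf hrp
  have hx : ∑ i, cl (d' i) = (coreF c 1 G - ∑ i, cl (r i)) +
      ∑ i, (cl (lam * f i) - cl (f i)) := by
    rw [hds', hcore 1 one_ne_zero, Finset.sum_sub_distrib]
    simp only [one_mul]
    abel
  have hzero : ∑ i, cl (d' i) = 0 := by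
    refine hm_zero hHM d' hd' hu' hdp' (fun v => ?_) (fun v => ?_)
    · rw [hx, map_add, map_sub, hinf v, sub_self, zero_add, map_sum]
      refine Finset.sum_eq_zero fun i _ => ?_
      obtain ⟨ρ, hρ, hρ2⟩ : ∃ ρ : v.Completion, ρ ≠ 0 ∧ ρ ^ 2 = algebraMap k v.Completion lam :=
        (hlW (Sum.inl v)).2
      rw [map_sub, WG.map_cl, WG.map_cl, map_mul, ← hρ2, mul_comm, cl_mul_sq _ hρ, sub_self]
    · have h3 : (2 : v.adicCompletion k) ≠ 0 := by
        have := (map_ne_zero (algebraMap k (v.adicCompletion k))).2 h2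
        rwa [map_ofNat] at this
      have h4 := loc_fin (u5_adic v) h3 (fun i => algebraMap k (v.adicCompletion k) (f i))
        (fun i => (map_ne_zero _).2 (hf i)) (δ := algebraMap k (v.adicCompletion k) (dlt G))
        (s := algebraMap k (v.adicCompletion k) s₁)
        (lam := algebraMap k (v.adicCompletion k) lam)
        (μ := algebraMap k (v.adicCompletion k) (-(e' / q)))
        (q := algebraMap k (v.adicCompletion k) q) (x := algebraMap k (v.adicCompletion k) x)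
        (y := algebraMap k (v.adicCompletion k) y)
        ((map_ne_zero _).2 hδ) ((map_ne_zero _).2 hs₁) ((map_ne_zero _).2 hl)
        ((map_ne_zero _).2 hμ) ((map_ne_zero _).2 hq)
        (by rw [← map_prod, hfp, map_mul, map_mul, map_pow, map_pow, map_neg, map_one])
        (by rw [← map_mul, hlμ, map_sub, map_mul, map_pow, map_pow])
      have h5 : WG.map (algebraMap k (v.adicCompletion k)) (coreF c 1 G - ∑ i, cl (r i)) =
          cl (algebraMap k (v.adicCompletion k) q) +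
          cl (-(algebraMap k (v.adicCompletion k) (dlt G) *
            algebraMap k (v.adicCompletion k) q)) +
          cl (-(algebraMap k (v.adicCompletion k) q *
            algebraMap k (v.adicCompletion k) (-(e' / q)))) +
          cl (algebraMap k (v.adicCompletion k) (dlt G) *
            (algebraMap k (v.adicCompletion k) q *
              algebraMap k (v.adicCompletion k) (-(e' / q)))) := by
        have h6 : -(dlt G * e') = dlt G * (q * -(e' / q)) := by
          have h7 : q * -(e' / q) = -e' := by field_simp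
          rw [h7]
          ring
        rw [hx1, h6, map_add, map_add, map_add, WG.map_cl, WG.map_cl, WG.map_cl, WG.map_cl,
          map_neg, map_mul, map_mul, map_mul]
        congr 3
        rw [← map_mul, ← map_neg, ← heq]
      rw [hx, map_add, h5, map_sum, ← h4]
      congr 1
      refine Finset.sum_congr rfl fun i _ => ?_
      rw [map_sub, WG.map_cl, WG.map_cl, map_mul]
  rw [hcore lam hl]
  rw [hds'] at hzero
  exact sub_eq_zero.1 hzero

end NF83
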