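import Pool.Agent.H.MP_83e36b_nt.hm.KP
import Pool.Agent.H.MP_83e36b_nt.hm.KH
import Pool.Agent.H.MP_83e36b_nt.nf.Fin
import Pool.Agent.H.MP_83e36b_nt.sp.KCore

/-! The class of a polynomial as the class of a diagonal form depending on the scaling factor.

PROOF. `m = n + 1 = 2 m'` is even (the `m` of the statement is `m'`), `δ = (-1)^(m/2) G 0 dM G ≠ 0`. Diagonalise: `exists_diag`,
`cls_eq_sum`: `cls (2 • hk G) = ∑ cl (a_i)` (`m` entries) with `∏ a = 2^m dM G □` (`Cong.det`), and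
`cls ((-2) • hk1 G) = ∑_{i < m} cl (f_i)`, `∏ f = (-2)^m det (hk1 G) □ = G 0 dM G □` (`det_hk1`: `det (hk1 G) = (-1)^m cf G 0 dM G`,
`cf G 0 = G 0`), i.e. `∏ f = (-1)^m' δ □`; then `cls ((-2 lam) • hk1 G) = ∑ cl (lam f_i)` for every `lam ≠ 0` (the same
congruence `Pᵀ ((-2) • hk1 G) P = diag f`). The entries 2 and `2 c G 0` together with the `a_i` form the family `a` of the
statement (`2 m' + 2` entries): `coreF c lam G = cl 2 + cl (2 c G 0) + ∑ cl a_i + ∑ cl (lam f_i)`; the product of all entries for `lam = 1` is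
`4 c G 0 2^m dM G G 0 dM G □ = c □`.
-/

set_option autoImplicit false

open Topology Matrix NumberField IsDedekindDomain AnWA SpinWA DC83

namespace NF83

/-- the discriminant of the form `(-2) • hk1 G` -/
def dlt {F : Type*} [Field F] {n : ℕ} (G : Fin (n + 1) → F) : F :=
  (-1) ^ ((n + 1) / 2) * G 0 * dM G

theorem step_diag {F : Type*} [Field F] (h2 : (2 : F) ≠ 0) {n : ℕ} (hev : Even (n + 1)) {c : F}
    (hc : c ≠ 0) (G : Fin (n + 1) → F) (hG0 : G 0 ≠ 0) (hM : (hk G).det ≠ 0) :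
    ∃ (m : ℕ) (a : Fin (2 * m + 2) → F) (f : Fin (2 * m) → F) (s s' : F), 2 * m = n + 1 ∧
      (∀ i, a i ≠ 0) ∧ (∀ i, f i ≠ 0) ∧ s ≠ 0 ∧ s' ≠ 0 ∧
      (∀ lam : F, lam ≠ 0 → coreF c lam G = ∑ i, cl (a i) + ∑ i, cl (lam * f i)) ∧
      ∏ i, f i = (-1) ^ m * dlt G * s ^ 2 ∧ (∏ i, a i) * ∏ i, f i = c * s' ^ 2 := by
  obtain ⟨m, hm'⟩ := hev
  have hm : 2 * m = n + 1 := by omega
  have hm2 : (n + 1) / 2 = m := by omega
  have hdM : dM G ≠ 0 := hM
  have hcf : cf G 0 = G 0 := by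
    unfold cf
    rw [dif_pos (Nat.succ_pos n)]
    rfl
  have h2m : (2 : F) ^ m ≠ 0 := pow_ne_zero _ h2
  have hd1 : (hk1 G).det ≠ 0 := by
    rw [det_hk1, hcf]
    exact mul_ne_zero (mul_ne_zero (pow_ne_zero _ (neg_ne_zero.mpr one_ne_zero)) hG0) hM
  have hA : ((2 : F) • hk G)ᵀ = (2 : F) • hk G := by
    rw [Matrix.transpose_smul, hk_transpose]
  have hB : ((-2 : F) • hk1 G)ᵀ = (-2 : F) • hk1 G := by
    rw [Matrix.transpose_smul, hk1_transpose]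
  have hdA : ((2 : F) • hk G).det ≠ 0 := by
    rw [Matrix.det_smul]
    exact mul_ne_zero (pow_ne_zero _ h2) hM
  have hdB : ((-2 : F) • hk1 G).det ≠ 0 := by
    rw [Matrix.det_smul]
    exact mul_ne_zero (pow_ne_zero _ (neg_ne_zero.mpr h2)) hd1
  obtain ⟨d, hd, hdc⟩ := exists_diag h2 hA hdA
  obtain ⟨e, he, hec⟩ := exists_diag h2 hB hdB
  obtain ⟨r, hr, hrd⟩ := hdc.det
  obtain ⟨r', hr', hrd'⟩ := hec.det
  rw [Matrix.det_diagonal, Matrix.det_smul, Fintype.card_fin] at hrd hrd'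
  have hpd : ∏ i, d i = r ^ 2 * ((2 ^ m) ^ 2 * dM G) := by
    have h1 : (2 : F) ^ (n + 1) = (2 ^ m) ^ 2 := by
      rw [← hm, ← pow_mul, mul_comm m 2]
    rw [hrd, h1]
    rfl
  have hpe : ∏ i, e i = r' ^ 2 * ((2 ^ m) ^ 2 * (G 0 * dM G)) := by
    have h1 : (-2 : F) ^ (n + 1) = (2 ^ m) ^ 2 := by
      rw [← hm, pow_mul, neg_sq, ← pow_mul, ← pow_mul, mul_comm m 2]
    have h3 : (-1 : F) ^ (n + 1) = 1 := by
      rw [← hm, pow_mul, neg_one_sq, one_pow]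
    rw [hrd', det_hk1, hcf, h1, h3, one_mul]
    rfl
  let ε : Fin (2 * m) ≃ Fin (n + 1) := finCongr hm
  have hsumd : ∑ i, cl (d (ε i)) = ∑ i, cl (d i) := Equiv.sum_comp ε fun i => cl (d i)
  have hprd : ∏ i, d (ε i) = ∏ i, d i := Equiv.prod_comp ε fun i => d i
  have hpre : ∏ i, e (ε i) = ∏ i, e i := Equiv.prod_comp ε fun i => e i
  let a : Fin (2 * m + 2) → F := Fin.cons 2 (Fin.cons (2 * c * G 0) fun i => d (ε i))
  have hpa : ∏ i, a i = 2 * (2 * c * G 0 * ∏ i, d i) := by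
    rw [Fin.prod_univ_succ, Fin.prod_univ_succ]
    show 2 * (2 * c * G 0 * ∏ i, d (ε i)) = _
    rw [hprd]
  have hsa : ∑ i, cl (a i) = cl 2 + (cl (2 * c * G 0) + ∑ i, cl (d i)) := by
    rw [Fin.sum_univ_succ, Fin.sum_univ_succ]
    show cl 2 + (cl (2 * c * G 0) + ∑ i, cl (d (ε i))) = _
    rw [hsumd]
  refine ⟨m, a, fun i => e (ε i), r' * 2 ^ m, 2 * G 0 * dM G * r * r' * 2 ^ m * 2 ^ m, hm, ?_,
    fun i => he _, mul_ne_zero hr' h2m, ?_, ?_, ?_, ?_⟩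
  · intro i
    refine Fin.cases h2 (fun j => ?_) i
    refine Fin.cases (mul_ne_zero (mul_ne_zero h2 hc) hG0) (fun l => ?_) j
    exact hd _
  · exact mul_ne_zero (mul_ne_zero (mul_ne_zero (mul_ne_zero (mul_ne_zero (mul_ne_zero h2 hG0)
      hdM) hr) hr') h2m) h2m
  · intro lam hlam
    have h4 : Cong ((-2 * lam) • hk1 G) (diagonal fun i => lam * e i) := by
      obtain ⟨P, hP, hPe⟩ := hec
      refine ⟨P, hP, ?_⟩
      have h5 : ((-2 * lam) • hk1 G) = lam • ((-2 : F) • hk1 G) := by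
        rw [smul_smul, mul_comm]
      rw [h5, Matrix.mul_smul, Matrix.smul_mul, hPe]
      ext i j
      rw [Matrix.smul_apply, smul_eq_mul, Matrix.diagonal_apply, Matrix.diagonal_apply]
      split_ifs
      · rfl
      · exact mul_zero _
    have h6 : ∑ i, cl (lam * e (ε i)) = ∑ i, cl (lam * e i) :=
      Equiv.sum_comp ε fun i => cl (lam * e i)
    unfold coreF
    rw [hcf, cls_eq_sum h2 hd hdc, cls_eq_sum h2 (fun i => mul_ne_zero hlam (he i)) h4, hsa, h6]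
    abel
  · have h7 : ((-1 : F) ^ m) * (-1) ^ m = 1 := by
      rw [← mul_pow, neg_one_mul, neg_neg, one_pow]
    rw [hpre, hpe, dlt, hm2]
    linear_combination (-(G 0 * dM G * (r' * 2 ^ m) ^ 2)) * h7
  · rw [hpa, hpre, hpd, hpe]
    ring

end NF83
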