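import Pool.Agent.H.MP_83e36b_nt.nf.Fin
import Pool.Agent.H.MP_83e36b_nt.I1c

/-! Chinese remainder theorem for finitely many finite places.

PROOF. `crt_ok`: `I1c.exists_integer_near` approximates one place; use `IsDedekindDomain.exists_forall_sub_mem_ideal`
(Chinese remainder theorem) for the powers of the primes `v.asIdeal`, and that elements of
`v.asIdeal ^ n` have small norm (`n` large); or the weak approximation theorem `fieldWA_numberField` and
a denominator argument.
-/

set_option autoImplicit false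

open Topology NumberField IsDedekindDomain AnWA

namespace NF83

variable {k : Type} [Field k] [NumberField k]

private theorem KTb_small (v : HeightOneSpectrum (𝓞 k)) {ε : ℝ} (hε : 0 < ε) :
    ∃ n : ℕ, ∀ z : k, v.valuation k z ≤ WithZero.exp (-(n : ℤ)) →
      ‖algebraMap k (v.adicCompletion k) z‖ < ε := by
  obtain ⟨π, hπ⟩ := v.valuation_exists_uniformizer k
  have h1 : ‖algebraMap k (v.adicCompletion k) π‖ < 1 := by
    rw [norm_algebraMap_lt_one, hπ]
    rw [← WithZero.exp_zero, WithZero.exp_lt_exp]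
    norm_num
  have hπ0 : π ≠ 0 := by
    rintro rfl
    rw [map_zero] at hπ
    exact WithZero.exp_ne_zero hπ.symm
  obtain ⟨n, hn⟩ := exists_pow_lt_of_lt_one hε h1
  refine ⟨n, fun z hz => ?_⟩
  have h2 : v.valuation k (z / π ^ n) ≤ 1 := by
    rw [map_div₀, map_pow, hπ, ← WithZero.exp_nsmul]
    rw [div_le_one₀ (WithZero.exp_pos)]
    refine hz.trans (le_of_eq ?_)
    congr 1
    simp
  rw [← norm_algebraMap_le_one, map_div₀, map_pow, norm_div, norm_pow] at h2
  have h3 : 0 < ‖algebraMap k (v.adicCompletion k) π‖ := by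
    rw [norm_pos_iff]
    intro h
    exact hπ0 ((map_eq_zero _).1 h)
  rw [div_le_one₀ (pow_pos h3 n)] at h2
  exact h2.trans_lt hn

private theorem KTb_one (v : HeightOneSpectrum (𝓞 k)) (x : v.adicCompletion k) (hx : ‖x‖ ≤ 1)
    {ε : ℝ} (hε : 0 < ε) :
    ∃ r : 𝓞 k, ‖algebraMap k (v.adicCompletion k) (r : k) - x‖ < ε := by
  have hna : ∀ a b : v.adicCompletion k, ‖a + b‖ ≤ max ‖a‖ ‖b‖ :=
    fun a b => Valued.isNonarchimedean_norm (v.adicCompletion k) (WithZero (Multiplicative ℤ)) a b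
  obtain ⟨y, hy⟩ := (v.denseRange_algebraMap k).exists_dist_lt x (lt_min hε one_pos)
  rw [dist_eq_norm] at hy
  have hy1 : ‖algebraMap k (v.adicCompletion k) y‖ ≤ 1 := by
    have h := hna x (-(x - algebraMap k (v.adicCompletion k) y))
    rw [norm_neg] at h
    have e : x + -(x - algebraMap k (v.adicCompletion k) y)
        = algebraMap k (v.adicCompletion k) y := by ring
    rw [e] at h
    exact h.trans (max_le hx (hy.le.trans (min_le_right _ _)))
  rw [norm_algebraMap_le_one] at hy1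
  obtain ⟨n, hn⟩ := KTb_small v hε
  obtain ⟨a, ha⟩ := v.exists_valuation_sub_lt_of_integer hy1
    (Units.mk0 (WithZero.exp (-(n : ℤ))) WithZero.exp_ne_zero)
  have h2 := hn _ ha.le
  rw [map_sub] at h2
  refine ⟨a, ?_⟩
  have h := hna (algebraMap k (v.adicCompletion k) (algebraMap (𝓞 k) k a) -
    algebraMap k (v.adicCompletion k) y) (-(x - algebraMap k (v.adicCompletion k) y))
  rw [norm_neg] at h
  have e : algebraMap k (v.adicCompletion k) (algebraMap (𝓞 k) k a) -
    algebraMap k (v.adicCompletion k) y + -(x - algebraMap k (v.adicCompletion k) y) =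
    algebraMap k (v.adicCompletion k) (algebraMap (𝓞 k) k a) - x := by ring
  rw [e] at h
  exact h.trans_lt (max_lt h2 (hy.trans_le (min_le_left _ _)))

theorem crt_ok (F : Finset (HeightOneSpectrum (𝓞 k))) (x : ∀ v, v.adicCompletion k)
    (hx : ∀ v ∈ F, ‖x v‖ ≤ 1) (ε : ℝ) (hε : 0 < ε) :
    ∃ u : 𝓞 k, ∀ v ∈ F, ‖algebraMap k (v.adicCompletion k) (u : k) - x v‖ < ε := by
  classical
  choose n hn using fun v : HeightOneSpectrum (𝓞 k) => KTb_small v hε
  have h1 : ∀ v : {v // v ∈ F}, ∃ r : 𝓞 k,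
      ‖algebraMap k (v.1.adicCompletion k) (r : k) - x v.1‖ < ε :=
    fun v => KTb_one v.1 (x v.1) (hx v.1 v.2) hε
  choose r hr using h1
  obtain ⟨u, hu⟩ := exists_forall_sub_mem_ideal (s := F)
    (fun v : HeightOneSpectrum (𝓞 k) => v.asIdeal) n (fun v _ => v.prime)
    (fun v _ w _ hvw h => hvw (HeightOneSpectrum.ext h)) r
  refine ⟨u, fun v hv => ?_⟩
  have hna : ∀ a b : v.adicCompletion k, ‖a + b‖ ≤ max ‖a‖ ‖b‖ :=
    fun a b => Valued.isNonarchimedean_norm (v.adicCompletion k) (WithZero (Multiplicative ℤ)) a b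
  have h2 := hu v hv
  rw [← v.intValuation_le_pow_iff_mem, ← v.valuation_of_algebraMap (K := k)] at h2
  have h3 : ‖algebraMap k (v.adicCompletion k) (algebraMap (𝓞 k) k (u - r ⟨v, hv⟩))‖ < ε :=
    hn v _ h2
  rw [map_sub, map_sub] at h3
  have h4 := hr ⟨v, hv⟩
  have h := hna (algebraMap k (v.adicCompletion k) (algebraMap (𝓞 k) k u) -
    algebraMap k (v.adicCompletion k) (algebraMap (𝓞 k) k (r ⟨v, hv⟩)))
    (algebraMap k (v.adicCompletion k) (algebraMap (𝓞 k) k (r ⟨v, hv⟩)) - x v)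
  rw [sub_add_sub_cancel] at h
  exact h.trans_lt (max_lt h3 h4)

end NF83
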