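import Pool.Agent.H.MP_83e36b_nt.hm.KTa
import Pool.Agent.H.MP_83e36b_nt.hm.KTb
import Pool.Agent.H.MP_83e36b_nt.hm.KSa

/-! Choice of the parameter over a number field.

`T` is the set of the finite places dividing the natural number `P`, `a` is a natural number prime to `P`,
`a > 1`.  We look for `t = u / (a^(2 N e) P^L)` with `u ∈ 𝓞 k`.

PROOF. Write `D = a^(2 N e)`, `E = P^L`, `L` fixed with `‖E x_v‖ ≤ 1` for `v ∈ T` (`‖P‖_v < 1` for `v ∈ T`).
Conditions: (i) `v ∈ T`: `‖t - x_v‖ < ε`: as `‖D‖_v = 1` it suffices that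
`‖u - D E x_v‖_v < ε ‖E‖_v`, `D E x_v` integral; (ii) `v` divides `a`:
`‖t a^(2 N e) + c‖ = ‖u / E + c‖ < 1`: as `‖E‖_v = 1`: `‖u + c E‖_v < 1`, `c E` integral; (iii) other finite
places: `‖t‖ ≤ 1` automatically, since `‖a‖_v = ‖P‖_v = 1`; (iv) infinite places: `‖t - x_v‖ < ε`, i.e.
`‖u - D E x_v‖_v < ε D E`.
`crt_ok` gives `u0 ∈ 𝓞 k` with (i), (ii) (finitely many finite places, integral targets, given
precision; for `v ∣ a` and `v ∈ T`). Let `M = (P a)^K`, `K` so large (independent of `N`) that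
`‖M‖_v < ε ‖E‖_v` for `v ∈ T` and `‖M‖_v < 1` for `v ∣ a`; then `u = u0 + M w`, `w ∈ 𝓞 k`, satisfies (i),
(ii) too (ultrametric inequality, `‖w‖_v ≤ 1`). By `cover_ok` there is `w` with
`‖w - (D E x_v - u0) / M‖_v ≤ C` at all infinite places, so `‖u - D E x_v‖_v ≤ C M ≤ ε D` for `N` large, as
`D = a^(2 N e) ≥ 2^N`, `‖natural number‖_v` = its value at infinite places. `norm_nat_eq`, `norm_nat_lt`, `norm_int_le`: KSa.
-/

set_option autoImplicit false

open Topology NumberField IsDedekindDomain AnWA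

namespace NF83

variable {k : Type} [Field k] [NumberField k]

private theorem KTc_min {α : Type*} (s : Finset α) (f : α → ℝ) (hf : ∀ a ∈ s, 0 < f a) :
    ∃ δ : ℝ, 0 < δ ∧ δ ≤ 1 ∧ ∀ a ∈ s, δ ≤ f a := by
  classical
  induction s using Finset.induction_on with
  | empty => exact ⟨1, one_pos, le_rfl, by simp⟩
  | insert b s hb ih =>
    obtain ⟨δ, h1, h2, h3⟩ := ih (fun a ha => hf a (Finset.mem_insert_of_mem ha))
    refine ⟨min δ (f b), lt_min h1 (hf b (Finset.mem_insert_self _ _)),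
      (min_le_left _ _).trans h2, fun a ha => ?_⟩
    rcases Finset.mem_insert.1 ha with rfl | ha
    · exact min_le_right _ _
    · exact (min_le_left _ _).trans (h3 a ha)

private theorem KTc_inf (v : InfinitePlace k) (n : ℕ) :
    ‖algebraMap k v.Completion (n : k)‖ = n := by
  have h := InfinitePlace.Completion.norm_coe v (WithAbs.toAbs v.1 (n : k))
  have h2 : v (n : k) = n := by
    rw [← InfinitePlace.norm_embedding_eq, map_natCast, Complex.norm_natCast]
  exact h.trans h2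

private theorem KTc_pow (F : Finset (HeightOneSpectrum (𝓞 k))) (n : ℕ)
    (hn : ∀ v ∈ F, ‖algebraMap k (v.adicCompletion k) (n : k)‖ < 1)
    (R : HeightOneSpectrum (𝓞 k) → ℝ) {δ : ℝ} (hδ : 0 < δ) :
    ∃ K : ℕ, ∀ v ∈ F, ‖algebraMap k (v.adicCompletion k) (n : k)‖ ^ K * R v < δ := by
  have h : ∀ᶠ K : ℕ in Filter.atTop, ∀ v ∈ F,
      ‖algebraMap k (v.adicCompletion k) (n : k)‖ ^ K * R v < δ := by
    rw [Filter.eventually_all_finset]
    intro v hv
    have h1 := (tendsto_pow_atTop_nhds_zero_of_lt_one (norm_nonneg _) (hn v hv)).mul_const (R v)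
    rw [zero_mul] at h1
    exact h1.eventually (gt_mem_nhds hδ)
  exact h.exists

theorem exists_tF (P : ℕ) (hP : P ≠ 0) (T : Finset (HeightOneSpectrum (𝓞 k)))
    (hT : ∀ v, v ∈ T ↔ (P : 𝓞 k) ∈ v.asIdeal) (a : ℕ) (ha : 1 < a) (haP : a.Coprime P)
    (x : ∀ i, Compl T i) (U : ∀ i, Set (Compl T i)) (hU : ∀ i, U i ∈ 𝓝 (x i)) (c : k)
    (hc : ∀ v : HeightOneSpectrum (𝓞 k), (a : 𝓞 k) ∈ v.asIdeal →
      ‖algebraMap k (v.adicCompletion k) c‖ ≤ 1) {e : ℕ} (he : 0 < e) (N0 : ℕ) :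
    ∃ (t : k) (N : ℕ), N0 ≤ N ∧ (∀ i, complEmb T i t ∈ U i) ∧
      (∀ v : HeightOneSpectrum (𝓞 k), v ∉ T → (a : 𝓞 k) ∉ v.asIdeal →
        ‖algebraMap k (v.adicCompletion k) t‖ ≤ 1) ∧
      ∀ v : HeightOneSpectrum (𝓞 k), (a : 𝓞 k) ∈ v.asIdeal →
        ‖algebraMap k (v.adicCompletion k) t *
          (((a : v.adicCompletion k) ^ N) ^ 2) ^ e + algebraMap k (v.adicCompletion k) c‖ < 1 := by
  classical
  have hna : ∀ (v : HeightOneSpectrum (𝓞 k)) (a b : v.adicCompletion k),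
      ‖a + b‖ ≤ max ‖a‖ ‖b‖ := fun v a b =>
    Valued.isNonarchimedean_norm (v.adicCompletion k) (WithZero (Multiplicative ℤ)) a b
  have ha0 : (a : k) ≠ 0 := Nat.cast_ne_zero.2 (by omega)
  have hP0 : (P : k) ≠ 0 := Nat.cast_ne_zero.2 hP
  -- coprimality
  have hcop : ∀ v : HeightOneSpectrum (𝓞 k), (P : 𝓞 k) ∈ v.asIdeal → (a : 𝓞 k) ∉ v.asIdeal := by
    intro v h1 h2
    obtain ⟨r, s, hrs⟩ : IsCoprime (a : ℤ) (P : ℤ) := Nat.isCoprime_iff_coprime.2 haP
    apply v.isPrime.ne_top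
    rw [Ideal.eq_top_iff_one]
    have h4 : (r : 𝓞 k) * (a : 𝓞 k) + (s : 𝓞 k) * (P : 𝓞 k) = 1 := by
      exact_mod_cast congrArg (Int.cast : ℤ → 𝓞 k) hrs
    rw [← h4]
    exact v.asIdeal.add_mem (v.asIdeal.mul_mem_left _ h2) (v.asIdeal.mul_mem_left _ h1)
  -- norms of the two numbers
  have hPT : ∀ v ∈ T, ‖algebraMap k (v.adicCompletion k) (P : k)‖ < 1 := fun v hv => by
    rw [map_natCast]
    exact norm_nat_lt v P ((hT v).1 hv)
  have hPn : ∀ v, v ∉ T → ‖algebraMap k (v.adicCompletion k) (P : k)‖ = 1 := fun v hv => by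
    rw [map_natCast]
    exact norm_nat_eq v P fun h => hv ((hT v).2 h)
  have haA : ∀ v : HeightOneSpectrum (𝓞 k), (a : 𝓞 k) ∈ v.asIdeal →
      ‖algebraMap k (v.adicCompletion k) (a : k)‖ < 1 := fun v hv => by
    rw [map_natCast]
    exact norm_nat_lt v a hv
  have han : ∀ v : HeightOneSpectrum (𝓞 k), (a : 𝓞 k) ∉ v.asIdeal →
      ‖algebraMap k (v.adicCompletion k) (a : k)‖ = 1 := fun v hv => by
    rw [map_natCast]
    exact norm_nat_eq v a hv
  have hA : {v : HeightOneSpectrum (𝓞 k) | (a : 𝓞 k) ∈ v.asIdeal}.Finite :=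
    (fin_nunit (a : k) ha0).subset fun v hv => (haA v hv).ne
  have hTA : ∀ v, (a : 𝓞 k) ∈ v.asIdeal → v ∉ T := fun v h1 h2 => hcop v ((hT v).1 h2) h1
  -- the neighbourhoods
  obtain ⟨xI, hxI⟩ : ∃ xI : ∀ v : InfinitePlace k, v.Completion, xI = fun v => x (Sum.inl v) :=
    ⟨_, rfl⟩
  obtain ⟨xT, hxT⟩ : ∃ xT : ∀ v : {v // v ∈ T}, v.1.adicCompletion k,
      xT = fun v => x (Sum.inr v) := ⟨_, rfl⟩
  obtain ⟨ε, hε, hεI, hεT⟩ : ∃ ε : ℝ, 0 < ε ∧
      (∀ (v : InfinitePlace k) (y : v.Completion), ‖y - xI v‖ < ε → y ∈ U (Sum.inl v)) ∧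
      (∀ (v : {v // v ∈ T}) (y : v.1.adicCompletion k), ‖y - xT v‖ < ε → y ∈ U (Sum.inr v)) := by
    have h1 : ∀ i, ∃ ε : ℝ, 0 < ε ∧ Metric.ball (x i) ε ⊆ U i := fun i => by
      obtain ⟨ε, h1, h2⟩ := Metric.mem_nhds_iff.1 (hU i)
      exact ⟨ε, h1, h2⟩
    choose f hf0 hf using h1
    obtain ⟨ε, h2, -, h3⟩ := KTc_min Finset.univ f fun i _ => hf0 i
    refine ⟨ε, h2, fun v y hy => hf (Sum.inl v) ?_, fun v y hy => hf (Sum.inr v) ?_⟩
    · have h4 : dist y (xI v) < f (Sum.inl v) := by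
        rw [dist_eq_norm]
        exact hy.trans_le (h3 _ (Finset.mem_univ _))
      subst hxI
      exact h4
    · have h4 : dist y (xT v) < f (Sum.inr v) := by
        rw [dist_eq_norm]
        exact hy.trans_le (h3 _ (Finset.mem_univ _))
      subst hxT
      exact h4
  -- the denominator at `T`
  obtain ⟨L, hL⟩ := KTc_pow T P hPT (fun v => if h : v ∈ T then ‖xT ⟨v, h⟩‖ else 0) one_pos
  obtain ⟨E, hE⟩ : ∃ E : k, E = (P : k) ^ L := ⟨_, rfl⟩
  have hE0 : E ≠ 0 := by rw [hE]; exact pow_ne_zero _ hP0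
  have hEn : ∀ v, v ∉ T → ‖algebraMap k (v.adicCompletion k) E‖ = 1 := fun v hv => by
    rw [hE, map_pow, norm_pow, hPn v hv, one_pow]
  have hEx : ∀ v (hv : v ∈ T), ‖algebraMap k (v.adicCompletion k) E * xT ⟨v, hv⟩‖ ≤ 1 := by
    intro v hv
    have h := hL v hv
    rw [dif_pos hv] at h
    rw [hE, map_pow, norm_mul, norm_pow]
    exact h.le
  -- the precision
  obtain ⟨δ, hδ0, hδ1, hδ⟩ := KTc_min T (fun v => ε * ‖algebraMap k (v.adicCompletion k) E‖)
    fun v _ => mul_pos hε (norm_pos_iff.2 ((map_ne_zero _).2 hE0))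
  -- the modulus
  obtain ⟨F, hF⟩ : ∃ F, F = T ∪ hA.toFinset := ⟨_, rfl⟩
  have hFm : ∀ v, v ∈ F ↔ v ∈ T ∨ (a : 𝓞 k) ∈ v.asIdeal := fun v => by
    rw [hF, Finset.mem_union, Set.Finite.mem_toFinset]
    rfl
  have hPa : ∀ v ∈ F, ‖algebraMap k (v.adicCompletion k) ((P * a : ℕ) : k)‖ < 1 := by
    intro v hv
    rw [Nat.cast_mul, map_mul, norm_mul]
    rcases (hFm v).1 hv with h | h
    · rw [han v (hcop v ((hT v).1 h)), mul_one]
      exact hPT v h
    · rw [hPn v (hTA v h), one_mul]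
      exact haA v h
  obtain ⟨K, hK⟩ := KTc_pow F (P * a) hPa (fun _ => 1) hδ0
  obtain ⟨C, hC⟩ := cover_ok k
  -- the exponent
  obtain ⟨N, hN0, hN⟩ : ∃ N : ℕ, N0 ≤ N ∧ C * ((P * a : ℕ) : ℝ) ^ K < ε * 2 ^ N := by
    obtain ⟨N1, hN1⟩ := pow_unbounded_of_one_lt (C * ((P * a : ℕ) : ℝ) ^ K / ε)
      (one_lt_two : (1 : ℝ) < 2)
    refine ⟨max N0 N1, le_max_left _ _, ?_⟩
    rw [div_lt_iff₀ hε] at hN1
    refine hN1.trans_le ?_
    rw [mul_comm]
    have : (2 : ℝ) ^ N1 ≤ 2 ^ (max N0 N1) := pow_le_pow_right₀ one_le_two (le_max_right _ _)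
    gcongr
  obtain ⟨D, hD⟩ : ∃ D : k, D = (((a : k) ^ N) ^ 2) ^ e := ⟨_, rfl⟩
  have hD0 : D ≠ 0 := by rw [hD]; exact pow_ne_zero _ (pow_ne_zero _ (pow_ne_zero _ ha0))
  have hDn : ∀ v : HeightOneSpectrum (𝓞 k), (a : 𝓞 k) ∉ v.asIdeal →
      ‖algebraMap k (v.adicCompletion k) D‖ = 1 := fun v hv => by
    rw [hD, map_pow, map_pow, map_pow, norm_pow, norm_pow, norm_pow, han v hv, one_pow, one_pow,
      one_pow]
  -- the Chinese remainder theorem
  obtain ⟨u0, hu0⟩ := crt_ok F (fun v => if h : v ∈ T then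
      algebraMap k (v.adicCompletion k) (D * E) * xT ⟨v, h⟩
      else -algebraMap k (v.adicCompletion k) (c * E)) (by
    intro v hv
    rcases (hFm v).1 hv with h | h
    · rw [dif_pos h, map_mul, mul_assoc, norm_mul, hDn v (hcop v ((hT v).1 h)), one_mul]
      exact hEx v h
    · rw [dif_neg (hTA v h), norm_neg, map_mul, norm_mul, hEn v (hTA v h), mul_one]
      exact hc v h) δ hδ0
  -- the infinite places
  obtain ⟨M, hM⟩ : ∃ M : k, M = ((P * a : ℕ) : k) ^ K := ⟨_, rfl⟩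
  have hM0 : M ≠ 0 := by
    rw [hM]
    exact pow_ne_zero _ (Nat.cast_ne_zero.2 (Nat.mul_ne_zero hP (by omega)))
  obtain ⟨w, hw⟩ := hC fun v => (algebraMap k v.Completion (D * E) * xI v -
    algebraMap k v.Completion (u0 : k)) / algebraMap k v.Completion M
  -- the solution
  obtain ⟨u, hu⟩ : ∃ u : 𝓞 k, u = u0 + ((P * a : ℕ) : 𝓞 k) ^ K * w := ⟨_, rfl⟩
  have huk : (u : k) = (u0 : k) + M * (w : k) := by
    rw [hu, hM]
    push_cast
    rfl
  have hfin : ∀ v ∈ F, ∀ y : v.adicCompletion k,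
      ‖algebraMap k (v.adicCompletion k) (u0 : k) - y‖ < δ →
      ‖algebraMap k (v.adicCompletion k) (u : k) - y‖ < δ := by
    intro v hv y hy
    have h1 : ‖algebraMap k (v.adicCompletion k) (M * (w : k))‖ < δ := by
      rw [map_mul, norm_mul]
      have h2 := norm_int_le v w
      have h3 : ‖algebraMap k (v.adicCompletion k) M‖ < δ := by
        have := hK v hv
        rw [mul_one] at this
        rw [hM, map_pow, norm_pow]
        exact this
      calc ‖algebraMap k (v.adicCompletion k) M‖ * ‖algebraMap k (v.adicCompletion k) (w : k)‖ ≤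
          ‖algebraMap k (v.adicCompletion k) M‖ * 1 := by gcongr
        _ < δ := by rw [mul_one]; exact h3
    have h4 : algebraMap k (v.adicCompletion k) (u : k) - y =
        (algebraMap k (v.adicCompletion k) (u0 : k) - y) +
          algebraMap k (v.adicCompletion k) (M * (w : k)) := by
      rw [huk, map_add]
      ring
    rw [h4]
    exact (hna v _ _).trans_lt (max_lt hy h1)
  refine ⟨(u : k) / (D * E), N, hN0, ?_, ?_, ?_⟩
  · rintro (v | v)
    · refine hεI v (algebraMap k v.Completion ((u : k) / (D * E))) ?_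
      have hDEv : algebraMap k v.Completion (D * E) ≠ 0 :=
        (map_ne_zero _).2 (mul_ne_zero hD0 hE0)
      have hMv : algebraMap k v.Completion M ≠ 0 := (map_ne_zero _).2 hM0
      have h1 : algebraMap k v.Completion ((u : k) / (D * E)) - xI v =
          algebraMap k v.Completion M * (algebraMap k v.Completion (w : k) -
            (algebraMap k v.Completion (D * E) * xI v - algebraMap k v.Completion (u0 : k)) /
              algebraMap k v.Completion M) / algebraMap k v.Completion (D * E) := by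
        rw [huk, map_div₀, map_add, map_mul (algebraMap k v.Completion) M]
        field_simp
        ring
      have hnM : ‖algebraMap k v.Completion M‖ = ((P * a : ℕ) : ℝ) ^ K := by
        rw [hM, map_pow, norm_pow, KTc_inf]
      have hnE : 1 ≤ ‖algebraMap k v.Completion E‖ := by
        rw [hE, map_pow, norm_pow, KTc_inf]
        exact one_le_pow₀ (by exact_mod_cast Nat.one_le_iff_ne_zero.2 hP)
      have hnD : (2 : ℝ) ^ N ≤ ‖algebraMap k v.Completion D‖ := by
        rw [hD, map_pow, map_pow, map_pow, norm_pow, norm_pow, norm_pow, KTc_inf]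
        have h2 : (2 : ℝ) ≤ a := by exact_mod_cast ha
        have h3 : (2 : ℝ) ^ N ≤ (a : ℝ) ^ N := by gcongr
        have h4 : (1 : ℝ) ≤ (a : ℝ) ^ N := one_le_pow₀ (by linarith)
        have h5 : (a : ℝ) ^ N ≤ ((a : ℝ) ^ N) ^ 2 := le_self_pow₀ h4 two_ne_zero
        have h6 : ((a : ℝ) ^ N) ^ 2 ≤ (((a : ℝ) ^ N) ^ 2) ^ e :=
          le_self_pow₀ (h4.trans h5) he.ne'
        linarith
      have hnDE : (2 : ℝ) ^ N ≤ ‖algebraMap k v.Completion (D * E)‖ := by
        rw [map_mul, norm_mul]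
        calc (2 : ℝ) ^ N = 2 ^ N * 1 := (mul_one _).symm
          _ ≤ _ := by gcongr
      have h2N : (0 : ℝ) < 2 ^ N := by positivity
      rw [h1, norm_div, norm_mul, hnM, div_lt_iff₀ (h2N.trans_le hnDE)]
      calc ((P * a : ℕ) : ℝ) ^ K * ‖algebraMap k v.Completion (w : k) -
            (algebraMap k v.Completion (D * E) * xI v - algebraMap k v.Completion (u0 : k)) /
              algebraMap k v.Completion M‖ ≤ ((P * a : ℕ) : ℝ) ^ K * C := by
            gcongr
            exact hw v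
        _ < ε * 2 ^ N := by rw [mul_comm]; exact hN
        _ ≤ _ := by gcongr
    · obtain ⟨v, hv⟩ := v
      refine hεT ⟨v, hv⟩ (algebraMap k (v.adicCompletion k) ((u : k) / (D * E))) ?_
      have hav : (a : 𝓞 k) ∉ v.asIdeal := hcop v ((hT v).1 hv)
      have hEv : algebraMap k (v.adicCompletion k) E ≠ 0 := (map_ne_zero _).2 hE0
      have hDEv : algebraMap k (v.adicCompletion k) (D * E) ≠ 0 :=
        (map_ne_zero _).2 (mul_ne_zero hD0 hE0)
      have h0 := hu0 v ((hFm v).2 (Or.inl hv))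
      rw [dif_pos hv] at h0
      have h1 := hfin v ((hFm v).2 (Or.inl hv)) _ h0
      have h2 : algebraMap k (v.adicCompletion k) ((u : k) / (D * E)) - xT ⟨v, hv⟩ =
          (algebraMap k (v.adicCompletion k) (u : k) -
            algebraMap k (v.adicCompletion k) (D * E) * xT ⟨v, hv⟩) /
            algebraMap k (v.adicCompletion k) (D * E) := by
        rw [map_div₀, sub_div, mul_div_cancel_left₀ _ hDEv]
      rw [h2, norm_div, map_mul, norm_mul, hDn v hav, one_mul,
        div_lt_iff₀ (norm_pos_iff.2 hEv), ← map_mul]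
      exact h1.trans_le (hδ v hv)
  · intro v hvT hva
    rw [map_div₀, norm_div, map_mul, norm_mul, hDn v hva, hEn v hvT, one_mul, div_one]
    exact norm_int_le v u
  · intro v hva
    have hvT := hTA v hva
    have h0 := hu0 v ((hFm v).2 (Or.inr hva))
    rw [dif_neg hvT] at h0
    have h1 := hfin v ((hFm v).2 (Or.inr hva)) _ h0
    have hEv : algebraMap k (v.adicCompletion k) E ≠ 0 := (map_ne_zero _).2 hE0
    have hDv : algebraMap k (v.adicCompletion k) D ≠ 0 := (map_ne_zero _).2 hD0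
    have hDe : (((a : v.adicCompletion k) ^ N) ^ 2) ^ e = algebraMap k (v.adicCompletion k) D := by
      rw [hD]
      simp only [map_pow, map_natCast]
    have h2 : algebraMap k (v.adicCompletion k) ((u : k) / (D * E)) *
        (((a : v.adicCompletion k) ^ N) ^ 2) ^ e + algebraMap k (v.adicCompletion k) c =
        (algebraMap k (v.adicCompletion k) (u : k) -
          -algebraMap k (v.adicCompletion k) (c * E)) / algebraMap k (v.adicCompletion k) E := by
      rw [hDe, map_div₀, map_mul, map_mul]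
      field_simp
      ring
    rw [h2, norm_div, hEn v hvT, div_one]
    exact h1.trans_le hδ1

end NF83
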