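import Pool.Agent.H.MP_83e36b_nt.nf.Fin

/-! Every tuple of points of the infinite completions is at bounded distance from an integer.

PROOF. `cover_ok`: let `b` be the integral basis (`NumberField.integralBasis` or `RingOfIntegers.basis`). By the
weak approximation theorem `fieldWA_numberField ∅` (or `complEmb_dense` and ...) there is `y ∈ k` with
`‖y - x_v‖_v < 1` at the infinite places; `y = ∑ y_i b_i`, `y_i ∈ ℚ`, `w = ∑ ⌊y_i⌋ b_i`,
`‖y - w‖_v ≤ ∑ ‖b_i‖_v`. So `C = 1 + ∑_v ∑_i ‖b_i‖_v`.
-/

set_option autoImplicit false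

open Topology NumberField IsDedekindDomain AnWA

namespace NF83

variable {k : Type} [Field k] [NumberField k]

theorem cover_ok (k : Type) [Field k] [NumberField k] : ∃ C : ℝ, ∀ x : ∀ v : InfinitePlace k, v.Completion,
    ∃ w : 𝓞 k, ∀ v : InfinitePlace k, ‖algebraMap k v.Completion (w : k) - x v‖ ≤ C := by
  classical
  have hnorm : ∀ (v : InfinitePlace k) (z : k), ‖algebraMap k v.Completion z‖ = v z := fun v z =>
    norm_complEmb (∅ : Finset (HeightOneSpectrum (𝓞 k))) (Sum.inl v) z
  have hrat : ∀ (v : InfinitePlace k) (q : ℚ), v (algebraMap ℚ k q) = |(q : ℝ)| := by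
    intro v q
    rw [← InfinitePlace.norm_embedding_eq v, ← RingHom.comp_apply, eq_ratCast, Complex.norm_ratCast]
  refine ⟨1 + ∑ v : InfinitePlace k, ∑ i, v (integralBasis k i), fun x => ?_⟩
  obtain ⟨y, hy⟩ := fieldWA_numberField (∅ : Finset (HeightOneSpectrum (𝓞 k)))
    (fun i => match i with
      | Sum.inl v => x v
      | Sum.inr v => absurd v.2 (Finset.notMem_empty _)) 1 one_pos
  have hy' : ∀ v : InfinitePlace k, ‖algebraMap k v.Completion y - x v‖ < 1 :=
    fun v => hy (Sum.inl v)
  refine ⟨∑ i, ⌊(integralBasis k).repr y i⌋ • RingOfIntegers.basis k i, fun v => ?_⟩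
  set w : 𝓞 k := ∑ i, ⌊(integralBasis k).repr y i⌋ • RingOfIntegers.basis k i with hw
  have hwk : (w : k) = ∑ i, algebraMap ℚ k (⌊(integralBasis k).repr y i⌋ : ℚ) * integralBasis k i := by
    have h0 : (algebraMap (𝓞 k) k) w =
        ∑ i, algebraMap ℚ k (⌊(integralBasis k).repr y i⌋ : ℚ) * integralBasis k i := by
      rw [hw, map_sum]
      refine Finset.sum_congr rfl fun i _ => ?_
      rw [zsmul_eq_mul, map_mul, map_intCast, integralBasis_apply, map_intCast]
    exact h0
  have hyk : y = ∑ i, algebraMap ℚ k ((integralBasis k).repr y i) * integralBasis k i := by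
    conv_lhs => rw [← (integralBasis k).sum_repr y]
    refine Finset.sum_congr rfl fun i _ => ?_
    rw [Algebra.smul_def]
  have hyw : y - (w : k) = ∑ i, algebraMap ℚ k (Int.fract ((integralBasis k).repr y i)) *
      integralBasis k i := by
    have h0 : ∑ i, algebraMap ℚ k ((integralBasis k).repr y i) * integralBasis k i -
        ∑ i, algebraMap ℚ k (⌊(integralBasis k).repr y i⌋ : ℚ) * integralBasis k i =
        ∑ i, algebraMap ℚ k (Int.fract ((integralBasis k).repr y i)) * integralBasis k i := by
      rw [← Finset.sum_sub_distrib]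
      refine Finset.sum_congr rfl fun i _ => ?_
      rw [← sub_mul, ← map_sub, Int.self_sub_floor]
    rw [← hwk, ← hyk] at h0
    exact h0
  have h1 : ‖algebraMap k v.Completion (y - (w : k))‖ ≤ ∑ i, v (integralBasis k i) := by
    rw [hyw, map_sum]
    refine (norm_sum_le _ _).trans (Finset.sum_le_sum fun i _ => ?_)
    rw [map_mul, norm_mul, hnorm, hnorm, hrat]
    have h2 : |((Int.fract ((integralBasis k).repr y i) : ℚ) : ℝ)| ≤ 1 := by
      rw [← Rat.cast_abs, abs_of_nonneg (Int.fract_nonneg _)]
      exact_mod_cast (Int.fract_lt_one _).le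
    calc _ ≤ 1 * v (integralBasis k i) := mul_le_mul_of_nonneg_right h2 (apply_nonneg v _)
      _ = v (integralBasis k i) := one_mul _
  have h3 : ∑ i, v (integralBasis k i) ≤ ∑ v : InfinitePlace k, ∑ i, v (integralBasis k i) :=
    Finset.single_le_sum (f := fun v : InfinitePlace k => ∑ i, v (integralBasis k i))
      (fun u _ => Finset.sum_nonneg fun i _ => apply_nonneg u _) (Finset.mem_univ v)
  have h4 : algebraMap k v.Completion (w : k) - x v =
      (algebraMap k v.Completion y - x v) - algebraMap k v.Completion (y - (w : k)) := by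
    rw [map_sub]
    ring
  rw [h4]
  refine (norm_sub_le _ _).trans ?_
  have h5 := hy' v
  linarith

end NF83
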