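import Pool.Agent.H.MP_83e36b_nt.hm.KUa

/-! Symmetric matrices with integral entries and a minor which is a unit, at a nondyadic place.

PROOF. `NDat.diag_minor`: the minor gives `u_0, …, u_(n-1)` by `NDat.diag`, the last entry is
`det A / det (minor)` up to squares (`cls_schur`, see `res_minor` in sp/UUni.lean).
-/

set_option autoImplicit false

open SpinWA Matrix DC83

namespace NF83

variable {K : Type*} [NormedField K] [CompleteSpace K] {O : Subring K} {κ : Type*} [Field κ]
  [Finite κ] {rd : O →+* κ} {π : K}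

theorem NDat.diag_minor (h : NDat O rd π) {n : ℕ} {A : Matrix (Fin (n + 1)) (Fin (n + 1)) O}
    (hA : Aᵀ = A) (hd : A.det ≠ 0)
    (hd1 : ‖(((A.submatrix (Fin.castSucc : Fin n → Fin (n + 1)) Fin.castSucc).det : O) : K)‖ = 1) :
    ∃ (u : Fin n → K) (s : K), (∀ i, ‖u i‖ = 1) ∧ s ≠ 0 ∧
      cls (A.map O.subtype) = ∑ i, cl (u i) + cl (((A.det : O) : K) *
        (((A.submatrix (Fin.castSucc : Fin n → Fin (n + 1)) Fin.castSucc).det : O) : K)) ∧
      ∏ i, u i =
        (((A.submatrix (Fin.castSucc : Fin n → Fin (n + 1)) Fin.castSucc).det : O) : K) * s ^ 2 := by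
  obtain ⟨B, hB⟩ : ∃ B : Matrix (Fin n) (Fin n) O,
      B = A.submatrix (Fin.castSucc : Fin n → Fin (n + 1)) Fin.castSucc := ⟨_, rfl⟩
  rw [← hB] at hd1 ⊢
  have hBt : Bᵀ = B := by
    rw [hB, Matrix.transpose_submatrix, hA]
  obtain ⟨u, s, hu, hs, hc, hp⟩ := h.diag hBt hd1
  have hmd : ∀ {m : ℕ} (M : Matrix (Fin m) (Fin m) O), (M.map O.subtype).det = ((M.det : O) : K) := by
    intro m M
    exact (RingHom.map_det O.subtype M).symm
  have hsub : (A.map O.subtype).submatrix (Fin.castSucc : Fin n → Fin (n + 1)) Fin.castSucc =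
      B.map O.subtype := by
    rw [hB]
    rfl
  have h1 : ((A.map O.subtype).submatrix (Fin.castSucc : Fin n → Fin (n + 1)) Fin.castSucc).det ≠ 0 := by
    rw [hsub, hmd]
    intro h0
    rw [h0, norm_zero] at hd1
    exact zero_ne_one hd1
  have h2 : (A.map O.subtype).det ≠ 0 := by
    rw [hmd]
    intro h0
    exact hd (Subtype.ext h0)
  have h3 : (A.map O.subtype)ᵀ = A.map O.subtype := by
    rw [← Matrix.transpose_map, hA]
  have h4 := cls_schur h.two_ne h3 h2 h1
  rw [hsub, hmd, hmd, hc] at h4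
  exact ⟨u, s, hu, hs, h4, hp⟩

end NF83
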