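import Pool.Agent.H.MP_83e36b_nt.hm.KN
import Pool.Agent.H.MP_83e36b_nt.sp.UUni
import Pool.Agent.H.MP_83e36b_nt.sp.KDef

/-! Symmetric matrices with integral entries at a nondyadic place.

PROOF. `NDat.diag`: as `exists_diag_int` in sp/UDiag.lean (for `ℤ_[p]`; look at that proof and at sp/UUni.lean), now for
matrices over `O` (or over `K` with entries of norm at most 1): induction on `n`. The reduction of `A` is
an invertible symmetric matrix over `κ`, `2 ≠ 0`: there is `x` with entries in `O` with `xᵀ A x` a unit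
(some `A i i` is a unit, `x = e_i`; or all `A i i` are nonunits and some `A i j` is a unit, `x = e_i + e_j`);
a basis of `O^n` containing `x`, orthogonal complement. The determinants: `∏ u = det A (det P)²`.
-/

set_option autoImplicit false

open SpinWA Matrix DC83

namespace NF83

variable {K : Type*} [NormedField K] [CompleteSpace K] {O : Subring K} {κ : Type*} [Field κ]
  [Finite κ] {rd : O →+* κ} {π : K}

omit [CompleteSpace K] [Finite κ] in
private theorem KUa_isUnit (h : NDat O rd π) (x : O) : IsUnit x ↔ ‖(x : K)‖ = 1 := by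
  constructor
  · intro hx
    obtain ⟨y, hy⟩ := isUnit_iff_exists_inv.1 hx
    have h1 : (x : K) * (y : K) = 1 := by
      have := congrArg (fun z : O => (z : K)) hy
      simpa using this
    have h2 : ‖(x : K)‖ * ‖(y : K)‖ = 1 := by rw [← norm_mul, h1, norm_one]
    have h3 : ‖(x : K)‖ ≤ 1 := (h.mem _).1 x.2
    have h4 : ‖(y : K)‖ ≤ 1 := (h.mem _).1 y.2
    nlinarith [norm_nonneg (x : K), norm_nonneg (y : K)]
  · intro hx
    have h0 : (x : K) ≠ 0 := by
      intro h0
      rw [h0, norm_zero] at hx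
      exact zero_ne_one hx
    have hm : (x : K)⁻¹ ∈ O := by
      rw [h.mem, norm_inv, hx, inv_one]
    refine isUnit_iff_exists_inv.2 ⟨⟨(x : K)⁻¹, hm⟩, ?_⟩
    apply Subtype.ext
    exact mul_inv_cancel₀ h0

omit [CompleteSpace K] [Finite κ] in
private theorem KUa_local (h : NDat O rd π) : IsLocalRing O := by
  refine IsLocalRing.of_nonunits_add ?_
  intro a b ha hb hab
  rw [KUa_isUnit h] at hab
  have ha1 : ‖(a : K)‖ < 1 := lt_of_le_of_ne ((h.mem _).1 a.2)
    (fun h1 => ha ((KUa_isUnit h a).2 h1))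
  have hb1 : ‖(b : K)‖ < 1 := lt_of_le_of_ne ((h.mem _).1 b.2)
    (fun h1 => hb ((KUa_isUnit h b).2 h1))
  have h1 := h.ultra (a : K) (b : K)
  have h2 : max ‖(a : K)‖ ‖(b : K)‖ < 1 := max_lt ha1 hb1
  have h3 : ‖((a + b : O) : K)‖ = ‖(a : K) + (b : K)‖ := rfl
  rw [h3] at hab
  linarith

theorem NDat.diag (h : NDat O rd π) {n : ℕ} {A : Matrix (Fin n) (Fin n) O} (hA : Aᵀ = A)
    (hd : ‖((A.det : O) : K)‖ = 1) :
    ∃ (u : Fin n → K) (s : K), (∀ i, ‖u i‖ = 1) ∧ s ≠ 0 ∧
      cls (A.map O.subtype) = ∑ i, cl (u i) ∧ ∏ i, u i = (A.det : O) * s ^ 2 := by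
  have : IsLocalRing O := KUa_local h
  have h2 : IsUnit (2 : O) := by
    rw [KUa_isUnit h]
    exact h.norm_two
  obtain ⟨P, u, hP, hu, hPA⟩ := udiag_fin h2 n A hA ((KUa_isUnit h _).2 hd)
  have hun : ∀ i, ‖((u i : O) : K)‖ = 1 := fun i => (KUa_isUnit h _).1 (hu i)
  have hne : ∀ i, ((u i : O) : K) ≠ 0 := by
    intro i h0
    have h1 := hun i
    rw [h0, norm_zero] at h1
    exact zero_ne_one h1
  have hPn : ‖((P.det : O) : K)‖ = 1 := (KUa_isUnit h _).1 hP
  have hP0 : ((P.det : O) : K) ≠ 0 := by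
    intro h0
    rw [h0, norm_zero] at hPn
    exact zero_ne_one hPn
  have hPd : (P.map O.subtype).det = ((P.det : O) : K) := (RingHom.map_det O.subtype P).symm
  have hc : Cong (A.map O.subtype) (diagonal fun i => ((u i : O) : K)) := by
    refine ⟨P.map O.subtype, by rw [hPd]; exact hP0, ?_⟩
    have h1 := congrArg (fun M : Matrix (Fin n) (Fin n) O => M.map O.subtype) hPA
    simp only [Matrix.map_mul, Matrix.diagonal_map (map_zero O.subtype)] at h1
    rw [← Matrix.transpose_map, h1]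
    rfl
  refine ⟨fun i => ((u i : O) : K), ((P.det : O) : K), hun, hP0,
    cls_eq_sum h.two_ne hne hc, ?_⟩
  have h1 := congrArg (fun M : Matrix (Fin n) (Fin n) O => ((M.det : O) : K)) hPA
  simp only [det_mul, det_transpose, det_diagonal, Subring.coe_mul] at h1
  have h3 : ((∏ i, u i : O) : K) = ∏ i, ((u i : O) : K) := map_prod O.subtype _ _
  rw [← h3, ← h1]
  ring

end NF83
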