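import Pool.Agent.H.MP_83e36b_nt.sp.WDef

/-!
# MP_83e36b_nt, hm/MDef: the local-global statements
-/

set_option autoImplicit false

open NumberField IsDedekindDomain SpinWA

namespace NF83

/-- the diagonal form `∑ d i x_i²` is isotropic -/
def Isot {K : Type*} [Field K] {n : ℕ} (d : Fin n → K) : Prop :=
  ∃ x : Fin n → K, x ≠ 0 ∧ ∑ i, d i * x i ^ 2 = 0

/-- `P` holds for all the completions of the number field `k` -/
def AllPl (k : Type) [Field k] [NumberField k]
    (P : ∀ (K : Type) [Field K], (k →+* K) → Prop) : Prop :=
  (∀ v : InfinitePlace k, P v.Completion (algebraMap k v.Completion)) ∧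
    ∀ v : HeightOneSpectrum (𝓞 k), P (v.adicCompletion k) (algebraMap k (v.adicCompletion k))

/-- the Hasse norm theorem for quadratic extensions of number fields -/
def HNorm : Prop :=
  ∀ (k : Type) [Field k] [NumberField k] (a b : k), a ≠ 0 → b ≠ 0 →
    AllPl k (fun K _ φ => ∃ x y : K, φ b = x ^ 2 - φ a * y ^ 2) → ∃ x y : k, b = x ^ 2 - a * y ^ 2

/-- an element of a number field which is a square in all the completions is a square -/
def SqLoc : Prop :=
  ∀ (k : Type) [Field k] [NumberField k] (a : k), AllPl k (fun _ _ φ => IsSquare (φ a)) → IsSquare a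

/-- the theorem of Hasse and Minkowski for the Witt group of a number field -/
def HMink (k : Type) [Field k] [NumberField k] : Prop :=
  ∀ x : WG k, AllPl k (fun _ _ φ => WG.map φ x = 0) → x = 0

end NF83
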