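import Pool.Agent.H.MP_83e36b_nt.hm.MDef

/-!
# MP_83e36b_nt, hm/MExtB: the valuation of an extension

`v = w.under (𝓞 k)` and Mathlib's `HeightOneSpectrum.valuation_liesOver`:
`v(x) ^ e = w(x)` with the ramification index `e ≥ 1`.
-/

set_option autoImplicit false

open NumberField IsDedekindDomain

namespace NF83

theorem ext_val {k E : Type} [Field k] [NumberField k] [Field E] [NumberField E] [Algebra k E]
    (w : HeightOneSpectrum (𝓞 E)) : ∃ v : HeightOneSpectrum (𝓞 k), ∀ (n : ℕ) (x : k),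
      v.valuation k x ≤ WithZero.exp (-(n : ℤ)) →
      w.valuation E (algebraMap k E x) ≤ WithZero.exp (-(n : ℤ)) := by
  haveI : w.asIdeal.LiesOver (w.under (𝓞 k)).asIdeal := ⟨rfl⟩
  refine ⟨w.under (𝓞 k), fun n x hx => ?_⟩
  rw [← HeightOneSpectrum.valuation_liesOver E (w.under (𝓞 k)) w x]
  have he : (w.under (𝓞 k)).asIdeal.ramificationIdx' w.asIdeal ≠ 0 :=
    Ideal.IsDedekindDomain.ramificationIdx'_ne_zero_of_liesOver w.asIdeal (w.under (𝓞 k)).ne_bot
  have h1 : (WithZero.exp (-(n : ℤ)) : WithZero (Multiplicative ℤ)) ≤ 1 := by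
    rw [← WithZero.exp_zero]
    exact WithZero.exp_le_exp.2 (by omega)
  exact (pow_le_of_le_one zero_le' (hx.trans h1) he).trans hx

end NF83
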