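import Pool.Agent.H.MP_83e36b_nt.hm.MDef

/-!
# MP_83e36b_nt, hm/MExtC: completions of an extension at a finite place

`v.adicCompletion k` is the completion of `WithVal (v.valuation k)` (UniformSpace.Completion). The homomorphism
`f = k → E → w.adicCompletion E` is continuous for the `v`-adic topology by `h` (it is additive, so continuity at `0` is enough: the sets
`{x | Valued.v x < γ}` are a basis at `0`, `Valued.mem_nhds_zero`; `Valued.v (algebraMap E _ y) = w.valuation E y` is `valuedAdicCompletion_eq_valuation'`), so it extends to the completion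
(`UniformSpace.Completion.extensionHom f hf`, target complete and separated, or `UniformSpace.Completion.mapRingHom` of
`WithVal (v.valuation k) →+* WithVal (w.valuation E)`): `ψ.comp (algebraMap k _) = (algebraMap E _).comp (algebraMap k E)`.
-/

set_option autoImplicit false

open NumberField IsDedekindDomain

namespace NF83

private theorem MExtC_exp {g : WithZero (Multiplicative ℤ)} (hg : g ≠ 0) :
    ∃ n : ℕ, WithZero.exp (-(n : ℤ)) < g := by
  refine ⟨(-(WithZero.log g) + 1).toNat, ?_⟩
  rw [← WithZero.exp_log hg, WithZero.exp_lt_exp]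
  have h1 := Int.self_le_toNat (-(WithZero.log (WithZero.exp (WithZero.log g))) + 1)
  rw [WithZero.log_exp] at h1 ⊢
  omega

theorem ext_compl {k E : Type} [Field k] [NumberField k] [Field E] [NumberField E] [Algebra k E]
    (v : HeightOneSpectrum (𝓞 k)) (w : HeightOneSpectrum (𝓞 E))
    (h : ∀ (n : ℕ) (x : k), v.valuation k x ≤ WithZero.exp (-(n : ℤ)) →
      w.valuation E (algebraMap k E x) ≤ WithZero.exp (-(n : ℤ))) :
    ∃ ψ : v.adicCompletion k →+* w.adicCompletion E,
      ψ.comp (algebraMap k (v.adicCompletion k)) =
        (algebraMap E (w.adicCompletion E)).comp (algebraMap k E) := by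
  have hf : Continuous (WithVal.map (v.valuation k) (w.valuation E) (algebraMap k E)) := by
    refine continuous_of_continuousAt_zero _ ?_
    rw [ContinuousAt, map_zero]
    intro s hs
    obtain ⟨γ, hγ⟩ := Valued.mem_nhds_zero.1 hs
    obtain ⟨n, hn⟩ := MExtC_exp (g := MonoidWithZeroHom.ValueGroup₀.embedding γ.1) (by
      rw [ne_eq, map_eq_zero]
      exact γ.ne_zero)
    obtain ⟨π, hπ⟩ := v.valuation_surjective k (WithZero.exp (-(n : ℤ)))
    rw [Filter.mem_map, Valued.mem_nhds_zero]
    refine ⟨Units.mk0 (Valued.v.restrict (WithVal.toVal (v.valuation k) π)) ?_, fun x hx => hγ ?_⟩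
    · rw [ne_eq, Valuation.restrict_eq_zero_iff, WithVal.valued_toVal, hπ]
      exact WithZero.exp_ne_zero
    · change Valued.v.restrict x < Valued.v.restrict (WithVal.toVal (v.valuation k) π) at hx
      rw [Valuation.restrict_lt_iff] at hx
      have hx1 : v.valuation k x.ofVal < v.valuation k π := hx
      rw [hπ] at hx1
      change Valued.v.restrict (WithVal.map (v.valuation k) (w.valuation E) (algebraMap k E) x) < γ.1
      rw [Valuation.restrict_lt_iff_lt_embedding]
      refine lt_of_le_of_lt ?_ hn
      exact h n x.ofVal hx1.le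
  refine ⟨(HeightOneSpectrum.adicCompletion.equiv E w).symm.toRingHom.comp
    ((UniformSpace.Completion.mapRingHom _ hf).comp
      (HeightOneSpectrum.adicCompletion.equiv k v).toRingHom), ?_⟩
  refine RingHom.ext fun x => ?_
  refine HeightOneSpectrum.adicCompletion.ext E w ?_
  exact UniformSpace.Completion.mapRingHom_coe hf (WithVal.toVal (v.valuation k) x)

end NF83
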