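import Pool.Agent.H.MP_83e36b_nt.hm.MExtA
import Pool.Agent.H.MP_83e36b_nt.hm.MExtB
import Pool.Agent.H.MP_83e36b_nt.hm.MExtC

/-!
# MP_83e36b_nt, hm/MExt: completions of an extension
-/

set_option autoImplicit false

open NumberField IsDedekindDomain

namespace NF83

theorem ext_fin {k E : Type} [Field k] [NumberField k] [Field E] [NumberField E] [Algebra k E]
    (w : HeightOneSpectrum (𝓞 E)) : ∃ (v : HeightOneSpectrum (𝓞 k))
      (ψ : v.adicCompletion k →+* w.adicCompletion E),
      ψ.comp (algebraMap k (v.adicCompletion k)) =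
        (algebraMap E (w.adicCompletion E)).comp (algebraMap k E) := by
  obtain ⟨v, hv⟩ := ext_val (k := k) w
  exact ⟨v, ext_compl v w hv⟩

/-- a property of the completions of `k` which passes to larger fields -/
theorem AllPl.ext {k E : Type} [Field k] [NumberField k] [Field E] [NumberField E] [Algebra k E]
    {P : ∀ (K : Type) [Field K], (k →+* K) → Prop}
    (hP : ∀ (K L : Type) [Field K] [Field L] (φ : k →+* K) (ψ : K →+* L), P K φ → P L (ψ.comp φ))
    (h : AllPl k P) : AllPl E fun K _ φ => P K (φ.comp (algebraMap k E)) := by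
  refine ⟨fun w => ?_, fun w => ?_⟩
  · obtain ⟨v, ψ, hψ⟩ := ext_inf (k := k) w
    rw [← hψ]
    exact hP _ _ _ _ (h.1 v)
  · obtain ⟨v, ψ, hψ⟩ := ext_fin (k := k) w
    rw [← hψ]
    exact hP _ _ _ _ (h.2 v)

end NF83
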