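import Pool.Agent.H.MP_83e36b_nt.hm.MDef

/-!
# MP_83e36b_nt, hm/MExtA: completions of an extension at an infinite place

For an infinite place `w` of `E` let `v = w.comap (algebraMap k E)`; Mathlib.NumberTheory.NumberField.Completion.LiesOverInstances:
`NumberField.LiesOver.completionMap : v.Completion →+* w.Completion` for `w.LiesOver v`, compatible with `algebraMap k E`
(scoped instance `IsScalarTower K v.Completion w.Completion`, and `IsScalarTower K L w.Completion`; or `completionMap_coe`).
-/

set_option autoImplicit false

open NumberField IsDedekindDomain

namespace NF83

theorem ext_inf {k E : Type} [Field k] [NumberField k] [Field E] [NumberField E] [Algebra k E]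
    (w : InfinitePlace E) : ∃ (v : InfinitePlace k) (ψ : v.Completion →+* w.Completion),
      ψ.comp (algebraMap k v.Completion) = (algebraMap E w.Completion).comp (algebraMap k E) := by
  have h : (w.comap (algebraMap k E)).1 = w.1.comp (algebraMap k E).injective := rfl
  haveI : w.LiesOver (w.comap (algebraMap k E)) := ⟨h.symm⟩
  refine ⟨w.comap (algebraMap k E), NumberField.LiesOver.completionMap, ?_⟩
  open NumberField.LiesOver in
  refine RingHom.ext fun x => ?_
  refine (IsScalarTower.algebraMap_apply k (w.comap (algebraMap k E)).Completion w.Completion x).symm.trans ?_
  apply InfinitePlace.Completion.ext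
  rw [InfinitePlace.Completion.algebraMap_toCompletion, UniformSpace.Completion.algebraMap_def]
  change _ = (algebraMap E w.Completion (algebraMap k E x)).toCompletion
  rw [InfinitePlace.Completion.algebraMap_toCompletion, UniformSpace.Completion.algebraMap_def]
  rfl

end NF83
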