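import Pool.Agent.H.MP_83e36b_nt.hm.MDef
import Pool.Agent.H.MP_83e36b_nt.sp.WChain

/-!
# MP_83e36b_nt, hm/MWitB: anisotropic forms in the classes of the Witt group

`exists_aniso`: by `WG.induction` every `x` is `∑ cl (d i)` for some `n`, `d` with `d i ≠ 0` (`- cl a = cl (-a)` by `cl_neg`; sums by
`Fin.append`); take `n` minimal (`Nat.find`). If `d` is isotropic, `∑ d i x_i² = 0`, `x_j ≠ 0`, then `n ≥ 2` and for the other
`n - 1` entries `d' = d ∘ j.succAbove` the value at `x ∘ j.succAbove` is `- d j x_j² ≠ 0`; by `wchain_value` (sp/WChain.lean)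
`∑ cl d' = cl (- d j x_j²) + ∑ cl r`, `r` of length `n - 2`, and `cl (- d j x_j²) = cl (- d j)` (`cl_mul_sq`),
`cl (d j) + cl (- d j) = 0`: `∑ cl d = ∑ cl r` (`Fin.sum_univ_succAbove`), against the minimality of `n`.
-/

set_option autoImplicit false

open SpinWA

namespace NF83

variable {K : Type*} [Field K]

private theorem MWitB_all (h2 : (2 : K) ≠ 0) (x : WG K) :
    ∃ (n : ℕ) (d : Fin n → K), (∀ i, d i ≠ 0) ∧ x = ∑ i, cl (d i) := by
  refine WG.induction (p := fun x => ∃ (n : ℕ) (d : Fin n → K), (∀ i, d i ≠ 0) ∧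
    x = ∑ i, cl (d i)) x ?_ ?_ ?_ ?_
  · exact ⟨0, fun i => i.elim0, fun i => i.elim0, by
      rw [Finset.univ_eq_empty, Finset.sum_empty]⟩
  · intro a ha
    refine ⟨1, fun _ => a, fun _ => ha, ?_⟩
    rw [Fin.sum_univ_one]
  · rintro x ⟨n, d, hd, rfl⟩
    refine ⟨n, fun i => -d i, fun i => neg_ne_zero.2 (hd i), ?_⟩
    rw [← Finset.sum_neg_distrib]
    refine Finset.sum_congr rfl fun i _ => ?_
    exact (eq_neg_of_add_eq_zero_right (cl_neg h2 (d i))).symm
  · rintro x y ⟨n, d, hd, rfl⟩ ⟨m, e, he, rfl⟩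
    refine ⟨n + m, Fin.append d e, ?_, ?_⟩
    · intro i
      refine Fin.addCases (fun j => ?_) (fun j => ?_) i
      · rw [Fin.append_left]
        exact hd j
      · rw [Fin.append_right]
        exact he j
    · rw [Fin.sum_univ_add]
      simp only [Fin.append_left, Fin.append_right]

theorem exists_aniso (h2 : (2 : K) ≠ 0) (x : WG K) :
    ∃ (n : ℕ) (d : Fin n → K), (∀ i, d i ≠ 0) ∧ ¬ Isot d ∧ x = ∑ i, cl (d i) := by
  classical
  have hex := MWitB_all h2 x
  have hmin : ∀ m < Nat.find hex, ∀ e : Fin m → K, (∀ i, e i ≠ 0) → x ≠ ∑ i, cl (e i) :=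
    fun m hm e he h => Nat.find_min hex hm ⟨e, he, h⟩
  obtain ⟨d, hd, hx⟩ := Nat.find_spec hex
  generalize Nat.find hex = n at hmin d
  refine ⟨n, d, hd, ?_, hx⟩
  rintro ⟨y, hy, hsum⟩
  obtain ⟨j, hj⟩ : ∃ j, y j ≠ 0 := by
    by_contra h
    refine hy (funext fun i => ?_)
    by_contra h1
    exact h ⟨i, h1⟩
  rcases n with _ | m
  · exact j.elim0
  rw [Fin.sum_univ_succAbove _ j] at hsum
  have hval : ∑ i : Fin m, d (j.succAbove i) * y (j.succAbove i) ^ 2 = -d j * y j ^ 2 := by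
    linear_combination hsum
  have hne : -d j * y j ^ 2 ≠ 0 := mul_ne_zero (neg_ne_zero.2 (hd j)) (pow_ne_zero _ hj)
  rcases m with _ | k
  · rw [Finset.univ_eq_empty, Finset.sum_empty] at hval
    exact hne hval.symm
  obtain ⟨r, hr, -, hcl⟩ := wchain_value k (fun i => d (j.succAbove i))
    (fun i => y (j.succAbove i)) (fun i => hd _) (by rw [hval]; exact hne)
  refine hmin k (by omega) r hr ?_
  rw [hx, Fin.sum_univ_succAbove _ j, hcl, hval, cl_mul_sq _ hj, ← add_assoc, cl_neg h2, zero_add]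

end NF83
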