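import Pool.Agent.H.MP_83e36b_nt.hm.MFive
import Pool.Agent.H.MP_83e36b_nt.hm.MWit

/-!
# MP_83e36b_nt, hm/MFin: the theorem of Hasse and Minkowski from the Hasse norm theorem
-/

set_option autoImplicit false

open NumberField IsDedekindDomain SpinWA

namespace NF83

theorem hMink (hN : HNorm) (hS : SqLoc) (k : Type) [Field k] [NumberField k] : HMink k := by
  intro x hx
  obtain ⟨n, d, hd, hani, rfl⟩ := exists_aniso (two_ne_zero (α := k)) x
  rcases n with _ | n
  · rw [Finset.univ_eq_empty, Finset.sum_empty]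
  exfalso
  apply hani
  have key : ∀ (K : Type) [Field K] (φ : k →+* K), WG.map φ (∑ i, cl (d i)) = 0 →
      Isot fun i => φ (d i) := by
    intro K _ φ h
    have hK : (2 : K) ≠ 0 := by
      have h1 : φ 2 ≠ 0 := (map_ne_zero φ).2 two_ne_zero
      rwa [map_ofNat] at h1
    refine isot_of_zero hK (fun i => (map_ne_zero φ).2 (hd i)) ?_
    rw [map_sum] at h
    rw [← h]
    exact Finset.sum_congr rfl fun i _ => (WG.map_cl φ (d i)).symm
  have hloc : LocI d := ⟨fun v => key _ _ (hx.1 v), fun v => key _ _ (hx.2 v)⟩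
  rcases n with _ | _ | _ | n
  · exfalso
    obtain ⟨y, hy, h0⟩ := hloc.1 (Classical.arbitrary (InfinitePlace k))
    apply hy
    funext i
    have hi : i = 0 := Fin.ext (by omega)
    rw [hi]
    simp only [Fin.sum_univ_succ, Fin.sum_univ_zero, add_zero] at h0
    have h1 := (mul_eq_zero.1 h0).resolve_left ((map_ne_zero _).2 (hd 0))
    exact (pow_eq_zero_iff two_ne_zero).1 h1
  · exact hm_two hS hd hloc
  · exact hm_three hN hd hloc
  · exact hm_five hN n d hd hloc

end NF83
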