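import Pool.Agent.H.MP_83e36b_nt.hm.MDef
import Pool.Agent.H.MP_83e36b_nt.nf.U5a

/-!
# MP_83e36b_nt, hm/MLocB: forms with unit coefficients

`isot_unit`: the residue field `κ = 𝓞 k / v` is finite. Only the first three variables are used. (1) There are `y` in `𝓞 k`, not all in `v`, with
`∑ R_i y_i² ∈ v`, where `R_i` in `𝓞 k` represents the class of `r i` (`v(r i - R_i) < 1`: `exists_valuation_sub_lt_of_integer` as in
nf/U5c.lean): Chevalley-Warning or `exists_root3` of nf/U5a.lean (`r01 = r02 = r12 = 0`). (2) Say `y_j` is not in `v`; then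
`z = - (∑_{i ≠ j} r_i y_i²) / (r_j y_j²)` has `v(z - 1) < 1`, so it is a square in the completion: for `‖z - 1‖ < 1`, `‖2‖ = 1` write
`z = 1 + 4 u`, `‖u‖ < 1`, `u = w² + w` by `exists_w` of nf/U5a.lean, `z = (1 + 2 w)²`. So the vector with the coordinates `y_i`, `i ≠ j`, and
`(1 + 2 w) y_j` is isotropic; its `j`-th coordinate is not zero (`1 + 2 w ≠ 0` as `z ≠ 0`). The norm of the completion and its comparison with the valuation: see the beginning of
nf/U5c.lean (`U5c_norm`, `U5c_lt`, `U5c_val`: private, copy them).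
-/

set_option autoImplicit false

open NumberField IsDedekindDomain

namespace NF83

private theorem MLocB_upd {K : Type*} [Field K] (s Y : Fin 3 → K) (j : Fin 3) (t : K) :
    ∑ i, s i * (Function.update Y j (t * Y j) i) ^ 2 =
      ∑ i, s i * Y i ^ 2 + s j * (t ^ 2 - 1) * Y j ^ 2 := by
  rw [← sub_eq_iff_eq_add', ← Finset.sum_sub_distrib, Finset.sum_eq_single j]
  · rw [Function.update_self]
    ring
  · intro i _ hi
    rw [Function.update_of_ne hi, sub_self]
  · intro h
    exact absurd (Finset.mem_univ j) h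

private theorem MLocB_main {K : Type*} [NormedField K] [CompleteSpace K]
    (hu : ∀ x y : K, ‖x + y‖ ≤ max ‖x‖ ‖y‖) (h2 : ‖(2 : K)‖ = 1) (s Y : Fin 3 → K) (j : Fin 3)
    (hs : ‖s j‖ = 1) (hY : ‖Y j‖ = 1) (hS : ‖∑ i, s i * Y i ^ 2‖ < 1) :
    ∃ X : Fin 3 → K, X ≠ 0 ∧ ∑ i, s i * X i ^ 2 = 0 := by
  obtain ⟨S, hSd⟩ : ∃ S, S = ∑ i, s i * Y i ^ 2 := ⟨_, rfl⟩
  rw [← hSd] at hS
  obtain ⟨D, hD⟩ : ∃ D, D = s j * Y j ^ 2 := ⟨_, rfl⟩
  have hDn : ‖D‖ = 1 := by
    rw [hD, norm_mul, norm_pow, hs, hY, one_pow, one_mul]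
  have hD0 : D ≠ 0 := by
    intro h
    rw [h, norm_zero] at hDn
    exact zero_ne_one hDn
  have h20 : (2 : K) ≠ 0 := by
    intro h
    rw [h, norm_zero] at h2
    exact zero_ne_one h2
  have h40 : (4 : K) ≠ 0 := by
    have h : (4 : K) = 2 * 2 := by norm_num
    rw [h]
    exact mul_ne_zero h20 h20
  have h4 : ‖(4 : K)‖ = 1 := by
    have h : (4 : K) = 2 * 2 := by norm_num
    rw [h, norm_mul, h2, one_mul]
  obtain ⟨w, hw⟩ := exists_w hu (z := -(S / (4 * D))) (by
    rw [norm_neg, norm_div, norm_mul, h4, hDn, one_mul, div_one]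
    exact hS)
  have hw' : 4 * D * (w ^ 2 + w) = -S := by
    rw [hw]
    field_simp
  refine ⟨Function.update Y j ((1 + 2 * w) * Y j), ?_, ?_⟩
  · intro h
    have h1 := congrFun h j
    rw [Function.update_self, Pi.zero_apply] at h1
    have hYj : Y j ≠ 0 := by
      intro h'
      rw [h', norm_zero] at hY
      exact zero_ne_one hY
    have h3 : 1 + 2 * w = 0 := (mul_eq_zero.1 h1).resolve_right hYj
    have h5 : S = D := by linear_combination hw' - D * (1 + 2 * w) * h3
    rw [h5, hDn] at hS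
    exact lt_irrefl _ hS
  · rw [MLocB_upd, ← hSd]
    linear_combination hw' + ((1 + 2 * w) ^ 2 - 1) * (-hD)

private theorem MLocB_ext {K : Type*} [Field K] {n : ℕ} (d : Fin (n + 3) → K)
    (h : ∃ X : Fin 3 → K, X ≠ 0 ∧
      ∑ i, (![d 0, d (Fin.succ 0), d (Fin.succ (Fin.succ 0))] i) * X i ^ 2 = 0) : Isot d := by
  obtain ⟨X, hX, hs⟩ := h
  rw [Fin.sum_univ_three] at hs
  refine ⟨Fin.cons (X 0) (Fin.cons (X 1) (Fin.cons (X 2) 0)), ?_, ?_⟩
  · intro h0
    apply hX
    have e0 : X 0 = 0 := congrFun h0 0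
    have e1 : X 1 = 0 := congrFun h0 (Fin.succ 0)
    have e2 : X 2 = 0 := congrFun h0 (Fin.succ (Fin.succ 0))
    funext i
    fin_cases i
    · exact e0
    · exact e1
    · exact e2
  · rw [Fin.sum_univ_succ, Fin.sum_univ_succ, Fin.sum_univ_succ]
    simp only [Fin.cons_zero, Fin.cons_succ]
    have h0 : ∑ i : Fin n, d i.succ.succ.succ * (0 : Fin n → K) i ^ 2 = 0 := by
      refine Finset.sum_eq_zero fun i _ => ?_
      rw [Pi.zero_apply]
      ring
    rw [h0, add_zero]
    have hs' : d 0 * X 0 ^ 2 + d (Fin.succ 0) * X 1 ^ 2 +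
        d (Fin.succ (Fin.succ 0)) * X 2 ^ 2 = 0 := hs
    linear_combination hs'

section
variable {k : Type} [Field k] [NumberField k]

private theorem MLocB_norm (v : HeightOneSpectrum (𝓞 k)) (x : v.adicCompletion k) :
    ‖x‖ = WithZeroMulInt.toNNReal (NumberField.HeightOneSpectrum.absNorm_ne_zero v)
      (Valued.v x) :=
  FinitePlace.norm_def (v := v) x

private theorem MLocB_mono (v : HeightOneSpectrum (𝓞 k)) {x y : v.adicCompletion k}
    (h : Valued.v x ≤ Valued.v y) : ‖x‖ ≤ ‖y‖ := by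
  rw [MLocB_norm, MLocB_norm]
  exact_mod_cast (WithZeroMulInt.toNNReal_strictMono
    (NumberField.HeightOneSpectrum.one_lt_absNorm_nnreal v)).monotone h

private theorem MLocB_lt (v : HeightOneSpectrum (𝓞 k)) (x : v.adicCompletion k) :
    ‖x‖ < 1 ↔ Valued.v x < 1 := by
  rw [MLocB_norm, ← WithZeroMulInt.toNNReal_lt_one_iff
    (NumberField.HeightOneSpectrum.one_lt_absNorm_nnreal v)]
  exact_mod_cast Iff.rfl

private theorem MLocB_le (v : HeightOneSpectrum (𝓞 k)) (x : v.adicCompletion k) :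
    ‖x‖ ≤ 1 ↔ Valued.v x ≤ 1 := by
  rw [MLocB_norm, ← WithZeroMulInt.toNNReal_le_one_iff
    (NumberField.HeightOneSpectrum.one_lt_absNorm_nnreal v)]
  exact_mod_cast Iff.rfl

private theorem MLocB_val (v : HeightOneSpectrum (𝓞 k)) (y : k) :
    Valued.v (algebraMap k (v.adicCompletion k) y) = v.valuation k y :=
  v.valuedAdicCompletion_eq_valuation' y

private theorem MLocB_one (v : HeightOneSpectrum (𝓞 k)) {y : k} (h : v.valuation k y = 1) :
    ‖algebraMap k (v.adicCompletion k) y‖ = 1 := by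
  refine le_antisymm ?_ ?_
  · rw [MLocB_le, MLocB_val, h]
  · rw [← not_lt, MLocB_lt, MLocB_val, h]
    exact lt_irrefl _

private theorem MLocB_ultra (v : HeightOneSpectrum (𝓞 k)) (x y : v.adicCompletion k) :
    ‖x + y‖ ≤ max ‖x‖ ‖y‖ := by
  rcases le_total (Valued.v x) (Valued.v y) with h | h
  · refine le_max_of_le_right (MLocB_mono v ?_)
    exact (Valuation.map_add _ x y).trans (max_le h le_rfl)
  · refine le_max_of_le_left (MLocB_mono v ?_)
    exact (Valuation.map_add _ x y).trans (max_le le_rfl h)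

/-- an approximate zero in the ring of integers -/
private theorem MLocB_root (v : HeightOneSpectrum (𝓞 k)) (s : Fin 3 → k)
    (hs : ∀ i, v.valuation k (s i) ≤ 1) :
    ∃ (Y : Fin 3 → 𝓞 k) (j : Fin 3), v.valuation k (algebraMap (𝓞 k) k (Y j)) = 1 ∧
      v.valuation k (∑ i, s i * algebraMap (𝓞 k) k (Y i) ^ 2) < 1 := by
  classical
  let _ : Field (𝓞 k ⧸ v.asIdeal) := Ideal.Quotient.field v.asIdeal
  have hfin : Finite (𝓞 k ⧸ v.asIdeal) := v.asIdeal.finiteQuotientOfFreeOfNeBot v.ne_bot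
  choose R hR using fun i => v.exists_valuation_sub_lt_of_integer (hs i) 1
  obtain ⟨a, ha, hroot⟩ := exists_root3 (Ideal.Quotient.mk v.asIdeal (R 0))
    (Ideal.Quotient.mk v.asIdeal (R 1)) (Ideal.Quotient.mk v.asIdeal (R 2)) 0 0 0
  choose Y hY using fun i => Ideal.Quotient.mk_surjective (a i)
  obtain ⟨j, hj⟩ : ∃ j, a j ≠ 0 := by
    by_contra hcon
    push Not at hcon
    exact ha (funext hcon)
  refine ⟨Y, j, ?_, ?_⟩
  · rw [HeightOneSpectrum.valuation_eq_one_iff_notMem, ← Ideal.Quotient.eq_zero_iff_mem, hY]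
    exact hj
  · have h1 : ∑ i, R i * Y i ^ 2 ∈ v.asIdeal := by
      rw [← Ideal.Quotient.eq_zero_iff_mem, map_sum, Fin.sum_univ_three]
      simp only [map_mul, map_pow, hY]
      linear_combination hroot
    have h2 : v.valuation k (algebraMap (𝓞 k) k (∑ i, R i * Y i ^ 2)) < 1 :=
      (HeightOneSpectrum.valuation_lt_one_iff_mem v _).2 h1
    have h3 : ∑ i, s i * algebraMap (𝓞 k) k (Y i) ^ 2 =
        algebraMap (𝓞 k) k (∑ i, R i * Y i ^ 2) +
          ∑ i, -(algebraMap (𝓞 k) k (R i) - s i) * algebraMap (𝓞 k) k (Y i) ^ 2 := by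
      rw [map_sum, ← Finset.sum_add_distrib]
      refine Finset.sum_congr rfl fun i _ => ?_
      rw [map_mul, map_pow]
      ring
    rw [h3]
    refine Valuation.map_add_lt _ h2 (Valuation.map_sum_lt _ one_ne_zero fun i _ => ?_)
    rw [map_mul, Valuation.map_neg, map_pow]
    have h4 : v.valuation k (algebraMap (𝓞 k) k (Y i)) ≤ 1 :=
      HeightOneSpectrum.valuation_le_one v _
    have h5 : v.valuation k (algebraMap (𝓞 k) k (R i) - s i) < 1 := hR i
    exact (mul_le_mul_right (pow_le_one₀ zero_le h4) _).trans_lt (by rwa [mul_one])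

end

theorem isot_unit {k : Type} [Field k] [NumberField k] (v : HeightOneSpectrum (𝓞 k))
    (h2 : v.valuation k 2 = 1) {n : ℕ} {r : Fin (n + 3) → k}
    (hr : ∀ i, v.valuation k (r i) = 1) :
    Isot fun i => algebraMap k (v.adicCompletion k) (r i) := by
  obtain ⟨s, hs⟩ : ∃ s : Fin 3 → k, s = ![r 0, r (Fin.succ 0), r (Fin.succ (Fin.succ 0))] :=
    ⟨_, rfl⟩
  have hs1 : ∀ i, v.valuation k (s i) = 1 := by
    intro i
    rw [hs]
    fin_cases i
    · exact hr 0
    · exact hr (Fin.succ 0)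
    · exact hr (Fin.succ (Fin.succ 0))
  obtain ⟨Y, j, hYj, hY⟩ := MLocB_root v s fun i => (hs1 i).le
  refine MLocB_ext _ ?_
  have h3 : (![algebraMap k (v.adicCompletion k) (r 0),
      algebraMap k (v.adicCompletion k) (r (Fin.succ 0)),
      algebraMap k (v.adicCompletion k) (r (Fin.succ (Fin.succ 0)))] : Fin 3 → _) =
      fun i => algebraMap k (v.adicCompletion k) (s i) := by
    funext i
    rw [hs]
    fin_cases i <;> rfl
  have h4 := MLocB_main (K := v.adicCompletion k) (MLocB_ultra v) (by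
      have h := MLocB_one v h2
      rwa [map_ofNat] at h)
    (fun i => algebraMap k (v.adicCompletion k) (s i))
    (fun i => algebraMap k (v.adicCompletion k) (algebraMap (𝓞 k) k (Y i))) j
    (MLocB_one v (hs1 j)) (MLocB_one v hYj) (by
      have h5 : ∑ i, algebraMap k (v.adicCompletion k) (s i) *
          algebraMap k (v.adicCompletion k) (algebraMap (𝓞 k) k (Y i)) ^ 2 =
          algebraMap k (v.adicCompletion k) (∑ i, s i * algebraMap (𝓞 k) k (Y i) ^ 2) := by
        rw [map_sum]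
        refine Finset.sum_congr rfl fun i _ => ?_
        rw [map_mul, map_pow]
      show ‖∑ i, algebraMap k (v.adicCompletion k) (s i) *
          algebraMap k (v.adicCompletion k) (algebraMap (𝓞 k) k (Y i)) ^ 2‖ < 1
      rw [h5, MLocB_lt, MLocB_val]
      exact hY)
  rw [h3]
  exact h4

end NF83
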