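import Pool.Agent.H.MP_83e36b_nt.hm.MFour
import Pool.Agent.H.MP_83e36b_nt.hm.MLoc
import Pool.Agent.H.MP_83e36b_nt.wa.All

/-!
# MP_83e36b_nt, hm/MFive: at least five variables

Induction on the number `n + 5` of variables, `d = (a, b, r)`, `r` with `n + 3` entries. Let `T` be the finite set of the finite places at which `2`
or some `r i` is not a unit (`finite_unit`); `Compl T`, `complEmb T`, `fieldWA_numberField T` (PlaceDefs.lean, I1a.lean; `complete_compl`, `exists_one_lt_norm` in wa/All.lean).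
At each `i : InfinitePlace k ⊕ T` the form is isotropic over `Compl T i`; `isot_split` gives `x_i, y_i` with `c_i = a x_i² + b y_i² ≠ 0` and
`Isot (c_i, r)`; `isot_near` and the continuity of `(x, y) ↦ a x² + b y²` give `ε_i`; by weak approximation for the minimum of the `ε_i` (finitely many `i`) there are `x, y` in `k` such
that `c = a x² + b y²` is near all the `c_i`, so `c ≠ 0` (there is an infinite place) and `(c, r)` is isotropic over all `Compl T i`. At the finite places
outside of `T` already `r` is isotropic (`isot_unit`), and so is `(c, r)` (`Isot.cons`). So `(c, r)`, with one variable less, is isotropic over all completions; by induction (`hmN_four`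
for `n = 0`) it is isotropic over `k`, and `isot_join` gives the claim.
-/

set_option autoImplicit false

open NumberField IsDedekindDomain

namespace NF83

private theorem MFive_map2 {K L : Type*} [Field K] [Field L] (φ : K →+* L) {n : ℕ} (a b : K)
    (r : Fin n → K) :
    (fun i => φ ((Fin.cons a (Fin.cons b r : Fin (n + 1) → K) : Fin (n + 2) → K) i)) =
      (Fin.cons (φ a) (Fin.cons (φ b) (fun i => φ (r i)) : Fin (n + 1) → L) :
        Fin (n + 2) → L) := by
  funext i
  refine Fin.cases ?_ (fun j => ?_) i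
  · rfl
  · refine Fin.cases ?_ (fun l => ?_) j
    · rfl
    · rfl

private theorem MFive_map1 {K L : Type*} [Field K] [Field L] (φ : K →+* L) {n : ℕ} (a : K)
    (r : Fin n → K) :
    (fun i => φ ((Fin.cons a r : Fin (n + 1) → K) i)) =
      (Fin.cons (φ a) (fun i => φ (r i)) : Fin (n + 1) → L) := by
  funext i
  refine Fin.cases ?_ (fun j => ?_) i
  · rfl
  · rfl

/-- one place -/
private theorem MFive_one {K : Type*} [NormedField K] [CompleteSpace K] [CharZero K]
    (hnt : ∃ x : K, 1 < ‖x‖) {n : ℕ} {a b : K} {r : Fin (n + 1) → K} (ha : a ≠ 0) (hb : b ≠ 0)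
    (hr : ∀ i, r i ≠ 0)
    (h : Isot (Fin.cons a (Fin.cons b r : Fin (n + 2) → K) : Fin (n + 3) → K)) :
    ∃ (x₀ y₀ : K) (δ : ℝ), 0 < δ ∧ ∀ x y : K, ‖x - x₀‖ < δ → ‖y - y₀‖ < δ →
      a * x ^ 2 + b * y ^ 2 ≠ 0 ∧
        Isot (Fin.cons (a * x ^ 2 + b * y ^ 2) r : Fin (n + 2) → K) := by
  let iN : NontriviallyNormedField K := { (inferInstance : NormedField K) with
    non_trivial := hnt }
  obtain ⟨x₀, y₀, hc, hI⟩ := isot_split two_ne_zero ha hb hr h
  obtain ⟨ε, hε, hnear⟩ := isot_near hc hI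
  have hcont : Continuous fun p : K × K => a * p.1 ^ 2 + b * p.2 ^ 2 := by fun_prop
  obtain ⟨δ, hδ, hδ2⟩ := Metric.continuous_iff.1 hcont (x₀, y₀) ε hε
  refine ⟨x₀, y₀, δ, hδ, fun x y hx hy => hnear _ ?_⟩
  have h1 : dist (x, y) (x₀, y₀) < δ := by
    rw [Prod.dist_eq, max_lt_iff, dist_eq_norm, dist_eq_norm]
    exact ⟨hx, hy⟩
  have h2 := hδ2 (x, y) h1
  rwa [dist_eq_norm] at h2

/-- reduction of the number of variables -/
theorem hm_red {k : Type} [Field k] [NumberField k] {n : ℕ} {a b : k} {r : Fin (n + 3) → k}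
    (ha : a ≠ 0) (hb : b ≠ 0) (hr : ∀ i, r i ≠ 0)
    (h : LocI (Fin.cons a (Fin.cons b r : Fin (n + 4) → k) : Fin (n + 5) → k)) :
    ∃ x y : k, a * x ^ 2 + b * y ^ 2 ≠ 0 ∧
      LocI (Fin.cons (a * x ^ 2 + b * y ^ 2) r : Fin (n + 4) → k) := by
  classical
  let T : Finset (HeightOneSpectrum (𝓞 k)) :=
    (finite_unit (two_ne_zero : (2 : k) ≠ 0)).toFinset ∪
      Finset.univ.biUnion fun i => (finite_unit (hr i)).toFinset
  have hT2 : ∀ v : HeightOneSpectrum (𝓞 k), v ∉ T → v.valuation k 2 = 1 := by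
    intro v hv
    by_contra hc
    exact hv (Finset.mem_union_left _
      ((finite_unit (two_ne_zero : (2 : k) ≠ 0)).mem_toFinset.2 hc))
  have hTr : ∀ v : HeightOneSpectrum (𝓞 k), v ∉ T → ∀ i, v.valuation k (r i) = 1 := by
    intro v hv i
    by_contra hc
    exact hv (Finset.mem_union_right _ (Finset.mem_biUnion.2
      ⟨i, Finset.mem_univ i, (finite_unit (hr i)).mem_toFinset.2 hc⟩))
  -- the form over the completions
  have hloc : ∀ i, Isot (Fin.cons (AnWA.complEmb T i a) (Fin.cons (AnWA.complEmb T i b)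
      (fun j => AnWA.complEmb T i (r j)) : Fin (n + 4) → AnWA.Compl T i) :
        Fin (n + 5) → AnWA.Compl T i) := by
    intro i
    rw [← MFive_map2]
    rcases i with v | v
    · exact h.1 v
    · exact h.2 v.1
  have hone : ∀ i, ∃ (x₀ y₀ : AnWA.Compl T i) (δ : ℝ), 0 < δ ∧ ∀ x y : AnWA.Compl T i,
      ‖x - x₀‖ < δ → ‖y - y₀‖ < δ →
      AnWA.complEmb T i a * x ^ 2 + AnWA.complEmb T i b * y ^ 2 ≠ 0 ∧
        Isot (Fin.cons (AnWA.complEmb T i a * x ^ 2 + AnWA.complEmb T i b * y ^ 2)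
          (fun j => AnWA.complEmb T i (r j)) : Fin (n + 4) → AnWA.Compl T i) := by
    intro i
    have hcs : CompleteSpace (AnWA.Compl T i) := WA83.complete_compl T i
    exact MFive_one (WA83.exists_one_lt_norm T i)
      ((map_ne_zero (AnWA.complEmb T i)).2 ha) ((map_ne_zero (AnWA.complEmb T i)).2 hb)
      (fun j => (map_ne_zero (AnWA.complEmb T i)).2 (hr j)) (hloc i)
  choose x₀ y₀ δ hδ hδ2 using hone
  obtain ⟨ε, hε, hε2⟩ : ∃ ε : ℝ, 0 < ε ∧ ∀ i, ε ≤ δ i := by
    have hne : Nonempty (InfinitePlace k ⊕ {v // v ∈ T}) := ⟨Sum.inl (Classical.arbitrary _)⟩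
    obtain ⟨i₀, hi₀⟩ := Finite.exists_min δ
    exact ⟨δ i₀, hδ i₀, hi₀⟩
  obtain ⟨x, hx⟩ := AnWA.fieldWA_numberField T x₀ ε hε
  obtain ⟨y, hy⟩ := AnWA.fieldWA_numberField T y₀ ε hε
  have key : ∀ i, AnWA.complEmb T i (a * x ^ 2 + b * y ^ 2) ≠ 0 ∧
      Isot fun j => AnWA.complEmb T i
        ((Fin.cons (a * x ^ 2 + b * y ^ 2) r : Fin (n + 4) → k) j) := by
    intro i
    rw [MFive_map1]
    have h1 := hδ2 i (AnWA.complEmb T i x) (AnWA.complEmb T i y) ((hx i).trans_le (hε2 i))
      ((hy i).trans_le (hε2 i))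
    have h2 : AnWA.complEmb T i (a * x ^ 2 + b * y ^ 2) = AnWA.complEmb T i a *
        AnWA.complEmb T i x ^ 2 + AnWA.complEmb T i b * AnWA.complEmb T i y ^ 2 := by
      rw [map_add, map_mul, map_mul, map_pow, map_pow]
    rw [h2]
    exact h1
  refine ⟨x, y, ?_, fun v => (key (Sum.inl v)).2, fun v => ?_⟩
  · intro h0
    apply (key (Sum.inl (Classical.arbitrary _))).1
    rw [h0, map_zero]
  · by_cases hv : v ∈ T
    · exact (key (Sum.inr ⟨v, hv⟩)).2
    · have h1 := Isot.cons (algebraMap k (v.adicCompletion k) (a * x ^ 2 + b * y ^ 2))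
        (isot_unit v (hT2 v hv) (hTr v hv))
      rw [← MFive_map1] at h1
      exact h1

theorem hm_five (hN : HNorm) {k : Type} [Field k] [NumberField k] :
    ∀ (n : ℕ) (d : Fin (n + 4) → k), (∀ i, d i ≠ 0) → LocI d → Isot d := by
  intro n
  induction n with
  | zero => exact fun d hd h => hmN_four hN hd h
  | succ n ih =>
    intro d hd h
    have hd1 : d = (Fin.cons (d 0) (Fin.cons (d 1) (fun j => d j.succ.succ) :
        Fin (n + 4) → k) : Fin (n + 5) → k) := by
      funext i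
      refine Fin.cases ?_ (fun j => ?_) i
      · rfl
      · refine Fin.cases ?_ (fun l => ?_) j
        · rfl
        · rfl
    rw [hd1] at h ⊢
    obtain ⟨x, y, hc, hL⟩ := hm_red (hd 0) (hd 1) (fun j => hd _) h
    refine isot_join hc (ih _ ?_ hL)
    intro i
    refine Fin.cases ?_ (fun j => ?_) i
    · exact hc
    · exact hd _

end NF83
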