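import Pool.Agent.H.MP_83e36b_nt.hm.MDef

/-!
# MP_83e36b_nt, hm/MQuadB: quadratic extensions of number fields

`exists_quad`: `E = AdjoinRoot (X² - C a)`, irreducible since `a` is not a square (`X_pow_sub_C_irreducible_of_prime` or
`Polynomial.irreducible_of_degree_le_three_of_not_isRoot`); it is a number field as it is finite over `k`
(`NumberField.of_module_finite` or `FiniteDimensional.trans ℚ k E`); `1, δ` is a basis (`AdjoinRoot.powerBasis`).
-/

set_option autoImplicit false

open NumberField

namespace NF83

theorem exists_quad (k : Type) [Field k] [NumberField k] (a : k) (ha : ¬ IsSquare a) :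
    ∃ (E : Type) (_ : Field E) (_ : NumberField E) (_ : Algebra k E) (δ : E),
      δ ^ 2 = algebraMap k E a ∧
      (∀ z : E, ∃ x y : k, z = algebraMap k E x + algebraMap k E y * δ) ∧
      ∀ x : k, δ ≠ algebraMap k E x := by
  have hirr : Irreducible (Polynomial.X ^ 2 - Polynomial.C a : Polynomial k) := by
    apply X_pow_sub_C_irreducible_of_prime Nat.prime_two
    intro b hb
    exact ha ⟨b, by rw [← hb, sq]⟩
  have hmonic : (Polynomial.X ^ 2 - Polynomial.C a : Polynomial k).Monic :=
    Polynomial.monic_X_pow_sub_C a two_ne_zero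
  have hdeg : (Polynomial.X ^ 2 - Polynomial.C a : Polynomial k).natDegree = 2 :=
    Polynomial.natDegree_X_pow_sub_C
  have : Fact (Irreducible (Polynomial.X ^ 2 - Polynomial.C a : Polynomial k)) := ⟨hirr⟩
  have : Module.Finite k (AdjoinRoot (Polynomial.X ^ 2 - Polynomial.C a : Polynomial k)) :=
    hmonic.finite_adjoinRoot
  have : CharZero (AdjoinRoot (Polynomial.X ^ 2 - Polynomial.C a : Polynomial k)) :=
    charZero_of_injective_algebraMap
      (algebraMap k (AdjoinRoot (Polynomial.X ^ 2 - Polynomial.C a : Polynomial k))).injective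
  have hroot : (AdjoinRoot.root (Polynomial.X ^ 2 - Polynomial.C a : Polynomial k)) ^ 2 =
      algebraMap k (AdjoinRoot (Polynomial.X ^ 2 - Polynomial.C a : Polynomial k)) a := by
    have h := AdjoinRoot.eval₂_root (Polynomial.X ^ 2 - Polynomial.C a : Polynomial k)
    rw [Polynomial.eval₂_sub, Polynomial.eval₂_X_pow, Polynomial.eval₂_C] at h
    rw [AdjoinRoot.algebraMap_eq]
    exact sub_eq_zero.1 h
  refine ⟨AdjoinRoot (Polynomial.X ^ 2 - Polynomial.C a : Polynomial k), inferInstance,
    NumberField.of_module_finite k _, inferInstance,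
    AdjoinRoot.root _, hroot, ?_, ?_⟩
  · intro z
    induction z using AdjoinRoot.induction_on with
    | ih q =>
      refine ⟨(q %ₘ (Polynomial.X ^ 2 - Polynomial.C a)).coeff 0,
        (q %ₘ (Polynomial.X ^ 2 - Polynomial.C a)).coeff 1, ?_⟩
      have h1 : AdjoinRoot.mk (Polynomial.X ^ 2 - Polynomial.C a : Polynomial k) q =
          AdjoinRoot.mk (Polynomial.X ^ 2 - Polynomial.C a : Polynomial k)
            (q %ₘ (Polynomial.X ^ 2 - Polynomial.C a)) := by
        rw [AdjoinRoot.mk_eq_mk]
        refine ⟨q /ₘ (Polynomial.X ^ 2 - Polynomial.C a), ?_⟩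
        have := Polynomial.modByMonic_add_div q (Polynomial.X ^ 2 - Polynomial.C a)
        linear_combination -this
      have h2 : (q %ₘ (Polynomial.X ^ 2 - Polynomial.C a)).natDegree ≤ 1 := by
        have := Polynomial.natDegree_modByMonic_lt q hmonic (by
          intro h
          rw [h] at hdeg
          simp at hdeg)
        omega
      rw [h1, Polynomial.eq_X_add_C_of_natDegree_le_one h2]
      simp only [map_add, map_mul, AdjoinRoot.mk_C, AdjoinRoot.mk_X, AdjoinRoot.algebraMap_eq,
        Polynomial.coeff_add, Polynomial.coeff_C_mul, Polynomial.coeff_X_zero,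
        Polynomial.coeff_C_zero, Polynomial.coeff_X_one, Polynomial.coeff_C_succ]
      simp
      ring
  · intro x hx
    apply ha
    rw [hx, ← map_pow] at hroot
    refine ⟨x, ?_⟩
    rw [← sq]
    exact ((algebraMap k (AdjoinRoot (Polynomial.X ^ 2 - Polynomial.C a : Polynomial k))).injective
      hroot).symm

end NF83
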