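import Pool.Agent.H.MP_83e36b_nt.hm.MIso
import Pool.Agent.H.MP_83e36b_nt.hm.MQuad
import Pool.Agent.H.MP_83e36b_nt.hm.MExt

/-!
# MP_83e36b_nt, hm/MFour: at most four variables

`hmN_four`: if `d 0 d 1 d 2 d 3` is a square then by `isot_four` (over the completions) `![d 0, d 1, d 2]` is isotropic over all
completions, so over `k` by `hm_three`. Otherwise let `E` be the field of `exists_quad`: by `AllPl.ext` and `Isot.map` the form is isotropic over all the
completions of `E`, and `d 0 d 1 d 2 d 3` is a square in `E`; so it is isotropic over `E` by the first case, and over `k` by `isot_quad`.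
-/

set_option autoImplicit false

open NumberField IsDedekindDomain

namespace NF83

/-- isotropic over all the completions -/
def LocI {k : Type} [Field k] [NumberField k] {n : ℕ} (d : Fin n → k) : Prop :=
  AllPl k fun _ _ φ => Isot fun i => φ (d i)

theorem AllPl.mono {k : Type} [Field k] [NumberField k]
    {P Q : ∀ (K : Type) [Field K], (k →+* K) → Prop}
    (hPQ : ∀ (K : Type) [Field K] (φ : k →+* K), P K φ → Q K φ) (h : AllPl k P) : AllPl k Q :=
  ⟨fun v => hPQ _ _ (h.1 v), fun v => hPQ _ _ (h.2 v)⟩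

theorem hm_two (hS : SqLoc) {k : Type} [Field k] [NumberField k] {d : Fin 2 → k}
    (hd : ∀ i, d i ≠ 0) (h : LocI d) : Isot d := by
  rw [isot_two hd]
  refine hS k _ (AllPl.mono (fun K _ φ hI => ?_) h)
  have h1 := (isot_two (d := fun i => φ (d i)) (fun i => (map_ne_zero φ).2 (hd i))).1 hI
  rwa [map_neg, map_mul]

theorem hm_three (hN : HNorm) {k : Type} [Field k] [NumberField k] {d : Fin 3 → k}
    (hd : ∀ i, d i ≠ 0) (h : LocI d) : Isot d := by
  rw [isot_three two_ne_zero hd]
  refine hN k _ _ (neg_ne_zero.2 (mul_ne_zero (hd 0) (hd 1)))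
    (neg_ne_zero.2 (mul_ne_zero (hd 0) (hd 2))) (AllPl.mono (fun K _ φ hI => ?_) h)
  have h2 : (2 : K) ≠ 0 := by
    have h1 : φ 2 ≠ 0 := (map_ne_zero φ).2 two_ne_zero
    rwa [map_ofNat] at h1
  obtain ⟨x, y, h1⟩ := (isot_three h2 (d := fun i => φ (d i))
    (fun i => (map_ne_zero φ).2 (hd i))).1 hI
  refine ⟨x, y, ?_⟩
  rw [map_neg, map_mul, map_neg, map_mul]
  exact h1

theorem hmN_four_sq (hN : HNorm) {k : Type} [Field k] [NumberField k] {d : Fin 4 → k}
    (hd : ∀ i, d i ≠ 0) (hs : IsSquare (d 0 * d 1 * d 2 * d 3)) (h : LocI d) : Isot d := by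
  refine Isot.snoc3 (hm_three hN ?_ (AllPl.mono (fun K _ φ hI => ?_) h))
  · intro i
    fin_cases i
    · exact hd 0
    · exact hd 1
    · exact hd 2
  · have h1 := isot_four (d := fun i => φ (d i)) (fun i => (map_ne_zero φ).2 (hd i)) (by
      have h2 := hs.map φ
      rwa [map_mul, map_mul, map_mul] at h2) hI
    have e : (fun i => φ (![d 0, d 1, d 2] i)) = ![φ (d 0), φ (d 1), φ (d 2)] := by
      funext i
      fin_cases i <;> rfl
    rw [e]
    exact h1

theorem hmN_four (hN : HNorm) {k : Type} [Field k] [NumberField k] {d : Fin 4 → k}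
    (hd : ∀ i, d i ≠ 0) (h : LocI d) : Isot d := by
  by_cases hs : IsSquare (d 0 * d 1 * d 2 * d 3)
  · exact hmN_four_sq hN hd hs h
  · obtain ⟨E, iF, iN, iA, δ, hδ, hE, hn⟩ := exists_quad k _ hs
    refine isot_quad two_ne_zero hd hδ hE hn (hmN_four_sq hN
      (fun i => (map_ne_zero (algebraMap k E)).2 (hd i)) ?_ ?_)
    · refine ⟨δ, ?_⟩
      rw [← sq, hδ, map_mul, map_mul, map_mul]
    · exact AllPl.ext (P := fun K _ φ => Isot fun i => φ (d i))
        (fun K L _ _ φ ψ hI => hI.map ψ) h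

end NF83
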