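import Pool.Agent.H.MP_83e36b_nt.hm.MDef

/-!
# MP_83e36b_nt, hm/MIsoB: isotropic forms in four variables with square discriminant

`isot_four`: let `d 0 d 1 d 2 d 3 = s²`; put `u = -d 0 d 1`, `v = -d 0 d 2`, `X0 = x 0`, `X1 = x 1 / d 0`, `X2 = x 2 / d 0`,
`X3 = s x 3 / (d 0² d 1 d 2)`; then `∑ d i x_i² = d 0 (X0² - u X1² - v X2² + u v X3²)` (norm form of a quaternion algebra). If
`X3 = 0` then `x 3 = 0` and `(x 0, x 1, x 2)` is isotropic. Otherwise put `Z0 = X2 X0 + u X3 X1`, `Z1 = X3 X0 + X2 X1`,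
`Z2 = X2² - u X3²`; `Z0² - u Z1² - v Z2² = (X2² - u X3²) (X0² - u X1² - v X2² + u v X3²) = 0`. If `Z2 ≠ 0` then
`(Z0, d 0 Z1, d 0 Z2)` is isotropic for `d 0, d 1, d 2`. If `Z2 = 0` then `u = (X2 / X3)²` and `(X2 / X3, d 0, 0)` is isotropic:
`d 0 u + d 1 d 0² = 0`.
-/

set_option autoImplicit false

open SpinWA

namespace NF83

variable {K : Type*} [Field K]

/-- a vector for a diagonal form in three variables -/
theorem MIsoB_three {a b c x y z : K} (hne : x ≠ 0 ∨ y ≠ 0 ∨ z ≠ 0)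
    (h : a * x ^ 2 + b * y ^ 2 + c * z ^ 2 = 0) : Isot ![a, b, c] := by
  refine ⟨![x, y, z], fun h0 => ?_, ?_⟩
  · rcases hne with h1 | h1 | h1
    · exact h1 (congrFun h0 0)
    · exact h1 (congrFun h0 1)
    · exact h1 (congrFun h0 2)
  · rw [Fin.sum_univ_three]
    exact h

theorem isot_four {d : Fin 4 → K} (hd : ∀ i, d i ≠ 0) (hs : IsSquare (d 0 * d 1 * d 2 * d 3))
    (h : Isot d) : Isot ![d 0, d 1, d 2] := by
  obtain ⟨s, hs⟩ := hs
  obtain ⟨x, hx, hx0⟩ := h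
  rw [Fin.sum_univ_four] at hx0
  have hs0 : s ≠ 0 := by
    rintro rfl
    rw [mul_zero] at hs
    exact mul_ne_zero (mul_ne_zero (mul_ne_zero (hd 0) (hd 1)) (hd 2)) (hd 3) hs
  by_cases h3 : x 3 = 0
  · refine MIsoB_three (x := x 0) (y := x 1) (z := x 2) ?_ ?_
    · by_contra hne
      push Not at hne
      obtain ⟨h0, h1, h2⟩ := hne
      apply hx
      funext i
      fin_cases i
      · exact h0
      · exact h1
      · exact h2
      · exact h3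
    · rw [h3] at hx0
      linear_combination hx0
  · have h3' : s * x 3 ≠ 0 := mul_ne_zero hs0 h3
    by_cases hz : (d 0 * d 1 * d 2 * x 2) ^ 2 + d 0 * d 1 * (s * x 3) ^ 2 = 0
    · refine MIsoB_three (x := d 0 * d 1 * d 2 * x 2) (y := d 0 * (s * x 3)) (z := 0)
        (Or.inr (Or.inl (mul_ne_zero (hd 0) h3'))) ?_
      linear_combination (d 0) * hz
    · refine MIsoB_three
        (x := d 0 * d 1 * d 2 * x 2 * (d 0 ^ 2 * d 1 * d 2 * x 0) -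
          d 0 * d 1 * (s * x 3) * (d 0 * d 1 * d 2 * x 1))
        (y := d 0 * (s * x 3 * (d 0 ^ 2 * d 1 * d 2 * x 0) +
          d 0 * d 1 * d 2 * x 2 * (d 0 * d 1 * d 2 * x 1)))
        (z := d 0 * ((d 0 * d 1 * d 2 * x 2) ^ 2 + d 0 * d 1 * (s * x 3) ^ 2))
        (Or.inr (Or.inr (mul_ne_zero (hd 0) hz))) ?_
      have hq : (d 0 ^ 2 * d 1 * d 2 * x 0) ^ 2 + d 0 * d 1 * (d 0 * d 1 * d 2 * x 1) ^ 2 +
          d 0 * d 2 * (d 0 * d 1 * d 2 * x 2) ^ 2 + d 0 ^ 2 * d 1 * d 2 * (s * x 3) ^ 2 = 0 := by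
        linear_combination (d 0 ^ 3 * d 1 ^ 2 * d 2 ^ 2) * hx0 - (d 0 ^ 2 * d 1 * d 2 * x 3 ^ 2) * hs
      linear_combination (d 0 * ((d 0 * d 1 * d 2 * x 2) ^ 2 + d 0 * d 1 * (s * x 3) ^ 2)) * hq

end NF83
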