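import Pool.Agent.H.MP_83e36b_nt.hm.MDef

/-!
# MP_83e36b_nt, hm/MIsoC: splitting off two variables

`isot_split`: let `(x, y, w)` be isotropic. If `a x² + b y² ≠ 0` take `(1, w)`. Otherwise `r(w) = 0`; if `w ≠ 0` take `x = 1`, `y = 0`
and `(0, w)`; if `w = 0` then `a x² + b y² = 0`, both `x, y ≠ 0`, `<a, b>` has all values: `e = a X² + b Y²` for
`X = x (e / (4 a x²) + 1)`, `Y = y (e / (4 a x²) - 1)` (`a x² = - b y²`: the value is `a x² ((t + 1)² - (t - 1)²) = 4 t a x²`). Take
`e = - r 0` and `(1, 1, 0, .., 0)`.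
`isot_join`: from `(z, w)` the vector `(x z, y z, w)`.
-/

set_option autoImplicit false

open SpinWA

namespace NF83

variable {K : Type*} [Field K]

private theorem MIsoC_sum {n : ℕ} (c : K) (r : Fin n → K) (v : Fin (n + 1) → K) :
    ∑ i, (Fin.cons c r : Fin (n + 1) → K) i * v i ^ 2 = c * v 0 ^ 2 + ∑ i, r i * v i.succ ^ 2 := by
  rw [Fin.sum_univ_succ]
  simp only [Fin.cons_zero, Fin.cons_succ]

theorem isot_split (h2 : (2 : K) ≠ 0) {n : ℕ} {a b : K} {r : Fin (n + 1) → K} (ha : a ≠ 0)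
    (hb : b ≠ 0) (hr : ∀ i, r i ≠ 0)
    (h : Isot (Fin.cons a (Fin.cons b r : Fin (n + 2) → K) : Fin (n + 3) → K)) :
    ∃ x y : K, a * x ^ 2 + b * y ^ 2 ≠ 0 ∧
      Isot (Fin.cons (a * x ^ 2 + b * y ^ 2) r : Fin (n + 2) → K) := by
  obtain ⟨v, hv, h⟩ := h
  rw [MIsoC_sum, MIsoC_sum] at h
  by_cases h1 : a * v 0 ^ 2 + b * v (Fin.succ 0) ^ 2 = 0
  · have hw : ∑ i, r i * v i.succ.succ ^ 2 = 0 := by
      rw [← add_assoc, h1, zero_add] at h
      exact h
    by_cases h3 : (fun i : Fin (n + 1) => v i.succ.succ) = 0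
    · have hX : v 0 ≠ 0 := by
        intro h4
        rw [h4] at h1
        have h5 : v (Fin.succ 0) = 0 := by
          have h6 : b * v (Fin.succ 0) ^ 2 = 0 := by linear_combination h1
          have h7 := (mul_eq_zero.1 h6).resolve_left hb
          exact pow_eq_zero_iff (two_ne_zero) |>.1 h7
        apply hv
        funext i
        refine Fin.cases h4 (fun j => ?_) i
        refine Fin.cases h5 (fun l => ?_) j
        exact congrFun h3 l
      have h4 : a * v 0 ^ 2 ≠ 0 := mul_ne_zero ha (pow_ne_zero 2 hX)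
      have h44 : (4 : K) ≠ 0 := by
        have : (4 : K) = 2 * 2 := by norm_num
        rw [this]
        exact mul_ne_zero h2 h2
      have hval : a * (v 0 * (-r 0 / (4 * (a * v 0 ^ 2)) + 1)) ^ 2 +
          b * (v (Fin.succ 0) * (-r 0 / (4 * (a * v 0 ^ 2)) - 1)) ^ 2 = -r 0 := by
        have h5 : -r 0 / (4 * (a * v 0 ^ 2)) * (4 * (a * v 0 ^ 2)) = -r 0 :=
          div_mul_cancel₀ _ (mul_ne_zero h44 h4)
        linear_combination (-r 0 / (4 * (a * v 0 ^ 2)) - 1) ^ 2 * h1 + h5
      refine ⟨v 0 * (-r 0 / (4 * (a * v 0 ^ 2)) + 1),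
        v (Fin.succ 0) * (-r 0 / (4 * (a * v 0 ^ 2)) - 1), ?_, ?_⟩
      · rw [hval]
        exact neg_ne_zero.2 (hr 0)
      · rw [hval]
        refine ⟨Fin.cons 1 (Pi.single 0 1), ?_, ?_⟩
        · intro h5
          exact one_ne_zero (congrFun h5 0)
        · rw [MIsoC_sum]
          simp only [Fin.cons_zero, Fin.cons_succ]
          rw [Finset.sum_eq_single 0]
          · rw [Pi.single_eq_same]
            ring
          · intro j _ hj
            rw [Pi.single_eq_of_ne hj]
            ring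
          · intro h5
            exact absurd (Finset.mem_univ _) h5
    · refine ⟨1, 0, ?_, ?_⟩
      · simpa using ha
      · refine ⟨Fin.cons 0 (fun i => v i.succ.succ), ?_, ?_⟩
        · intro h5
          exact h3 (funext fun i => by simpa using congrFun h5 i.succ)
        · rw [MIsoC_sum]
          simp only [Fin.cons_zero, Fin.cons_succ]
          rw [hw]
          ring
  · refine ⟨_, _, h1, Fin.cons 1 (fun i => v i.succ.succ), ?_, ?_⟩
    · intro h5
      exact one_ne_zero (congrFun h5 0)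
    · rw [MIsoC_sum]
      simp only [Fin.cons_zero, Fin.cons_succ]
      linear_combination h

theorem isot_join {n : ℕ} {a b x y : K} {r : Fin n → K} (hc : a * x ^ 2 + b * y ^ 2 ≠ 0)
    (h : Isot (Fin.cons (a * x ^ 2 + b * y ^ 2) r : Fin (n + 1) → K)) :
    Isot (Fin.cons a (Fin.cons b r : Fin (n + 1) → K) : Fin (n + 2) → K) := by
  obtain ⟨v, hv, h⟩ := h
  rw [MIsoC_sum] at h
  refine ⟨Fin.cons (x * v 0) (Fin.cons (y * v 0) (fun i => v i.succ)), ?_, ?_⟩
  · intro h5
    apply hv
    have h6 : x * v 0 = 0 := congrFun h5 0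
    have h7 : y * v 0 = 0 := congrFun h5 (Fin.succ 0)
    have h8 : v 0 = 0 := by
      by_contra h9
      have h10 : x = 0 := (mul_eq_zero.1 h6).resolve_right h9
      have h11 : y = 0 := (mul_eq_zero.1 h7).resolve_right h9
      apply hc
      rw [h10, h11]
      ring
    funext i
    refine Fin.cases h8 (fun j => ?_) i
    exact congrFun h5 j.succ.succ
  · rw [MIsoC_sum, MIsoC_sum]
    simp only [Fin.cons_zero, Fin.cons_succ]
    linear_combination h

end NF83
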