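import Pool.Agent.H.MP_83e36b_nt.hm.MIsoA
import Pool.Agent.H.MP_83e36b_nt.hm.MIsoB
import Pool.Agent.H.MP_83e36b_nt.hm.MIsoC
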