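import Pool.Agent.H.MP_83e36b_nt.hm.MDef

/-!
# MP_83e36b_nt, hm/MIsoA: isotropic diagonal forms

`isot_two`: `a x² + b y² = 0` with `y ≠ 0` (if `y = 0` then `x = 0`) gives `-(a b) = (a x / y)²`; conversely
`-(a b) = s s`: take `x = s`, `y = a` (`a s² + b a² = a (s² + a b)`).
`isot_three`: `(a x)² + a b y² + a c z² = 0`; if `z ≠ 0` divide by `z²`; if `z = 0` then `y ≠ 0` and `-(a b) = s²` with
`s = a x / y ≠ 0`, and `e = ((e + 1) / 2)² - s² ((e - 1) / (2 s))²` for all `e`. Conversely `(x / a, y, 1)` is isotropic.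
-/

set_option autoImplicit false

open SpinWA

namespace NF83

variable {K : Type*} [Field K]

theorem Isot.map {L : Type*} [Field L] (φ : K →+* L) {n : ℕ} {d : Fin n → K} (h : Isot d) :
    Isot fun i => φ (d i) := by
  obtain ⟨x, hx, h0⟩ := h
  refine ⟨fun i => φ (x i), fun h => hx (funext fun i => ?_), ?_⟩
  · exact (map_eq_zero φ).1 (congrFun h i)
  · have h1 := congrArg φ h0
    rw [map_sum, map_zero] at h1
    simpa only [map_mul, map_pow] using h1

theorem Isot.scale {n : ℕ} {d s : Fin n → K} (hs : ∀ i, s i ≠ 0) (h : Isot d) :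
    Isot fun i => d i * s i ^ 2 := by
  obtain ⟨x, hx, h0⟩ := h
  refine ⟨fun i => x i / s i, fun h => hx (funext fun i => ?_), ?_⟩
  · have h1 : x i / s i = 0 := congrFun h i
    rcases div_eq_zero_iff.1 h1 with h2 | h2
    · exact h2
    · exact absurd h2 (hs i)
  · rw [← h0]
    refine Finset.sum_congr rfl fun i _ => ?_
    have h1 := hs i
    field_simp

theorem Isot.cons {n : ℕ} (a : K) {r : Fin n → K} (h : Isot r) :
    Isot (Fin.cons a r : Fin (n + 1) → K) := by
  obtain ⟨x, hx, h0⟩ := h
  refine ⟨Fin.cons 0 x, fun h => hx (funext fun i => ?_), ?_⟩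
  · have h1 := congrFun h i.succ
    rwa [Fin.cons_succ] at h1
  · rw [Fin.sum_univ_succ]
    simp only [Fin.cons_zero, Fin.cons_succ]
    rw [h0]
    ring

theorem Isot.snoc3 {d : Fin 4 → K} (h : Isot ![d 0, d 1, d 2]) : Isot d := by
  obtain ⟨x, hx, h0⟩ := h
  refine ⟨![x 0, x 1, x 2, 0], fun h => hx ?_, ?_⟩
  · have e0 : x 0 = 0 := congrFun h 0
    have e1 : x 1 = 0 := congrFun h 1
    have e2 : x 2 = 0 := congrFun h 2
    funext i
    fin_cases i
    · exact e0
    · exact e1
    · exact e2
  · rw [Fin.sum_univ_three] at h0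
    rw [Fin.sum_univ_four]
    simp only [Matrix.cons_val_zero, Matrix.cons_val_one, Matrix.cons_val] at h0 ⊢
    rw [h0]
    ring

theorem isot_two {d : Fin 2 → K} (hd : ∀ i, d i ≠ 0) : Isot d ↔ IsSquare (-(d 0 * d 1)) := by
  constructor
  · rintro ⟨x, hx, h0⟩
    rw [Fin.sum_univ_two] at h0
    have h1 : x 1 ≠ 0 := by
      intro h1
      rw [h1] at h0
      have h2 : d 0 * x 0 ^ 2 = 0 := by linear_combination h0
      have h3 : x 0 = 0 := by
        rcases mul_eq_zero.1 h2 with h4 | h4
        · exact absurd h4 (hd 0)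
        · exact pow_eq_zero_iff (two_ne_zero) |>.1 h4
      apply hx
      funext i
      fin_cases i
      · exact h3
      · exact h1
    refine ⟨d 0 * x 0 / x 1, ?_⟩
    field_simp
    linear_combination (-d 0) * h0
  · rintro ⟨s, hs⟩
    refine ⟨![s, d 0], fun h => hd 0 (congrFun h 1), ?_⟩
    rw [Fin.sum_univ_two]
    simp only [Matrix.cons_val_zero, Matrix.cons_val_one]
    linear_combination (-d 0) * hs

theorem isot_three (h2 : (2 : K) ≠ 0) {d : Fin 3 → K} (hd : ∀ i, d i ≠ 0) :
    Isot d ↔ ∃ x y : K, -(d 0 * d 2) = x ^ 2 - -(d 0 * d 1) * y ^ 2 := by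
  constructor
  · rintro ⟨x, hx, h0⟩
    rw [Fin.sum_univ_three] at h0
    by_cases hz : x 2 = 0
    · have h1 : x 1 ≠ 0 := by
        intro h1
        rw [h1, hz] at h0
        have h3 : d 0 * x 0 ^ 2 = 0 := by linear_combination h0
        have h4 : x 0 = 0 := by
          rcases mul_eq_zero.1 h3 with h5 | h5
          · exact absurd h5 (hd 0)
          · exact pow_eq_zero_iff (two_ne_zero) |>.1 h5
        apply hx
        funext i
        fin_cases i
        · exact h4
        · exact h1
        · exact hz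
      obtain ⟨s, hs⟩ : ∃ s, s = d 0 * x 0 / x 1 := ⟨_, rfl⟩
      have hs2 : s ^ 2 = -(d 0 * d 1) := by
        rw [hz] at h0
        rw [hs]
        field_simp
        linear_combination (d 0) * h0
      have hs0 : s ≠ 0 := by
        intro h
        rw [h] at hs2
        have h3 : d 0 * d 1 = 0 := by linear_combination hs2
        rcases mul_eq_zero.1 h3 with h5 | h5
        · exact hd 0 h5
        · exact hd 1 h5
      refine ⟨(-(d 0 * d 2) + 1) / 2, (-(d 0 * d 2) - 1) / (2 * s), ?_⟩
      rw [← hs2]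
      field_simp
      ring
    · refine ⟨d 0 * x 0 / x 2, x 1 / x 2, ?_⟩
      field_simp
      linear_combination (-d 0) * h0
  · rintro ⟨x, y, h⟩
    refine ⟨![x / d 0, y, 1], fun h => one_ne_zero (congrFun h 2), ?_⟩
    rw [Fin.sum_univ_three]
    simp only [Matrix.cons_val_zero, Matrix.cons_val_one, Matrix.cons_val]
    have h0 := hd 0
    field_simp
    linear_combination (-1) * h

end NF83
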