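import Pool.Agent.H.MP_83e36b_nt.hm.MDef

/-!
# MP_83e36b_nt, hm/MLocA: isotropic forms over complete fields

`isot_near`: near `1` all elements are squares (inverse function theorem for `x ↦ x²` at `1`, `HasStrictDerivAt.map_nhds_eq`), and the
squares `s²` are of elements `s ≠ 0`; for `c'` near `c` we have `c' ≠ 0`, `c' = c s²`, and `(x_0 / s, x_1, ..)` is isotropic for `c', r`.
`finite_unit`: `x = a / b` with `a, b` in `𝓞 k`, finitely many primes divide `a b` (`FinitePlace.hasFiniteMulSupport`,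
`IsDedekindDomain.HeightOneSpectrum.Support.finite`, or `Ideal.finite_factors`).
-/

set_option autoImplicit false

open NumberField IsDedekindDomain

namespace NF83

theorem isot_near {K : Type*} [NontriviallyNormedField K] [CompleteSpace K] [CharZero K] {n : ℕ}
    {c : K} (hc : c ≠ 0) {r : Fin n → K} (h : Isot (Fin.cons c r : Fin (n + 1) → K)) :
    ∃ ε : ℝ, 0 < ε ∧ ∀ c' : K, ‖c' - c‖ < ε → c' ≠ 0 ∧ Isot (Fin.cons c' r : Fin (n + 1) → K) := by
  obtain ⟨x, hx0, hx⟩ := h
  rw [Fin.sum_univ_succ, Fin.cons_zero] at hx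
  have hd : HasStrictDerivAt (fun y : K => y ^ 2) (2 : K) 1 := by
    have h1 := hasStrictDerivAt_pow 2 (1 : K)
    norm_num at h1
    exact h1
  have hmap : Filter.map (fun y : K => y ^ 2) (nhds 1) = nhds 1 := by
    have h1 := hd.map_nhds_eq two_ne_zero
    rwa [one_pow] at h1
  have himg : (fun y : K => y ^ 2) '' {s : K | s ≠ 0} ∈ nhds (1 : K) := by
    rw [← hmap]
    exact Filter.image_mem_map (isOpen_ne.mem_nhds one_ne_zero)
  have hcont : Filter.Tendsto (fun c' : K => c' / c) (nhds c) (nhds 1) := by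
    have h1 : Filter.Tendsto (fun c' : K => c' / c) (nhds c) (nhds (c / c)) :=
      (Filter.tendsto_id (x := nhds c)).div_const c
    rwa [div_self hc] at h1
  obtain ⟨ε, hε, hsub⟩ := Metric.mem_nhds_iff.1 (hcont himg)
  refine ⟨ε, hε, fun c' hc' => ?_⟩
  obtain ⟨s, hs, hsc⟩ : ∃ s ∈ {s : K | s ≠ 0}, (fun y : K => y ^ 2) s = c' / c :=
    hsub (by rw [Metric.mem_ball, dist_eq_norm]; exact hc')
  have hs0 : s ≠ 0 := hs
  have hcc : c' = c * s ^ 2 := by
    change s ^ 2 = c' / c at hsc
    rw [hsc]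
    field_simp
  refine ⟨by rw [hcc]; exact mul_ne_zero hc (pow_ne_zero 2 hs0), ?_⟩
  refine ⟨Fin.cons (x 0 / s) (fun i => x i.succ), fun h0 => hx0 ?_, ?_⟩
  · funext i
    refine Fin.cases ?_ (fun i => ?_) i
    · have h1 := congrFun h0 0
      rw [Fin.cons_zero, Pi.zero_apply, div_eq_zero_iff] at h1
      exact h1.resolve_right hs0
    · have h1 := congrFun h0 i.succ
      rw [Fin.cons_succ] at h1
      exact h1
  · rw [Fin.sum_univ_succ, Fin.cons_zero, Fin.cons_zero, hcc]
    simp only [Fin.cons_succ] at hx ⊢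
    have h1 : c * s ^ 2 * (x 0 / s) ^ 2 = c * x 0 ^ 2 := by
      field_simp
    rw [h1]
    exact hx

theorem finite_unit {k : Type} [Field k] [NumberField k] {x : k} (hx : x ≠ 0) :
    {v : HeightOneSpectrum (𝓞 k) | v.valuation k x ≠ 1}.Finite := by
  refine ((HeightOneSpectrum.Support.finite (𝓞 k) x).union
    (HeightOneSpectrum.Support.finite (𝓞 k) x⁻¹)).subset fun v hv => ?_
  rcases lt_or_gt_of_ne (show v.valuation k x ≠ 1 from hv) with h | h
  · right
    change 1 < v.valuation k x⁻¹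
    rw [map_inv₀]
    exact (one_lt_inv₀ (zero_lt_iff.2 ((v.valuation k).ne_zero_iff.2 hx))).2 h
  · left
    exact h

end NF83
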