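import Pool.Agent.H.MP_83e36b_nt.hm.MDef

/-!
# MP_83e36b_nt, hm/MQuadA: forms in four variables over the quadratic extension given by the discriminant

`isot_quad`: let `D = d 0 d 1 d 2 d 3`, `q` the form, `B` its bilinear form (`B(x, y) = ∑ d i x_i y_i`). Let `z = x + δ y ≠ 0` be
isotropic over `E` (`choose` the coordinates). Then `q(x) + D q(y) + 2 δ B(x, y) = 0`, so `B(x, y) = 0` (`2 ≠ 0`, `δ` is not in `K`)
and `q(x) = - D q(y)`. Suppose that `q` is anisotropic over `K`. Then `y ≠ 0` (otherwise `q(x) = 0`, `x = 0`), `s = q(y) ≠ 0`, and `x ≠ 0`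
as `q(x) = -D s ≠ 0`. There is `u ≠ 0` with `B(x, u) = B(y, u) = 0` (two linear equations in four variables), `q(u) ≠ 0`. Let `w` be the
vector orthogonal to `x, y, u` given by the three-row minors (`NF83.D4`, `D4_u`, `D4_v`, `D4_s`, `D4_gram` in
Pool/Agent/H/MP_83e36b_nt/rf/Q1.lean: copy them here under the names MQuadA_D4 etc.): `q(x) q(y) q(u) = D q(w)` as `x, y, u` are orthogonal. So
`- D s² q(u) = D q(w)`, `q(w) = - s² q(u)`, and `w + s u` is isotropic: `q(w + s u) = q(w) + s² q(u) = 0`; and `w + s u ≠ 0`, since otherwise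
`0 = B(w, u) = - s q(u)`. Contradiction.
-/

set_option autoImplicit false

namespace NF83

/-- the bilinear form -/
def MQuadA_B {K : Type*} [Field K] (d x y : Fin 4 → K) : K :=
  d 0 * x 0 * y 0 + d 1 * x 1 * y 1 + d 2 * x 2 * y 2 + d 3 * x 3 * y 3

/-- the fourth vector -/
def MQuadA_D4 {K : Type*} [Field K] (d u v s : Fin 4 → K) : Fin 4 → K :=
  ![(u 1 * (v 2 * s 3 - v 3 * s 2) - u 2 * (v 1 * s 3 - v 3 * s 1) +
      u 3 * (v 1 * s 2 - v 2 * s 1)) / d 0,
    -(u 0 * (v 2 * s 3 - v 3 * s 2) - u 2 * (v 0 * s 3 - v 3 * s 0) +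
      u 3 * (v 0 * s 2 - v 2 * s 0)) / d 1,
    (u 0 * (v 1 * s 3 - v 3 * s 1) - u 1 * (v 0 * s 3 - v 3 * s 0) +
      u 3 * (v 0 * s 1 - v 1 * s 0)) / d 2,
    -(u 0 * (v 1 * s 2 - v 2 * s 1) - u 1 * (v 0 * s 2 - v 2 * s 0) +
      u 2 * (v 0 * s 1 - v 1 * s 0)) / d 3]

theorem MQuadA_D4_s {K : Type*} [Field K] {d : Fin 4 → K} (hd : ∀ i, d i ≠ 0)
    (u v s : Fin 4 → K) : MQuadA_B d s (MQuadA_D4 d u v s) = 0 := by
  have h0 := hd 0
  have h1 := hd 1
  have h2 := hd 2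
  have h3 := hd 3
  simp only [MQuadA_B, MQuadA_D4, Matrix.cons_val_zero, Matrix.cons_val_one, Matrix.cons_val]
  field_simp
  ring

theorem MQuadA_gram {K : Type*} [Field K] {d : Fin 4 → K} (hd : ∀ i, d i ≠ 0)
    (u v s : Fin 4 → K) :
    MQuadA_B d u u * MQuadA_B d v v * MQuadA_B d s s +
        2 * MQuadA_B d u v * MQuadA_B d v s * MQuadA_B d u s -
      MQuadA_B d u u * MQuadA_B d v s ^ 2 - MQuadA_B d v v * MQuadA_B d u s ^ 2 -
        MQuadA_B d s s * MQuadA_B d u v ^ 2 =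
      d 0 * d 1 * d 2 * d 3 * MQuadA_B d (MQuadA_D4 d u v s) (MQuadA_D4 d u v s) := by
  have h0 := hd 0
  have h1 := hd 1
  have h2 := hd 2
  have h3 := hd 3
  simp only [MQuadA_B, MQuadA_D4, Matrix.cons_val_zero, Matrix.cons_val_one, Matrix.cons_val]
  field_simp
  ring

theorem MQuadA_self {K : Type*} [Field K] (d x : Fin 4 → K) :
    MQuadA_B d x x = ∑ i, d i * x i ^ 2 := by
  rw [Fin.sum_univ_four, MQuadA_B]
  ring

theorem MQuadA_orth {K : Type*} [Field K] (d x y : Fin 4 → K) :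
    ∃ u : Fin 4 → K, u ≠ 0 ∧ MQuadA_B d x u = 0 ∧ MQuadA_B d y u = 0 := by
  obtain ⟨f, hf⟩ : ∃ f : (Fin 4 → K) →ₗ[K] (Fin 2 → K),
      ∀ u, f u = ![MQuadA_B d x u, MQuadA_B d y u] := by
    refine ⟨{ toFun := fun u => ![MQuadA_B d x u, MQuadA_B d y u]
              map_add' := ?_
              map_smul' := ?_ }, fun u => rfl⟩
    · intro u v
      ext i
      fin_cases i
      · simp [MQuadA_B]
        ring
      · simp [MQuadA_B]
        ring
    · intro c u
      ext i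
      fin_cases i
      · simp [MQuadA_B]
        ring
      · simp [MQuadA_B]
        ring
  have h1 : LinearMap.ker f ≠ ⊥ := by
    apply LinearMap.ker_ne_bot_of_finrank_lt
    rw [Module.finrank_fin_fun, Module.finrank_fin_fun]
    norm_num
  obtain ⟨u, hu, hu0⟩ := Submodule.exists_mem_ne_zero_of_ne_bot h1
  have h2 : f u = 0 := hu
  rw [hf] at h2
  exact ⟨u, hu0, congrFun h2 0, congrFun h2 1⟩

theorem isot_quad {K : Type*} [Field K] (h2 : (2 : K) ≠ 0) {E : Type*} [Field E] [Algebra K E]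
    {δ : E} {d : Fin 4 → K} (hd : ∀ i, d i ≠ 0)
    (hδ : δ ^ 2 = algebraMap K E (d 0 * d 1 * d 2 * d 3))
    (hE : ∀ z : E, ∃ x y : K, z = algebraMap K E x + algebraMap K E y * δ)
    (hn : ∀ x : K, δ ≠ algebraMap K E x) (h : Isot fun i => algebraMap K E (d i)) : Isot d := by
  by_contra hcon
  have han : ∀ v : Fin 4 → K, v ≠ 0 → MQuadA_B d v v ≠ 0 := by
    intro v hv h0
    exact hcon ⟨v, hv, by rw [← MQuadA_self]; exact h0⟩
  obtain ⟨z, hz, hz0⟩ := h
  choose x y hxy using fun i => hE (z i)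
  have hD : d 0 * d 1 * d 2 * d 3 ≠ 0 := mul_ne_zero (mul_ne_zero (mul_ne_zero (hd 0) (hd 1))
    (hd 2)) (hd 3)
  obtain ⟨D, hDd⟩ : ∃ D, D = d 0 * d 1 * d 2 * d 3 := ⟨_, rfl⟩
  rw [← hDd] at hD hδ
  have e1 : algebraMap K E (MQuadA_B d x x + D * MQuadA_B d y y) +
      algebraMap K E (2 * MQuadA_B d x y) * δ = 0 := by
    rw [Fin.sum_univ_four, hxy 0, hxy 1, hxy 2, hxy 3] at hz0
    rw [← hz0]
    simp only [MQuadA_B, map_add, map_mul, map_ofNat]
    rw [← hδ]
    ring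
  have e2 : MQuadA_B d x y = 0 := by
    by_contra hb
    have hb2 : 2 * MQuadA_B d x y ≠ 0 := mul_ne_zero h2 hb
    refine hn (-(MQuadA_B d x x + D * MQuadA_B d y y) / (2 * MQuadA_B d x y)) ?_
    rw [map_div₀, map_neg, eq_div_iff ((map_ne_zero _).2 hb2)]
    linear_combination e1
  have e3 : MQuadA_B d x x + D * MQuadA_B d y y = 0 := by
    rw [e2, mul_zero, map_zero, zero_mul, add_zero] at e1
    exact (map_eq_zero _).1 e1
  have hy : y ≠ 0 := by
    intro hy
    have h1 : MQuadA_B d x x = 0 := by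
      rw [hy] at e3
      simpa [MQuadA_B] using e3
    have hx : x = 0 := by
      by_contra hx
      exact han x hx h1
    refine hz (funext fun i => ?_)
    rw [hxy i, hx, hy]
    simp
  have hs := han y hy
  obtain ⟨u, hu0, hxu, hyu⟩ := MQuadA_orth d x y
  have hu := han u hu0
  have hg := MQuadA_gram hd x y u
  have hsu := MQuadA_D4_s hd x y u
  obtain ⟨w, hw⟩ : ∃ w, w = MQuadA_D4 d x y u := ⟨_, rfl⟩
  rw [← hw, e2, hxu, hyu, ← hDd] at hg
  rw [← hw] at hsu
  have hqw : MQuadA_B d w w = -(MQuadA_B d y y ^ 2 * MQuadA_B d u u) := by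
    apply mul_left_cancel₀ hD
    have e4 : MQuadA_B d x x = -(D * MQuadA_B d y y) := by linear_combination e3
    rw [e4] at hg
    linear_combination -hg
  have e5 : ∀ s : K, MQuadA_B d (fun i => w i + s * u i) (fun i => w i + s * u i) =
      MQuadA_B d w w + 2 * s * MQuadA_B d u w + s ^ 2 * MQuadA_B d u u := by
    intro s
    simp only [MQuadA_B]
    ring
  refine han (fun i => w i + MQuadA_B d y y * u i) ?_ ?_
  · intro h0
    have h1 : MQuadA_B d u (fun i => w i + MQuadA_B d y y * u i) =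
        MQuadA_B d u w + MQuadA_B d y y * MQuadA_B d u u := by
      simp only [MQuadA_B]
      ring
    rw [h0, hsu, zero_add] at h1
    have h3 : MQuadA_B d u 0 = 0 := by
      simp [MQuadA_B]
    rw [h3] at h1
    exact mul_ne_zero hs hu h1.symm
  · rw [e5, hqw, hsu]
    ring

end NF83
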