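import Pool.Agent.H.MP_83e36b_nt.hm.MDef
import Pool.Agent.H.MP_83e36b_nt.sp.WInj

/-!
# MP_83e36b_nt, hm/MWitA: forms which are zero in the Witt group are isotropic

`isot_of_zero`: the number of variables is even: `WG.lift` with `f = 1` in `ZMod 2`. So `n + 1 = 2 m`, `m ≥ 1`, and with
`e i = 1` for `i < m`, `-1` otherwise `∑ cl (e i) = 0` (`cl_one_neg`), so by `diag_inj` `diagonal d` and `diagonal e` are congruent, `Pᵀ D P = E`,
and `x = P y`, `y = e_0 + e_m`, is isotropic (`y` isotropic for `E`; `x ≠ 0` since `det P ≠ 0`). (Any other order of the entries of `e` will do.)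
-/

set_option autoImplicit false

open SpinWA

namespace NF83

variable {K : Type*} [Field K]

private theorem MWitA_even {n : ℕ} {d : Fin n → K} (hd : ∀ i, d i ≠ 0) (h : ∑ i, cl (d i) = 0) :
    Even n := by
  let φ : WG K →+ ZMod 2 := WG.lift (fun _ => (1 : ZMod 2)) (fun _ _ _ _ => rfl)
    (fun _ _ _ _ _ => rfl) (by decide)
  have h1 : ∀ i, φ (cl (d i)) = 1 := fun i => WG.lift_cl _ _ _ _ (hd i)
  have h2 : φ (∑ i, cl (d i)) = 0 := by rw [h, map_zero]
  rw [map_sum] at h2
  simp only [h1, Finset.sum_const, Finset.card_univ, Fintype.card_fin, nsmul_eq_mul, mul_one] at h2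
  exact (ZMod.natCast_eq_zero_iff_even).1 h2

private theorem MWitA_sum (m : ℕ) :
    ∑ i ∈ Finset.range (2 * m), cl (if Even i then (1 : K) else -1) = 0 := by
  induction m with
  | zero => simp
  | succ m ih =>
    have e : 2 * (m + 1) = 2 * m + 1 + 1 := by ring
    rw [e, Finset.sum_range_succ, Finset.sum_range_succ, ih, zero_add, if_pos (even_two_mul m),
      if_neg (by simp [Nat.even_add_one]), cl_one_neg]

private theorem MWitA_quad {n : ℕ} (d : Fin n → K) (x : Fin n → K) :
    x ⬝ᵥ (Matrix.diagonal d).mulVec x = ∑ i, d i * x i ^ 2 := by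
  unfold dotProduct
  refine Finset.sum_congr rfl fun i _ => ?_
  rw [Matrix.mulVec_diagonal]
  ring

theorem isot_of_zero (h2 : (2 : K) ≠ 0) {n : ℕ} {d : Fin (n + 1) → K} (hd : ∀ i, d i ≠ 0)
    (h : ∑ i, cl (d i) = 0) : Isot d := by
  obtain ⟨m, hm⟩ := MWitA_even hd h
  have hm' : n + 1 = 2 * m := by omega
  have hn : 1 < n + 1 := by omega
  let e : Fin (n + 1) → K := fun i => if Even (i : ℕ) then 1 else -1
  have he : ∀ i, e i ≠ 0 := by
    intro i
    show (if Even (i : ℕ) then (1 : K) else -1) ≠ 0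
    split
    · exact one_ne_zero
    · exact neg_ne_zero.2 one_ne_zero
  have hs : ∑ i, cl (e i) = 0 := by
    have h3 := Fin.sum_univ_eq_sum_range (fun i : ℕ => cl (if Even i then (1 : K) else -1)) (n + 1)
    rw [hm', MWitA_sum m, ← hm'] at h3
    exact h3
  obtain ⟨P, hP, hE⟩ := diag_inj h2 hd he (h.trans hs.symm)
  let y : Fin (n + 1) → K := Pi.single (0 : Fin (n + 1)) 1 + Pi.single (⟨1, hn⟩ : Fin (n + 1)) 1
  have h01 : (0 : Fin (n + 1)) ≠ ⟨1, hn⟩ := by
    intro h0
    have := congrArg Fin.val h0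
    simp at this
  have hy0 : y 0 = 1 := by
    simp [y, Pi.single_apply, h01]
  refine ⟨P.mulVec y, ?_, ?_⟩
  · intro h0
    have h4 : y = 0 := Matrix.eq_zero_of_mulVec_eq_zero hP h0
    rw [h4] at hy0
    exact zero_ne_one hy0
  · rw [← MWitA_quad]
    have h5 : P.mulVec y ⬝ᵥ (Matrix.diagonal d).mulVec (P.mulVec y) =
        y ⬝ᵥ (Matrix.diagonal e).mulVec y := by
      rw [← hE, ← Matrix.mulVec_mulVec, ← Matrix.mulVec_mulVec, Matrix.dotProduct_mulVec y,
        Matrix.vecMul_transpose]
    rw [h5, MWitA_quad]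
    have h6 : ∀ i, e i * y i ^ 2 = (Pi.single (0 : Fin (n + 1)) (1 : K) : Fin (n + 1) → K) i +
        (Pi.single (⟨1, hn⟩ : Fin (n + 1)) (-1 : K) : Fin (n + 1) → K) i := by
      intro i
      by_cases hi0 : i = 0
      · subst hi0
        rw [hy0, Pi.single_eq_same, Pi.single_eq_of_ne h01]
        simp [e]
      · by_cases hi1 : i = ⟨1, hn⟩
        · subst hi1
          have : y ⟨1, hn⟩ = 1 := by
            simp [y, Pi.single_apply, h01.symm]
          rw [this, Pi.single_eq_of_ne hi0, Pi.single_eq_same]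
          simp [e]
        · have : y i = 0 := by
            simp [y, Pi.single_apply, hi0, hi1]
          rw [this, Pi.single_eq_of_ne hi0, Pi.single_eq_of_ne hi1]
          simp
    simp only [h6, Finset.sum_add_distrib, Finset.sum_pi_single', Finset.mem_univ, if_true]
    ring

end NF83
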