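import Mathlib

/-!
# The index of the subgroup of squares
-/

set_option autoImplicit false

namespace NF83

/-- the index `[G : G ^ 2]` -/
noncomputable def sqi (G : Type*) [CommGroup G] : ℕ := (powMonoidHom 2 : G →* G).range.index

theorem sqi_congr {G H : Type*} [CommGroup G] [CommGroup H] (e : G ≃* H) : sqi G = sqi H := by
  unfold sqi
  rw [← Subgroup.index_map_equiv (powMonoidHom 2 : G →* G).range e]
  congr 1
  ext y
  constructor
  · rintro ⟨_, ⟨x, rfl⟩, rfl⟩
    exact ⟨e x, by simp⟩
  · rintro ⟨x, rfl⟩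
    exact ⟨_, ⟨e.symm x, rfl⟩, by simp⟩

/-- `[G : G ^ 2] = [N : N ^ 2] [H : H ^ 2]` for `1 → N → G → H → 1` and `H` without elements of
order two. -/
theorem sqi_ext {G H : Type*} [CommGroup G] [CommGroup H] (f : G →* H)
    (hf : Function.Surjective f) (hH : ∀ h : H, h ^ 2 = 1 → h = 1) :
    sqi G = sqi f.ker * sqi H := by
  have h1 : ((powMonoidHom 2 : G →* G).range ⊔ f.ker).index = sqi H := by
    unfold sqi
    rw [← Subgroup.index_comap_of_surjective _ hf]
    congr 1
    ext x
    rw [Subgroup.mem_comap]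
    constructor
    · intro hx
      obtain ⟨y, hy, z, hz, rfl⟩ := Subgroup.mem_sup.1 hx
      obtain ⟨w, rfl⟩ := hy
      refine ⟨f w, ?_⟩
      rw [map_mul, (MonoidHom.mem_ker.1 hz), mul_one, powMonoidHom_apply, powMonoidHom_apply,
        map_pow]
    · rintro ⟨y, hy⟩
      obtain ⟨w, rfl⟩ := hf y
      rw [powMonoidHom_apply, ← map_pow] at hy
      refine Subgroup.mem_sup.2 ⟨w ^ 2, ⟨w, rfl⟩, (w ^ 2)⁻¹ * x, ?_, by rw [mul_inv_cancel_left]⟩
      rw [MonoidHom.mem_ker, map_mul, map_inv, hy, inv_mul_cancel]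
  have h2 : (powMonoidHom 2 : G →* G).range.relIndex ((powMonoidHom 2 : G →* G).range ⊔ f.ker) =
      sqi f.ker := by
    rw [Subgroup.relIndex_sup_left]
    unfold sqi Subgroup.relIndex
    congr 1
    ext ⟨x, hx⟩
    rw [Subgroup.mem_subgroupOf]
    constructor
    · rintro ⟨y, hy⟩
      have hy' : y ^ 2 = x := hy
      have h3 : f y = 1 := by
        apply hH
        rw [← map_pow, hy']
        exact hx
      exact ⟨⟨y, h3⟩, Subtype.ext hy'⟩
    · rintro ⟨⟨y, hy⟩, h⟩
      exact ⟨y, congrArg Subtype.val h⟩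
  have h3 := Subgroup.relIndex_mul_index
    (le_sup_left : (powMonoidHom 2 : G →* G).range ≤ (powMonoidHom 2 : G →* G).range ⊔ f.ker)
  rw [h1, h2] at h3
  exact h3.symm

theorem sqi_int : sqi (Multiplicative ℤ) = 2 := by
  have h : (powMonoidHom 2 : Multiplicative ℤ →* Multiplicative ℤ).range.index =
      (AddSubgroup.zmultiples (2 : ℤ)).index := by
    rw [← AddSubgroup.index_toSubgroup]
    congr 1
    ext x
    constructor
    · rintro ⟨y, rfl⟩
      exact ⟨Multiplicative.toAdd y, by
        show Multiplicative.toAdd y • (2 : ℤ) = 2 • Multiplicative.toAdd y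
        simp [mul_comm]⟩
    · rintro ⟨y, hy⟩
      refine ⟨Multiplicative.ofAdd y, ?_⟩
      have hy' : y • (2 : ℤ) = Multiplicative.toAdd x := hy
      apply Multiplicative.toAdd.injective
      rw [← hy']
      show 2 • y = y • (2 : ℤ)
      simp [mul_comm]
  unfold sqi
  rw [h, Int.index_zmultiples]
  rfl

theorem sqi_prod (G H : Type*) [CommGroup G] [CommGroup H] : sqi (G × H) = sqi G * sqi H := by
  unfold sqi
  refine Eq.trans ?_ (Subgroup.index_prod (powMonoidHom 2 : G →* G).range
    (powMonoidHom 2 : H →* H).range)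
  congr 1
  ext ⟨x, y⟩
  rw [Subgroup.mem_prod]
  constructor
  · rintro ⟨⟨u, v⟩, h⟩
    exact ⟨⟨u, congrArg Prod.fst h⟩, ⟨v, congrArg Prod.snd h⟩⟩
  · rintro ⟨⟨u, hu⟩, ⟨v, hv⟩⟩
    exact ⟨(u, v), Prod.ext hu hv⟩

theorem sqi_pi {ι : Type*} [Fintype ι] (G : Type*) [CommGroup G] :
    sqi (ι → G) = sqi G ^ Fintype.card ι := by
  unfold sqi
  refine Eq.trans ?_ ((Subgroup.index_pi fun _ : ι => (powMonoidHom 2 : G →* G).range).trans ?_)
  · congr 1
    ext x
    rw [Subgroup.mem_pi]
    constructor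
    · rintro ⟨y, rfl⟩ i _
      exact ⟨y i, rfl⟩
    · intro h
      choose y hy using fun i => h i (Set.mem_univ i)
      exact ⟨y, funext hy⟩
  · rw [Finset.prod_const, Finset.card_univ]

/-- a nontrivial homomorphism to the integers doubles the index -/
theorem sqi_step {G : Type*} [CommGroup G] (f : G →* Multiplicative ℤ) {g : G} (hg : f g ≠ 1) :
    sqi G = 2 * sqi f.ker := by
  obtain ⟨m, hm⟩ := Int.subgroup_cyclic
    ({ carrier := {n : ℤ | ∃ x, f x = Multiplicative.ofAdd n}
       add_mem' := by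
        rintro a b ⟨x, hx⟩ ⟨y, hy⟩
        exact ⟨x * y, by rw [map_mul, hx, hy, ofAdd_add]⟩
       zero_mem' := ⟨1, by rw [map_one, ofAdd_zero]⟩
       neg_mem' := by
        rintro a ⟨x, hx⟩
        exact ⟨x⁻¹, by rw [map_inv, hx, ofAdd_neg]⟩ } : AddSubgroup ℤ)
  have hm1 : ∀ n : ℤ, (∃ x, f x = Multiplicative.ofAdd n) ↔ ∃ k : ℤ, k * m = n := by
    intro n
    have h := congrArg (fun A : AddSubgroup ℤ => n ∈ A) hm
    have h' : (∃ x, f x = Multiplicative.ofAdd n) = (n ∈ AddSubgroup.closure {m}) := h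
    rw [h', AddSubgroup.mem_closure_singleton]
    simp only [smul_eq_mul]
  have hdiv : ∀ x, ∃ k : ℤ, k * m = Multiplicative.toAdd (f x) := fun x =>
    (hm1 _).1 ⟨x, rfl⟩
  choose k hk using hdiv
  have hm0 : m ≠ 0 := by
    intro h0
    apply hg
    have h1 := hk g
    rw [h0, mul_zero] at h1
    exact Multiplicative.toAdd.injective h1.symm
  have hadd : ∀ x y, k (x * y) = k x + k y := by
    intro x y
    apply mul_right_cancel₀ hm0
    rw [hk, map_mul, add_mul, hk, hk]
    rfl
  let f' : G →* Multiplicative ℤ :=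
    { toFun := fun x => Multiplicative.ofAdd (k x)
      map_one' := by
        have h1 := hadd 1 1
        rw [mul_one] at h1
        have h2 : k 1 = 0 := by linarith
        rw [h2, ofAdd_zero]
      map_mul' := fun x y => by rw [hadd, ofAdd_add] }
  have hker : f'.ker = f.ker := by
    ext x
    rw [MonoidHom.mem_ker, MonoidHom.mem_ker]
    constructor
    · intro h
      have h1 : k x = 0 := Multiplicative.ofAdd.injective h
      have h2 := hk x
      rw [h1, zero_mul] at h2
      exact Multiplicative.toAdd.injective h2.symm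
    · intro h
      have h2 := hk x
      rw [h] at h2
      have h3 : k x * m = 0 := h2
      have h4 : k x = 0 := (mul_eq_zero.1 h3).resolve_right hm0
      show Multiplicative.ofAdd (k x) = 1
      rw [h4, ofAdd_zero]
  have hsurj : Function.Surjective f' := by
    intro y
    obtain ⟨x, hx⟩ := (hm1 (Multiplicative.toAdd y * m)).2 ⟨_, rfl⟩
    refine ⟨x, ?_⟩
    have h1 := hk x
    rw [hx] at h1
    have h2 : k x = Multiplicative.toAdd y := mul_right_cancel₀ hm0 h1
    show Multiplicative.ofAdd (k x) = y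
    rw [h2]
    rfl
  rw [sqi_ext f' hsurj (fun h hh => ?_), sqi_int, mul_comm, sqi_congr (MulEquiv.subgroupCongr hker)]
  have h1 : 2 • Multiplicative.toAdd h = 0 := congrArg Multiplicative.toAdd hh
  have h2 : Multiplicative.toAdd h = 0 := by
    rw [smul_eq_zero] at h1
    exact h1.resolve_left (by norm_num)
  exact Multiplicative.toAdd.injective h2

end NF83
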