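import Pool.Agent.H.MP_83e36b_nt.hm.KCoreF
import Pool.Agent.H.MP_83e36b_nt.wa.All

/-! Even degree, over a number field.

PROOF: as sp/StarE.lean (`star_even`), with `coreNF` for `core`, all places `i` of
`InfinitePlace k ⊕ T` for `v ∈ S`, the weak approximation `fieldWA_numberField`. The family `r` with
`2 (n + 1) + 2 + 2 e` entries
consists of `d`, of `2, 2` and of `e` times `-1`: `∑ cl (r i) = R + cl 2 + cl 2 - e • cl 1` (`cl_neg`),
`∏ r = (-1)^e c (2 s)²`; its entries are units outside `T` (`2 ∣ P`).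
-/

set_option autoImplicit false

open Topology Matrix NumberField IsDedekindDomain AnWA SpinWA DC83

namespace NF83

variable {k : Type} [Field k] [NumberField k]

private theorem StE_cf {K : Type*} [CommRing K] {n : ℕ} (a : Fin (n + 1) → K) :
    cf a 0 = a 0 := by
  unfold cf
  rw [dif_pos (Nat.succ_pos n)]
  rfl

private theorem StE_cl {K : Type*} [Field K] {c t : K} (hc : c ≠ 0) (ht : t ≠ 0) :
    cl (2 * c * (c * t ^ 2)) = cl (2 : K) := by
  have h : 2 * c * (c * t ^ 2) = 2 * (c * t) ^ 2 := by ring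
  rw [h, cl_mul_sq _ (mul_ne_zero hc ht)]

/-- the family `d, 2, 2, -1, ..., -1` -/
private def StE_r {K : Type*} [Field K] {N e : ℕ} (d : Fin (N + e) → K) : Fin (N + 2 + 2 * e) → K :=
  fun i => Fin.append (Fin.append d ![2, 2]) (fun _ : Fin e => (-1 : K))
    (Fin.cast (by omega : N + 2 + 2 * e = (N + e + 2) + e) i)

private theorem StE_forall {K : Type*} [Field K] {N e : ℕ} (d : Fin (N + e) → K) (p : K → Prop)
    (h1 : ∀ i, p (d i)) (h2 : p 2) (h3 : p (-1)) (i : Fin (N + 2 + 2 * e)) : p (StE_r d i) := by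
  unfold StE_r
  refine Fin.addCases (fun j => ?_) (fun j => ?_)
    (Fin.cast (by omega : N + 2 + 2 * e = (N + e + 2) + e) i)
  · rw [Fin.append_left]
    refine Fin.addCases (fun l => ?_) (fun l => ?_) j
    · rw [Fin.append_left]
      exact h1 l
    · rw [Fin.append_right]
      fin_cases l
      · exact h2
      · exact h2
  · rw [Fin.append_right]
    exact h3

private theorem StE_prod {K : Type*} [Field K] {N e : ℕ} (d : Fin (N + e) → K) :
    ∏ i, StE_r d i = (∏ i, d i) * (2 * 2) * (-1) ^ e := by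
  have h := Equiv.prod_comp (finCongr (by omega : N + 2 + 2 * e = (N + e + 2) + e))
    (Fin.append (Fin.append d ![2, 2]) (fun _ : Fin e => (-1 : K)))
  refine Eq.trans h ?_
  rw [Fin.prod_univ_add, Fin.prod_univ_add]
  simp [Fin.append_left, Fin.append_right, Fin.prod_univ_two]

private theorem StE_sum {K : Type*} [Field K] {A : Type*} [AddCommMonoid A] {N e : ℕ}
    (d : Fin (N + e) → K) (f : K → A) :
    ∑ i, f (StE_r d i) = (∑ i, f (d i)) + (f 2 + f 2) + e • f (-1) := by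
  have h := Equiv.sum_comp (finCongr (by omega : N + 2 + 2 * e = (N + e + 2) + e))
    (fun i => f (Fin.append (Fin.append d ![2, 2]) (fun _ : Fin e => (-1 : K)) i))
  refine Eq.trans h ?_
  rw [Fin.sum_univ_add, Fin.sum_univ_add]
  simp [Fin.append_left, Fin.append_right, Fin.sum_univ_two]

private theorem StE_wa (T : Finset (HeightOneSpectrum (𝓞 k))) (x : ∀ i, Compl T i)
    (U : ∀ i, Set (Compl T i)) (hU : ∀ i, U i ∈ 𝓝 (x i)) :
    ∃ r : k, ∀ i, complEmb T i r ∈ U i := by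
  classical
  have h1 : ∀ i, ∃ ε > 0, Metric.ball (x i) ε ⊆ U i := fun i => Metric.mem_nhds_iff.1 (hU i)
  choose ε hε hball using h1
  obtain ⟨i0⟩ : Nonempty (InfinitePlace k ⊕ {v // v ∈ T}) :=
    ⟨Sum.inl (Classical.arbitrary (InfinitePlace k))⟩
  have hfin : Finite (InfinitePlace k ⊕ {v // v ∈ T}) := inferInstance
  obtain ⟨j, hj⟩ := Finite.exists_min ε
  obtain ⟨r, hr⟩ := fieldWA_numberField T x (ε j) (hε j)
  refine ⟨r, fun i => hball i ?_⟩
  rw [Metric.mem_ball, dist_eq_norm]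
  exact (hr i).trans_le (hj i)

private theorem StE_nhds (T : Finset (HeightOneSpectrum (𝓞 k))) (i) {n : ℕ}
    (g : Fin n → Compl T i) (hd : (hk g).det ≠ 0) (h0 : cf g 0 ≠ 0) :
    ∀ᶠ a in 𝓝 g, (hk a).det ≠ 0 ∧ cf a 0 ≠ 0 ∧
      cls ((2 : Compl T i) • hk a) = cls ((2 : Compl T i) • hk g) ∧
      cls ((-2 : Compl T i) • hk1 a) = cls ((-2 : Compl T i) • hk1 g) := by
  letI : NontriviallyNormedField (Compl T i) :=
    { (inferInstance : NormedField (Compl T i)) with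
      non_trivial := WA83.exists_one_lt_norm T i }
  haveI : CompleteSpace (Compl T i) := WA83.complete_compl T i
  exact cls_hk_nhds g hd h0

theorem star_evenF (hHM : HMiso k) {n : ℕ} (h1n : 1 ≤ n) (hev : Even (n + 1)) (e : ℕ) (P : ℕ)
    (hP : P ≠ 0) (hP2 : 2 ∣ P) (hPn : n ∣ P) (T : Finset (HeightOneSpectrum (𝓞 k)))
    (hT : ∀ v, v ∈ T ↔ (P : 𝓞 k) ∈ v.asIdeal) {c : k} (hc0 : c ≠ 0)
    (hc : ∀ v, v ∉ T → ‖algebraMap k (v.adicCompletion k) c‖ = 1)
    (d : Fin (2 * (n + 1) + e) → k) (hd0 : ∀ i, d i ≠ 0)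
    (hd : ∀ v, v ∉ T → ∀ i, ‖algebraMap k (v.adicCompletion k) (d i)‖ = 1) {s : k} (hs : s ≠ 0)
    (hdp : ∏ i, d i = c * s ^ 2)
    (g : ∀ i, Fin (n + 1) → Compl T i) (τ : ∀ i, Compl T i) (hgd : ∀ i, (hk (g i)).det ≠ 0)
    (hτ0 : ∀ i, τ i ≠ 0) (hτ : ∀ i, cf (g i) 0 = complEmb T i c * τ i ^ 2)
    (hcl : ∀ i, e • cl 1 + cls ((2 : Compl T i) • hk (g i)) + cls ((-2 : Compl T i) • hk1 (g i)) =
      WG.map (complEmb T i) (∑ j, cl (d j)))
    (U : ∀ i, Set (Fin (n + 1) → Compl T i)) (hU : ∀ i, U i ∈ 𝓝 (g i))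
    (W : ∀ i, Set (Compl T i)) (hW : ∀ i, W i ∈ 𝓝 (τ i)) :
    ∃ (G : Fin (n + 1) → k) (t : k), (hk G).det ≠ 0 ∧ t ≠ 0 ∧ cf G 0 = c * t ^ 2 ∧
      e • cl 1 + cls ((2 : k) • hk G) + cls ((-2 : k) • hk1 G) = ∑ j, cl (d j) ∧
      ∀ i, (fun j => complEmb T i (G j)) ∈ U i ∧ complEmb T i t ∈ W i := by
  classical
  have hcv : ∀ i, complEmb T i c ≠ 0 := fun i => (map_ne_zero (complEmb T i)).mpr hc0
  -- neighbourhoods
  have hV : ∀ i, ∃ V : Set (Fin (n + 1) → Compl T i), (g i ∈ V ∧ IsOpen V ∧ V ⊆ U i ∧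
      ∀ a ∈ V, (hk a).det ≠ 0 ∧
        cls ((2 : Compl T i) • hk a) = cls ((2 : Compl T i) • hk (g i)) ∧
        cls ((-2 : Compl T i) • hk1 a) = cls ((-2 : Compl T i) • hk1 (g i))) := by
    intro i
    have h1 := StE_nhds T i (g i) (hgd i) (by
      rw [hτ i]
      exact mul_ne_zero (hcv i) (pow_ne_zero _ (hτ0 i)))
    obtain ⟨V, hVs, hVo, hVm⟩ := mem_nhds_iff.mp (Filter.inter_mem (hU i) h1)
    exact ⟨V, hVm, hVo, fun a ha => (hVs ha).1, fun a ha =>
      ⟨(hVs ha).2.1, (hVs ha).2.2.2.1, (hVs ha).2.2.2.2⟩⟩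
  choose V hV using hV
  have hN : ∀ i, ∃ W1 W2 : Set (Compl T i), (W1 ∈ 𝓝 (τ i) ∧ W2 ∈ 𝓝 (1 : Compl T i) ∧
      ∀ x ∈ W1, ∀ y ∈ W2, x * y ∈ W i) := by
    intro i
    have h1 : ContinuousAt (fun p : Compl T i × Compl T i => p.1 * p.2) (τ i, 1) :=
      continuous_mul.continuousAt
    have h2 : W i ∈ 𝓝 ((fun p : Compl T i × Compl T i => p.1 * p.2) (τ i, 1)) := by
      simp only [mul_one]
      exact hW i
    have h3 := h1 h2
    rw [Filter.mem_map, nhds_prod_eq, Filter.mem_prod_iff] at h3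
    obtain ⟨W1, hW1, W2, hW2, h4⟩ := h3
    exact ⟨W1, W2, hW1, hW2, fun x hx y hy => h4 (Set.mk_mem_prod hx hy)⟩
  choose W1 W2 hN using hN
  have hup : ∀ i, Function.update (g i) 0 (complEmb T i c * τ i ^ 2) = g i := fun i => by
    rw [← hτ i, StE_cf, Function.update_eq_self]
  have hcont : ∀ i, Continuous fun t : Compl T i =>
      (Function.update (g i) 0 (complEmb T i c * t ^ 2) : Fin (n + 1) → Compl T i) := fun i =>
    continuous_const.update 0 (continuous_const.mul (continuous_pow 2))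
  obtain ⟨t0, ht0⟩ := StE_wa T τ (fun i => W1 i ∩ {t : Compl T i | t ≠ 0 ∧
      (Function.update (g i) 0 (complEmb T i c * t ^ 2) : Fin (n + 1) → Compl T i) ∈ V i})
      fun i => by
    refine Filter.inter_mem (hN i).1 ?_
    refine Filter.Eventually.and (isOpen_ne.mem_nhds (hτ0 i)) ?_
    refine (hcont i).continuousAt.eventually_mem ?_
    rw [hup i]
    exact (hV i).2.1.mem_nhds (hV i).1
  have ht00 : t0 ≠ 0 := by
    intro h
    apply (ht0 (Sum.inl (Classical.arbitrary (InfinitePlace k)))).2.1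
    rw [h, map_zero]
  have hb : c * t0 ^ 2 ≠ 0 := mul_ne_zero hc0 (pow_ne_zero _ ht00)
  have hbv : ∀ i, complEmb T i (c * t0 ^ 2) = complEmb T i c * complEmb T i t0 ^ 2 := fun i => by
    rw [map_mul, map_pow]
  have hgV : ∀ i, (Function.update (g i) 0 (complEmb T i (c * t0 ^ 2)) :
      Fin (n + 1) → Compl T i) ∈ V i := fun i => by
    rw [hbv]
    exact (ht0 i).2.2
  have h2k : (2 : k) ≠ 0 := two_ne_zero
  have hm1 : cl (-1 : k) = -cl 1 := by
    have := cl_neg h2k (1 : k)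
    exact eq_neg_of_add_eq_zero_right this
  have hR : ∑ j, cl (StE_r d j) = (∑ j, cl (d j)) + cl 2 + cl 2 - e • cl (1 : k) := by
    rw [StE_sum d cl, hm1, smul_neg]
    abel
  obtain ⟨κ, G, hκ, hG0, hGd, hGc, hGU⟩ := coreNF hHM h1n hev P hP hP2 hPn T hT hc0 hb hc
    (StE_r d) (StE_forall d (fun x => x ≠ 0) hd0 h2k (by simp))
    (fun v hv => StE_forall d (fun x => ‖algebraMap k (v.adicCompletion k) x‖ = 1) (hd v hv)
      (by
        have h3 : ((2 : ℕ) : 𝓞 k) ∉ v.asIdeal := by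
          intro h4
          apply hv
          rw [hT]
          obtain ⟨q, hq⟩ := hP2
          rw [hq, Nat.cast_mul]
          exact Ideal.mul_mem_right _ _ h4
        have h4 := norm_nat_eq v 2 h3
        rw [map_ofNat]
        exact_mod_cast h4)
      (by rw [map_neg, map_one, norm_neg, norm_one]))
    (s := 2 * s) (mul_ne_zero h2k hs) (by rw [StE_prod, hdp]; ring)
    (fun i => (Function.update (g i) 0 (complEmb T i (c * t0 ^ 2)) : Fin (n + 1) → Compl T i))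
    (fun i => Function.update_self _ _ _)
    (fun i => ((hV i).2.2.2 _ (hgV i)).1)
    (fun i => by
      obtain ⟨-, h1, h2⟩ := (hV i).2.2.2 _ (hgV i)
      have h3 : complEmb T i t0 ≠ 0 := (map_ne_zero (complEmb T i)).mpr ht00
      rw [hbv] at h1 h2
      unfold coreF
      rw [StE_cf, Function.update_self, hbv, StE_cl (hcv i) h3, mul_one, h1, h2, hR, map_sub,
        map_add, map_add, map_nsmul, ← hcl i, WG.map_cl, WG.map_cl, map_one, map_ofNat]
      abel)
    V (fun i => (hV i).2.1.mem_nhds (hgV i)) W2 (fun i => (hN i).2.1)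
  have hG0' : cf G 0 = c * (t0 * κ) ^ 2 := by
    rw [StE_cf, hG0]
    ring
  refine ⟨G, t0 * κ, hGd, mul_ne_zero ht00 hκ, hG0', ?_, fun i => ⟨(hV i).2.2.1
    (hGU i).1, ?_⟩⟩
  · unfold coreF at hGc
    rw [hG0', StE_cl hc0 (mul_ne_zero ht00 hκ), mul_one, hR] at hGc
    have h1 : e • cl (1 : k) + cls ((2 : k) • hk G) + cls ((-2 : k) • hk1 G) =
        e • cl 1 - cl 2 - cl 2 +
          (cl 2 + cl 2 + cls ((2 : k) • hk G) + cls ((-2 : k) • hk1 G)) := by abel
    rw [h1, hGc]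
    abel
  · rw [map_mul]
    exact (hN i).2.2 _ (ht0 i).1 _ (hGU i).2

end NF83
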