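import Pool.Agent.H.MP_83e36b_nt.hm.KCoreF
import Pool.Agent.H.MP_83e36b_nt.rf.StarR

/-! Odd degree, over a number field.

PROOF: as rf/StarR.lean (`star3R` with its helper lemmas `StarR_loc`, `StarR_fin`, which are stated for all
`k`; copy them, they are private) and sp/StarO.lean (`star_odd`: the choice of `b`, since
`coreNF` needs a common value `g i 0 = emb b`; see how sp/StarO.lean chooses `b` and the perturbation of
the `g' v`), with `coreNF` for `core`, all places `i` of `InfinitePlace k ⊕ T`, `letI : PlSys k :=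
plSys k T`, `S = Finset.univ`. The family `r` with `2 (n + 1) + 2 + 2 e` entries consists of `d`
(`2 (n + 1 + 1) + e` entries) and of `e` times `-1`: `∑ cl (r i) = R - e • cl 1`, `∏ r = (-1)^e c s²`.
-/

set_option autoImplicit false

open Topology Matrix NumberField IsDedekindDomain AnWA SpinWA DC83

namespace NF83

private theorem StO_cf {R : Type*} [CommRing R] {k : ℕ} (a : Fin (k + 1) → R) :
    cf a 0 = a 0 := by
  unfold cf
  rw [dif_pos (Nat.succ_pos k)]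
  rfl

private theorem StO_loc {K : Type} [NontriviallyNormedField K] [CompleteSpace K] [CharZero K]
    {k : ℕ} (h1k : 1 ≤ k) (hev : Even (k + 1)) (φ : ℚ →+* K) {c : K}
    (hc : c ≠ 0) (g : Fin (k + 1 + 1) → K) {τ : K} (hgd : (hk g).det ≠ 0) (hτ0 : τ ≠ 0)
    (hτ : cf g 0 = c * τ ^ 2) {U : Set (Fin (k + 1 + 1) → K)} (hU : U ∈ 𝓝 g)
    {W : Set K} (hW : W ∈ 𝓝 τ) :
    ∃ (g' : Fin (k + 1) → K) (η : K) (N1 : Set (Fin (k + 1) → K))
      (N2 : Set K), IsOpen N1 ∧ g' ∈ N1 ∧ N2 ∈ 𝓝 η ∧ g' 0 ≠ 0 ∧ η ≠ 0 ∧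
      cls ((2 : K) • hk g) + cls ((-2 : K) • hk1 g) = coreF c 1 g' ∧
      (∀ a ∈ N1, (hk a).det ≠ 0 ∧ coreF c 1 a = coreF c 1 g') ∧
      ∀ a ∈ N1, ∀ y ∈ N2, (hk a).det ≠ 0 ∧ cf a 0 ≠ 0 ∧
        y ≠ 0 ∧ (cmS a).det ≠ 0 ∧ (kryM (Wop a (2 * c * cf a 0 * y ^ 2))).det ≠ 0 ∧
        cpc (Wop a (2 * c * cf a 0 * y ^ 2)) ∈ U ∧
        ((Aop a).submatrix id finSumFinEquiv).det ≠ 0 ∧
        ((Aop a).submatrix id finSumFinEquiv).det * y ∈ W := by
  obtain ⟨g', η, h1, h2, h3, h4, h5⟩ := star_loc φ h1k hev g hc hgd hτ0 hτ hU hW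
  have t2 : (2 : K) ≠ 0 := two_ne_zero
  have h0 : g' 0 ≠ 0 := by
    rw [← StO_cf g']
    exact h2
  obtain ⟨M1, hM1, M2, hM2, hM⟩ := mem_nhds_prod_iff.1 h5
  have h6 := cls_hk_nhds g' h1 h2
  have h7 : ∀ᶠ a in 𝓝 g', cl (2 * c * cf a 0) = cl (2 * c * cf g' 0) := by
    have hcont : Continuous fun a : Fin (k + 1) → K => 2 * c * cf a 0 := by
      simp only [StO_cf]
      exact continuous_const.mul (continuous_apply 0)
    exact hcont.continuousAt.eventually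
      (cl_nhds t2 (mul_ne_zero (mul_ne_zero t2 hc) h2))
  have h8 : M1 ∩ {a | ((hk a).det ≠ 0 ∧ cf a 0 ≠ 0 ∧
      cls ((2 : K) • hk a) = cls ((2 : K) • hk g') ∧
      cls ((-2 : K) • hk1 a) = cls ((-2 : K) • hk1 g')) ∧
      cl (2 * c * cf a 0) = cl (2 * c * cf g' 0)} ∈ 𝓝 g' :=
    Filter.inter_mem hM1 (h6.and h7)
  refine ⟨g', η, interior (M1 ∩ {a | ((hk a).det ≠ 0 ∧ cf a 0 ≠ 0 ∧
      cls ((2 : K) • hk a) = cls ((2 : K) • hk g') ∧
      cls ((-2 : K) • hk1 a) = cls ((-2 : K) • hk1 g')) ∧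
      cl (2 * c * cf a 0) = cl (2 * c * cf g' 0)}), M2, isOpen_interior,
      mem_interior_iff_mem_nhds.2 h8, hM2, h0, h3, ?_, ?_, ?_⟩
  · rw [h4]
    unfold coreF
    rw [mul_one]
    abel
  · intro a ha
    obtain ⟨-, ⟨h9, -, h11, h12⟩, h13⟩ := interior_subset ha
    refine ⟨h9, ?_⟩
    unfold coreF
    rw [mul_one, h11, h12, h13]
  · intro a ha y hy
    have h9 := hM (Set.mk_mem_prod (interior_subset ha).1 hy)
    exact h9

private theorem StO_fin {kk : Type} [Field kk] [CharZero kk] {ι : Type} (v0 : ι) {C : ι → Type}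
    [∀ v, Field (C v)] [∀ v, CharZero (C v)] (em : ∀ v, kk →+* C v) {k : ℕ} (e : ℕ) (c : kk)
    (R : WG kk) (U : ∀ v, Set (Fin (k + 1 + 1) → C v)) (W : ∀ v, Set (C v))
    (G : Fin (k + 1) → kk) (η : kk) (hGd : (hk G).det ≠ 0) (hG0 : cf G 0 ≠ 0) (hη : η ≠ 0)
    (hc0 : c ≠ 0) (hcore : coreF c 1 G = R - e • cl 1)
    (h : ∀ v, (cmS fun i => em v (G i)).det ≠ 0 ∧
      (kryM (Wop (fun i => em v (G i))
        (2 * em v c * cf (fun i => em v (G i)) 0 * em v η ^ 2))).det ≠ 0 ∧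
      cpc (Wop (fun i => em v (G i))
        (2 * em v c * cf (fun i => em v (G i)) 0 * em v η ^ 2)) ∈ U v ∧
      ((Aop fun i => em v (G i)).submatrix id finSumFinEquiv).det ≠ 0 ∧
      ((Aop fun i => em v (G i)).submatrix id finSumFinEquiv).det * em v η ∈ W v) :
    ∃ (G : Fin (k + 1 + 1) → kk) (t : kk), (hk G).det ≠ 0 ∧ t ≠ 0 ∧ cf G 0 = c * t ^ 2 ∧
      e • cl 1 + cls ((2 : kk) • hk G) + cls ((-2 : kk) • hk1 G) = R ∧
      ∀ v, (fun i => em v (G i)) ∈ U v ∧ em v t ∈ W v := by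
  have hρe : ∀ v, em v (2 * c * cf G 0 * η ^ 2) =
      2 * em v c * cf (fun i => em v (G i)) 0 * em v η ^ 2 := by
    intro v
    rw [map_mul, map_mul, map_mul, map_pow, cf_map, map_ofNat]
  have hAe : ∀ v, em v ((Aop G).submatrix id finSumFinEquiv).det =
      ((Aop fun i => em v (G i)).submatrix id finSumFinEquiv).det := by
    intro v
    rw [RingHom.map_det, RingHom.mapMatrix_apply, ← Matrix.submatrix_map, Aop_map]
  have hSe : ∀ v, em v (cmS G).det = (cmS fun i => em v (G i)).det := by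
    intro v
    rw [RingHom.map_det, RingHom.mapMatrix_apply, cmS_map]
  have hKe : ∀ v, em v (kryM (Wop G (2 * c * cf G 0 * η ^ 2))).det =
      (kryM (Wop (fun i => em v (G i))
        (2 * em v c * cf (fun i => em v (G i)) 0 * em v η ^ 2))).det := by
    intro v
    rw [kryM_det_map, Wop_map, hρe]
  obtain ⟨n1, n2, -, n4, -⟩ := h v0
  have hSd : (cmS G).det ≠ 0 := by
    intro h1
    rw [← hSe, h1, map_zero] at n1
    exact n1 rfl
  have hKd : (kryM (Wop G (2 * c * cf G 0 * η ^ 2))).det ≠ 0 := by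
    intro h1
    rw [← hKe, h1, map_zero] at n2
    exact n2 rfl
  have hAd : ((Aop G).submatrix id finSumFinEquiv).det ≠ 0 := by
    intro h1
    rw [← hAe, h1, map_zero] at n4
    exact n4 rfl
  have hρ : 2 * c * cf G 0 * η ^ 2 ≠ 0 :=
    mul_ne_zero (mul_ne_zero (mul_ne_zero two_ne_zero hc0) hG0) (pow_ne_zero 2 hη)
  obtain ⟨R', hR', r1, r2⟩ := bwd2 G (2 * c * cf G 0 * η ^ 2) hGd hG0 hSd hKd
  have hdet := det_second G (2 * c * cf G 0 * η ^ 2) hGd hG0 _ R' hR' r1 r2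
  set A' : kk := ((Aop G).submatrix id finSumFinEquiv).det with hA'
  set a' : Fin (k + 1 + 1) → kk := cpc (Wop G (2 * c * cf G 0 * η ^ 2)) with ha'
  have hcf : cf a' 0 = c * (A' * η) ^ 2 := by
    have h1 : (2 * cf G 0) * cf a' 0 = (2 * cf G 0) * (c * (A' * η) ^ 2) := by
      rw [hdet]
      ring
    exact mul_left_cancel₀ (mul_ne_zero two_ne_zero hG0) h1
  have ht : A' * η ≠ 0 := mul_ne_zero hAd hη
  have hcf0 : cf a' 0 ≠ 0 := by
    rw [hcf]
    exact mul_ne_zero hc0 (pow_ne_zero 2 ht)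
  obtain ⟨q1, q2⟩ := cls_second G hρ hGd hG0 a' hcf0 R' hR' r1 r2
  refine ⟨a', A' * η, q1, ht, hcf, ?_, ?_⟩
  · rw [add_assoc, q2, cl_mul_sq _ hη]
    unfold coreF at hcore
    rw [mul_one] at hcore
    have h1 : cls ((2 : kk) • hk G) + cl 2 + (cls ((-2 : kk) • hk1 G) + cl (2 * c * cf G 0)) =
        cl 2 + cl (2 * c * cf G 0) + cls ((2 : kk) • hk G) + cls ((-2 : kk) • hk1 G) := by
      abel
    rw [h1, hcore]
    abel
  · intro v
    obtain ⟨-, -, m3, -, m5⟩ := h v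
    constructor
    · have h1 : (fun i => em v (a' i)) = cpc (Wop (fun i => em v (G i))
          (2 * em v c * cf (fun i => em v (G i)) 0 * em v η ^ 2)) := by
        funext i
        rw [ha', cpc_map, Wop_map, hρe]
      rw [h1]
      exact m3
    · rw [map_mul, hA', hAe]
      exact m5

variable {k : Type} [Field k] [NumberField k]

/-- the statement at one place, for the completions -/
private theorem StO_locC (T : Finset (HeightOneSpectrum (𝓞 k))) (i) {n : ℕ} (h1n : 1 ≤ n)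
    (hev : Even (n + 1)) {c : Compl T i} (hc : c ≠ 0) (g : Fin (n + 1 + 1) → Compl T i)
    {τ : Compl T i} (hgd : (hk g).det ≠ 0) (hτ0 : τ ≠ 0) (hτ : cf g 0 = c * τ ^ 2)
    {U : Set (Fin (n + 1 + 1) → Compl T i)} (hU : U ∈ 𝓝 g)
    {W : Set (Compl T i)} (hW : W ∈ 𝓝 τ) :
    ∃ (g' : Fin (n + 1) → Compl T i) (η : Compl T i) (N1 : Set (Fin (n + 1) → Compl T i))
      (N2 : Set (Compl T i)), IsOpen N1 ∧ g' ∈ N1 ∧ N2 ∈ 𝓝 η ∧ g' 0 ≠ 0 ∧ η ≠ 0 ∧
      cls ((2 : Compl T i) • hk g) + cls ((-2 : Compl T i) • hk1 g) = coreF c 1 g' ∧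
      (∀ a ∈ N1, (hk a).det ≠ 0 ∧ coreF c 1 a = coreF c 1 g') ∧
      ∀ a ∈ N1, ∀ y ∈ N2, (hk a).det ≠ 0 ∧ cf a 0 ≠ 0 ∧
        y ≠ 0 ∧ (cmS a).det ≠ 0 ∧ (kryM (Wop a (2 * c * cf a 0 * y ^ 2))).det ≠ 0 ∧
        cpc (Wop a (2 * c * cf a 0 * y ^ 2)) ∈ U ∧
        ((Aop a).submatrix id finSumFinEquiv).det ≠ 0 ∧
        ((Aop a).submatrix id finSumFinEquiv).det * y ∈ W := by
  letI iN : NontriviallyNormedField (Compl T i) :=
    { (inferInstance : NormedField (Compl T i)) with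
      non_trivial := WA83.exists_one_lt_norm T i }
  haveI iC : CompleteSpace (Compl T i) := WA83.complete_compl T i
  exact StO_loc h1n hev (Rat.castHom (Compl T i)) hc g hgd hτ0 hτ hU hW

/-- weak approximation at all places -/
private theorem StO_wa (T : Finset (HeightOneSpectrum (𝓞 k))) (x : ∀ i, Compl T i)
    (U : ∀ i, Set (Compl T i)) (hU : ∀ i, U i ∈ 𝓝 (x i)) :
    ∃ r : k, ∀ i, complEmb T i r ∈ U i := by
  have h1 : ∀ i, ∃ ε > 0, Metric.ball (x i) ε ⊆ U i := fun i => Metric.mem_nhds_iff.1 (hU i)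
  choose ε hε hball using h1
  obtain ⟨δ, hδ, hδε⟩ : ∃ δ : ℝ, 0 < δ ∧ ∀ i, δ ≤ ε i := by
    refine ⟨Finset.univ.inf' ⟨Sum.inl (Classical.arbitrary (InfinitePlace k)),
      Finset.mem_univ _⟩ ε, ?_, fun i => Finset.inf'_le _ (Finset.mem_univ i)⟩
    rw [Finset.lt_inf'_iff]
    exact fun i _ => hε i
  obtain ⟨r, hr⟩ := fieldWA_numberField T x δ hδ
  refine ⟨r, fun i => hball i ?_⟩
  rw [Metric.mem_ball, dist_eq_norm]
  exact (hr i).trans_le (hδε i)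

/-- the family `r` -/
private theorem StO_fam {n : ℕ} (e : ℕ) (T : Finset (HeightOneSpectrum (𝓞 k)))
    (d : Fin (2 * (n + 1 + 1) + e) → k) (hd0 : ∀ i, d i ≠ 0)
    (hd : ∀ v, v ∉ T → ∀ i, ‖algebraMap k (v.adicCompletion k) (d i)‖ = 1) :
    ∃ r : Fin (2 * (n + 1) + 2 + 2 * e) → k, (∀ i, r i ≠ 0) ∧
      (∀ v, v ∉ T → ∀ i, ‖algebraMap k (v.adicCompletion k) (r i)‖ = 1) ∧
      (∑ i, cl (r i)) = (∑ j, cl (d j)) - e • cl 1 ∧ ∏ i, r i = (-1) ^ e * ∏ j, d j := by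
  have he : 2 * (n + 1) + 2 + 2 * e = (2 * (n + 1 + 1) + e) + e := by ring
  let q : Fin ((2 * (n + 1 + 1) + e) + e) → k := Fin.append d fun _ => -1
  have hq : ∀ i, (∃ j, q i = d j) ∨ q i = -1 := by
    intro i
    refine Fin.addCases (fun j => ?_) (fun j => ?_) i
    · exact Or.inl ⟨j, Fin.append_left _ _ j⟩
    · exact Or.inr (Fin.append_right _ _ j)
  refine ⟨fun i => q (i.cast he), ?_, ?_, ?_, ?_⟩
  · intro i
    rcases hq (i.cast he) with ⟨j, h⟩ | h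
    · show q (i.cast he) ≠ 0
      rw [h]
      exact hd0 j
    · show q (i.cast he) ≠ 0
      rw [h]
      exact neg_ne_zero.2 one_ne_zero
  · intro v hv i
    show ‖algebraMap k (v.adicCompletion k) (q (i.cast he))‖ = 1
    rcases hq (i.cast he) with ⟨j, h⟩ | h
    · rw [h]
      exact hd v hv j
    · rw [h, map_neg, map_one, norm_neg, norm_one]
  · have h1 : (∑ i, cl (q (Fin.cast he i))) = ∑ i, cl (q i) :=
      Fin.sum_congr' (fun i => cl (q i)) he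
    have h2 : cl (-1 : k) = - cl 1 := by
      have := cl_neg (two_ne_zero : (2 : k) ≠ 0) 1
      exact eq_neg_of_add_eq_zero_right this
    rw [h1, Fin.sum_univ_add]
    simp only [q, Fin.append_left, Fin.append_right, Finset.sum_const, Finset.card_univ,
      Fintype.card_fin, h2, smul_neg]
    rw [sub_eq_add_neg]
  · have h1 : (∏ i, q (Fin.cast he i)) = ∏ i, q i := Fin.prod_congr' q he
    rw [h1, Fin.prod_univ_add]
    simp only [q, Fin.append_left, Fin.append_right, Finset.prod_const, Finset.card_univ,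
      Fintype.card_fin]
    ring

theorem star_oddF (hHM : HMiso k) {n : ℕ} (h1n : 1 ≤ n) (hev : Even (n + 1)) (e : ℕ) (P : ℕ)
    (hP : P ≠ 0) (hP2 : 2 ∣ P) (hPn : n ∣ P) (T : Finset (HeightOneSpectrum (𝓞 k)))
    (hT : ∀ v, v ∈ T ↔ (P : 𝓞 k) ∈ v.asIdeal) {c : k} (hc0 : c ≠ 0)
    (hc : ∀ v, v ∉ T → ‖algebraMap k (v.adicCompletion k) c‖ = 1)
    (d : Fin (2 * (n + 1 + 1) + e) → k) (hd0 : ∀ i, d i ≠ 0)
    (hd : ∀ v, v ∉ T → ∀ i, ‖algebraMap k (v.adicCompletion k) (d i)‖ = 1) {s : k} (hs : s ≠ 0)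
    (hdp : ∏ i, d i = c * s ^ 2)
    (g : ∀ i, Fin (n + 1 + 1) → Compl T i) (τ : ∀ i, Compl T i) (hgd : ∀ i, (hk (g i)).det ≠ 0)
    (hτ0 : ∀ i, τ i ≠ 0) (hτ : ∀ i, cf (g i) 0 = complEmb T i c * τ i ^ 2)
    (hcl : ∀ i, e • cl 1 + cls ((2 : Compl T i) • hk (g i)) + cls ((-2 : Compl T i) • hk1 (g i)) =
      WG.map (complEmb T i) (∑ j, cl (d j)))
    (U : ∀ i, Set (Fin (n + 1 + 1) → Compl T i)) (hU : ∀ i, U i ∈ 𝓝 (g i))
    (W : ∀ i, Set (Compl T i)) (hW : ∀ i, W i ∈ 𝓝 (τ i)) :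
    ∃ (G : Fin (n + 1 + 1) → k) (t : k), (hk G).det ≠ 0 ∧ t ≠ 0 ∧ cf G 0 = c * t ^ 2 ∧
      e • cl 1 + cls ((2 : k) • hk G) + cls ((-2 : k) • hk1 G) = ∑ j, cl (d j) ∧
      ∀ i, (fun j => complEmb T i (G j)) ∈ U i ∧ complEmb T i t ∈ W i := by
  have hce : ∀ i, complEmb T i c ≠ 0 := fun i => (map_ne_zero (complEmb T i)).2 hc0
  have hex := fun i => StO_locC T i h1n hev (hce i) (g i) (hgd i) (hτ0 i) (hτ i) (hU i) (hW i)
  choose g' η N1 N2 hN using hex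
  -- the number `b`
  have hb1 : ∀ i, {y : Compl T i | Function.update (g' i) 0 y ∈ N1 i ∧ y ≠ 0} ∈ 𝓝 (g' i 0) := by
    intro i
    obtain ⟨h1, h2, -, h4, -⟩ := hN i
    have h5 : ∀ᶠ y in 𝓝 (g' i 0), Function.update (g' i) 0 y ∈ N1 i := by
      have hcont : Continuous fun y : Compl T i => Function.update (g' i) 0 y :=
        continuous_const.update 0 continuous_id
      have h6 : N1 i ∈ 𝓝 (Function.update (g' i) 0 (g' i 0)) := by
        rw [Function.update_eq_self]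
        exact h1.mem_nhds h2
      exact hcont.continuousAt h6
    exact h5.and (eventually_ne_nhds h4)
  obtain ⟨b, hb⟩ := StO_wa T (fun i => g' i 0) _ hb1
  have hη1 : ∀ i, N2 i ∈ 𝓝 (η i) := fun i => (hN i).2.2.1
  obtain ⟨y, hy⟩ := StO_wa T η N2 hη1
  let i0 : InfinitePlace k ⊕ {v // v ∈ T} := Sum.inl (Classical.arbitrary (InfinitePlace k))
  have hb0 : b ≠ 0 := by
    intro h1
    apply (hb i0).2
    rw [h1, map_zero]
  -- the family `r`
  obtain ⟨r, hr0, hr, hrs, hrp⟩ := StO_fam e T d hd0 hd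
  obtain ⟨κ, G, hκ, hG0, hGd, hcore, hG⟩ := coreNF hHM h1n hev P hP hP2 hPn T hT hc0 hb0 hc
    (e := e) r hr0 hr hs (by rw [hrp, hdp]; ring)
    (fun i => Function.update (g' i) 0 (complEmb T i b))
    (fun i => Function.update_self 0 _ _)
    (fun i => ((hN i).2.2.2.2.2.2.1 _ (hb i).1).1)
    (fun i => by
      rw [((hN i).2.2.2.2.2.2.1 _ (hb i).1).2, ← (hN i).2.2.2.2.2.1, hrs, map_sub,
        ← hcl i, map_nsmul, WG.map_cl, map_one]
      abel)
    N1 (fun i => (hN i).1.mem_nhds (hb i).1)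
    (fun _ => Set.univ) (fun _ => Filter.univ_mem)
  have hGc : cf G 0 ≠ 0 := by
    rw [StO_cf, hG0]
    exact mul_ne_zero hb0 (pow_ne_zero 2 hκ)
  have hloc := fun i => (hN i).2.2.2.2.2.2.2 _ (hG i).1 _ (hy i)
  have hy0 : y ≠ 0 := by
    intro h1
    apply (hloc i0).2.2.1
    rw [h1, map_zero]
  refine StO_fin i0 (complEmb T) e c (∑ j, cl (d j)) U W G y hGd hGc hy0 hc0
    (hcore.trans hrs) fun i => ?_
  obtain ⟨-, -, -, h4, h5, h6, h7, h8⟩ := hloc i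
  exact ⟨h4, h5, h6, h7, h8⟩

end NF83
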