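import Pool.Agent.H.MP_83e36b_nt.hm.StE
import Pool.Agent.H.MP_83e36b_nt.hm.StO
import Pool.Agent.H.MP_83e36b_nt.rg.ZG

/-! Weak approximation for the polynomials with `cf g 0 = c t²` and a given class, over a number field, all
degrees, without a base point.

PROOF. Let `S`, `g`, `τ`, `U`, `W` be as in `StarP` for `plSys k T`. Choose a natural number `P ≠ 0`
divisible by `2`, by `m - 1` and by `m - 2` if it is not 0, such that `P ∈ v.asIdeal` for all `v ∈ T` and for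
all finite places `v` at which `c` or some `d i` is not a unit (finitely many places: `fin_nunit`, `exists_P` of KSa, which also gives `T'` = the finite set of the `v` with
`P ∈ v.asIdeal`, `T ⊆ T'`). At the places `i` of `InfinitePlace k ⊕ T'`: if `i` corresponds to an element
of `S`, use `g`, `τ`, `U`, `W` (for `v ∈ T` the field `Compl T' (inr ⟨v, _⟩)` is `v.adicCompletion k`, as is
`Compl T (inr ⟨v, _⟩)`), otherwise the local solution given by `hinf`, `hfin` with `U = W = univ`.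
Convenient: define the data as functions of `v : InfinitePlace k` and of `v : HeightOneSpectrum (𝓞 k)`.
Then `star_evenF` (`m = n + 1` even, `n = m - 1 ≥ 1`) or `star_oddF` (`m = n + 1 + 1` odd, `n = m - 2 ≥ 1`).
-/

set_option autoImplicit false

open Topology Matrix NumberField IsDedekindDomain AnWA SpinWA DC83

namespace NF83

/-- the existence of a solution -/
def LocSol (K : Type) [Field K] (m e : ℕ) (c : K) (R : WG K) : Prop :=
  ∃ (g : Fin m → K) (τ : K), (hk g).det ≠ 0 ∧ τ ≠ 0 ∧ cf g 0 = c * τ ^ 2 ∧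
    e • cl 1 + cls ((2 : K) • hk g) + cls ((-2 : K) • hk1 g) = R

variable {k : Type} [Field k] [NumberField k]

/-- a local solution with neighbourhoods -/
def StP_Dat (K : Type) [NormedField K] (φ : k →+* K) (m e : ℕ) (c : k) (R : WG k)
    (Q : (Fin m → k) → k → Prop) : Prop :=
  ∃ (g : Fin m → K) (τ : K) (U : Set (Fin m → K)) (W : Set K), (hk g).det ≠ 0 ∧ τ ≠ 0 ∧
    cf g 0 = φ c * τ ^ 2 ∧
    e • cl 1 + cls ((2 : K) • hk g) + cls ((-2 : K) • hk1 g) = WG.map φ R ∧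
    U ∈ 𝓝 g ∧ W ∈ 𝓝 τ ∧
    ∀ (G : Fin m → k) (t : k), (fun j => φ (G j)) ∈ U → φ t ∈ W → Q G t

/-- the wanted property at the places of `T'` -/
def StP_Q {m : ℕ} (T T' : Finset (HeightOneSpectrum (𝓞 k)))
    (S : Finset (InfinitePlace k ⊕ {v // v ∈ T})) (U : ∀ i, Set (Fin m → Compl T i))
    (W : ∀ i, Set (Compl T i)) :
    (i : InfinitePlace k ⊕ {v // v ∈ T'}) → (Fin m → k) → k → Prop
  | Sum.inl v => fun G t => Sum.inl v ∈ S →
      (fun j => complEmb T (Sum.inl v) (G j)) ∈ U (Sum.inl v) ∧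
        complEmb T (Sum.inl v) t ∈ W (Sum.inl v)
  | Sum.inr v => fun G t => ∀ h : v.1 ∈ T, Sum.inr ⟨v.1, h⟩ ∈ S →
      (fun j => complEmb T (Sum.inr ⟨v.1, h⟩) (G j)) ∈ U (Sum.inr ⟨v.1, h⟩) ∧
        complEmb T (Sum.inr ⟨v.1, h⟩) t ∈ W (Sum.inr ⟨v.1, h⟩)

omit [NumberField k] in
private theorem stP_dat_of_locSol {K : Type} [NormedField K] (φ : k →+* K) {m e : ℕ} {c : k}
    {R : WG k} (h : LocSol K m e (φ c) (WG.map φ R)) {Q : (Fin m → k) → k → Prop}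
    (hQ : ∀ G t, Q G t) : StP_Dat K φ m e c R Q := by
  obtain ⟨g, τ, h1, h2, h3, h4⟩ := h
  exact ⟨g, τ, Set.univ, Set.univ, h1, h2, h3, h4, Filter.univ_mem, Filter.univ_mem,
    fun G t _ _ => hQ G t⟩

private theorem stP_data {m e : ℕ} {c : k} {R : WG k}
    (hinf : ∀ v : InfinitePlace k, LocSol v.Completion m e (algebraMap k v.Completion c)
      (WG.map (algebraMap k v.Completion) R))
    (hfin : ∀ v : HeightOneSpectrum (𝓞 k),
      LocSol (v.adicCompletion k) m e (algebraMap k (v.adicCompletion k) c)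
        (WG.map (algebraMap k (v.adicCompletion k)) R))
    (T T' : Finset (HeightOneSpectrum (𝓞 k)))
    (S : Finset (InfinitePlace k ⊕ {v // v ∈ T}))
    (g : ∀ i, Fin m → Compl T i) (τ : ∀ i, Compl T i) (hgd : ∀ i ∈ S, (hk (g i)).det ≠ 0)
    (hτ0 : ∀ i ∈ S, τ i ≠ 0) (hτ : ∀ i ∈ S, cf (g i) 0 = complEmb T i c * τ i ^ 2)
    (hcl : ∀ i ∈ S, e • cl 1 + cls ((2 : Compl T i) • hk (g i)) +
      cls ((-2 : Compl T i) • hk1 (g i)) = WG.map (complEmb T i) R)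
    (U : ∀ i, Set (Fin m → Compl T i)) (hU : ∀ i ∈ S, U i ∈ 𝓝 (g i))
    (W : ∀ i, Set (Compl T i)) (hW : ∀ i ∈ S, W i ∈ 𝓝 (τ i))
    (i : InfinitePlace k ⊕ {v // v ∈ T'}) :
    StP_Dat (Compl T' i) (complEmb T' i) m e c R (StP_Q T T' S U W i) := by
  classical
  rcases i with v | v
  · by_cases h : Sum.inl v ∈ S
    · exact ⟨g (Sum.inl v), τ (Sum.inl v), U (Sum.inl v), W (Sum.inl v), hgd _ h, hτ0 _ h,
        hτ _ h, hcl _ h, hU _ h, hW _ h, fun G t h1 h2 _ => ⟨h1, h2⟩⟩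
    · exact stP_dat_of_locSol (K := v.Completion) (algebraMap k v.Completion) (hinf v)
        (fun G t h' => absurd h' h)
  · by_cases h : ∃ h : v.1 ∈ T, Sum.inr ⟨v.1, h⟩ ∈ S
    · obtain ⟨h', h⟩ := h
      exact ⟨g (Sum.inr ⟨v.1, h'⟩), τ (Sum.inr ⟨v.1, h'⟩), U (Sum.inr ⟨v.1, h'⟩),
        W (Sum.inr ⟨v.1, h'⟩), hgd _ h, hτ0 _ h, hτ _ h, hcl _ h, hU _ h, hW _ h,
        fun G t h1 h2 _ _ => ⟨h1, h2⟩⟩
    · exact stP_dat_of_locSol (K := v.1.adicCompletion k) (algebraMap k (v.1.adicCompletion k))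
        (hfin v.1) (fun G t h1 h2 => absurd ⟨h1, h2⟩ h)

private theorem stP_places {N : ℕ} (P0 : ℕ) (hP0 : P0 ≠ 0) {c : k} (hc : c ≠ 0) (d : Fin N → k)
    (hd : ∀ i, d i ≠ 0) (T : Finset (HeightOneSpectrum (𝓞 k))) :
    ∃ (P : ℕ) (T' : Finset (HeightOneSpectrum (𝓞 k))), P ≠ 0 ∧ P0 ∣ P ∧ T ⊆ T' ∧
      (∀ v, v ∈ T' ↔ (P : 𝓞 k) ∈ v.asIdeal) ∧
      (∀ v, v ∉ T' → ‖algebraMap k (v.adicCompletion k) c‖ = 1) ∧
      ∀ v, v ∉ T' → ∀ i, ‖algebraMap k (v.adicCompletion k) (d i)‖ = 1 := by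
  classical
  set F : Finset (HeightOneSpectrum (𝓞 k)) := T ∪ (fin_nunit c hc).toFinset ∪
    Finset.univ.biUnion (fun i => (fin_nunit (d i) (hd i)).toFinset) with hF
  obtain ⟨P, T', h1, h2, h3, h4⟩ := exists_P P0 hP0 F
  refine ⟨P, T', h1, h2, fun v hv => h3 ?_, h4, fun v hv => ?_, fun v hv i => ?_⟩
  · rw [hF]
    exact Finset.mem_union_left _ (Finset.mem_union_left _ hv)
  · by_contra h
    apply hv
    apply h3
    rw [hF]
    refine Finset.mem_union_left _ (Finset.mem_union_right _ ?_)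
    rw [Set.Finite.mem_toFinset]
    exact h
  · by_contra h
    apply hv
    apply h3
    rw [hF]
    refine Finset.mem_union_right _ (Finset.mem_biUnion.2 ⟨i, Finset.mem_univ i, ?_⟩)
    rw [Set.Finite.mem_toFinset]
    exact h

private theorem stP_fin {m : ℕ} {T T' : Finset (HeightOneSpectrum (𝓞 k))} (hTT : T ⊆ T')
    {S : Finset (InfinitePlace k ⊕ {v // v ∈ T})} {U : ∀ i, Set (Fin m → Compl T i)}
    {W : ∀ i, Set (Compl T i)} {G : Fin m → k} {t : k} (h : ∀ i, StP_Q T T' S U W i G t) :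
    ∀ i ∈ S, (fun j => complEmb T i (G j)) ∈ U i ∧ complEmb T i t ∈ W i := by
  intro i hi
  rcases i with v | ⟨v, hv⟩
  · exact h (Sum.inl v) hi
  · exact h (Sum.inr ⟨v, hTT hv⟩) hv hi

private theorem stP_key (hHM : HMiso k) {m e : ℕ} (hm : 2 ≤ m) {c : k} (hc : c ≠ 0)
    (d : Fin (2 * m + e) → k) (hd : ∀ i, d i ≠ 0) {s : k} (hs : s ≠ 0)
    (hdp : ∏ i, d i = c * s ^ 2)
    (hinf : ∀ v : InfinitePlace k, LocSol v.Completion m e (algebraMap k v.Completion c)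
      (WG.map (algebraMap k v.Completion) (∑ j, cl (d j))))
    (hfin : ∀ v : HeightOneSpectrum (𝓞 k),
      LocSol (v.adicCompletion k) m e (algebraMap k (v.adicCompletion k) c)
        (WG.map (algebraMap k (v.adicCompletion k)) (∑ j, cl (d j))))
    (T : Finset (HeightOneSpectrum (𝓞 k)))
    (S : Finset (InfinitePlace k ⊕ {v // v ∈ T}))
    (g : ∀ i, Fin m → Compl T i) (τ : ∀ i, Compl T i) (hgd : ∀ i ∈ S, (hk (g i)).det ≠ 0)
    (hτ0 : ∀ i ∈ S, τ i ≠ 0) (hτ : ∀ i ∈ S, cf (g i) 0 = complEmb T i c * τ i ^ 2)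
    (hcl : ∀ i ∈ S, e • cl 1 + cls ((2 : Compl T i) • hk (g i)) +
      cls ((-2 : Compl T i) • hk1 (g i)) = WG.map (complEmb T i) (∑ j, cl (d j)))
    (U : ∀ i, Set (Fin m → Compl T i)) (hU : ∀ i ∈ S, U i ∈ 𝓝 (g i))
    (W : ∀ i, Set (Compl T i)) (hW : ∀ i ∈ S, W i ∈ 𝓝 (τ i)) :
    ∃ (G : Fin m → k) (t : k), (hk G).det ≠ 0 ∧ t ≠ 0 ∧ cf G 0 = c * t ^ 2 ∧
      e • cl 1 + cls ((2 : k) • hk G) + cls ((-2 : k) • hk1 G) = ∑ j, cl (d j) ∧
      ∀ i ∈ S, (fun j => complEmb T i (G j)) ∈ U i ∧ complEmb T i t ∈ W i := by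
  obtain ⟨n, rfl⟩ : ∃ n, m = n + 1 := ⟨m - 1, by omega⟩
  by_cases hev : Even (n + 1)
  · obtain ⟨P, T', hP, hPP, hTT, hT', hcT, hdT⟩ := stP_places (2 * n) (by omega) hc d hd T
    have hdat := stP_data hinf hfin T T' S g τ hgd hτ0 hτ hcl U hU W hW
    unfold StP_Dat at hdat
    choose g' τ' U' W' h1 h2 h3 h4 h5 h6 h7 using hdat
    obtain ⟨G, t, e1, e2, e3, e4, e5⟩ := star_evenF hHM (by omega) hev e P hP
      (dvd_trans (Dvd.intro _ rfl) hPP) (dvd_trans (Dvd.intro_left _ rfl) hPP) T' hT' hc hcT d hd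
      hdT hs hdp g' τ' h1 h2 h3 h4 U' h5 W' h6
    exact ⟨G, t, e1, e2, e3, e4, stP_fin hTT fun i => h7 i G t (e5 i).1 (e5 i).2⟩
  · obtain ⟨n, rfl⟩ : ∃ n', n = n' + 1 := ⟨n - 1, by omega⟩
    have hev' : Even (n + 1) := by
      rw [Nat.even_add_one, not_not] at hev
      exact hev
    have h1n : 1 ≤ n := by
      rcases Nat.eq_zero_or_pos n with h0 | h0
      · exfalso
        rw [h0] at hev'
        revert hev'
        decide
      · exact h0
    obtain ⟨P, T', hP, hPP, hTT, hT', hcT, hdT⟩ := stP_places (2 * n) (by omega) hc d hd T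
    have hdat := stP_data hinf hfin T T' S g τ hgd hτ0 hτ hcl U hU W hW
    unfold StP_Dat at hdat
    choose g' τ' U' W' h1 h2 h3 h4 h5 h6 h7 using hdat
    obtain ⟨G, t, e1, e2, e3, e4, e5⟩ := star_oddF hHM h1n hev' e P hP
      (dvd_trans (Dvd.intro _ rfl) hPP) (dvd_trans (Dvd.intro_left _ rfl) hPP) T' hT' hc hcT d hd
      hdT hs hdp g' τ' h1 h2 h3 h4 U' h5 W' h6
    exact ⟨G, t, e1, e2, e3, e4, stP_fin hTT fun i => h7 i G t (e5 i).1 (e5 i).2⟩

theorem starP_nf (hHM : HMiso k) {m e : ℕ} (hm : 2 ≤ m) {c : k} (hc : c ≠ 0)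
    (d : Fin (2 * m + e) → k) (hd : ∀ i, d i ≠ 0) {s : k} (hs : s ≠ 0)
    (hdp : ∏ i, d i = c * s ^ 2)
    (hinf : ∀ v : InfinitePlace k, LocSol v.Completion m e (algebraMap k v.Completion c)
      (WG.map (algebraMap k v.Completion) (∑ j, cl (d j))))
    (hfin : ∀ v : HeightOneSpectrum (𝓞 k),
      LocSol (v.adicCompletion k) m e (algebraMap k (v.adicCompletion k) c)
        (WG.map (algebraMap k (v.adicCompletion k)) (∑ j, cl (d j))))
    (T : Finset (HeightOneSpectrum (𝓞 k))) :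
    @StarP k _ (plSys k T) m e c (∑ j, cl (d j)) := by
  intro S _ g τ hgd hτ0 hτ hcl U hU W hW
  exact stP_key hHM hm hc d hd hs hdp hinf hfin T S g τ hgd hτ0 hτ hcl U hU W hW

end NF83
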