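import Pool.Agent.H.MP_83e36b_nt.hm.StP
import Pool.Agent.H.MP_83e36b_nt.td.LocEx
import Pool.Agent.H.MP_83e36b_nt.sp.XLoc

/-! The class of a form in `2 m + e ≥ 4` variables over a complete field with `U5` is locally solvable.

PROOF. `loc_ex` (td/LocEx) with `m = 0` (`J = Q`, `H` the empty matrix, `cls H = 0`) gives `a` with
`cls (hk a) = cls Q`, `det (hk a) ≠ 0`. `cong_of_cls`: `Cong Q (hk a)`: `B`, `Bᵀ Q B = hk a`, `det B ≠ 0`. `x_loc` (sp/XLoc) for
`x = (a, B)`, `U = univ`, `φ = Rat.castHom K`: `g`, `C` with `Cᵀ Q C = gamM (dbl e g)`, `det C ≠ 0`. Then, as in the proof of `z_waG` (rg/ZG.lean) or of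
`exists_Q` (td/ExQ.lean): `det_gam`, `τ = det C / (2 ^ m * (hk g).det * cf g 0 ^ e)`, `cls_gam`, `cls_cong`.
-/

set_option autoImplicit false

open Topology Matrix NumberField IsDedekindDomain AnWA SpinWA DC83

namespace NF83

/-- a form congruent to a trace form is locally solvable -/
theorem locSol_hk {K : Type} [NontriviallyNormedField K] [CompleteSpace K] [CharZero K] {m e : ℕ}
    (he : e ≤ 1) {Q : Matrix (Fin (2 * m + e)) (Fin (2 * m + e)) K} (hQ : Qᵀ = Q)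
    (hd : Q.det ≠ 0) (a : Fin (2 * m + e) → K) (ha : Cong Q (hk a)) :
    LocSol K m e Q.det (cls Q) := by
  have h2 : (2 : K) ≠ 0 := two_ne_zero
  obtain ⟨B, hBd, hB⟩ := ha
  obtain ⟨g, y, C, hC, hCd, -⟩ := x_loc (Rat.castHom K) he hQ hd
    ((a, B) : (Fin (2 * m + e) → K) × Matrix (Fin (2 * m + e)) (Fin (2 * m + e)) K)
    hB hBd (U := Set.univ) Filter.univ_mem
  have hdet : (2 ^ m * (hk g).det * cf g 0 ^ e) ^ 2 * cf g 0 = C.det ^ 2 * Q.det := by
    rw [← det_gam he, ← hC, Matrix.det_mul, Matrix.det_mul, Matrix.det_transpose]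
    ring
  have hne : (2 ^ m * (hk g).det * cf g 0 ^ e) ^ 2 * cf g 0 ≠ 0 := by
    rw [hdet]
    exact mul_ne_zero (pow_ne_zero _ hCd) hd
  have hg0 : cf g 0 ≠ 0 := fun h => hne (by rw [h, mul_zero])
  have hgd : (hk g).det ≠ 0 := fun h => hne (by rw [h]; ring)
  have hD : 2 ^ m * (hk g).det * cf g 0 ^ e ≠ 0 :=
    mul_ne_zero (mul_ne_zero (pow_ne_zero _ h2) hgd) (pow_ne_zero _ hg0)
  have hDτ : 2 ^ m * (hk g).det * cf g 0 ^ e * (C.det / (2 ^ m * (hk g).det * cf g 0 ^ e)) =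
      C.det := by
    rw [mul_comm, div_mul_cancel₀ _ hD]
  refine ⟨g, C.det / (2 ^ m * (hk g).det * cf g 0 ^ e), hgd, div_ne_zero hCd hD, ?_, ?_⟩
  · generalize C.det / (2 ^ m * (hk g).det * cf g 0 ^ e) = τ at hDτ
    have h1 := hdet
    rw [← hDτ] at h1
    have h3 : (2 ^ m * (hk g).det * cf g 0 ^ e) ^ 2 ≠ 0 := pow_ne_zero _ hD
    apply mul_left_cancel₀ h3
    rw [h1]
    ring
  · rw [← cls_gam he g hgd hg0]
    exact (cls_cong h2 hQ hd ⟨C, hCd, hC⟩).symm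

theorem locSol_u5 {K : Type} [NontriviallyNormedField K] [CompleteSpace K] [CharZero K]
    (hu : U5 K) {m e : ℕ} (hm : 2 ≤ m) (he : e ≤ 1)
    {Q : Matrix (Fin (2 * m + e)) (Fin (2 * m + e)) K} (hQ : Qᵀ = Q) (hd : Q.det ≠ 0) :
    LocSol K m e Q.det (cls Q) := by
  have h2 : (2 : K) ≠ 0 := two_ne_zero
  obtain ⟨a, had, hcl⟩ := loc_ex hu (n := 2 * m + e) (m := 0) (by omega) (J := Q) hQ hd
    (H := (1 : Matrix (Fin 0) (Fin 0) K)) Matrix.transpose_one (by rw [Matrix.det_one]; exact one_ne_zero)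
  have h0 : cls (1 : Matrix (Fin 0) (Fin 0) K) = 0 := by
    rw [← Matrix.diagonal_one, cls_diagonal h2 (fun _ => one_ne_zero), Finset.sum_const,
      Finset.card_univ, Fintype.card_fin, zero_nsmul]
  rw [h0, add_zero] at hcl
  exact locSol_hk he hQ hd a (cong_of_cls h2 hQ hd (hk_transpose a) had hcl.symm)

end NF83
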