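import Pool.Agent.H.MP_83e36b_nt.hm.Un

/-!
# Squares in the group of S-units
-/

set_option autoImplicit false

namespace NF83

open NumberField NumberField.Units IsDedekindDomain nonZeroDivisors

variable {K : Type*} [Field K] [NumberField K]

theorem mem_unit_iff {S : Set (HeightOneSpectrum (𝓞 K))} {x : Kˣ} :
    x ∈ S.unit K ↔ ∀ v ∉ S, v.valuationOfNeZero x = 1 := by
  have h : x ∈ S.unit K ↔ ∀ v ∉ S, v.valuation K (x : K) = 1 := Iff.rfl
  rw [h]
  refine forall₂_congr fun v _ => ?_
  rw [← HeightOneSpectrum.valuationOfNeZero_eq, ← WithZero.coe_one, WithZero.coe_inj]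

theorem vnz_of {v : HeightOneSpectrum (𝓞 K)} {x : Kˣ} {r : 𝓞 K} (hx : (x : K) = r) :
    v.valuationOfNeZero x = 1 ↔ r ∉ v.asIdeal := by
  rw [← HeightOneSpectrum.valuation_eq_one_iff_notMem (K := K), ← WithZero.coe_inj,
    WithZero.coe_one, HeightOneSpectrum.valuationOfNeZero_eq, hx]

theorem exists_pi (v : HeightOneSpectrum (𝓞 K)) : ∃ x : Kˣ, v.valuationOfNeZero x ≠ 1 ∧
    ∀ w : HeightOneSpectrum (𝓞 K), w ≠ v → w.valuationOfNeZero x = 1 := by
  have hI : v.asIdeal ∈ (Ideal (𝓞 K))⁰ := mem_nonZeroDivisors_of_ne_zero v.ne_bot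
  obtain ⟨h, hh⟩ : ∃ h, h = Fintype.card (ClassGroup (𝓞 K)) := ⟨_, rfl⟩
  have h0 : 0 < h := by
    rw [hh]
    exact Fintype.card_pos
  have h1 : ClassGroup.mk0 (⟨v.asIdeal, hI⟩ : (Ideal (𝓞 K))⁰) ^ h = 1 := by
    rw [hh]
    exact pow_card_eq_one
  rw [← map_pow] at h1
  have h2 : (v.asIdeal ^ h).IsPrincipal :=
    (ClassGroup.mk0_eq_one_iff (pow_mem hI h)).1 h1
  obtain ⟨π, hπ⟩ := h2
  have hπ' : v.asIdeal ^ h = Ideal.span {π} := hπ
  have hπ0 : π ≠ 0 := by
    rintro rfl
    rw [Set.singleton_zero, Ideal.span_zero] at hπ'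
    exact v.ne_bot (pow_eq_zero_iff h0.ne' |>.1 hπ')
  have hπK : ((π : 𝓞 K) : K) ≠ 0 := by
    intro h3
    exact hπ0 (RingOfIntegers.ext (by rw [h3]; rfl))
  refine ⟨Units.mk0 (π : K) hπK, ?_, ?_⟩
  · rw [Ne, vnz_of (r := π) rfl, not_not]
    have h3 : π ∈ v.asIdeal ^ h := by
      rw [hπ']
      exact Ideal.mem_span_singleton_self π
    exact Ideal.pow_le_self h0.ne' h3
  · intro w hw
    rw [vnz_of (r := π) rfl]
    intro h3
    apply hw
    have h4 : v.asIdeal ^ h ≤ w.asIdeal := by
      rw [hπ', Ideal.span_singleton_le_iff_mem]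
      exact h3
    have h5 : v.asIdeal ≤ w.asIdeal := w.isPrime.le_of_pow_le h4
    exact HeightOneSpectrum.ext (v.isMaximal.eq_of_le w.isPrime.ne_top h5).symm

theorem sqi_sunits (S : Finset (HeightOneSpectrum (𝓞 K))) :
    sqi ((S : Set (HeightOneSpectrum (𝓞 K))).unit K) =
      2 ^ (Fintype.card (InfinitePlace K) + S.card) := by
  classical
  induction S using Finset.induction_on with
  | empty =>
    rw [Finset.card_empty, add_zero, ← sqi_units]
    let φ : (𝓞 K)ˣ →* ((∅ : Finset (HeightOneSpectrum (𝓞 K))) :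
        Set (HeightOneSpectrum (𝓞 K))).unit K :=
      { toFun := fun x => ⟨Units.map (algebraMap (𝓞 K) K : 𝓞 K →* K) x,
          mem_unit_iff.2 fun v _ => HeightOneSpectrum.valuation_of_unit_eq v x⟩
        map_one' := by
          apply Subtype.ext
          exact map_one _
        map_mul' := fun x y => by
          apply Subtype.ext
          exact map_mul _ _ _ }
    refine (sqi_congr (MulEquiv.ofBijective φ ⟨?_, ?_⟩)).symm
    · intro x y h
      have h1 := congrArg Units.val (congrArg Subtype.val h)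
      exact Units.ext (RingOfIntegers.ext h1)
    · rintro ⟨x, hx⟩
      have h1 : ∀ v : HeightOneSpectrum (𝓞 K), v.valuation K (x : K) = 1 := fun v =>
        hx v (by simp)
      obtain ⟨r, hr⟩ := HeightOneSpectrum.mem_integers_of_valuation_le_one K (x : K)
        fun v => (h1 v).le
      obtain ⟨t, ht⟩ := HeightOneSpectrum.mem_integers_of_valuation_le_one K ((x⁻¹ : Kˣ) : K)
        fun v => by
          rw [Units.val_inv_eq_inv_val, map_inv₀, h1, inv_one]
      refine ⟨⟨r, t, ?_, ?_⟩, ?_⟩
      · apply RingOfIntegers.ext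
        have : (r : K) * (t : K) = 1 := by
          have e1 : (r : K) = x := hr
          have e2 : (t : K) = ((x⁻¹ : Kˣ) : K) := ht
          rw [e1, e2, Units.mul_inv]
        exact_mod_cast this
      · apply RingOfIntegers.ext
        have : (t : K) * (r : K) = 1 := by
          have e1 : (r : K) = x := hr
          have e2 : (t : K) = ((x⁻¹ : Kˣ) : K) := ht
          rw [e1, e2, Units.inv_mul]
        exact_mod_cast this
      · apply Subtype.ext
        apply Units.ext
        exact hr
  | insert v S hv ih =>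
    rw [Finset.card_insert_of_notMem hv, ← add_assoc, pow_succ', ← ih]
    let f : ((insert v S : Finset (HeightOneSpectrum (𝓞 K))) :
        Set (HeightOneSpectrum (𝓞 K))).unit K →* Multiplicative ℤ :=
      v.valuationOfNeZero.comp (Subgroup.subtype _)
    obtain ⟨x, hx1, hx2⟩ := exists_pi v
    have hx : x ∈ ((insert v S : Finset (HeightOneSpectrum (𝓞 K))) :
        Set (HeightOneSpectrum (𝓞 K))).unit K := by
      rw [mem_unit_iff]
      intro w hw
      apply hx2
      rintro rfl
      exact hw (by simp)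
    rw [sqi_step f (g := ⟨x, hx⟩) hx1]
    congr 1
    let φ : f.ker →* (S : Set (HeightOneSpectrum (𝓞 K))).unit K :=
      { toFun := fun y => ⟨((y : _) : Kˣ), by
          rw [mem_unit_iff]
          intro w hw
          by_cases hwv : w = v
          · rw [hwv]
            exact y.2
          · refine mem_unit_iff.1 y.1.2 w ?_
            rw [Finset.coe_insert, Set.mem_insert_iff]
            rintro (h | h)
            · exact hwv h
            · exact hw h⟩
        map_one' := rfl
        map_mul' := fun _ _ => rfl }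
    refine sqi_congr (MulEquiv.ofBijective φ ⟨?_, ?_⟩)
    · intro a b h
      have h1 := congrArg Subtype.val h
      exact Subtype.ext (Subtype.ext h1)
    · rintro ⟨y, hy⟩
      rw [mem_unit_iff] at hy
      refine ⟨⟨⟨y, mem_unit_iff.2 fun w hw => hy w fun h => hw ?_⟩, hy v ?_⟩, rfl⟩
      · rw [Finset.coe_insert]
        exact Set.mem_insert_of_mem _ h
      · exact fun h => hv (by exact_mod_cast h)

end NF83
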