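import Pool.Agent.H.MP_83e36b_nt.hm.Sq

/-!
# Squares in the group of S-units
-/

set_option autoImplicit false

namespace NF83

open NumberField NumberField.Units IsDedekindDomain

variable (K : Type*) [Field K] [NumberField K]

theorem sqi_torsion : sqi (torsion K) = 2 := by
  unfold sqi
  rw [IsCyclic.index_powMonoidHom_range]
  exact Nat.gcd_eq_right (even_iff_two_dvd.1 (even_torsionOrder K))

theorem sqi_units : sqi (𝓞 K)ˣ = 2 ^ Fintype.card (InfinitePlace K) := by
  let φ : torsion K × (Fin (rank K) → Multiplicative ℤ) →* (𝓞 K)ˣ :=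
    { toFun := fun x => (x.1 : (𝓞 K)ˣ) * ∏ i, fundSystem K i ^ (Multiplicative.toAdd (x.2 i))
      map_one' := by simp
      map_mul' := fun x y => by
        have h : ∀ i, fundSystem K i ^ (Multiplicative.toAdd ((x * y).2 i)) =
            fundSystem K i ^ (Multiplicative.toAdd (x.2 i)) *
              fundSystem K i ^ (Multiplicative.toAdd (y.2 i)) := by
          intro i
          rw [← zpow_add]
          rfl
        simp only [h]
        rw [Finset.prod_mul_distrib, mul_mul_mul_comm]
        rfl }
  have hφ : Function.Bijective φ := by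
    constructor
    · rintro ⟨ζ, e⟩ ⟨ζ', e'⟩ h
      obtain ⟨w, -, hu⟩ := exist_unique_eq_mul_prod K (φ (ζ, e))
      have h1 := hu (ζ, fun i => Multiplicative.toAdd (e i)) rfl
      have h2 := hu (ζ', fun i => Multiplicative.toAdd (e' i)) h
      have h3 := h1.trans h2.symm
      refine Prod.ext (congrArg Prod.fst h3) (funext fun i => ?_)
      exact Multiplicative.toAdd.injective (congrFun (congrArg Prod.snd h3) i)
    · intro x
      obtain ⟨⟨ζ, e⟩, h, -⟩ := exist_unique_eq_mul_prod K x
      exact ⟨(ζ, fun i => Multiplicative.ofAdd (e i)), h.symm⟩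
  rw [← sqi_congr (MulEquiv.ofBijective φ hφ), sqi_prod, sqi_torsion, sqi_pi, sqi_int,
    Fintype.card_fin, ← pow_succ']
  congr 1
  unfold rank
  exact Nat.sub_add_cancel Fintype.card_pos

end NF83
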