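import Pool.Agent.H.MP_83e36b_nt.sp.TDef

/-!
# The variety of polynomials with a basis of prescribed trace form, over a field

For a symmetric invertible matrix `Q` of size `n` over a field `k` let `X_Q` be the variety of pairs
`(f, B)`, where `f = X^n + a_{n-1} X^(n-1) + ... + a_0` is a monic polynomial of degree `n` and `B` is an
invertible matrix of size `n` with `Bᵀ Q B` = the matrix of the trace form `Tr (u v)` of the algebra
`K[X]/(f)` in the basis `1, x, ..., x^(n-1)`.
-/

set_option autoImplicit false

open Polynomial Matrix SpinWA

namespace NF83

/-- The points with coordinates in the field `K`, an extension of `k` by `φ`, of the variety `X_Q` of the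
pairs `(f, B)`, `f = X^n + a_{n-1} X^(n-1) + ... + a_0`, `B` an invertible matrix with
`Bᵀ Q B` = matrix of the trace form of `K[X]/(f)`: the set of the pairs `((a_0, ..., a_{n-1}), B)`.
If `K` is a topological field it carries the subspace topology. -/
def XTrF {k : Type*} [Field k] {n : ℕ} (Q : Matrix (Fin n) (Fin n) k) {K : Type*} [Field K]
    (φ : k →+* K) : Set ((Fin n → K) × Matrix (Fin n) (Fin n) K) :=
  {x | x.2ᵀ * Q.map φ * x.2 = trForm x.1 ∧ IsUnit x.2.det}

end NF83
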