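import Pool.Agent.H.MP_83e36b_nt.hm.XDef
import Pool.Agent.H.MP_83e36b_nt.hm.StQ
import Pool.Agent.H.MP_83e36b_nt.tn.XU
import Pool.Agent.H.MP_83e36b_nt.sp.TrF
import Pool.Agent.H.MP_83e36b_nt.sp.Final

/-!
# Weak approximation for the variety `X_Q` over a number field
-/

set_option autoImplicit false

open Polynomial Matrix Topology SpinWA NumberField IsDedekindDomain AnWA

namespace NF83

theorem trForm_mapF {k K : Type*} [Field k] [Field K] (φ : k →+* K) {n : ℕ} (a : Fin n → k) :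
    (trForm a).map φ = trForm fun i => φ (a i) := by
  rw [trForm_eq_hk, trForm_eq_hk, hk_map]

/-- The map `X_Q(k) → X_Q(K)` for an extension `φ : k → K` of fields. -/
noncomputable def mapXF {k : Type*} [Field k] {n : ℕ} {Q : Matrix (Fin n) (Fin n) k}
    {K : Type*} [Field K] (φ : k →+* K) (x : XTrF Q (RingHom.id k)) : XTrF Q φ :=
  ⟨((fun i => φ (x.1.1 i)), x.1.2.map φ), by
    obtain ⟨h1, h2⟩ := x.2
    refine ⟨?_, ?_⟩
    · show (x.1.2.map φ)ᵀ * Q.map φ * x.1.2.map φ = trForm fun i => φ (x.1.1 i)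
      have h3 : Q.map (RingHom.id k) = Q := by
        ext i j
        rfl
      rw [← trForm_mapF, ← h1, h3, Matrix.map_mul, Matrix.map_mul, Matrix.transpose_map]
    · show IsUnit (x.1.2.map φ).det
      have h3 : (x.1.2.map φ).det = φ x.1.2.det := by
        rw [RingHom.map_det]; rfl
      rw [h3]
      exact h2.map _⟩

theorem dense_XTrF {k : Type} [Field k] [NumberField k] (hHM : HMiso k) {n : ℕ} (hn : 4 ≤ n)
    {Q : Matrix (Fin n) (Fin n) k} (hQ : Qᵀ = Q) (hd : Q.det ≠ 0)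
    (T : Finset (HeightOneSpectrum (𝓞 k))) :
    DenseRange (fun x : XTrF Q (RingHom.id k) =>
      ((fun v : InfinitePlace k => mapXF (algebraMap k v.Completion) x),
       (fun v : T => mapXF (algebraMap k (v.1.adicCompletion k)) x))) := by
  obtain ⟨m, e, he, hm, rfl⟩ : ∃ m e : ℕ, e ≤ 1 ∧ 2 ≤ m ∧ n = 2 * m + e :=
    ⟨n / 2, n % 2, by omega, by omega, by omega⟩
  letI iP : PlSys k := plSys k T
  haveI : Finite (Pk k) := inferInstanceAs (Finite (InfinitePlace k ⊕ {v // v ∈ T}))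
  rintro ⟨xr, xp⟩
  rw [mem_closure_iff_nhds]
  intro t ht
  rw [nhds_prod_eq, Filter.mem_prod_iff] at ht
  obtain ⟨t1, ht1, t2, ht2, ht12⟩ := ht
  rw [nhds_pi, Filter.mem_pi] at ht1 ht2
  obtain ⟨I1, -, s1, hs1, hst1⟩ := ht1
  obtain ⟨I2, -, s2, hs2, hst2⟩ := ht2
  have hs1' : ∀ v, ∃ u ∈ 𝓝 (xr v).1, Subtype.val ⁻¹' u ⊆ s1 v := fun v =>
    (mem_nhds_subtype _ _ _).1 (hs1 v)
  have hs2' : ∀ v, ∃ u ∈ 𝓝 (xp v).1, Subtype.val ⁻¹' u ⊆ s2 v := fun v =>
    (mem_nhds_subtype _ _ _).1 (hs2 v)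
  choose u1 hu1 hus1 using hs1'
  choose u2 hu2 hus2 using hs2'
  let Y : ∀ v : Pk k, (Fin (2 * m + e) → Cp v) ×
      Matrix (Fin (2 * m + e)) (Fin (2 * m + e)) (Cp v) := fun v =>
    match v with
    | Sum.inl w => (xr w).1
    | Sum.inr w => (xp w).1
  let U : ∀ v : Pk k, Set ((Fin (2 * m + e) → Cp v) ×
      Matrix (Fin (2 * m + e)) (Fin (2 * m + e)) (Cp v)) := fun v =>
    match v with
    | Sum.inl w => u1 w
    | Sum.inr w => u2 w
  obtain ⟨a, B, hB, hBd, hU⟩ := x_waU he hQ hd (star_nf hHM T hm he hQ hd) Y (fun v => by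
      match v with
      | Sum.inl w =>
        obtain ⟨h1, h2⟩ := (xr w).2
        refine ⟨?_, ?_⟩
        · rw [← trForm_eq_hk]
          exact h1
        · exact h2.ne_zero
      | Sum.inr w =>
        obtain ⟨h1, h2⟩ := (xp w).2
        refine ⟨?_, ?_⟩
        · rw [← trForm_eq_hk]
          exact h1
        · exact h2.ne_zero) U (fun v => by
      match v with
      | Sum.inl w => exact hu1 w
      | Sum.inr w => exact hu2 w)
  have hx : (a, B) ∈ XTrF Q (RingHom.id k) := by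
    refine ⟨?_, isUnit_iff_ne_zero.2 hBd⟩
    rw [trForm_eq_hk]
    have : Q.map (RingHom.id k) = Q := by
      ext i j
      rfl
    rw [this]
    exact hB
  refine ⟨_, ht12 (Set.mem_prod.2 ⟨hst1 ?_, hst2 ?_⟩), ⟨⟨(a, B), hx⟩, rfl⟩⟩
  · intro w _
    exact hus1 w (hU (Sum.inl w))
  · intro w _
    exact hus2 w (hU (Sum.inr w))

end NF83
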